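import Pool.Agent.Helper52.NG.Sum

/-!
# AES-Frq: a divergent sum gives dense boxes

A box with at least `4^j/j²` points exists for infinitely many `j`.
-/

set_option autoImplicit false

namespace Pool.Agent.AES

theorem frq (A : Set (ℕ × ℕ)) (hA : ∀ p ∈ A, 0 < p.1 ∧ 0 < p.2)
    (hs : ¬ Summable (fun p : A => 1 / ((p.1.1 : ℝ) ^ 2 + (p.1.2 : ℝ) ^ 2))) (c : ℝ) (hc : 0 < c)
    (N₀ : ℕ) : ∃ N : ℕ, N₀ ≤ N ∧ (N : ℝ) ^ 2 * Real.exp (-(c * Real.sqrt (Real.log N))) ≤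
      ((A ∩ Set.Icc 1 N ×ˢ Set.Icc 1 N).ncard : ℝ) := by
  have hl2 : 0 < Real.log 2 := Real.log_pos (by norm_num)
  obtain ⟨a, ha⟩ : ∃ a : ℝ, a = c * Real.sqrt (Real.log 2) := ⟨_, rfl⟩
  have ha0 : 0 < a := by
    rw [ha]
    exact mul_pos hc (Real.sqrt_pos.mpr hl2)
  have hsum : Summable (fun j : ℕ => 1 / (j : ℝ) ^ 2) := Real.summable_one_div_nat_pow.mpr (by norm_num)
  have hs1 : ¬ Summable (fun p : A => 1 / ((p.1.1 : ℝ) ^ 2 + (p.1.2 : ℝ) ^ 2) ^ (1 : ℝ)) := by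
    simp only [Real.rpow_one]
    exact hs
  obtain ⟨j, hj, hcard⟩ := Pool.Agent.Helper52.NG.freq A hA 1 (by norm_num) le_rfl
    (fun j : ℕ => 1 / (j : ℝ) ^ 2) (fun j => by positivity) hsum hs1
    (max (max N₀ 1) ⌈(120 / a ^ 5) ^ 2⌉₊)
  have hjN : N₀ ≤ j := ((le_max_left _ _).trans (le_max_left _ _)).trans hj
  have hj1 : 1 ≤ j := ((le_max_right _ _).trans (le_max_left _ _)).trans hj
  have hjc : ⌈(120 / a ^ 5) ^ 2⌉₊ ≤ j := (le_max_right _ _).trans hj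
  have hjr : (0 : ℝ) < j := by exact_mod_cast hj1
  rw [Real.rpow_one] at hcard
  refine ⟨2 ^ j, hjN.trans (Nat.lt_two_pow_self).le, ?_⟩
  -- the exponential factor
  have hlog : Real.sqrt (Real.log ((2 ^ j : ℕ) : ℝ)) = Real.sqrt j * Real.sqrt (Real.log 2) := by
    push_cast
    rw [Real.log_pow, Real.sqrt_mul (Nat.cast_nonneg j)]
  have hsq : 120 / a ^ 5 ≤ Real.sqrt j := by
    apply Real.le_sqrt_of_sq_le
    exact (Nat.le_ceil _).trans (by exact_mod_cast hjc)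
  have hexp : (j : ℝ) ^ 2 ≤ Real.exp (a * Real.sqrt j) := by
    have h0 : 0 ≤ a * Real.sqrt j := by positivity
    have h1 := Real.pow_div_factorial_le_exp (a * Real.sqrt j) h0 5
    have h2 : ((Nat.factorial 5 : ℕ) : ℝ) = 120 := by norm_num [Nat.factorial]
    rw [h2] at h1
    refine le_trans ?_ h1
    rw [le_div_iff₀ (by norm_num)]
    have h3 : Real.sqrt j ^ 2 = j := Real.sq_sqrt hjr.le
    have h4 : (a * Real.sqrt j) ^ 5 = (a ^ 5 * Real.sqrt j) * (j : ℝ) ^ 2 := by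
      calc (a * Real.sqrt j) ^ 5 = (a ^ 5 * Real.sqrt j) * (Real.sqrt j ^ 2) ^ 2 := by ring
        _ = _ := by rw [h3]
    rw [h4]
    rw [div_le_iff₀ (by positivity)] at hsq
    have h5 : 120 ≤ a ^ 5 * Real.sqrt j := by linarith
    have h6 : (0 : ℝ) ≤ (j : ℝ) ^ 2 := by positivity
    nlinarith
  have h7 : Real.exp (-(c * Real.sqrt (Real.log ((2 ^ j : ℕ) : ℝ)))) ≤ 1 / (j : ℝ) ^ 2 := by
    have h8 : c * Real.sqrt (Real.log ((2 ^ j : ℕ) : ℝ)) = a * Real.sqrt j := by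
      rw [hlog, ha]
      ring
    rw [h8, Real.exp_neg, ← one_div]
    exact one_div_le_one_div_of_le (by positivity) hexp
  have h9 : ((Pool.Agent.Helper52.NG.bx A j).card : ℝ) ≤
      ((A ∩ Set.Icc 1 (2 ^ j) ×ˢ Set.Icc 1 (2 ^ j)).ncard : ℝ) := by
    rw [← Set.ncard_coe_finset]
    have hfin : (A ∩ Set.Icc 1 (2 ^ j) ×ˢ Set.Icc 1 (2 ^ j)).Finite :=
      ((Set.finite_Icc 1 (2 ^ j)).prod (Set.finite_Icc 1 (2 ^ j))).subset Set.inter_subset_right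
    have hsub : ((Pool.Agent.Helper52.NG.bx A j : Finset (ℕ × ℕ)) : Set (ℕ × ℕ)) ⊆
        A ∩ Set.Icc 1 (2 ^ j) ×ˢ Set.Icc 1 (2 ^ j) := by
      intro z hz
      have hz' := Finset.mem_coe.mp hz
      have h10 := Finset.mem_product.mp (Pool.Agent.Helper52.NG.bx_sub A j hz')
      exact ⟨Pool.Agent.Helper52.NG.bx_mem hz', ⟨Finset.mem_Icc.mp h10.1, Finset.mem_Icc.mp h10.2⟩⟩
    exact_mod_cast Set.ncard_le_ncard hsub hfin
  calc ((2 ^ j : ℕ) : ℝ) ^ 2 * Real.exp (-(c * Real.sqrt (Real.log ((2 ^ j : ℕ) : ℝ))))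
      ≤ ((2 ^ j : ℕ) : ℝ) ^ 2 * (1 / (j : ℝ) ^ 2) := mul_le_mul_of_nonneg_left h7 (by positivity)
    _ = 1 / (j : ℝ) ^ 2 * ((2 : ℝ) ^ j) ^ 2 := by
        push_cast
        ring
    _ ≤ ((Pool.Agent.Helper52.NG.bx A j).card : ℝ) := hcard.le
    _ ≤ _ := h9

end Pool.Agent.AES
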