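import Pool.Agent.AES.Defs

/-!
# AES-Hom: from shapes in the unit cube to all shapes
-/

set_option autoImplicit false

open MeasureTheory

namespace Pool.Agent.AES

theorem HasCopy.mono {A B : Set (ℕ × ℕ)} {ε ε' d₀ d₁ : ℝ} {n : ℕ} {u v : Fin n → ℝ}
    (h : HasCopy A ε d₀ u v) (hAB : A ⊆ B) (hε : ε ≤ ε') (hd : d₁ ≤ d₀) : HasCopy B ε' d₁ u v := by
  obtain ⟨d, s, t, hdd, x, y, h1, h2, h3⟩ := h
  exact ⟨d, s, t, hd.trans hdd, x, y, fun i j => hAB (h1 i j), fun i => (h2 i).trans hε,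
    fun j => (h3 j).trans hε⟩

private theorem hom_null {ι : Type} [Fintype ι] {r : ℝ} (hr : r ≠ 0) (c : ι → ℝ) {T : Set (ι → ℝ)}
    (hT : volume T = 0) : volume ((fun p : ι → ℝ => r • p + c) ⁻¹' T) = 0 := by
  have h1 : (fun p : ι → ℝ => r • p + c) ⁻¹' T =
      (fun p : ι → ℝ => r • p) ⁻¹' ((fun p : ι → ℝ => p + c) ⁻¹' T) := rfl
  rw [h1, Measure.addHaar_preimage_smul _ hr, measure_preimage_add_right, hT, mul_zero]

private theorem hom_cube (A : Set (ℕ × ℕ)) (n : ℕ)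
    (h : ∀ ε : ℝ, 0 < ε → ∀ d₀ : ℝ, volume {p : Fin n ⊕ Fin n → ℝ |
      p ∈ Set.Icc (0 : Fin n ⊕ Fin n → ℝ) 1 ∧
        ¬ HasCopy A ε d₀ (fun i => p (Sum.inl i)) (fun j => p (Sum.inr j))} = 0)
    {ε d₀ K : ℝ} (hε : 0 < ε) (hK : 0 < K) :
    volume {p : Fin n ⊕ Fin n → ℝ | (∀ i, |p i| ≤ K) ∧
        ¬ HasCopy A ε d₀ (fun i => p (Sum.inl i)) (fun j => p (Sum.inr j))} = 0 := by
  have hr : (1 / (2 * K)) ≠ 0 := by positivity
  refine measure_mono_null ?_ (hom_null hr (fun _ => 1 / 2) (h ε hε (2 * K * d₀)))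
  rintro p ⟨hp, hc⟩
  refine ⟨⟨fun i => ?_, fun i => ?_⟩, fun hq => hc ?_⟩
  · show 0 ≤ 1 / (2 * K) * p i + 1 / 2
    have h1 := (abs_le.1 (hp i)).1
    have h2 : 1 / (2 * K) * (-K) ≤ 1 / (2 * K) * p i :=
      mul_le_mul_of_nonneg_left h1 (by positivity)
    have h3 : 1 / (2 * K) * (-K) = -(1 / 2) := by field_simp
    linarith
  · show 1 / (2 * K) * p i + 1 / 2 ≤ 1
    have h1 := (abs_le.1 (hp i)).2
    have h2 : 1 / (2 * K) * p i ≤ 1 / (2 * K) * K :=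
      mul_le_mul_of_nonneg_left h1 (by positivity)
    have h3 : 1 / (2 * K) * K = 1 / 2 := by field_simp
    linarith
  · obtain ⟨d, s, t, hd, x, y, h1, h2, h3⟩ := hq
    refine ⟨d / (2 * K), s + d / 2, t + d / 2, ?_, x, y, h1, fun i => ?_, fun j => ?_⟩
    · rw [le_div_iff₀ (by positivity)]
      linarith
    · have h4 : |(x i : ℝ) - (s + d * (1 / (2 * K) * p (Sum.inl i) + 1 / 2))| ≤ ε := h2 i
      have h5 : s + d / 2 + d / (2 * K) * p (Sum.inl i) =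
          s + d * (1 / (2 * K) * p (Sum.inl i) + 1 / 2) := by
        field_simp
        ring
      rw [h5]
      exact h4
    · have h4 : |(y j : ℝ) - (t + d * (1 / (2 * K) * p (Sum.inr j) + 1 / 2))| ≤ ε := h3 j
      have h5 : t + d / 2 + d / (2 * K) * p (Sum.inr j) =
          t + d * (1 / (2 * K) * p (Sum.inr j) + 1 / 2) := by
        field_simp
        ring
      rw [h5]
      exact h4

theorem hom (A : Set (ℕ × ℕ)) (n : ℕ)
    (h : ∀ ε : ℝ, 0 < ε → ∀ d₀ : ℝ, volume {p : Fin n ⊕ Fin n → ℝ |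
      p ∈ Set.Icc (0 : Fin n ⊕ Fin n → ℝ) 1 ∧
        ¬ HasCopy A ε d₀ (fun i => p (Sum.inl i)) (fun j => p (Sum.inr j))} = 0) :
    ∀ᵐ p : (Fin n → ℝ) × (Fin n → ℝ), ∀ ε : ℝ, 0 < ε → ∀ d₀ : ℝ, HasCopy A ε d₀ p.1 p.2 := by
  have h1 : ∀ᵐ p : Fin n ⊕ Fin n → ℝ, ∀ m K : ℕ, (∀ i, |p i| ≤ (K : ℝ) + 1) →
      HasCopy A (1 / ((m : ℝ) + 1)) m (fun i => p (Sum.inl i)) (fun j => p (Sum.inr j)) := by
    rw [ae_all_iff]
    intro m
    rw [ae_all_iff]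
    intro K
    have h2 := hom_cube A n h (ε := 1 / ((m : ℝ) + 1)) (d₀ := m) (K := (K : ℝ) + 1)
      (by positivity) (by positivity)
    rw [ae_iff]
    refine measure_mono_null ?_ h2
    intro p hp
    have hp' : ¬ ((∀ i, |p i| ≤ (K : ℝ) + 1) →
      HasCopy A (1 / ((m : ℝ) + 1)) m (fun i => p (Sum.inl i)) (fun j => p (Sum.inr j))) := hp
    rw [Classical.not_imp] at hp'
    exact hp'
  have h2 : ∀ᵐ p : Fin n ⊕ Fin n → ℝ, ∀ ε : ℝ, 0 < ε → ∀ d₀ : ℝ,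
      HasCopy A ε d₀ (fun i => p (Sum.inl i)) (fun j => p (Sum.inr j)) := by
    filter_upwards [h1] with p hp ε hε d₀
    obtain ⟨m, hm⟩ := exists_nat_gt (max (1 / ε) d₀)
    obtain ⟨K, hK⟩ := exists_nat_gt (∑ i, |p i|)
    have h3 : ∀ i, |p i| ≤ (K : ℝ) + 1 := by
      intro i
      have h4 : |p i| ≤ ∑ i, |p i| :=
        Finset.single_le_sum (f := fun i => |p i|) (fun _ _ => abs_nonneg _) (Finset.mem_univ i)
      linarith
    refine (hp m K h3).mono (le_refl A) ?_ ((le_max_right _ _).trans hm.le)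
    have h5 : 1 / ε < m := lt_of_le_of_lt (le_max_left _ _) hm
    rw [div_lt_iff₀ hε] at h5
    rw [div_le_iff₀ (by positivity)]
    nlinarith
  have h3 := (volume_measurePreserving_sumPiEquivProdPi_symm
    (fun _ : Fin n ⊕ Fin n => ℝ)).quasiMeasurePreserving.ae h2
  exact h3

end Pool.Agent.AES
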