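import Mathlib

/-!
# AES-Num: choice of the parameters (real analysis, Mathlib only)

With `s = √(log N)` take `k = ⌈s⌉₊`, `M = ⌊exp (log N / k)⌋₊`, `k₀ = (k + 1) / 2`; everything is compared in logarithms.
-/

set_option autoImplicit false

namespace Pool.Agent.AES

theorem num (n : ℕ) (C₁ : ℝ) (hC₁ : 0 < C₁) : ∃ c c' : ℝ, 0 < c ∧ 0 < c' ∧ ∃ N₀ : ℕ, ∀ N : ℕ,
    N₀ ≤ N → ∃ M k k₀ : ℕ, 24 ≤ M ∧ M ^ k ≤ N ∧
      C₁ * Real.log (2 / Real.exp (-(c * Real.sqrt (Real.log N)))) < (k : ℝ) - k₀ ∧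
      (N : ℝ) ^ ((1 : ℝ) / 3) ≤ (M : ℝ) ^ k₀ ∧
      (4 / Real.exp (-(c * Real.sqrt (Real.log N)))) ^ (8 * n ^ 2) *
        (24 / (M : ℝ)) ^ ((1 / 2 : ℝ) ^ n) ≤ Real.exp (-(c' * Real.sqrt (Real.log N))) := by
  obtain ⟨κ, hκ⟩ : ∃ κ : ℝ, κ = (1 / 2 : ℝ) ^ n := ⟨_, rfl⟩
  rw [← hκ]
  have hκ0 : 0 < κ := by rw [hκ]; positivity
  have hκ1 : κ ≤ 1 := by
    rw [hκ]
    exact pow_le_one₀ (by norm_num) (by norm_num)
  have hlog2 : Real.log 2 ≤ 1 := by
    have := Real.log_two_lt_d9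
    linarith
  have hlog2' : 0 < Real.log 2 := Real.log_pos (by norm_num)
  have hlog4 : Real.log 4 ≤ 2 := by
    have h1 : Real.log 4 = 2 * Real.log 2 := by
      rw [show (4 : ℝ) = 2 ^ 2 by norm_num, Real.log_pow]
      push_cast
      ring
    linarith
  have hlog24 : Real.log 24 ≤ 5 := by
    have h1 : Real.log 24 ≤ Real.log (2 ^ 5) := Real.log_le_log (by norm_num) (by norm_num)
    rw [Real.log_pow] at h1
    push_cast at h1
    linarith
  obtain ⟨c, hc⟩ : ∃ c : ℝ, c = min (1 / (4 * C₁)) (κ / (64 * (n : ℝ) ^ 2 + 64)) := ⟨_, rfl⟩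
  have hn2 : (0 : ℝ) ≤ (n : ℝ) ^ 2 := sq_nonneg _
  have hc0 : 0 < c := by
    rw [hc]
    exact lt_min (by positivity) (by positivity)
  have hcC : C₁ * c ≤ 1 / 4 := by
    have h1 : c ≤ 1 / (4 * C₁) := by rw [hc]; exact min_le_left _ _
    have h2 := mul_le_mul_of_nonneg_left h1 hC₁.le
    have h3 : C₁ * (1 / (4 * C₁)) = 1 / 4 := by field_simp
    linarith
  have hcn : 8 * (n : ℝ) ^ 2 * c ≤ κ / 8 := by
    have h1 : c ≤ κ / (64 * (n : ℝ) ^ 2 + 64) := by rw [hc]; exact min_le_right _ _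
    have h2 : c * (64 * (n : ℝ) ^ 2 + 64) ≤ κ := (le_div_iff₀ (by positivity)).mp h1
    have h3 : c * (64 * (n : ℝ) ^ 2 + 64) = 8 * (8 * (n : ℝ) ^ 2 * c) + 64 * c := by ring
    linarith
  obtain ⟨S, hS⟩ : ∃ S : ℝ, S = 46 + 4 * C₁ + (64 * (n : ℝ) ^ 2 + 24) / κ := ⟨_, rfl⟩
  have hS0 : 0 ≤ (64 * (n : ℝ) ^ 2 + 24) / κ := by positivity
  refine ⟨c, κ / 8, hc0, by positivity, ⌈Real.exp (S ^ 2)⌉₊, fun N hN => ?_⟩
  have hNR : Real.exp (S ^ 2) ≤ (N : ℝ) := le_trans (Nat.le_ceil _) (by exact_mod_cast hN)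
  have hNpos : (0 : ℝ) < N := lt_of_lt_of_le (Real.exp_pos _) hNR
  obtain ⟨l, hl⟩ : ∃ l : ℝ, l = Real.log N := ⟨_, rfl⟩
  obtain ⟨s, hs⟩ : ∃ s : ℝ, s = Real.sqrt l := ⟨_, rfl⟩
  rw [← hl, ← hs]
  have hSl : S ^ 2 ≤ l := by
    rw [hl]
    exact (Real.le_log_iff_exp_le hNpos).mpr hNR
  have hSnn : 0 ≤ S := by rw [hS]; positivity
  have hsS : S ≤ s := by
    rw [hs]
    exact Real.le_sqrt_of_sq_le hSl
  have hl0 : 0 ≤ l := le_trans (sq_nonneg S) hSl
  have hls : l = s ^ 2 := by rw [hs, Real.sq_sqrt hl0]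
  have hs46 : 46 + 4 * C₁ ≤ s := by linarith
  have hsκ : (64 * (n : ℝ) ^ 2 + 24) ≤ s * κ := by
    have h1 : (64 * (n : ℝ) ^ 2 + 24) / κ ≤ s := by linarith
    exact (div_le_iff₀ hκ0).mp h1
  have hs0 : 0 < s := by linarith
  obtain ⟨k, hk⟩ : ∃ k : ℕ, k = ⌈s⌉₊ := ⟨_, rfl⟩
  have hk1 : s ≤ k := by rw [hk]; exact Nat.le_ceil s
  have hk2 : (k : ℝ) < s + 1 := by rw [hk]; exact Nat.ceil_lt_add_one hs0.le
  have hk0 : (0 : ℝ) < k := by linarith
  obtain ⟨t, ht⟩ : ∃ t : ℝ, t = l / k := ⟨_, rfl⟩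
  have htk : k * t = l := by
    rw [ht]
    field_simp
  have hts : s / 2 ≤ t := by
    rw [ht, le_div_iff₀ hk0, hls]
    have h1 : s / 2 * k ≤ s / 2 * (2 * s) := mul_le_mul_of_nonneg_left (by linarith) (by linarith)
    have h2 : s / 2 * (2 * s) = s ^ 2 := by ring
    linarith
  obtain ⟨x, hx⟩ : ∃ x : ℝ, x = Real.exp t := ⟨_, rfl⟩
  have hx24 : 24 ≤ x := by
    have h1 := Real.add_one_le_exp t
    rw [hx]
    linarith
  obtain ⟨M, hM⟩ : ∃ M : ℕ, M = ⌊x⌋₊ := ⟨_, rfl⟩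
  have hM24 : 24 ≤ M := by
    rw [hM]
    exact Nat.le_floor (by exact_mod_cast hx24)
  have hMx : (M : ℝ) ≤ x := by
    rw [hM]
    exact Nat.floor_le (by linarith)
  have hxM : x < M + 1 := by
    rw [hM]
    exact Nat.lt_floor_add_one x
  have hM0 : (0 : ℝ) < M := by linarith
  have hMh : x / 2 ≤ M := by linarith
  have hlogM : t - Real.log 2 ≤ Real.log M := by
    have h1 : Real.log (x / 2) ≤ Real.log M := Real.log_le_log (by linarith) hMh
    rw [Real.log_div (by linarith) (by norm_num), hx, Real.log_exp] at h1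
    exact h1
  obtain ⟨k₀, hk₀⟩ : ∃ k₀ : ℕ, k₀ = (k + 1) / 2 := ⟨_, rfl⟩
  have hk₀1 : (k : ℝ) ≤ 2 * k₀ := by
    have : k ≤ 2 * k₀ := by omega
    exact_mod_cast this
  have hk₀2 : 2 * (k₀ : ℝ) ≤ k + 1 := by
    have : 2 * k₀ ≤ k + 1 := by omega
    exact_mod_cast this
  refine ⟨M, k, k₀, hM24, ?_, ?_, ?_, ?_⟩
  · have h1 : (M : ℝ) ^ k ≤ N := by
      calc (M : ℝ) ^ k ≤ x ^ k := pow_le_pow_left₀ hM0.le hMx k
        _ = Real.exp (k * t) := by rw [hx, ← Real.exp_nat_mul]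
        _ = N := by rw [htk, hl, Real.exp_log hNpos]
    exact_mod_cast h1
  · have h1 : Real.log (2 / Real.exp (-(c * s))) = Real.log 2 + c * s := by
      rw [Real.log_div (by norm_num) (Real.exp_pos _).ne', Real.log_exp]
      ring
    rw [h1]
    have h2 : C₁ * (Real.log 2 + c * s) ≤ C₁ + s / 4 := by
      have h3 := mul_le_mul_of_nonneg_left hlog2 hC₁.le
      have h4 := mul_le_mul_of_nonneg_right hcC hs0.le
      have h5 : C₁ * (Real.log 2 + c * s) = C₁ * Real.log 2 + C₁ * c * s := by ring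
      linarith
    linarith
  · have h1 : (N : ℝ) ^ ((1 : ℝ) / 3) = Real.exp (l / 3) := by
      rw [Real.rpow_def_of_pos hNpos, ← hl]
      congr 1
      ring
    have h2 : (M : ℝ) ^ k₀ = Real.exp (k₀ * Real.log M) := by
      rw [Real.exp_nat_mul, Real.exp_log hM0]
    rw [h1, h2]
    apply Real.exp_le_exp.mpr
    have h3 : 0 ≤ t - Real.log 2 := by linarith
    have h4 : (k : ℝ) / 2 * (t - Real.log 2) ≤ k₀ * Real.log M := by
      calc (k : ℝ) / 2 * (t - Real.log 2) ≤ k₀ * (t - Real.log 2) :=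
            mul_le_mul_of_nonneg_right (by linarith) h3
        _ ≤ k₀ * Real.log M := mul_le_mul_of_nonneg_left hlogM (Nat.cast_nonneg _)
    have h5 : (k : ℝ) * Real.log 2 ≤ k := by
      have := mul_le_mul_of_nonneg_left hlog2 hk0.le
      linarith
    have h6 : (k : ℝ) / 2 * (t - Real.log 2) = l / 2 - k * Real.log 2 / 2 := by
      rw [← htk]
      ring
    rw [h6] at h4
    have h7 : (k : ℝ) ≤ l / 3 := by
      rw [hls]
      have : 46 * s ≤ s * s := mul_le_mul_of_nonneg_right (by linarith) hs0.le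
      have h8 : s ^ 2 = s * s := by ring
      linarith
    linarith
  · have h1 : (4 / Real.exp (-(c * s))) ^ (8 * n ^ 2) =
        Real.exp (8 * (n : ℝ) ^ 2 * (Real.log 4 + c * s)) := by
      have h2 : 4 / Real.exp (-(c * s)) = Real.exp (Real.log 4 + c * s) := by
        rw [Real.exp_add, Real.exp_log (by norm_num), Real.exp_neg, div_inv_eq_mul]
      rw [h2, ← Real.exp_nat_mul]
      push_cast
      ring_nf
    have h3 : (24 / (M : ℝ)) ^ κ = Real.exp ((Real.log 24 - Real.log M) * κ) := by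
      rw [Real.rpow_def_of_pos (by positivity), Real.log_div (by norm_num) hM0.ne']
    rw [h1, h3, ← Real.exp_add]
    apply Real.exp_le_exp.mpr
    have h4 : 8 * (n : ℝ) ^ 2 * (Real.log 4 + c * s) ≤ 16 * (n : ℝ) ^ 2 + κ / 8 * s := by
      have h5 := mul_le_mul_of_nonneg_left hlog4 hn2
      have h6 := mul_le_mul_of_nonneg_right hcn hs0.le
      have h8 : 8 * (n : ℝ) ^ 2 * (Real.log 4 + c * s) =
          8 * ((n : ℝ) ^ 2 * Real.log 4) + 8 * (n : ℝ) ^ 2 * c * s := by ring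
      linarith
    have h7 : (Real.log 24 - Real.log M) * κ ≤ 6 - s / 2 * κ := by
      have h8 : Real.log 24 - Real.log M ≤ 6 - s / 2 := by linarith
      have h9 := mul_le_mul_of_nonneg_right h8 hκ0.le
      have h10 : (6 - s / 2) * κ = 6 * κ - s / 2 * κ := by ring
      linarith
    have h11 : κ / 8 * s = s * κ / 8 := by ring
    have h12 : s / 2 * κ = s * κ / 2 := by ring
    linarith

end Pool.Agent.AES
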