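import Pool.Agent.AES.Defs

/-!
# AES-Rec: rectangles of almost every aspect ratio

PLAN.  Let `Bad` be the set of `lam > 0` for which the conclusion fails.  If `u 0 < u 1` and
`(v 1 - v 0)/(u 1 - u 0) = lam` is in `Bad`, then `p = (u,v)` fails in the hypothesis: otherwise take
`ε' = ε/(2(1+lam))`, `d` large, a copy `x, y`, `X = x 1 - x 0`, `Y = y 1 - y 0` (integers):
`|X - d (u 1 - u 0)| ≤ 2ε'`, `|Y - d (v 1 - v 0)| ≤ 2ε'`, so `|Y - lam X| ≤ 2ε'(1+lam) ≤ ε`;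
`X` is large (`≥ d (u 1 - u 0) - 2ε'`), and `Y ≥ lam X - ε > -1` so `Y ≥ 0`; use
`x 0, y 0, X, Y`.  (Restrict to `ε ≤ 1/2` first.)  So by Fubini (`Measure.ae_ae_of_ae_prod`, and the
measure preserving equivalence `MeasurableEquiv.finTwoArrow` /
`volume_preserving_finTwoArrow : (Fin 2 → ℝ) ≃ᵐ ℝ × ℝ`) there are `u` with `u 0 < u 1` and `v 0` such
that for almost every `v 1` the number `(v 1 - v 0)/(u 1 - u 0)` is not in `Bad`; affine maps preserve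
null sets, so `Bad` is null.  (The set of pairs with `u 0 < u 1` has positive measure, so the a.e.
statement can be evaluated there: a null set cannot contain the open set `{u 0 < u 1}`.)
-/

set_option autoImplicit false

open MeasureTheory

namespace Pool.Agent.AES

private def Cc (A : Set (ℕ × ℕ)) (lam : ℝ) : Prop :=
  0 < lam → ∀ ε : ℝ, 0 < ε → ∀ d₀ : ℕ, ∃ x y d e : ℕ, d₀ ≤ d ∧
      |(e : ℝ) - lam * d| ≤ ε ∧ (x, y) ∈ A ∧ (x + d, y) ∈ A ∧ (x, y + e) ∈ A ∧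
        (x + d, y + e) ∈ A

private theorem key (A : Set (ℕ × ℕ)) {u v : Fin 2 → ℝ} (hu : u 0 < u 1)
    (h : ∀ ε : ℝ, 0 < ε → ∀ d₀ : ℝ, HasCopy A ε d₀ u v) : Cc A ((v 1 - v 0) / (u 1 - u 0)) := by
  have hw : 0 < u 1 - u 0 := by linarith
  obtain ⟨lam, hlam⟩ : ∃ lam, lam = (v 1 - v 0) / (u 1 - u 0) := ⟨_, rfl⟩
  have hv : v 1 - v 0 = lam * (u 1 - u 0) := by rw [hlam, div_mul_cancel₀ _ hw.ne']
  rw [← hlam]
  intro hl ε hε d₀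
  have hε1 : 0 < min ε (1 / 2) := lt_min hε (by norm_num)
  have hε2 : min ε (1 / 2) ≤ 1 / 2 := min_le_right _ _
  have hε3 : min ε (1 / 2) ≤ ε := min_le_left _ _
  generalize min ε (1 / 2) = η at hε1 hε2 hε3
  have hδ : 0 < η / (2 * (1 + lam)) := by positivity
  have hδ2 : 2 * (η / (2 * (1 + lam))) * (1 + lam) = η := by field_simp
  generalize η / (2 * (1 + lam)) = δ at hδ hδ2
  have hδ3 : 2 * δ ≤ 1 / 2 := by nlinarith
  obtain ⟨d, s, t, hd, x, y, hA, hx, hy⟩ := h δ hδ ((d₀ + 1) / (u 1 - u 0))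
  rw [div_le_iff₀ hw] at hd
  have x0 := abs_le.1 (hx 0)
  have x1 := abs_le.1 (hx 1)
  have y0 := abs_le.1 (hy 0)
  have y1 := abs_le.1 (hy 1)
  have hX1 : (x 1 : ℝ) - x 0 - d * (u 1 - u 0) ≤ 2 * δ := by linarith [x0.1, x1.2]
  have hX2 : -(2 * δ) ≤ (x 1 : ℝ) - x 0 - d * (u 1 - u 0) := by linarith [x0.2, x1.1]
  have hY1 : (y 1 : ℝ) - y 0 - d * (v 1 - v 0) ≤ 2 * δ := by linarith [y0.1, y1.2]
  have hY2 : -(2 * δ) ≤ (y 1 : ℝ) - y 0 - d * (v 1 - v 0) := by linarith [y0.2, y1.1]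
  rw [hv] at hY1 hY2
  have hd0 : (0 : ℝ) ≤ d₀ := Nat.cast_nonneg d₀
  have hXd : (d₀ : ℝ) < (x 1 : ℝ) - x 0 := by linarith
  have hxx : d₀ + x 0 < x 1 := by
    have : ((d₀ + x 0 : ℕ) : ℝ) < (x 1 : ℝ) := by
      push_cast
      linarith
    exact_mod_cast this
  have hlX : lam * ((x 1 : ℝ) - x 0 - d * (u 1 - u 0)) ≤ lam * (2 * δ) := mul_le_mul_of_nonneg_left hX1 hl.le
  have hlX2 : lam * (-(2 * δ)) ≤ lam * ((x 1 : ℝ) - x 0 - d * (u 1 - u 0)) := mul_le_mul_of_nonneg_left hX2 hl.le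
  have hZ1 : (y 1 : ℝ) - y 0 - lam * (x 1 - x 0) ≤ η := by linarith
  have hZ2 : -η ≤ (y 1 : ℝ) - y 0 - lam * (x 1 - x 0) := by linarith
  have hlp : 0 ≤ lam * ((x 1 : ℝ) - x 0) := mul_nonneg hl.le (by linarith)
  have hyy : y 0 ≤ y 1 := by
    have h1 : (y 0 : ℝ) < ((y 1 + 1 : ℕ) : ℝ) := by
      push_cast
      linarith
    have h2 : y 0 < y 1 + 1 := by exact_mod_cast h1
    omega
  have e1 : x 0 + (x 1 - x 0) = x 1 := by omega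
  have e2 : y 0 + (y 1 - y 0) = y 1 := by omega
  refine ⟨x 0, y 0, x 1 - x 0, y 1 - y 0, by omega, ?_, hA 0 0, ?_, ?_, ?_⟩
  · rw [Nat.cast_sub hyy, Nat.cast_sub (by omega : x 0 ≤ x 1), abs_le]
    constructor <;> linarith
  · rw [e1]; exact hA 1 0
  · rw [e2]; exact hA 0 1
  · rw [e1, e2]; exact hA 1 1

theorem rect (A : Set (ℕ × ℕ))
    (h : ∀ᵐ p : (Fin 2 → ℝ) × (Fin 2 → ℝ), ∀ ε : ℝ, 0 < ε → ∀ d₀ : ℝ, HasCopy A ε d₀ p.1 p.2) :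
    ∀ᵐ lam : ℝ, 0 < lam → ∀ ε : ℝ, 0 < ε → ∀ d₀ : ℕ, ∃ x y d e : ℕ, d₀ ≤ d ∧
      |(e : ℝ) - lam * d| ≤ ε ∧ (x, y) ∈ A ∧ (x + d, y) ∈ A ∧ (x, y + e) ∈ A ∧
        (x + d, y + e) ∈ A := by
  show ∀ᵐ lam : ℝ, Cc A lam
  have h1 : ∀ᵐ u : Fin 2 → ℝ, ∀ᵐ v : Fin 2 → ℝ, ∀ ε : ℝ, 0 < ε → ∀ d₀ : ℝ, HasCopy A ε d₀ u v :=
    Measure.ae_ae_of_ae_prod h
  obtain ⟨u, hu, hv⟩ : ∃ u : Fin 2 → ℝ, u 0 < u 1 ∧
      ∀ᵐ v : Fin 2 → ℝ, ∀ ε : ℝ, 0 < ε → ∀ d₀ : ℝ, HasCopy A ε d₀ u v := by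
    by_contra hcon
    have hop : IsOpen {u : Fin 2 → ℝ | u 0 < u 1} := isOpen_lt (continuous_apply 0) (continuous_apply 1)
    have hne : {u : Fin 2 → ℝ | u 0 < u 1}.Nonempty := by
      refine ⟨![0, 1], ?_⟩
      show (![0, 1] : Fin 2 → ℝ) 0 < (![0, 1] : Fin 2 → ℝ) 1
      simp
    have hpos := hop.measure_pos volume hne
    have hnull : volume {u : Fin 2 → ℝ | ¬ ∀ᵐ v : Fin 2 → ℝ, ∀ ε : ℝ, 0 < ε → ∀ d₀ : ℝ, HasCopy A ε d₀ u v} = 0 := h1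
    have hle : volume {u : Fin 2 → ℝ | u 0 < u 1} ≤
        volume {u : Fin 2 → ℝ | ¬ ∀ᵐ v : Fin 2 → ℝ, ∀ ε : ℝ, 0 < ε → ∀ d₀ : ℝ, HasCopy A ε d₀ u v} := by
      apply measure_mono
      intro u hu
      intro hcc
      exact hcon ⟨u, hu, hcc⟩
    rw [hnull] at hle
    exact absurd hpos (not_lt.2 hle)
  have hw : 0 < u 1 - u 0 := by linarith
  have h2 : ∀ᵐ v : Fin 2 → ℝ, Cc A ((v 1 - v 0) / (u 1 - u 0)) := by
    filter_upwards [hv] with v hv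
    exact key A hu hv
  have h3 : ∀ᵐ z : ℝ × ℝ, Cc A ((z.2 - z.1) / (u 1 - u 0)) :=
    ((volume_preserving_finTwoArrow ℝ).symm _).quasiMeasurePreserving.ae h2
  have h4 : ∀ᵐ a : ℝ, ∀ᵐ b : ℝ, Cc A ((b - a) / (u 1 - u 0)) := Measure.ae_ae_of_ae_prod h3
  obtain ⟨a, ha⟩ := h4.exists
  have h5 : ∀ᵐ b : ℝ, Cc A ((a + b - a) / (u 1 - u 0)) :=
    (measurePreserving_add_left volume a).quasiMeasurePreserving.ae ha
  have hq : Measure.QuasiMeasurePreserving (fun x : ℝ => (u 1 - u 0) * x) volume volume := by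
    refine ⟨measurable_const_mul _, ?_⟩
    have e := Real.map_volume_mul_left (a := u 1 - u 0) hw.ne'
    rw [e]
    exact Measure.smul_absolutelyContinuous
  have h6 : ∀ᵐ lam : ℝ, Cc A ((a + (u 1 - u 0) * lam - a) / (u 1 - u 0)) := hq.ae h5
  filter_upwards [h6] with lam hlam
  rw [add_sub_cancel_left, mul_div_cancel_left₀ _ hw.ne'] at hlam
  exact hlam

end Pool.Agent.AES
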