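import Pool.Agent.AES.Fit
import Pool.Agent.AES.Num
import Pool.Agent.AES.Hom
import Pool.Agent.AES.Frq
import Pool.Agent.AES.Rec

/-!
# AES-Asm: assembly of the main theorems
-/

set_option autoImplicit false

open MeasureTheory

namespace Pool.Agent.AES

/-- the set of shapes in the unit cube without a copy -/
def NoCopy (A : Set (ℕ × ℕ)) (ε d₀ : ℝ) (n : ℕ) : Set (Fin n ⊕ Fin n → ℝ) :=
  {p | p ∈ Set.Icc (0 : Fin n ⊕ Fin n → ℝ) 1 ∧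
    ¬ HasCopy A ε d₀ (fun i => p (Sum.inl i)) (fun j => p (Sum.inr j))}

/-- the finite theorem -/
theorem finT (n : ℕ) (hn : 1 ≤ n) : ∃ c c' C : ℝ, 0 < c ∧ 0 < c' ∧ 0 < C ∧ ∃ N₀ : ℕ, ∀ N : ℕ,
    N₀ ≤ N → ∀ A : Finset (ℕ × ℕ), A ⊆ Finset.Icc 1 N ×ˢ Finset.Icc 1 N →
      (N : ℝ) ^ 2 * Real.exp (-(c * Real.sqrt (Real.log N))) ≤ A.card → ∀ ε : ℝ, 0 < ε → ε ≤ 1 →
        volume (NoCopy (A : Set (ℕ × ℕ)) ε ((N : ℝ) ^ ((1 : ℝ) / 3)) n) ≤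
          ENNReal.ofReal (C * (1 / ε) ^ (4 * n) *
            Real.exp (-(c' * Real.sqrt (Real.log N)))) := by
  obtain ⟨C₁, C₂, hC₁, hC₂, hfit⟩ := fit n hn
  obtain ⟨c, c', hc, hc', N₀, hnum⟩ := num n C₁ hC₁
  refine ⟨c, c', C₂, hc, hc', hC₂, max N₀ 1, ?_⟩
  intro N hN A hA hcard ε hε hε1
  have hN0 : N₀ ≤ N := le_trans (le_max_left _ _) hN
  have hN1 : 0 < N := lt_of_lt_of_le Nat.one_pos (le_trans (le_max_right _ _) hN)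
  obtain ⟨M, k, k₀, hM, hMk, hlog, hk₀, hfin⟩ := hnum N hN0
  have h1 := hfit N A hN1 hA (Real.exp (-(c * Real.sqrt (Real.log N)))) (Real.exp_pos _)
    (by rw [mul_comm]; exact hcard) ε hε hε1 M k k₀ hM hMk hlog
  refine le_trans (measure_mono ?_) (h1.trans (ENNReal.ofReal_le_ofReal ?_))
  · intro p hp
    refine ⟨hp.1, fun hcopy => hp.2 (hcopy.mono subset_rfl le_rfl hk₀)⟩
  · have h2 : 0 ≤ C₂ * (1 / ε) ^ (4 * n) := by positivity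
    exact mul_le_mul_of_nonneg_left hfin h2

/-- dense infinitely often, at the level `exp(- c √(log N))` -/
def DenseOften (A : Set (ℕ × ℕ)) (c : ℝ) : Prop :=
  ∀ N₀ : ℕ, ∃ N : ℕ, N₀ ≤ N ∧ (N : ℝ) ^ 2 * Real.exp (-(c * Real.sqrt (Real.log N))) ≤
    ((A ∩ Set.Icc 1 N ×ˢ Set.Icc 1 N).ncard : ℝ)

theorem null_of (n : ℕ) (c c' C : ℝ) (hc' : 0 < c') (N₀ : ℕ)
    (h : ∀ N : ℕ, N₀ ≤ N → ∀ A : Finset (ℕ × ℕ), A ⊆ Finset.Icc 1 N ×ˢ Finset.Icc 1 N →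
      (N : ℝ) ^ 2 * Real.exp (-(c * Real.sqrt (Real.log N))) ≤ A.card → ∀ ε : ℝ, 0 < ε → ε ≤ 1 →
        volume (NoCopy (A : Set (ℕ × ℕ)) ε ((N : ℝ) ^ ((1 : ℝ) / 3)) n) ≤
          ENNReal.ofReal (C * (1 / ε) ^ (4 * n) *
            Real.exp (-(c' * Real.sqrt (Real.log N)))))
    (A : Set (ℕ × ℕ)) (hA : DenseOften A c) (ε : ℝ) (hε : 0 < ε) (d₀ : ℝ) :
    volume (NoCopy A ε d₀ n) = 0 := by
  classical
  -- it suffices to treat `ε ≤ 1`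
  obtain ⟨ε', hε', hε'1, hεε⟩ : ∃ ε' : ℝ, 0 < ε' ∧ ε' ≤ 1 ∧ ε' ≤ ε :=
    ⟨min ε 1, lt_min hε one_pos, min_le_right _ _, min_le_left _ _⟩
  have hlim : Filter.Tendsto (fun N : ℕ => ENNReal.ofReal (C * (1 / ε') ^ (4 * n) *
      Real.exp (-(c' * Real.sqrt (Real.log N))))) Filter.atTop (nhds 0) := by
    have h1 : Filter.Tendsto (fun N : ℕ => c' * Real.sqrt (Real.log (N : ℝ))) Filter.atTop
        Filter.atTop :=
      Filter.Tendsto.const_mul_atTop hc' (Filter.Tendsto.comp Real.tendsto_sqrt_atTop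
        (Real.tendsto_log_atTop.comp tendsto_natCast_atTop_atTop))
    have h2 : Filter.Tendsto (fun N : ℕ => C * (1 / ε') ^ (4 * n) *
        Real.exp (-(c' * Real.sqrt (Real.log (N : ℝ))))) Filter.atTop (nhds 0) := by
      have h3 := (Real.tendsto_exp_neg_atTop_nhds_zero.comp h1).const_mul (C * (1 / ε') ^ (4 * n))
      rw [mul_zero] at h3
      exact h3
    have h4 := ENNReal.tendsto_ofReal h2
    rwa [ENNReal.ofReal_zero] at h4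
  have hbig : Filter.Tendsto (fun N : ℕ => (N : ℝ) ^ ((1 : ℝ) / 3)) Filter.atTop Filter.atTop :=
    (tendsto_rpow_atTop (by norm_num)).comp tendsto_natCast_atTop_atTop
  refine le_antisymm (le_of_forall_pos_le_add fun η hη => ?_) zero_le
  rw [zero_add]
  obtain ⟨N₁, hN₁⟩ := Filter.eventually_atTop.1
    ((hlim.eventually (ge_mem_nhds hη)).and (hbig.eventually_ge_atTop d₀))
  obtain ⟨N, hN, hcard⟩ := hA (max N₀ N₁)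
  have hb := hN₁ N (le_trans (le_max_right _ _) hN)
  have hfinite : (A ∩ Set.Icc 1 N ×ˢ Set.Icc 1 N).Finite :=
    ((Set.finite_Icc 1 N).prod (Set.finite_Icc 1 N)).subset Set.inter_subset_right
  obtain ⟨A', hA'⟩ : ∃ A' : Finset (ℕ × ℕ), (A' : Set (ℕ × ℕ)) = A ∩ Set.Icc 1 N ×ˢ Set.Icc 1 N :=
    ⟨hfinite.toFinset, hfinite.coe_toFinset⟩
  have hsub : A' ⊆ Finset.Icc 1 N ×ˢ Finset.Icc 1 N := by
    intro z hz
    have h1 : z ∈ A ∩ Set.Icc 1 N ×ˢ Set.Icc 1 N := hA' ▸ (Finset.mem_coe.2 hz)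
    have h2 := h1.2
    rw [Set.mem_prod] at h2
    rw [Finset.mem_product, Finset.mem_Icc, Finset.mem_Icc]
    exact h2
  have hcard' : (N : ℝ) ^ 2 * Real.exp (-(c * Real.sqrt (Real.log N))) ≤ A'.card := by
    rw [← hA', Set.ncard_coe_finset] at hcard
    exact hcard
  have h1 := h N (le_trans (le_max_left _ _) hN) A' hsub hcard' ε' hε' hε'1
  refine le_trans (measure_mono ?_) (h1.trans hb.1)
  intro p hp
  refine ⟨hp.1, fun hcopy => hp.2 (hcopy.mono ?_ hεε hb.2)⟩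
  rw [hA']
  exact Set.inter_subset_left

/-- almost every grid shape -/
theorem main (n : ℕ) (hn : 1 ≤ n) : ∃ c c' C : ℝ, 0 < c ∧ 0 < c' ∧ 0 < C ∧
    (∃ N₀ : ℕ, ∀ N : ℕ,
      N₀ ≤ N → ∀ A : Finset (ℕ × ℕ), A ⊆ Finset.Icc 1 N ×ˢ Finset.Icc 1 N →
        (N : ℝ) ^ 2 * Real.exp (-(c * Real.sqrt (Real.log N))) ≤ A.card →
          ∀ ε : ℝ, 0 < ε → ε ≤ 1 →
          volume (NoCopy (A : Set (ℕ × ℕ)) ε ((N : ℝ) ^ ((1 : ℝ) / 3)) n) ≤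
            ENNReal.ofReal (C * (1 / ε) ^ (4 * n) *
              Real.exp (-(c' * Real.sqrt (Real.log N))))) ∧
    ∀ A : Set (ℕ × ℕ), DenseOften A c →
      ∀ᵐ p : (Fin n → ℝ) × (Fin n → ℝ), ∀ ε : ℝ, 0 < ε → ∀ d₀ : ℝ, HasCopy A ε d₀ p.1 p.2 := by
  obtain ⟨c, c', C, hc, hc', hC, N₀, h⟩ := finT n hn
  refine ⟨c, c', C, hc, hc', hC, ⟨N₀, h⟩, ?_⟩
  intro A hA
  exact hom A n fun ε hε d₀ => null_of n c c' C hc' N₀ h A hA ε hε d₀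

theorem main_rect : ∃ c : ℝ, 0 < c ∧ ∀ A : Set (ℕ × ℕ), DenseOften A c →
    ∀ᵐ lam : ℝ, 0 < lam → ∀ ε : ℝ, 0 < ε → ∀ d₀ : ℕ, ∃ x y d e : ℕ, d₀ ≤ d ∧
      |(e : ℝ) - lam * d| ≤ ε ∧ (x, y) ∈ A ∧ (x + d, y) ∈ A ∧ (x, y + e) ∈ A ∧
        (x + d, y + e) ∈ A := by
  obtain ⟨c, c', C, hc, _, _, _, h⟩ := main 2 (by norm_num)
  exact ⟨c, hc, fun A hA => rect A (h A hA)⟩

theorem main_sum (A : Set (ℕ × ℕ)) (hA : ∀ p ∈ A, 0 < p.1 ∧ 0 < p.2)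
    (hs : ¬ Summable (fun p : A => 1 / ((p.1.1 : ℝ) ^ 2 + (p.1.2 : ℝ) ^ 2))) :
    (∀ᵐ lam : ℝ, 0 < lam → ∀ ε : ℝ, 0 < ε → ∀ d₀ : ℕ, ∃ x y d e : ℕ, d₀ ≤ d ∧
      |(e : ℝ) - lam * d| ≤ ε ∧ (x, y) ∈ A ∧ (x + d, y) ∈ A ∧ (x, y + e) ∈ A ∧
        (x + d, y + e) ∈ A) ∧
    ∀ n : ℕ, 1 ≤ n →
      ∀ᵐ p : (Fin n → ℝ) × (Fin n → ℝ), ∀ ε : ℝ, 0 < ε → ∀ d₀ : ℝ, HasCopy A ε d₀ p.1 p.2 := by
  constructor
  · obtain ⟨c, hc, h⟩ := main_rect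
    exact h A fun N₀ => frq A hA hs c hc N₀
  · intro n hn
    obtain ⟨c, _, _, hc, _, _, _, h⟩ := main n hn
    exact h A fun N₀ => frq A hA hs c hc N₀

end Pool.Agent.AES
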