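import Pool.Agent.AES.Defs

/-!
# AES-Exm: elementary facts on `ex` and `ft`
-/

set_option autoImplicit false

open MeasureTheory

namespace Pool.Agent.AES

theorem ex_zero : ex 0 = 1 := by
  unfold ex
  rw [mul_zero, Complex.ofReal_zero, zero_mul, Complex.exp_zero]

theorem ex_add (x y : ℝ) : ex (x + y) = ex x * ex y := by
  unfold ex
  rw [← Complex.exp_add]
  congr 1
  push_cast
  ring

theorem ex_norm (x : ℝ) : ‖ex x‖ = 1 := by
  unfold ex
  exact Complex.norm_exp_ofReal_mul_I _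

theorem ex_conj (x : ℝ) : (starRingEnd ℂ) (ex x) = ex (-x) := by
  unfold ex
  rw [← Complex.exp_conj, map_mul, Complex.conj_ofReal, Complex.conj_I]
  congr 1
  push_cast
  ring

theorem ex_cont : Continuous ex := by
  unfold ex
  fun_prop

private theorem exm_one (x : ℝ) : ‖ex x - 1‖ ≤ 2 * min 1 (Real.pi * |x|) := by
  rw [mul_min_of_nonneg _ _ (by norm_num : (0 : ℝ) ≤ 2)]
  refine le_min ?_ ?_
  · refine (norm_sub_le _ _).trans ?_
    rw [ex_norm, norm_one]
    norm_num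
  · have h := Real.norm_exp_I_mul_ofReal_sub_one_le (x := 2 * Real.pi * x)
    unfold ex
    rw [mul_comm]
    refine h.trans (le_of_eq ?_)
    rw [Real.norm_eq_abs, abs_mul, abs_mul, abs_of_pos Real.pi_pos, abs_of_pos (by norm_num : (0 : ℝ) < 2)]
    ring

theorem exb (T s t κ : ℝ) (hT : 1 ≤ T) (hs : |s| ≤ 1 / T) (hκ : 0 < κ) (hκ1 : κ ≤ 1)
    (ht : t ≠ 0) : ‖ex (t * s) - 1‖ ^ 2 * |t| ^ (-κ) ≤ 13 * T ^ (-κ) := by
  have hT0 : 0 < T := by linarith
  have ht0 : 0 < |t| := abs_pos.2 ht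
  have hpi := Real.pi_pos
  obtain ⟨m, hm⟩ : ∃ m : ℝ, m = min 1 (Real.pi * |t| / T) := ⟨_, rfl⟩
  have hq : 0 < Real.pi * |t| / T := by positivity
  have hm0 : 0 < m := by
    rw [hm]
    exact lt_min one_pos hq
  have hm1 : m ≤ 1 := by
    rw [hm]
    exact min_le_left _ _
  have hm2 : m ≤ Real.pi * |t| / T := by
    rw [hm]
    exact min_le_right _ _
  have h1 : ‖ex (t * s) - 1‖ ≤ 2 * m := by
    refine (exm_one (t * s)).trans ?_
    refine mul_le_mul_of_nonneg_left ?_ (by norm_num)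
    rw [hm]
    refine min_le_min_left _ ?_
    rw [abs_mul]
    calc Real.pi * (|t| * |s|) ≤ Real.pi * (|t| * (1 / T)) := by gcongr
      _ = Real.pi * |t| / T := by ring
  have h2 : ‖ex (t * s) - 1‖ ^ 2 ≤ 4 * m ^ 2 := by
    calc ‖ex (t * s) - 1‖ ^ 2 ≤ (2 * m) ^ 2 := pow_le_pow_left₀ (norm_nonneg _) h1 2
      _ = 4 * m ^ 2 := by ring
  have h3 : m ^ 2 ≤ m ^ κ := by
    rw [← Real.rpow_natCast m 2]
    exact Real.rpow_le_rpow_of_exponent_ge hm0 hm1 (by push_cast; linarith)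
  have h4 : m ^ κ ≤ Real.pi * (|t| ^ κ * T ^ (-κ)) := by
    calc m ^ κ ≤ (Real.pi * |t| / T) ^ κ := Real.rpow_le_rpow hm0.le hm2 hκ.le
      _ = Real.pi ^ κ * (|t| ^ κ * T ^ (-κ)) := by
        rw [Real.div_rpow (by positivity) hT0.le, Real.mul_rpow hpi.le ht0.le, Real.rpow_neg hT0.le]
        ring
      _ ≤ Real.pi * (|t| ^ κ * T ^ (-κ)) := by
        refine mul_le_mul_of_nonneg_right ?_ (by positivity)
        have h5 : Real.pi ^ κ ≤ Real.pi ^ (1 : ℝ) :=
          Real.rpow_le_rpow_of_exponent_le (by linarith [Real.pi_gt_three]) hκ1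
        rwa [Real.rpow_one] at h5
  have h5 : |t| ^ κ * |t| ^ (-κ) = 1 := by
    rw [← Real.rpow_add ht0, add_neg_cancel, Real.rpow_zero]
  have h6 : 0 ≤ |t| ^ (-κ) := Real.rpow_nonneg ht0.le _
  have h7 : 0 ≤ T ^ (-κ) := Real.rpow_nonneg hT0.le _
  calc ‖ex (t * s) - 1‖ ^ 2 * |t| ^ (-κ) ≤ (4 * (Real.pi * (|t| ^ κ * T ^ (-κ)))) * |t| ^ (-κ) := by
        refine mul_le_mul_of_nonneg_right ?_ h6
        linarith
    _ = 4 * Real.pi * T ^ (-κ) * (|t| ^ κ * |t| ^ (-κ)) := by ring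
    _ = 4 * Real.pi * T ^ (-κ) := by rw [h5, mul_one]
    _ ≤ 13 * T ^ (-κ) := by
        refine mul_le_mul_of_nonneg_right ?_ h7
        linarith [Real.pi_lt_d2]

theorem ft_norm_le (g : ℝ → ℂ) (t : ℝ) : ‖ft g t‖ ≤ ∫ y, ‖g y‖ := by
  unfold ft
  refine (norm_integral_le_integral_norm _).trans (le_of_eq ?_)
  refine integral_congr_ae (Filter.Eventually.of_forall fun y => ?_)
  show ‖g y * ex (-(y * t))‖ = ‖g y‖
  rw [norm_mul, ex_norm, mul_one]

theorem ft_shift (g : ℝ → ℂ) (s t : ℝ) : ft (fun y => g (y + s)) t = ex (t * s) * ft g t := by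
  unfold ft
  have h1 : (∫ y, g (y + s) * ex (-(y * t))) = ∫ y, g (y + s) * ex (-((y + s - s) * t)) := by
    refine integral_congr_ae (Filter.Eventually.of_forall fun y => ?_)
    show g (y + s) * ex (-(y * t)) = g (y + s) * ex (-((y + s - s) * t))
    rw [add_sub_cancel_right]
  rw [h1, integral_add_right_eq_self (fun y => g y * ex (-((y - s) * t))) s, ← integral_const_mul]
  refine integral_congr_ae (Filter.Eventually.of_forall fun y => ?_)
  show g y * ex (-((y - s) * t)) = ex (t * s) * (g y * ex (-(y * t)))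
  have h2 : -((y - s) * t) = t * s + -(y * t) := by ring
  rw [h2, ex_add]
  ring

end Pool.Agent.AES
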