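import Pool.Agent.AES.Defs

/-!
# AES-Lap: Laplace transforms of nonnegative weights
-/

set_option autoImplicit false

open MeasureTheory

namespace Pool.Agent.AES

private theorem lap_pint (k : ℕ) {u : ℝ} (hu : 0 < u) :
    IntegrableOn (fun v : ℝ => v ^ k * Real.exp (-(v * u))) (Set.Ioi 0) := by
  have h1 := integrableOn_rpow_mul_exp_neg_mul_rpow (s := (k : ℝ)) (p := 1) (b := u)
    (by linarith [(Nat.cast_nonneg k : (0 : ℝ) ≤ k)]) one_pos hu
  refine h1.congr_fun (fun v hv => ?_) measurableSet_Ioi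
  show v ^ (k : ℝ) * Real.exp (-u * v ^ (1 : ℝ)) = v ^ k * Real.exp (-(v * u))
  rw [Real.rpow_natCast, Real.rpow_one, neg_mul, mul_comm u v]

private theorem lap_meas (k : ℕ) {w : ℝ → ℝ} (hw : Measurable w) (u : ℝ) :
    Measurable fun v : ℝ => v ^ k * Real.exp (-(v * u)) * w v := by
  fun_prop

private theorem lap_int (k : ℕ) {w : ℝ → ℝ} {D σ : ℝ} (hw : Wt w D σ) {u : ℝ} (hu : 0 < u) :
    IntegrableOn (fun v : ℝ => v ^ k * Real.exp (-(v * u)) * w v) (Set.Ioi 0) := by
  refine Integrable.mono' (lap_pint k hu) (lap_meas k hw.meas u).aestronglyMeasurable ?_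
  filter_upwards [ae_restrict_mem measurableSet_Ioi] with v hv
  have hv0 : (0 : ℝ) < v := hv
  have h1 := hw.nonneg v hv0
  have h2 := hw.le_one v hv0
  have h3 : 0 ≤ v ^ k * Real.exp (-(v * u)) := by positivity
  rw [Real.norm_eq_abs, abs_of_nonneg (mul_nonneg h3 h1)]
  exact mul_le_of_le_one_right h3 h2

theorem lap_deriv (k : ℕ) (w : ℝ → ℝ) (D σ : ℝ) (hw : Wt w D σ) (u : ℝ) (hu : 0 < u) :
    HasDerivAt (lapk k w) (-(lapk (k + 1) w u)) u := by
  have h1 := hasDerivAt_integral_of_dominated_loc_of_deriv_le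
    (μ := volume.restrict (Set.Ioi (0 : ℝ))) (x₀ := u) (s := Set.Ioi (u / 2))
    (F := fun x v => v ^ k * Real.exp (-(v * x)) * w v)
    (F' := fun x v => -(v ^ (k + 1) * Real.exp (-(v * x)) * w v))
    (bound := fun v => v ^ (k + 1) * Real.exp (-(v * (u / 2))))
    (Ioi_mem_nhds (by linarith))
    (Filter.Eventually.of_forall fun x => (lap_meas k hw.meas x).aestronglyMeasurable)
    (lap_int k hw hu) ((lap_meas (k + 1) hw.meas u).neg.aestronglyMeasurable)
    (by
      filter_upwards [ae_restrict_mem measurableSet_Ioi] with v hv x hx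
      have hv0 : (0 : ℝ) < v := hv
      have hx0 : u / 2 < x := hx
      have h1 := hw.nonneg v hv0
      have h2 := hw.le_one v hv0
      have h3 : 0 ≤ v ^ (k + 1) * Real.exp (-(v * x)) := by positivity
      rw [norm_neg, Real.norm_eq_abs, abs_of_nonneg (mul_nonneg h3 h1)]
      refine (mul_le_of_le_one_right h3 h2).trans ?_
      refine mul_le_mul_of_nonneg_left (Real.exp_le_exp.2 ?_) (by positivity)
      nlinarith)
    (lap_pint (k + 1) (by linarith))
    (by
      filter_upwards with v x _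
      have h1 : HasDerivAt (fun x : ℝ => -(v * x)) (-(v * 1)) x :=
        ((hasDerivAt_id x).const_mul v).neg
      have h2 := ((h1.exp).const_mul (v ^ k)).mul_const (w v)
      have h3 : v ^ k * (Real.exp (-(v * x)) * -(v * 1)) * w v =
          -(v ^ (k + 1) * Real.exp (-(v * x)) * w v) := by ring
      rw [h3] at h2
      exact h2)
  have h2 := h1.2
  rw [integral_neg] at h2
  exact h2

theorem lap_nonneg (k : ℕ) (w : ℝ → ℝ) (D σ : ℝ) (hw : Wt w D σ) (u : ℝ) (hu : 0 < u) :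
    0 ≤ lapk k w u := by
  refine setIntegral_nonneg measurableSet_Ioi fun v hv => ?_
  have hv0 : (0 : ℝ) < v := hv
  have h1 := hw.nonneg v hv0
  positivity

theorem lap_low (w : ℝ → ℝ) (D σ : ℝ) (hD : 0 < D) (hσ : 0 ≤ σ) (hw : Wt w D σ) (u : ℝ)
    (hu : D ≤ u) (hu2 : u ≤ 2 * D) : σ * Real.exp (-4) / D ^ 2 ≤ lapk 1 w u := by
  have hu0 : 0 < u := by linarith
  have hD1 : 0 < 1 / D := by positivity
  have hD2 : 1 / D ≤ 2 / D := div_le_div_of_nonneg_right (by norm_num) hD.le
  have hsub : Set.Icc (1 / D) (2 / D) ⊆ Set.Ioi 0 := fun v hv => lt_of_lt_of_le hD1 hv.1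
  have h1 : ∫ v in Set.Icc (1 / D) (2 / D), v ^ 1 * Real.exp (-(v * u)) * w v ≤ lapk 1 w u := by
    refine setIntegral_mono_set (lap_int 1 hw hu0) ?_ (Filter.Eventually.of_forall hsub)
    filter_upwards [ae_restrict_mem measurableSet_Ioi] with v hv
    have hv0 : (0 : ℝ) < v := hv
    have h1 := hw.nonneg v hv0
    show 0 ≤ v ^ 1 * Real.exp (-(v * u)) * w v
    positivity
  have h2 : ∫ _ in Set.Icc (1 / D) (2 / D), 1 / D * Real.exp (-4) * σ ≤
      ∫ v in Set.Icc (1 / D) (2 / D), v ^ 1 * Real.exp (-(v * u)) * w v := by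
    refine setIntegral_mono_on (integrableOn_const (by simp)) ((lap_int 1 hw hu0).mono_set hsub)
      measurableSet_Icc fun v hv => ?_
    have hv0 : (0 : ℝ) < v := hsub hv
    have h3 : v * u ≤ 4 := by
      have h4 : v * u ≤ 2 / D * (2 * D) := mul_le_mul hv.2 hu2 hu0.le (by positivity)
      have h5 : 2 / D * (2 * D) = 4 := by
        field_simp
        norm_num
      linarith
    have h4 : Real.exp (-4) ≤ Real.exp (-(v * u)) := Real.exp_le_exp.2 (by linarith)
    rw [pow_one]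
    refine mul_le_mul ?_ (hw.low v hv.1 hv.2) hσ (by positivity)
    exact mul_le_mul hv.1 h4 (Real.exp_pos _).le hv0.le
  have h3 : ∫ _ in Set.Icc (1 / D) (2 / D), 1 / D * Real.exp (-4) * σ =
      σ * Real.exp (-4) / D ^ 2 := by
    rw [setIntegral_const, Real.volume_real_Icc_of_le hD2, smul_eq_mul]
    field_simp
    ring
  rw [h3] at h2
  exact h2.trans h1

theorem lap_diff (w : ℝ → ℝ) (D σ : ℝ) (hw : Wt w D σ) (u h : ℝ) (hu : 0 < u) (hh : 0 ≤ h) :
    lapk 0 w u - lapk 0 w (u + h) = lapk 0 (fun v => w v * (1 - Real.exp (-(v * h)))) u := by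
  unfold lapk
  rw [← integral_sub (lap_int 0 hw hu) (lap_int 0 hw (by linarith))]
  refine setIntegral_congr_fun measurableSet_Ioi fun v _ => ?_
  show v ^ 0 * Real.exp (-(v * u)) * w v - v ^ 0 * Real.exp (-(v * (u + h))) * w v =
    v ^ 0 * Real.exp (-(v * u)) * (w v * (1 - Real.exp (-(v * h))))
  have h1 : Real.exp (-(v * (u + h))) = Real.exp (-(v * u)) * Real.exp (-(v * h)) := by
    rw [← Real.exp_add]
    congr 1
    ring
  rw [h1]
  ring

theorem wt_diff (w : ℝ → ℝ) (D σ : ℝ) (hD : 0 < D) (hσ : 0 ≤ σ) (hw : Wt w D σ) (h : ℝ)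
    (hh : 0 ≤ h) (hhD : h ≤ D) :
    Wt (fun v => w v * (1 - Real.exp (-(v * h)))) D (σ * h / (2 * D)) := by
  have hexp : ∀ v : ℝ, 0 < v → 0 ≤ 1 - Real.exp (-(v * h)) ∧ 1 - Real.exp (-(v * h)) ≤ 1 := by
    intro v hv
    have h1 : Real.exp (-(v * h)) ≤ 1 := Real.exp_le_one_iff.2 (by
      have := mul_nonneg hv.le hh
      linarith)
    have h2 := Real.exp_pos (-(v * h))
    constructor <;> linarith
  refine ⟨?_, ?_, ?_, ?_⟩
  · have := hw.meas
    fun_prop
  · intro v hv
    exact mul_nonneg (hw.nonneg v hv) (hexp v hv).1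
  · intro v hv
    exact mul_le_one₀ (hw.le_one v hv) (hexp v hv).1 (hexp v hv).2
  · intro v hv1 hv2
    have hv0 : 0 < v := lt_of_lt_of_le (by positivity) hv1
    have hx0 : 0 ≤ h / D := by positivity
    have hx1 : h / D ≤ 1 := (div_le_one hD).2 hhD
    have h1 : h / D ≤ v * h := by
      have h2 := mul_le_mul_of_nonneg_right hv1 hh
      rw [one_div_mul_eq_div] at h2
      exact h2
    have h2 : Real.exp (-(v * h)) ≤ Real.exp (-(h / D)) := Real.exp_le_exp.2 (by linarith)
    have h3 : Real.exp (-(h / D)) ≤ 1 - h / D / 2 := by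
      rw [Real.exp_neg]
      have h4 := Real.add_one_le_exp (h / D)
      have h5 : (Real.exp (h / D))⁻¹ ≤ (h / D + 1)⁻¹ := inv_anti₀ (by linarith) h4
      refine h5.trans ?_
      rw [inv_le_iff_one_le_mul₀ (by linarith)]
      nlinarith
    have h4 : h / D / 2 ≤ 1 - Real.exp (-(v * h)) := by linarith
    have h5 := mul_le_mul (hw.low v hv1 hv2) h4 (by positivity) (hw.nonneg v hv0)
    refine le_trans (le_of_eq ?_) h5
    field_simp

theorem lap_one (u : ℝ) (hu : 0 < u) : lapk 0 (fun _ => 1) u = 1 / u := by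
  have h1 := integral_exp_mul_Ioi (a := -u) (by linarith) 0
  unfold lapk
  have h2 : ∫ v in Set.Ioi (0 : ℝ), v ^ 0 * Real.exp (-(v * u)) * 1 =
      ∫ v in Set.Ioi (0 : ℝ), Real.exp (-u * v) := by
    refine setIntegral_congr_fun measurableSet_Ioi fun v _ => ?_
    show v ^ 0 * Real.exp (-(v * u)) * 1 = Real.exp (-u * v)
    rw [pow_zero, one_mul, mul_one, neg_mul, mul_comm u v]
  rw [h2, h1, mul_zero, Real.exp_zero, neg_div_neg_eq]

theorem wt_one (D : ℝ) : Wt (fun _ => (1 : ℝ)) D 1 := by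
  exact ⟨measurable_const, fun _ _ => zero_le_one, fun _ _ => le_rfl, fun _ _ _ => le_rfl⟩

/-- continuity, for measurability questions -/
theorem lap_cont (k : ℕ) (w : ℝ → ℝ) (D σ : ℝ) (hw : Wt w D σ) :
    ContinuousOn (lapk k w) (Set.Ioi 0) := by
  exact fun u hu => (lap_deriv k w D σ hw u hu).continuousAt.continuousWithinAt

end Pool.Agent.AES
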