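import Pool.Agent.AES.Der
import Pool.Agent.AES.Lap
import Pool.Agent.AES.Exm

/-!
# AES-Bas: the oscillatory integral of `e(τ lapk 0 w)`

The first derivative test gives `≤ K D x`, `x = D / (|τ| σ)`, `K = 3 exp 4 / (2π) ≤ 36`, the trivial bound is `D`;
complex conjugation for `τ < 0`.
-/

set_option autoImplicit false

open MeasureTheory

namespace Pool.Agent.AES

private theorem bas_pos (w : ℝ → ℝ) (D σ τ a b : ℝ) (hD : 0 < D) (hσ : 0 < σ) (hτ : 0 < τ)
    (hw : Wt w D σ) (ha : D ≤ a) (hb : b ≤ 2 * D) (hab : a ≤ b) :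
    ‖∫ u in Set.Icc a b, ex (τ * lapk 0 w u)‖ ≤
      3 / (2 * Real.pi * (τ * (σ * Real.exp (-4) / D ^ 2))) := by
  have hπ := Real.pi_pos
  have hpos : ∀ u ∈ Set.Icc a b, 0 < u := fun u hu => lt_of_lt_of_le hD (ha.trans hu.1)
  rw [integral_Icc_eq_integral_Ioc, ← intervalIntegral.integral_of_le hab]
  refine der (fun u => 2 * Real.pi * (τ * lapk 0 w u)) (fun u => 2 * Real.pi * (τ * -(lapk 1 w u)))
    (fun u => 2 * Real.pi * (τ * lapk 2 w u)) a b _ hab (by positivity) ?_ ?_ ?_ ?_ ?_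
  · intro u hu
    exact ((lap_deriv 0 w D σ hw u (hpos u hu)).const_mul τ).const_mul (2 * Real.pi)
  · intro u hu
    have h := ((lap_deriv 1 w D σ hw u (hpos u hu)).neg.const_mul τ).const_mul (2 * Real.pi)
    rw [neg_neg] at h
    exact h
  · exact continuousOn_const.mul (continuousOn_const.mul
      ((lap_cont 2 w D σ hw).mono fun u hu => hpos u hu))
  · intro u hu
    have h := lap_nonneg 2 w D σ hw u (hpos u hu)
    show 0 ≤ 2 * Real.pi * (τ * lapk 2 w u)
    positivity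
  · intro u hu
    have h := lap_low w D σ hD hσ.le hw u (ha.trans hu.1) (hu.2.trans hb)
    show 2 * Real.pi * (τ * -(lapk 1 w u)) ≤ -(2 * Real.pi * (τ * (σ * Real.exp (-4) / D ^ 2)))
    have h2 := mul_le_mul_of_nonneg_left (mul_le_mul_of_nonneg_left h hτ.le)
      (by positivity : (0 : ℝ) ≤ 2 * Real.pi)
    linarith

private theorem bas_abs (L : ℝ → ℝ) (τ a b : ℝ) :
    ‖∫ u in Set.Icc a b, ex (τ * L u)‖ = ‖∫ u in Set.Icc a b, ex (|τ| * L u)‖ := by
  rcases le_or_gt 0 τ with h | h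
  · rw [abs_of_nonneg h]
  · rw [abs_of_neg h]
    have h1 : ∫ u in Set.Icc a b, ex (-τ * L u) =
        (starRingEnd ℂ) (∫ u in Set.Icc a b, ex (τ * L u)) := by
      rw [← integral_conj]
      refine integral_congr_ae (Filter.Eventually.of_forall fun u => ?_)
      show ex (-τ * L u) = (starRingEnd ℂ) (ex (τ * L u))
      rw [ex_conj, neg_mul]
    rw [h1, RCLike.norm_conj]

private theorem bas_triv (L : ℝ → ℝ) (τ a b : ℝ) (hab : a ≤ b) :
    ‖∫ u in Set.Icc a b, ex (τ * L u)‖ ≤ b - a := by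
  have h := norm_setIntegral_le_of_norm_le_const (μ := volume) (s := Set.Icc a b)
    (f := fun u => ex (τ * L u)) (C := 1) (by rw [Real.volume_Icc]; exact ENNReal.ofReal_lt_top)
    (fun u _ => (ex_norm _).le)
  rw [one_mul, Real.volume_real_Icc_of_le hab] at h
  exact h

private theorem bas_exp : Real.exp 4 ≤ 72 := by
  have h := Real.exp_one_lt_d9
  have h1 : Real.exp 4 = Real.exp 1 ^ 4 := by
    rw [← Real.exp_nat_mul]
    norm_num
  rw [h1]
  have h2 : Real.exp 1 ^ 4 ≤ (2.75 : ℝ) ^ 4 := by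
    have h3 := Real.exp_pos 1
    gcongr
    linarith
  refine h2.trans ?_
  norm_num

theorem bas (w : ℝ → ℝ) (D σ τ a b : ℝ) (hD : 0 < D) (hσ : 0 < σ) (hτ : τ ≠ 0) (hw : Wt w D σ)
    (ha : D ≤ a) (hb : b ≤ 2 * D) :
    ‖∫ u in Set.Icc a b, ex (τ * lapk 0 w u)‖ ≤ 6 * D * (D / (|τ| * σ)) ^ ((1 : ℝ) / 2) := by
  have hτ' : 0 < |τ| := abs_pos.2 hτ
  have hx : 0 < D / (|τ| * σ) := by positivity
  obtain ⟨y, hy⟩ : ∃ y, y = (D / (|τ| * σ)) ^ ((1 : ℝ) / 2) := ⟨_, rfl⟩
  have hy0 : 0 < y := by rw [hy]; positivity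
  have hyy : y ^ 2 = D / (|τ| * σ) := by
    rw [hy, ← Real.sqrt_eq_rpow, Real.sq_sqrt hx.le]
  rw [← hy]
  rcases lt_or_ge b a with hab | hab
  · rw [Set.Icc_eq_empty (not_le.2 hab), setIntegral_empty, norm_zero]
    positivity
  · rw [bas_abs]
    have h1 := bas_triv (lapk 0 w) |τ| a b hab
    have h2 := bas_pos w D σ |τ| a b hD hσ hτ' hw ha hb hab
    rcases le_or_gt 1 (6 * y) with h6 | h6
    · refine h1.trans ?_
      have h3 : D * 1 ≤ D * (6 * y) := mul_le_mul_of_nonneg_left h6 hD.le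
      linarith
    · refine h2.trans ?_
      have hπ := Real.pi_gt_three
      have e1 : 3 / (2 * Real.pi * (|τ| * (σ * Real.exp (-4) / D ^ 2))) =
          3 * Real.exp 4 / (2 * Real.pi) * D * (D / (|τ| * σ)) := by
        rw [Real.exp_neg]
        field_simp
      have e2 : 3 * Real.exp 4 / (2 * Real.pi) ≤ 36 := by
        rw [div_le_iff₀ (by positivity)]
        have := bas_exp
        linarith
      rw [e1, ← hyy]
      calc 3 * Real.exp 4 / (2 * Real.pi) * D * y ^ 2 ≤ 36 * D * y ^ 2 := by gcongr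
        _ = 6 * D * y * (6 * y) := by ring
        _ ≤ 6 * D * y * 1 := by gcongr
        _ = 6 * D * y := by ring

end Pool.Agent.AES
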