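import Pool.Agent.AES.Defs

/-!
# AES-Cfm: the indicator function of the cells; positivity of `Fp` gives a copy

PLAN.  `cf_bx`: measurability of `x ↦ ⌊x⌋₊` and `Int.fract` (`Nat.measurable_floor`,
`measurable_fract`), `A` is finite; if `⌊x⌋₊ ∈ [1,N]` then `1 ≤ x < N+1`.
`cf_copy`: if `Fp ≠ 0` then the integrand is not identically zero on `u ∈ [D,2D]`: there are
`u, x, y` with `cf A ε (x + α_i u) (y + β_j u) ≠ 0` for all `i, j` (if the inner integrands were all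
zero the integral would be zero: `setIntegral_eq_zero_of_forall_eq_zero`, `integral_zero`).  Then
`x_i = ⌊x + α_i u⌋₊`, `y_j = ⌊y + β_j u⌋₊`, `d = u`, `s = x`, `t = y`:
`x_i ≤ x + α_i u < x_i + ε` since `fract < ε` (here `x + α_i u ≥ 1 > 0` because `⌊·⌋₊ ≥ 1`).
-/

set_option autoImplicit false

open MeasureTheory

namespace Pool.Agent.AES

private theorem cfm_ne {A : Finset (ℕ × ℕ)} {ε x y : ℝ} (h : cf A ε x y ≠ 0) :
    (⌊x⌋₊, ⌊y⌋₊) ∈ A ∧ Int.fract x < ε ∧ Int.fract y < ε := by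
  by_contra hcon
  refine h ?_
  unfold cf
  rw [if_neg hcon]

private theorem cfm_fl {z ε : ℝ} (h1 : 1 ≤ ⌊z⌋₊) (h2 : Int.fract z < ε) : |((⌊z⌋₊ : ℕ) : ℝ) - z| ≤ ε := by
  have h3 : (1 : ℝ) ≤ z := by
    by_contra hcon
    push Not at hcon
    have h5 := Nat.floor_eq_zero.2 hcon
    omega
  have h4 : ((⌊z⌋₊ : ℕ) : ℝ) = ((⌊z⌋ : ℤ) : ℝ) := natCast_floor_eq_intCast_floor (by linarith)
  have h5 : z - ((⌊z⌋ : ℤ) : ℝ) = Int.fract z := Int.self_sub_floor z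
  have h6 := Int.fract_nonneg z
  rw [h4, abs_sub_comm, h5, abs_of_nonneg h6]
  exact h2.le

theorem cf_bx (N : ℕ) (A : Finset (ℕ × ℕ)) (hA : A ⊆ Finset.Icc 1 N ×ˢ Finset.Icc 1 N) (ε : ℝ) :
    Bx (cf A ε) ((N : ℝ) + 1) := by
  refine ⟨?_, ?_, ?_, ?_⟩
  · have h1 : MeasurableSet {z : ℝ × ℝ | (⌊z.1⌋₊, ⌊z.2⌋₊) ∈ A ∧ Int.fract z.1 < ε ∧ Int.fract z.2 < ε} := by
      have h2 : Measurable fun z : ℝ × ℝ => (⌊z.1⌋₊, ⌊z.2⌋₊) :=
        (Nat.measurable_floor.comp measurable_fst).prodMk (Nat.measurable_floor.comp measurable_snd)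
      have h3 : MeasurableSet {z : ℝ × ℝ | (⌊z.1⌋₊, ⌊z.2⌋₊) ∈ A} :=
        h2 (A.finite_toSet.measurableSet)
      have h4 : MeasurableSet {z : ℝ × ℝ | Int.fract z.1 < ε} :=
        measurableSet_lt (measurable_fract.comp measurable_fst) measurable_const
      have h5 : MeasurableSet {z : ℝ × ℝ | Int.fract z.2 < ε} :=
        measurableSet_lt (measurable_fract.comp measurable_snd) measurable_const
      exact h3.inter (h4.inter h5)
    have h2 : Function.uncurry (cf A ε) = Set.indicator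
        {z : ℝ × ℝ | (⌊z.1⌋₊, ⌊z.2⌋₊) ∈ A ∧ Int.fract z.1 < ε ∧ Int.fract z.2 < ε} (fun _ => (1 : ℝ)) := by
      funext z
      obtain ⟨x, y⟩ := z
      show cf A ε x y = _
      unfold cf
      by_cases h3 : (⌊x⌋₊, ⌊y⌋₊) ∈ A ∧ Int.fract x < ε ∧ Int.fract y < ε
      · rw [if_pos h3, Set.indicator_of_mem]
        exact h3
      · rw [if_neg h3, Set.indicator_of_notMem]
        exact h3
    rw [h2]
    exact measurable_const.indicator h1
  · intro x y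
    unfold cf
    split_ifs
    · exact zero_le_one
    · exact le_refl _
  · intro x y
    unfold cf
    split_ifs
    · exact le_refl _
    · exact zero_le_one
  · intro x y hxy
    by_contra hcon
    obtain ⟨h1, _, _⟩ := cfm_ne hcon
    have h2 := Finset.mem_product.1 (hA h1)
    have h3 := Finset.mem_Icc.1 h2.1
    have h4 := Finset.mem_Icc.1 h2.2
    dsimp only at h3 h4
    rcases hxy with h | h | h | h
    · have h5 := Nat.floor_of_nonpos h.le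
      omega
    · have h5 : N + 1 ≤ ⌊x⌋₊ := Nat.le_floor (by push_cast; exact h.le)
      omega
    · have h5 := Nat.floor_of_nonpos h.le
      omega
    · have h5 : N + 1 ≤ ⌊y⌋₊ := Nat.le_floor (by push_cast; exact h.le)
      omega

theorem cf_copy (N : ℕ) (A : Finset (ℕ × ℕ)) (hA : A ⊆ Finset.Icc 1 N ×ˢ Finset.Icc 1 N)
    (ε D : ℝ) (hD : 0 < D) (n : ℕ) (hn : 1 ≤ n) (p : Fin n ⊕ Fin n → ℝ)
    (h : Fp (cf A ε) D p ≠ 0) :
    HasCopy (A : Set (ℕ × ℕ)) ε D (fun i => p (Sum.inl i)) (fun j => p (Sum.inr j)) := by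
  have h1 : ∃ u ∈ Set.Icc D (2 * D), ∃ x y : ℝ,
      ∏ i : Fin n, ∏ j : Fin n, cf A ε (x + p (Sum.inl i) * u) (y + p (Sum.inr j) * u) ≠ 0 := by
    by_contra hcon
    push Not at hcon
    refine h ?_
    unfold Fp FF
    refine setIntegral_eq_zero_of_forall_eq_zero ?_
    intro u hu
    have h2 : ∀ x : ℝ, ∫ y : ℝ, u * ∏ i : Fin n, ∏ j : Fin n, cf A ε (x + p (Sum.inl i) * u) (y + p (Sum.inr j) * u) = 0 := by
      intro x
      have h3 : (fun y : ℝ => u * ∏ i : Fin n, ∏ j : Fin n, cf A ε (x + p (Sum.inl i) * u) (y + p (Sum.inr j) * u)) =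
          fun _ => (0 : ℝ) := by
        funext y
        rw [hcon u hu x y, mul_zero]
      rw [h3, integral_zero]
    have h4 : (fun x : ℝ => ∫ y : ℝ, u * ∏ i : Fin n, ∏ j : Fin n, cf A ε (x + p (Sum.inl i) * u) (y + p (Sum.inr j) * u)) =
        fun _ => (0 : ℝ) := funext h2
    rw [h4, integral_zero]
  obtain ⟨u, hu, x, y, hxy⟩ := h1
  have h2 : ∀ i j : Fin n, (⌊x + p (Sum.inl i) * u⌋₊, ⌊y + p (Sum.inr j) * u⌋₊) ∈ A ∧
      Int.fract (x + p (Sum.inl i) * u) < ε ∧ Int.fract (y + p (Sum.inr j) * u) < ε := by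
    intro i j
    have h3 := Finset.prod_ne_zero_iff.1 hxy i (Finset.mem_univ i)
    exact cfm_ne (Finset.prod_ne_zero_iff.1 h3 j (Finset.mem_univ j))
  have h3 : ∀ i j : Fin n, 1 ≤ ⌊x + p (Sum.inl i) * u⌋₊ ∧ 1 ≤ ⌊y + p (Sum.inr j) * u⌋₊ := by
    intro i j
    have h4 := Finset.mem_product.1 (hA (h2 i j).1)
    exact ⟨(Finset.mem_Icc.1 h4.1).1, (Finset.mem_Icc.1 h4.2).1⟩
  refine ⟨u, x, y, hu.1, fun i => ⌊x + p (Sum.inl i) * u⌋₊, fun j => ⌊y + p (Sum.inr j) * u⌋₊, ?_, ?_, ?_⟩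
  · intro i j
    exact Finset.mem_coe.2 (h2 i j).1
  · intro i
    have h4 := cfm_fl (h3 i ⟨0, hn⟩).1 (h2 i ⟨0, hn⟩).2.1
    have h5 : x + u * p (Sum.inl i) = x + p (Sum.inl i) * u := by ring
    show |((⌊x + p (Sum.inl i) * u⌋₊ : ℕ) : ℝ) - (x + u * p (Sum.inl i))| ≤ ε
    rw [h5]
    exact h4
  · intro j
    have h4 := cfm_fl (h3 ⟨0, hn⟩ j).2 (h2 ⟨0, hn⟩ j).2.2
    have h5 : y + u * p (Sum.inr j) = y + p (Sum.inr j) * u := by ring
    show |((⌊y + p (Sum.inr j) * u⌋₊ : ℕ) : ℝ) - (y + u * p (Sum.inr j))| ≤ ε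
    rw [h5]
    exact h4

end Pool.Agent.AES
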