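import Pool.Agent.AES.Plan
import Pool.Agent.AES.Exm

/-!
# AES-FcB: the total mass of `∫_z |ft (a z) (t / r z)|²`

PLAN.  Tonelli (`integral_prod`, `lintegral_lintegral_swap`; or `Integrable` on the product
`volume.prod ν` via `integrable_prod_iff'`): for each `z` the substitution `t = r ξ`
(`MeasureTheory.Measure.integral_comp_div`: `∫ F(t / r) dt = |r| ∫ F`) and `plancherel` give
`∫ ‖ft (a z) (t / r z)‖² dt = r z ∫ (a z y)² dy ≤ 2D · 2X`.  Joint measurability of
`(t, z) ↦ ft (a z) (t / r z)`: `StronglyMeasurable.integral_prod_right`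
(`ex_cont` gives measurability of the kernel).
-/

set_option autoImplicit false

open MeasureTheory

namespace Pool.Agent.AES

variable {Z : Type*} [MeasurableSpace Z] {ν : Measure Z} [IsFiniteMeasure ν]
  {r : Z → ℝ} {a b : Z → ℝ → ℝ} {D X : ℝ}

/-- joint measurability -/
theorem ft_meas (g : Z → ℝ → ℝ) (hg : Measurable (Function.uncurry g)) (hr : Measurable r) :
    Measurable (fun p : ℝ × Z => ft (fun y => (g p.2 y : ℂ)) (p.1 / r p.2)) := by
  have h1 : Measurable (Function.uncurry fun (p : ℝ × Z) (y : ℝ) =>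
      (g p.2 y : ℂ) * ex (-(y * (p.1 / r p.2)))) := by
    have a1 : Measurable fun q : (ℝ × Z) × ℝ => (g q.1.2 q.2 : ℂ) := by
      have : Measurable fun q : (ℝ × Z) × ℝ => Function.uncurry g (q.1.2, q.2) :=
        hg.comp ((measurable_snd.comp measurable_fst).prodMk measurable_snd)
      exact Complex.measurable_ofReal.comp this
    have a2 : Measurable fun q : (ℝ × Z) × ℝ => ex (-(q.2 * (q.1.1 / r q.1.2))) := by
      refine ex_cont.measurable.comp (Measurable.neg (measurable_snd.mul ?_))
      exact (measurable_fst.comp measurable_fst).div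
        (hr.comp (measurable_snd.comp measurable_fst))
    exact a1.mul a2
  exact (h1.stronglyMeasurable.integral_prod_right (ν := volume)).measurable

private theorem fcb_int (P : Pr r a b D X) (z : Z) :
    Integrable (fun y => (a z y : ℂ)) ∧ (∫ y, (a z y) ^ 2) ≤ 2 * X := by
  have hX := P.hX
  have hm : Measurable (a z) := P.ma.comp (measurable_const.prodMk measurable_id)
  have hI : Integrable (Set.indicator (Set.Icc (-X) X) fun _ => (1 : ℝ)) := by
    rw [integrable_indicator_iff measurableSet_Icc]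
    exact integrableOn_const (by rw [Real.volume_Icc]; exact ENNReal.ofReal_ne_top)
  have hle : ∀ y, |a z y| ≤ Set.indicator (Set.Icc (-X) X) (fun _ => (1 : ℝ)) y := by
    intro y
    by_cases hy : y ∈ Set.Icc (-X) X
    · rw [Set.indicator_of_mem hy]
      exact P.ba z y
    · rw [Set.indicator_of_notMem hy]
      have h1 : X < |y| := by
        by_contra h2
        exact hy (abs_le.1 (not_lt.1 h2))
      rw [P.sa z y h1, abs_zero]
  constructor
  · refine hI.mono' (Complex.measurable_ofReal.comp hm).aestronglyMeasurable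
      (Filter.Eventually.of_forall fun y => ?_)
    rw [Complex.norm_real, Real.norm_eq_abs]
    exact hle y
  · have h1 : ∫ y, (a z y) ^ 2 ≤ ∫ y, Set.indicator (Set.Icc (-X) X) (fun _ => (1 : ℝ)) y := by
      refine integral_mono_of_nonneg (Filter.Eventually.of_forall fun y => sq_nonneg _) hI
        (Filter.Eventually.of_forall fun y => ?_)
      have h2 := hle y
      have h3 := P.ba z y
      have h4 := abs_nonneg (a z y)
      show a z y ^ 2 ≤ _
      rw [← sq_abs]
      nlinarith
    rw [integral_indicator measurableSet_Icc, setIntegral_const, smul_eq_mul, mul_one,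
      Measure.real, Real.volume_Icc, ENNReal.toReal_ofReal (by linarith)] at h1
    linarith

private theorem fcb_slice (P : Pr r a b D X) (z : Z) :
    Integrable (fun t => ‖ft (fun y => (a z y : ℂ)) (t / r z)‖ ^ 2) ∧
      ∫ t, ‖ft (fun y => (a z y : ℂ)) (t / r z)‖ ^ 2 = r z * ∫ y, (a z y) ^ 2 := by
  have hr : 0 < r z := P.hD.trans_le (P.rl z)
  obtain ⟨h1, h2⟩ := plancherel (fun y => (a z y : ℂ)) (fcb_int P z).1 1 fun y => by
    rw [Complex.norm_real, Real.norm_eq_abs]
    exact P.ba z y
  refine ⟨h1.comp_div hr.ne', ?_⟩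
  have h3 := Measure.integral_comp_div (fun t => ‖ft (fun y => (a z y : ℂ)) t‖ ^ 2) (r z)
  rw [h3, h2, abs_of_pos hr, smul_eq_mul]
  congr 1
  refine integral_congr_ae (Filter.Eventually.of_forall fun y => ?_)
  show ‖(a z y : ℂ)‖ ^ 2 = a z y ^ 2
  rw [Complex.norm_real, Real.norm_eq_abs, sq_abs]

theorem mass (P : Pr r a b D X) :
    Integrable (fun t => ∫ z, ‖ft (fun y => (a z y : ℂ)) (t / r z)‖ ^ 2 ∂ν) ∧
      ∫ t, ∫ z, ‖ft (fun y => (a z y : ℂ)) (t / r z)‖ ^ 2 ∂ν =
        ∫ z, (r z * ∫ y, (a z y) ^ 2) ∂ν := by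
  have hm : Measurable (Function.uncurry fun (t : ℝ) (z : Z) =>
      ‖ft (fun y => (a z y : ℂ)) (t / r z)‖ ^ 2) := (ft_meas a P.ma P.mr).norm.pow_const 2
  have hsq : Measurable fun z => ∫ y, (a z y) ^ 2 := by
    have h1 : Measurable (Function.uncurry fun (z : Z) (y : ℝ) => (a z y) ^ 2) := P.ma.pow_const 2
    exact (h1.stronglyMeasurable.integral_prod_right (ν := volume)).measurable
  have hI2 : Integrable (fun z => r z * ∫ y, (a z y) ^ 2) ν := by
    refine Integrable.of_bound (P.mr.mul hsq).aestronglyMeasurable (2 * D * (2 * X))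
      (Filter.Eventually.of_forall fun z => ?_)
    have hr : 0 < r z := P.hD.trans_le (P.rl z)
    have h0 : 0 ≤ ∫ y, (a z y) ^ 2 := integral_nonneg fun y => sq_nonneg _
    rw [Real.norm_eq_abs, abs_of_nonneg (mul_nonneg hr.le h0)]
    exact mul_le_mul (P.ru z) (fcb_int P z).2 h0 (by linarith [P.hD])
  have hI : Integrable (Function.uncurry fun (t : ℝ) (z : Z) =>
      ‖ft (fun y => (a z y : ℂ)) (t / r z)‖ ^ 2) (volume.prod ν) := by
    rw [integrable_prod_iff' hm.aestronglyMeasurable]
    refine ⟨Filter.Eventually.of_forall fun z => (fcb_slice P z).1, ?_⟩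
    refine hI2.congr (Filter.Eventually.of_forall fun z => ?_)
    show r z * ∫ y, (a z y) ^ 2 = ∫ t, ‖‖ft (fun y => (a z y : ℂ)) (t / r z)‖ ^ 2‖
    rw [← (fcb_slice P z).2]
    refine integral_congr_ae (Filter.Eventually.of_forall fun t => ?_)
    show ‖ft (fun y => (a z y : ℂ)) (t / r z)‖ ^ 2 = ‖‖ft (fun y => (a z y : ℂ)) (t / r z)‖ ^ 2‖
    rw [Real.norm_eq_abs, abs_of_nonneg (sq_nonneg _)]
  refine ⟨hI.integral_prod_left, ?_⟩
  rw [integral_integral_swap hI]
  exact integral_congr_ae (Filter.Eventually.of_forall fun z => (fcb_slice P z).2)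

end Pool.Agent.AES
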