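import Pool.Agent.AES.FcA
import Pool.Agent.AES.FcB

/-!
# AES-Fc: the main inequality for correlations (Fourier transform and Cauchy-Schwarz)

PLAN.  `h β = Co (β + s) - Co β` is bounded and integrable (`co_bdd`, `co_int`), so by `plancherel`
`∫ h² = ∫ ‖ft h t‖² dt`, and `ft h t = (ex (t s) - 1) ft Co t` by `ft_shift` (and linearity of the
integral).  By `co_ft` and the Cauchy-Schwarz inequality for `∫ … ∂ν` (for instance
`norm_integral_le_integral_norm` and `integral_mul_le_Lp_mul_Lq_of_nonneg` with `p = q = 2`, or the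
discriminant trick)
`‖ft Co t‖² ≤ (∫_z ‖ft (a z) (t/r z)‖²) (∫_z ‖ft (b z) (t/r z)‖²)`, hence
`‖ft h t‖² ≤ S ∫_z ‖ft (a z) (t/r z)‖²` by hypothesis; integrate and use `mass`.
-/

set_option autoImplicit false

open MeasureTheory

namespace Pool.Agent.AES

variable {Z : Type*} [MeasurableSpace Z] {ν : Measure Z} [IsFiniteMeasure ν]
  {r : Z → ℝ} {a b : Z → ℝ → ℝ} {D X : ℝ}

private theorem int_mul_ex {g : ℝ → ℂ} (hg : Integrable g) (t : ℝ) : Integrable (fun y => g y * ex (-(y * t))) := by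
  refine hg.mono ?_ ?_
  · refine hg.aestronglyMeasurable.mul ?_
    exact (ex_cont.comp (continuous_id.mul continuous_const).neg).aestronglyMeasurable
  · refine Filter.Eventually.of_forall fun y => ?_
    rw [norm_mul, ex_norm, mul_one]

private theorem ft_real_le {g : ℝ → ℝ} {X : ℝ} (hX : 0 < X) (hb : ∀ y, |g y| ≤ 1) (hs : ∀ y, X < |y| → g y = 0) (t : ℝ) :
    ‖ft (fun y => (g y : ℂ)) t‖ ≤ 2 * X := by
  refine (ft_norm_le _ t).trans ?_
  have h1 : ∀ y, ‖(g y : ℂ)‖ ≤ (Set.Icc (-X) X).indicator (fun _ => (1 : ℝ)) y := by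
    intro y
    by_cases hy : y ∈ Set.Icc (-X) X
    · rw [Set.indicator_of_mem hy, Complex.norm_real]
      exact hb y
    · rw [Set.indicator_of_notMem hy, hs y]
      · simp
      · by_contra hc
        exact hy (abs_le.1 (not_lt.1 hc))
  calc ∫ y, ‖(g y : ℂ)‖ ≤ ∫ y, (Set.Icc (-X) X).indicator (fun _ => (1 : ℝ)) y := by
        refine integral_mono_of_nonneg (Filter.Eventually.of_forall fun y => norm_nonneg _) ?_
          (Filter.Eventually.of_forall h1)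
        rw [integrable_indicator_iff measurableSet_Icc]
        exact integrableOn_const (by simp)
    _ = 2 * X := by
        rw [integral_indicator_const _ measurableSet_Icc, Real.volume_real_Icc_of_le (by linarith)]
        simp only [smul_eq_mul, mul_one]
        ring

private theorem cs {u v : Z → ℂ} {K : ℝ} (hu : Measurable u) (hv : Measurable v) (hu' : ∀ z, ‖u z‖ ≤ K)
    (hv' : ∀ z, ‖v z‖ ≤ K) :
    ‖∫ z, (starRingEnd ℂ) (u z) * v z ∂ν‖ ^ 2 ≤ (∫ z, ‖u z‖ ^ 2 ∂ν) * ∫ z, ‖v z‖ ^ 2 ∂ν := by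
  have mu : MemLp (fun z => ‖u z‖) (ENNReal.ofReal 2) ν :=
    MemLp.of_bound hu.norm.aestronglyMeasurable K (Filter.Eventually.of_forall fun z => by
      rw [norm_norm]
      exact hu' z)
  have mv : MemLp (fun z => ‖v z‖) (ENNReal.ofReal 2) ν :=
    MemLp.of_bound hv.norm.aestronglyMeasurable K (Filter.Eventually.of_forall fun z => by
      rw [norm_norm]
      exact hv' z)
  have h1 := integral_mul_le_Lp_mul_Lq_of_nonneg (μ := ν) (p := 2) (q := 2) Real.HolderConjugate.two_two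
    (Filter.Eventually.of_forall fun z => norm_nonneg (u z)) (Filter.Eventually.of_forall fun z => norm_nonneg (v z)) mu mv
  have h2 : ‖∫ z, (starRingEnd ℂ) (u z) * v z ∂ν‖ ≤ ∫ z, ‖u z‖ * ‖v z‖ ∂ν := by
    refine (norm_integral_le_integral_norm _).trans (le_of_eq ?_)
    refine integral_congr_ae (Filter.Eventually.of_forall fun z => ?_)
    show ‖(starRingEnd ℂ) (u z) * v z‖ = ‖u z‖ * ‖v z‖
    rw [norm_mul, RCLike.norm_conj]
  simp only [Real.rpow_ofNat] at h1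
  rw [← Real.sqrt_eq_rpow, ← Real.sqrt_eq_rpow] at h1
  have hA : 0 ≤ ∫ z, ‖u z‖ ^ 2 ∂ν := integral_nonneg fun z => sq_nonneg _
  have hB : 0 ≤ ∫ z, ‖v z‖ ^ 2 ∂ν := integral_nonneg fun z => sq_nonneg _
  calc ‖∫ z, (starRingEnd ℂ) (u z) * v z ∂ν‖ ^ 2
      ≤ (√(∫ z, ‖u z‖ ^ 2 ∂ν) * √(∫ z, ‖v z‖ ^ 2 ∂ν)) ^ 2 :=
        pow_le_pow_left₀ (norm_nonneg _) (h2.trans h1) 2
    _ = (∫ z, ‖u z‖ ^ 2 ∂ν) * ∫ z, ‖v z‖ ^ 2 ∂ν := by
        rw [mul_pow, Real.sq_sqrt hA, Real.sq_sqrt hB]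

theorem fc (P : Pr r a b D X) (s S : ℝ) (hS : 0 ≤ S)
    (h : ∀ t : ℝ, t ≠ 0 →
      ‖ex (t * s) - 1‖ ^ 2 * ∫ z, ‖ft (fun y => (b z y : ℂ)) (t / r z)‖ ^ 2 ∂ν ≤ S) :
    Integrable (fun β => (Co ν r a b (β + s) - Co ν r a b β) ^ 2) ∧
      ∫ β, (Co ν r a b (β + s) - Co ν r a b β) ^ 2 ≤ S * ∫ z, (r z * ∫ y, (a z y) ^ 2) ∂ν := by
  have hCi : Integrable (Co ν r a b) := co_int P
  have hCs : Integrable (fun β => Co ν r a b (β + s)) := hCi.comp_add_right s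
  have hCb := co_bdd (ν := ν) P
  set K : ℝ := 2 * D * (2 * X) * ν.real Set.univ with hK
  have hCc : Integrable (fun β => ((Co ν r a b β : ℝ) : ℂ)) := hCi.ofReal
  have hCcs : Integrable (fun β => ((Co ν r a b (β + s) : ℝ) : ℂ)) := hCs.ofReal
  have hgi : Integrable (fun β => ((Co ν r a b (β + s) - Co ν r a b β : ℝ) : ℂ)) := (hCs.sub hCi).ofReal
  have hgb : ∀ β, ‖((Co ν r a b (β + s) - Co ν r a b β : ℝ) : ℂ)‖ ≤ 2 * K := by
    intro β
    rw [Complex.norm_real, Real.norm_eq_abs]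
    refine (abs_sub _ _).trans ?_
    have h1 := hCb (β + s)
    have h2 := hCb β
    linarith
  obtain ⟨hpl1, hpl2⟩ := plancherel _ hgi (2 * K) hgb
  have hft : ∀ t, ft (fun β => ((Co ν r a b (β + s) - Co ν r a b β : ℝ) : ℂ)) t =
      (ex (t * s) - 1) * ft (fun β => ((Co ν r a b β : ℝ) : ℂ)) t := by
    intro t
    have h1 : ft (fun β => ((Co ν r a b (β + s) - Co ν r a b β : ℝ) : ℂ)) t =
        ft (fun β => ((Co ν r a b (β + s) : ℝ) : ℂ)) t - ft (fun β => ((Co ν r a b β : ℝ) : ℂ)) t := by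
      unfold ft
      rw [← integral_sub (int_mul_ex hCcs t) (int_mul_ex hCc t)]
      refine integral_congr_ae (Filter.Eventually.of_forall fun y => ?_)
      show ((Co ν r a b (y + s) - Co ν r a b y : ℝ) : ℂ) * ex (-(y * t)) =
        ((Co ν r a b (y + s) : ℝ) : ℂ) * ex (-(y * t)) - ((Co ν r a b y : ℝ) : ℂ) * ex (-(y * t))
      rw [Complex.ofReal_sub, sub_mul]
    have h2 := ft_shift (fun β => ((Co ν r a b β : ℝ) : ℂ)) s t
    rw [h1, h2]
    ring
  obtain ⟨hm1, hm2⟩ := mass (ν := ν) P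
  have hle : ∀ t, ‖ft (fun β => ((Co ν r a b (β + s) - Co ν r a b β : ℝ) : ℂ)) t‖ ^ 2 ≤
      S * ∫ z, ‖ft (fun y => (a z y : ℂ)) (t / r z)‖ ^ 2 ∂ν := by
    intro t
    have hA : 0 ≤ ∫ z, ‖ft (fun y => (a z y : ℂ)) (t / r z)‖ ^ 2 ∂ν := integral_nonneg fun z => sq_nonneg _
    rw [hft t, norm_mul, mul_pow]
    by_cases ht : t = 0
    · rw [ht, zero_mul, ex_zero, sub_self, norm_zero]
      rw [ht] at hA
      have := mul_nonneg hS hA
      simpa using this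
    · have hcs : ‖ft (fun β => ((Co ν r a b β : ℝ) : ℂ)) t‖ ^ 2 ≤
          (∫ z, ‖ft (fun y => (a z y : ℂ)) (t / r z)‖ ^ 2 ∂ν) *
            ∫ z, ‖ft (fun y => (b z y : ℂ)) (t / r z)‖ ^ 2 ∂ν := by
        rw [co_ft P t]
        refine cs (K := 2 * X) ?_ ?_ ?_ ?_
        · exact (ft_meas a P.ma P.mr).comp measurable_prodMk_left
        · exact (ft_meas b P.mb P.mr).comp measurable_prodMk_left
        · exact fun z => ft_real_le P.hX (P.ba z) (P.sa z) _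
        · exact fun z => ft_real_le P.hX (P.bb z) (P.sb z) _
      calc ‖ex (t * s) - 1‖ ^ 2 * ‖ft (fun β => ((Co ν r a b β : ℝ) : ℂ)) t‖ ^ 2
          ≤ ‖ex (t * s) - 1‖ ^ 2 * ((∫ z, ‖ft (fun y => (a z y : ℂ)) (t / r z)‖ ^ 2 ∂ν) *
            ∫ z, ‖ft (fun y => (b z y : ℂ)) (t / r z)‖ ^ 2 ∂ν) :=
            mul_le_mul_of_nonneg_left hcs (sq_nonneg _)
        _ = (‖ex (t * s) - 1‖ ^ 2 * ∫ z, ‖ft (fun y => (b z y : ℂ)) (t / r z)‖ ^ 2 ∂ν) *
            ∫ z, ‖ft (fun y => (a z y : ℂ)) (t / r z)‖ ^ 2 ∂ν := by ring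
        _ ≤ S * ∫ z, ‖ft (fun y => (a z y : ℂ)) (t / r z)‖ ^ 2 ∂ν :=
            mul_le_mul_of_nonneg_right (h t ht) hA
  have hsq : ∀ β, ‖((Co ν r a b (β + s) - Co ν r a b β : ℝ) : ℂ)‖ ^ 2 = (Co ν r a b (β + s) - Co ν r a b β) ^ 2 := by
    intro β
    rw [Complex.norm_real, Real.norm_eq_abs, sq_abs]
  refine ⟨?_, ?_⟩
  · refine ((hCs.sub hCi).norm.const_mul (2 * K)).mono ?_ ?_
    · exact ((hCs.sub hCi).aestronglyMeasurable.pow 2)
    · refine Filter.Eventually.of_forall fun β => ?_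
      have h1 := hgb β
      have h3 : ‖((Co ν r a b (β + s) - Co ν r a b β : ℝ) : ℂ)‖ = |Co ν r a b (β + s) - Co ν r a b β| := by
        rw [Complex.norm_real, Real.norm_eq_abs]
      rw [h3] at h1
      show ‖(Co ν r a b (β + s) - Co ν r a b β) ^ 2‖ ≤ ‖2 * K * ‖Co ν r a b (β + s) - Co ν r a b β‖‖
      have h4 : 0 ≤ 2 * K := (abs_nonneg _).trans h1
      rw [norm_pow, Real.norm_eq_abs, Real.norm_eq_abs, abs_mul, abs_of_nonneg h4, abs_abs, sq]
      exact mul_le_mul_of_nonneg_right h1 (abs_nonneg _)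
  · have h1 : ∫ β, (Co ν r a b (β + s) - Co ν r a b β) ^ 2 =
        ∫ t, ‖ft (fun β => ((Co ν r a b (β + s) - Co ν r a b β : ℝ) : ℂ)) t‖ ^ 2 := by
      rw [hpl2]
      exact integral_congr_ae (Filter.Eventually.of_forall fun β => (hsq β).symm)
    rw [h1, ← hm2, ← integral_const_mul]
    exact integral_mono hpl1 (hm1.const_mul S) hle

end Pool.Agent.AES
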