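import Pool.Agent.AES.Spec
import Pool.Agent.AES.Fc

/-!
# AES-Cor: one strip

PLAN.  `Z = ℝ × ℝ ∋ z = (u, x)`, `ν` = Lebesgue measure restricted to
`{(u,x) : u ∈ [D,2D], x + α₀ u ∈ [0,R]}` (finite: measure `D R`), `r z = max D (min z.1 (2D))`
(equal to `u` on the support of `ν`), `a z y = G u x y 1_{[c,c+D)}(y)`,
`b z Y = (∏_i f(x + α_i u, Y)) 1_{[c,c+5D]}(Y)`, `X = |c| + 5D`.  Then `Ph = Co ν r a b`
(if `x + α₀ u ∉ [0,R]` the product over `i` vanishes; `integral_prod`, `setIntegral`).  Hypothesis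
of `fc` with `S = 13 C R D³ T^(-κ)`, `κ = (1/2)^n ≤ 1`: `spec` (the integral over `ν` is the iterated
integral; nonnegative integrand) and `exb`.  Finally
`∫_z r ∫_y a² ≤ 2D · D · (D R)`, so the result is `≤ 26 C R² D⁶ T^(-κ) = 26 C (R D³)² T^(-κ)`.
-/

set_option autoImplicit false

open MeasureTheory

namespace Pool.Agent.AES

/-- the base set -/
private def KK (D R a0 : ℝ) : Set (ℝ × ℝ) :=
  {z | (D ≤ z.1 ∧ z.1 ≤ 2 * D) ∧ (0 ≤ z.2 + a0 * z.1 ∧ z.2 + a0 * z.1 ≤ R)}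

private theorem kk_meas (D R a0 : ℝ) : MeasurableSet (KK D R a0) := by
  have h1 : Continuous fun z : ℝ × ℝ => z.2 + a0 * z.1 := by fun_prop
  have h2 : IsClosed (KK D R a0) :=
    ((isClosed_le continuous_const continuous_fst).inter (isClosed_le continuous_fst continuous_const)).inter
      ((isClosed_le continuous_const h1).inter (isClosed_le h1 continuous_const))
  exact h2.measurableSet

private theorem kk_vol {D R : ℝ} (hD : 0 < D) (hR : 0 < R) (a0 : ℝ) :
    volume (KK D R a0) ≤ ENNReal.ofReal (D * R) := by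
  rw [Measure.volume_eq_prod, Measure.prod_apply (kk_meas D R a0)]
  have h1 : ∀ u : ℝ, volume (Prod.mk u ⁻¹' KK D R a0) ≤
      (Set.Icc D (2 * D)).indicator (fun _ => ENNReal.ofReal R) u := by
    intro u
    by_cases hu : u ∈ Set.Icc D (2 * D)
    · rw [Set.indicator_of_mem hu]
      have h2 : Prod.mk u ⁻¹' KK D R a0 ⊆ Set.Icc (-(a0 * u)) (R - a0 * u) := by
        rintro x ⟨-, h3, h4⟩
        simp only at h3 h4
        exact ⟨by linarith, by linarith⟩
      refine (measure_mono h2).trans ?_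
      rw [Real.volume_Icc]
      apply ENNReal.ofReal_le_ofReal
      linarith
    · rw [Set.indicator_of_notMem hu]
      have h2 : Prod.mk u ⁻¹' KK D R a0 = ∅ := by
        ext x
        constructor
        · rintro ⟨h3, -⟩
          exact absurd h3 hu
        · intro h3
          exact absurd h3 (Set.notMem_empty x)
      rw [h2, measure_empty]
  refine (lintegral_mono h1).trans ?_
  rw [lintegral_indicator measurableSet_Icc, setLIntegral_const, Real.volume_Icc, mul_comm D R,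
    ENNReal.ofReal_mul hR.le]
  have h3 : 2 * D - D = D := by ring
  rw [h3]

private theorem kk_fin {D R : ℝ} (hD : 0 < D) (hR : 0 < R) (a0 : ℝ) : volume (KK D R a0) < ⊤ :=
  lt_of_le_of_lt (kk_vol hD hR a0) ENNReal.ofReal_lt_top

private theorem kk_real {D R : ℝ} (hD : 0 < D) (hR : 0 < R) (a0 : ℝ) :
    (volume (KK D R a0)).toReal ≤ D * R := by
  refine ENNReal.toReal_le_of_le_ofReal (by positivity) (kk_vol hD hR a0)

/-- iterated integrals of functions which vanish off the base set -/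
private theorem kk_iter {D R : ℝ} (hD : 0 < D) (hR : 0 < R) (a0 : ℝ) {H : ℝ × ℝ → ℝ} {M : ℝ}
    (hm : Measurable H) (hb : ∀ z ∈ KK D R a0, ‖H z‖ ≤ M)
    (h0 : ∀ z : ℝ × ℝ, z.1 ∈ Set.Icc D (2 * D) → z ∉ KK D R a0 → H z = 0) :
    ∫ z in KK D R a0, H z = ∫ u in Set.Icc D (2 * D), ∫ x, H (u, x) := by
  have hsub : KK D R a0 ⊆ Set.Icc D (2 * D) ×ˢ Set.univ := fun z hz => ⟨hz.1, Set.mem_univ _⟩
  have hmp : MeasurableSet (Set.Icc D (2 * D) ×ˢ (Set.univ : Set ℝ)) := measurableSet_Icc.prod MeasurableSet.univ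
  have h1 : IntegrableOn H (KK D R a0) :=
    Measure.integrableOn_of_bounded (M := M) (kk_fin hD hR a0).ne hm.aestronglyMeasurable
      ((ae_restrict_iff' (kk_meas D R a0)).2 (Filter.Eventually.of_forall hb))
  have h2 : IntegrableOn H (Set.Icc D (2 * D) ×ˢ Set.univ) := by
    refine h1.of_forall_sdiff_eq_zero hmp ?_
    rintro z ⟨hz1, hz2⟩
    exact h0 z hz1.1 hz2
  have h3 : ∫ z in Set.Icc D (2 * D) ×ˢ Set.univ, H z = ∫ z in KK D R a0, H z := by
    refine setIntegral_eq_of_subset_of_forall_sdiff_eq_zero hmp hsub ?_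
    rintro z ⟨hz1, hz2⟩
    exact h0 z hz1.1 hz2
  rw [← h3]
  rw [Measure.volume_eq_prod] at h2 ⊢
  rw [setIntegral_prod H h2]
  simp only [Measure.restrict_univ]

section aux

variable {n : ℕ} (f : ℝ → ℝ → ℝ) (D : ℝ) (α : Fin n → ℝ) (G : ℝ → ℝ → ℝ → ℝ) (c : ℝ)

private noncomputable def rr (z : ℝ × ℝ) : ℝ := max D (min z.1 (2 * D))

private noncomputable def aa (z : ℝ × ℝ) (y : ℝ) : ℝ :=
  G z.1 z.2 y * Set.indicator (Set.Ico c (c + D)) (fun _ => (1 : ℝ)) y

private noncomputable def bb (z : ℝ × ℝ) (Y : ℝ) : ℝ :=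
  (∏ i, f (z.2 + α i * z.1) Y) * Set.indicator (Set.Icc c (c + 5 * D)) (fun _ => (1 : ℝ)) Y

end aux

private theorem rr_eq {D : ℝ} {z : ℝ × ℝ} (h : z.1 ∈ Set.Icc D (2 * D)) : rr D z = z.1 := by
  unfold rr
  rw [min_eq_left h.2, max_eq_right h.1]

private theorem prod01 {n : ℕ} {g : Fin n → ℝ} (h0 : ∀ i, 0 ≤ g i) (h1 : ∀ i, g i ≤ 1) :
    0 ≤ ∏ i, g i ∧ ∏ i, g i ≤ 1 :=
  ⟨Finset.prod_nonneg fun i _ => h0 i, Finset.prod_le_one (fun i _ => h0 i) fun i _ => h1 i⟩

private theorem ind01 (S : Set ℝ) (y : ℝ) :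
    0 ≤ Set.indicator S (fun _ => (1 : ℝ)) y ∧ Set.indicator S (fun _ => (1 : ℝ)) y ≤ 1 := by
  by_cases h : y ∈ S
  · rw [Set.indicator_of_mem h]
    exact ⟨zero_le_one, le_rfl⟩
  · rw [Set.indicator_of_notMem h]
    exact ⟨le_rfl, zero_le_one⟩

private theorem mul01 {x y : ℝ} (hx : 0 ≤ x ∧ x ≤ 1) (hy : 0 ≤ y ∧ y ≤ 1) : 0 ≤ x * y ∧ x * y ≤ 1 :=
  ⟨mul_nonneg hx.1 hy.1, mul_le_one₀ hx.2 hy.1 hy.2⟩

section main

variable {n : ℕ} {f : ℝ → ℝ → ℝ} {R D : ℝ} {α : Fin n → ℝ} {G : ℝ → ℝ → ℝ → ℝ} {c : ℝ}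

private theorem bb01 (hf : Bx f R) (z : ℝ × ℝ) (Y : ℝ) : 0 ≤ bb f D α c z Y ∧ bb f D α c z Y ≤ 1 :=
  mul01 (prod01 (fun _ => hf.nonneg _ _) fun _ => hf.le_one _ _) (ind01 _ _)

private theorem aa01 (hG : ∀ u x y, 0 ≤ G u x y ∧ G u x y ≤ 1) (z : ℝ × ℝ) (y : ℝ) :
    0 ≤ aa D G c z y ∧ aa D G c z y ≤ 1 :=
  mul01 (hG _ _ _) (ind01 _ _)

private theorem aa_meas (hGm : Measurable (fun z : ℝ × ℝ × ℝ => G z.1 z.2.1 z.2.2)) :
    Measurable (Function.uncurry (aa D G c)) := by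
  have h1 : Measurable fun p : (ℝ × ℝ) × ℝ => G p.1.1 p.1.2 p.2 := by
    have h2 : Measurable fun p : (ℝ × ℝ) × ℝ => ((p.1.1, p.1.2, p.2) : ℝ × ℝ × ℝ) := by fun_prop
    exact hGm.comp h2
  have h3 : Measurable fun p : (ℝ × ℝ) × ℝ => Set.indicator (Set.Ico c (c + D)) (fun _ => (1 : ℝ)) p.2 :=
    (measurable_const.indicator measurableSet_Ico).comp measurable_snd
  exact h1.mul h3

private theorem bb_meas (hf : Bx f R) : Measurable (Function.uncurry (bb f D α c)) := by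
  have h1 : Measurable fun p : (ℝ × ℝ) × ℝ => ∏ i, f (p.1.2 + α i * p.1.1) p.2 := by
    refine Finset.measurable_prod _ fun i _ => ?_
    have h2 : Measurable fun p : (ℝ × ℝ) × ℝ => ((p.1.2 + α i * p.1.1, p.2) : ℝ × ℝ) := by fun_prop
    exact hf.meas.comp h2
  have h3 : Measurable fun p : (ℝ × ℝ) × ℝ => Set.indicator (Set.Icc c (c + 5 * D)) (fun _ => (1 : ℝ)) p.2 :=
    (measurable_const.indicator measurableSet_Icc).comp measurable_snd
  exact h1.mul h3

private theorem prH (hD : 0 < D) (hf : Bx f R) (hGm : Measurable (fun z : ℝ × ℝ × ℝ => G z.1 z.2.1 z.2.2))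
    (hG : ∀ u x y, 0 ≤ G u x y ∧ G u x y ≤ 1) :
    Pr (rr D) (aa D G c) (bb f D α c) D (|c| + 5 * D) where
  hD := hD
  hX := by positivity
  mr := measurable_const.max (measurable_fst.min measurable_const)
  rl := fun z => le_max_left _ _
  ru := fun z => max_le (by linarith) (min_le_right _ _)
  ma := aa_meas hGm
  mb := bb_meas hf
  ba := fun z y => by
    rw [abs_of_nonneg (aa01 hG z y).1]
    exact (aa01 hG z y).2
  bb := fun z y => by
    rw [abs_of_nonneg (bb01 hf z y).1]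
    exact (bb01 hf z y).2
  sa := fun z y hy => by
    unfold aa
    rw [Set.indicator_of_notMem, mul_zero]
    rintro ⟨h1, h2⟩
    have h3 : |y| ≤ |c| + 5 * D := abs_le.2 ⟨by linarith [neg_abs_le c], by linarith [le_abs_self c]⟩
    linarith
  sb := fun z y hy => by
    unfold bb
    rw [Set.indicator_of_notMem, mul_zero]
    rintro ⟨h1, h2⟩
    have h3 : |y| ≤ |c| + 5 * D := abs_le.2 ⟨by linarith [neg_abs_le c], by linarith [le_abs_self c]⟩
    linarith

/-- the product vanishes off the base set -/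
private theorem prod0 (hf : Bx f R) (i0 : Fin n) {z : ℝ × ℝ} (hz : z.1 ∈ Set.Icc D (2 * D))
    (hz2 : z ∉ KK D R (α i0)) (Y : ℝ) : ∏ i, f (z.2 + α i * z.1) Y = 0 := by
  refine Finset.prod_eq_zero (Finset.mem_univ i0) (hf.zero _ _ ?_)
  by_contra hc
  push Not at hc
  exact hz2 ⟨hz, hc.1, hc.2.1⟩

private theorem ph_co (hD : 0 < D) (hR : 0 < R) (hf : Bx f R)
    (hGm : Measurable (fun z : ℝ × ℝ × ℝ => G z.1 z.2.1 z.2.2))
    (hG : ∀ u x y, 0 ≤ G u x y ∧ G u x y ≤ 1) (i0 : Fin n) (β : ℝ) :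
    Ph f D α G c β = Co (volume.restrict (KK D R (α i0))) (rr D) (aa D G c) (bb f D α c) β := by
  obtain ⟨H, hH⟩ : ∃ H : ℝ × ℝ → ℝ, H = fun z => ∫ y in Set.Ico c (c + D),
    z.1 * (G z.1 z.2 y * ((∏ i, f (z.2 + α i * z.1) (y + β * z.1)) *
      Set.indicator (Set.Icc c (c + 5 * D)) (fun _ => (1 : ℝ)) (y + β * z.1))) := ⟨_, rfl⟩
  have hm : Measurable H := by
    rw [hH]
    have h1 : Measurable fun p : (ℝ × ℝ) × ℝ =>
        p.1.1 * (G p.1.1 p.1.2 p.2 * ((∏ i, f (p.1.2 + α i * p.1.1) (p.2 + β * p.1.1)) *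
          Set.indicator (Set.Icc c (c + 5 * D)) (fun _ => (1 : ℝ)) (p.2 + β * p.1.1))) := by
      have h2 : Measurable fun p : (ℝ × ℝ) × ℝ => G p.1.1 p.1.2 p.2 := by
        have h2 : Measurable fun p : (ℝ × ℝ) × ℝ => ((p.1.1, p.1.2, p.2) : ℝ × ℝ × ℝ) := by fun_prop
        exact hGm.comp h2
      have h3 : Measurable fun p : (ℝ × ℝ) × ℝ => ((p.1, p.2 + β * p.1.1) : (ℝ × ℝ) × ℝ) := by fun_prop
      have h4 := (bb_meas (D := D) (α := α) (c := c) hf).comp h3
      have h5 : Measurable fun p : (ℝ × ℝ) × ℝ => p.1.1 := by fun_prop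
      exact h5.mul (h2.mul h4)
    exact (h1.stronglyMeasurable.integral_prod_right (ν := volume.restrict (Set.Ico c (c + D)))).measurable
  have hb : ∀ z ∈ KK D R (α i0), ‖H z‖ ≤ 2 * D * D := by
    intro z hz
    rw [hH]
    have h1 : ∀ y ∈ Set.Ico c (c + D), ‖z.1 * (G z.1 z.2 y * ((∏ i, f (z.2 + α i * z.1) (y + β * z.1)) *
        Set.indicator (Set.Icc c (c + 5 * D)) (fun _ => (1 : ℝ)) (y + β * z.1)))‖ ≤ 2 * D := by
      intro y _
      have h2 := mul01 (hG z.1 z.2 y) (bb01 (D := D) (α := α) (c := c) hf z (y + β * z.1))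
      have h3 : 0 ≤ z.1 := le_trans hD.le hz.1.1
      have h4 : 0 ≤ z.1 * (G z.1 z.2 y * bb f D α c z (y + β * z.1)) := mul_nonneg h3 h2.1
      have h5 : z.1 * (G z.1 z.2 y * bb f D α c z (y + β * z.1)) ≤ 2 * D * 1 :=
        mul_le_mul hz.1.2 h2.2 h2.1 (by linarith)
      rw [mul_one] at h5
      have h6 : ‖z.1 * (G z.1 z.2 y * bb f D α c z (y + β * z.1))‖ ≤ 2 * D := by
        rw [Real.norm_of_nonneg h4]
        exact h5
      exact h6
    refine (norm_setIntegral_le_of_norm_le_const measure_Ico_lt_top h1).trans ?_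
    rw [measureReal_def, Real.volume_Ico, ENNReal.toReal_ofReal (by linarith)]
    apply le_of_eq
    ring
  have h0 : ∀ z : ℝ × ℝ, z.1 ∈ Set.Icc D (2 * D) → z ∉ KK D R (α i0) → H z = 0 := by
    intro z hz hz2
    rw [hH]
    simp only
    rw [← integral_zero ℝ ℝ (μ := volume.restrict (Set.Ico c (c + D)))]
    refine integral_congr_ae (Filter.Eventually.of_forall fun y => ?_)
    simp only
    rw [prod0 hf i0 hz hz2, zero_mul, mul_zero, mul_zero]
  have h1 := kk_iter hD hR (α i0) hm hb h0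
  have h2 : Ph f D α G c β = ∫ u in Set.Icc D (2 * D), ∫ x, H (u, x) := by
    rw [hH]
    rfl
  rw [h2, ← h1]
  unfold Co
  refine setIntegral_congr_fun (kk_meas D R (α i0)) fun z hz => ?_
  rw [rr_eq hz.1, hH]
  simp only
  rw [integral_const_mul, ← integral_indicator measurableSet_Ico]
  congr 1
  refine integral_congr_ae (Filter.Eventually.of_forall fun y => ?_)
  simp only
  unfold aa bb
  by_cases hy : y ∈ Set.Ico c (c + D)
  · rw [Set.indicator_of_mem hy, Set.indicator_of_mem hy, mul_one]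
  · rw [Set.indicator_of_notMem hy, Set.indicator_of_notMem hy, mul_zero, zero_mul]

private theorem sp_le (hD : 0 < D) (hR : 0 < R) (hf : Bx f R) (i0 : Fin n) (t : ℝ) :
    ∫ z, ‖ft (fun y => (bb f D α c z y : ℂ)) (t / rr D z)‖ ^ 2 ∂(volume.restrict (KK D R (α i0))) =
      ∫ u in Set.Icc D (2 * D), ∫ x, ‖ft (fun Y => (((∏ i, f (x + α i * u) Y) *
        Set.indicator (Set.Icc c (c + 5 * D)) (fun _ => (1 : ℝ)) Y : ℝ) : ℂ)) (t / u)‖ ^ 2 := by
  have h1 := kk_iter (H := fun z => ‖ft (fun y => (bb f D α c z y : ℂ)) (t / z.1)‖ ^ 2) (M := (5 * D) ^ 2)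
    hD hR (α i0) ?_ ?_ ?_
  · have h2 : ∫ z, ‖ft (fun y => (bb f D α c z y : ℂ)) (t / rr D z)‖ ^ 2 ∂(volume.restrict (KK D R (α i0))) =
        ∫ z, ‖ft (fun y => (bb f D α c z y : ℂ)) (t / z.1)‖ ^ 2 ∂(volume.restrict (KK D R (α i0))) := by
      refine setIntegral_congr_fun (kk_meas D R (α i0)) fun z hz => ?_
      rw [rr_eq hz.1]
    rw [h2, h1]
    rfl
  · have h2 := (ft_meas (bb f D α c) (bb_meas hf) (r := Prod.fst) measurable_fst).comp
      (measurable_const.prodMk measurable_id : Measurable fun z : ℝ × ℝ => (t, z))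
    exact h2.norm.pow_const 2
  · intro z _
    have h2 : ‖ft (fun y => (bb f D α c z y : ℂ)) (t / z.1)‖ ≤ 5 * D := by
      refine (ft_norm_le _ _).trans ?_
      have h3 : ∫ y, ‖((bb f D α c z y : ℝ) : ℂ)‖ ≤
          ∫ y, Set.indicator (Set.Icc c (c + 5 * D)) (fun _ => (1 : ℝ)) y := by
        refine integral_mono_of_nonneg (Filter.Eventually.of_forall fun y => norm_nonneg _) ?_
          (Filter.Eventually.of_forall fun y => ?_)
        · refine (integrable_indicator_iff measurableSet_Icc).2 ?_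
          exact integrableOn_const (by rw [Real.volume_Icc]; exact ENNReal.ofReal_ne_top)
        · simp only
          rw [Complex.norm_real, Real.norm_of_nonneg (bb01 hf z y).1]
          have h4 := prod01 (g := fun i => f (z.2 + α i * z.1) y) (fun _ => hf.nonneg _ _)
            fun _ => hf.le_one _ _
          unfold bb
          exact mul_le_of_le_one_left (ind01 _ _).1 h4.2
      refine h3.trans ?_
      rw [integral_indicator measurableSet_Icc, setIntegral_const, measureReal_def, Real.volume_Icc,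
        ENNReal.toReal_ofReal (by linarith), smul_eq_mul]
      apply le_of_eq
      ring
    rw [Real.norm_of_nonneg (by positivity)]
    exact pow_le_pow_left₀ (norm_nonneg _) h2 2
  · intro z hz hz2
    have h2 : (fun y => ((bb f D α c z y : ℝ) : ℂ)) = fun _ => 0 := by
      funext y
      unfold bb
      rw [prod0 hf i0 hz hz2, zero_mul, Complex.ofReal_zero]
    rw [h2]
    unfold ft
    simp

private theorem aa_le (hD : 0 < D) (hR : 0 < R) (hG : ∀ u x y, 0 ≤ G u x y ∧ G u x y ≤ 1) (a0 : ℝ) :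
    ∫ z, (rr D z * ∫ y, (aa D G c z y) ^ 2) ∂(volume.restrict (KK D R a0)) ≤ 2 * (R * D ^ 3) := by
  have h1 : ∀ z ∈ KK D R a0, ‖rr D z * ∫ y, (aa D G c z y) ^ 2‖ ≤ 2 * D * D := by
    intro z hz
    have h2 : ∫ y, (aa D G c z y) ^ 2 ≤ D := by
      have h3 : ∫ y, (aa D G c z y) ^ 2 ≤ ∫ y, Set.indicator (Set.Ico c (c + D)) (fun _ => (1 : ℝ)) y := by
        refine integral_mono_of_nonneg (Filter.Eventually.of_forall fun y => sq_nonneg _) ?_
          (Filter.Eventually.of_forall fun y => ?_)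
        · refine (integrable_indicator_iff measurableSet_Ico).2 ?_
          exact integrableOn_const (by rw [Real.volume_Ico]; exact ENNReal.ofReal_ne_top)
        · simp only
          have h4 := hG z.1 z.2 y
          unfold aa
          by_cases hy : y ∈ Set.Ico c (c + D)
          · rw [Set.indicator_of_mem hy, mul_one]
            exact pow_le_one₀ h4.1 h4.2
          · rw [Set.indicator_of_notMem hy, mul_zero]
            norm_num
      refine h3.trans ?_
      rw [integral_indicator measurableSet_Ico, setIntegral_const, measureReal_def, Real.volume_Ico,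
        ENNReal.toReal_ofReal (by linarith), smul_eq_mul]
      apply le_of_eq
      ring
    have h3 : 0 ≤ ∫ y, (aa D G c z y) ^ 2 := integral_nonneg fun y => sq_nonneg _
    rw [rr_eq hz.1, Real.norm_of_nonneg (mul_nonneg (le_trans hD.le hz.1.1) h3)]
    exact mul_le_mul hz.1.2 h2 h3 (by linarith)
  have h2 := norm_setIntegral_le_of_norm_le_const (kk_fin hD hR a0) h1
  refine (le_abs_self _).trans (h2.trans ?_)
  have h3 := kk_real hD hR a0
  rw [measureReal_def]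
  calc 2 * D * D * (volume (KK D R a0)).toReal ≤ 2 * D * D * (D * R) :=
        mul_le_mul_of_nonneg_left h3 (by positivity)
    _ = 2 * (R * D ^ 3) := by ring

end main

theorem core (n : ℕ) (hn : 1 ≤ n) : ∃ C : ℝ, 0 < C ∧ ∀ (R D T : ℝ), 0 < R → 0 < D → 1 ≤ T →
    ∀ f : ℝ → ℝ → ℝ, Bx f R → ∀ (α : Fin n → ℝ) (G : ℝ → ℝ → ℝ → ℝ),
      Measurable (fun z : ℝ × ℝ × ℝ => G z.1 z.2.1 z.2.2) →
      (∀ u x y, 0 ≤ G u x y ∧ G u x y ≤ 1) → ∀ c s : ℝ, |s| ≤ 1 / T →
        Integrable (fun β => (Ph f D α G c (β + s) - Ph f D α G c β) ^ 2) ∧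
        ∫ β, (Ph f D α G c (β + s) - Ph f D α G c β) ^ 2 ≤
          C * (R * D ^ 3) ^ 2 * T ^ (-((1 / 2 : ℝ) ^ n)) := by
  obtain ⟨C, hC, hsp⟩ := spec n hn
  refine ⟨26 * C, by positivity, ?_⟩
  intro R D T hR hD hT f hf α G hGm hG c s hs
  have i0 : Fin n := ⟨0, hn⟩
  have : IsFiniteMeasure (volume.restrict (KK D R (α i0))) := ⟨by
    rw [Measure.restrict_apply_univ]
    exact kk_fin hD hR _⟩
  have hfun : Ph f D α G c = Co (volume.restrict (KK D R (α i0))) (rr D) (aa D G c) (bb f D α c) :=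
    funext fun β => ph_co hD hR hf hGm hG i0 β
  have hκ0 : (0 : ℝ) < (1 / 2 : ℝ) ^ n := by positivity
  have hκ1 : (1 / 2 : ℝ) ^ n ≤ 1 := pow_le_one₀ (by norm_num) (by norm_num)
  have hT0 : (0 : ℝ) < T := by linarith
  have hTp : 0 < T ^ (-((1 / 2 : ℝ) ^ n)) := Real.rpow_pos_of_pos hT0 _
  have h1 := fc (prH (c := c) (α := α) hD hf hGm hG) (ν := volume.restrict (KK D R (α i0))) s
    (13 * C * (R * D ^ 3) * T ^ (-((1 / 2 : ℝ) ^ n))) (by positivity) (by
      intro t ht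
      rw [sp_le hD hR hf i0 t]
      have h2 := hsp R D hR hD f hf α c t ht
      have h3 := exb T s t _ hT hs hκ0 hκ1 ht
      calc ‖ex (t * s) - 1‖ ^ 2 * _ ≤ ‖ex (t * s) - 1‖ ^ 2 * (C * R * D ^ 3 * |t| ^ (-((1 / 2 : ℝ) ^ n))) :=
            mul_le_mul_of_nonneg_left h2 (by positivity)
        _ = C * (R * D ^ 3) * (‖ex (t * s) - 1‖ ^ 2 * |t| ^ (-((1 / 2 : ℝ) ^ n))) := by ring
        _ ≤ C * (R * D ^ 3) * (13 * T ^ (-((1 / 2 : ℝ) ^ n))) :=
            mul_le_mul_of_nonneg_left h3 (by positivity)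
        _ = _ := by ring)
  rw [hfun]
  refine ⟨h1.1, h1.2.trans ?_⟩
  have h2 := aa_le (c := c) hD hR hG (α i0)
  calc 13 * C * (R * D ^ 3) * T ^ (-((1 / 2 : ℝ) ^ n)) * _ ≤
        13 * C * (R * D ^ 3) * T ^ (-((1 / 2 : ℝ) ^ n)) * (2 * (R * D ^ 3)) :=
        mul_le_mul_of_nonneg_left h2 (by positivity)
    _ = _ := by ring

end Pool.Agent.AES
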