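import Pool.Agent.AES.Exm

/-!
# AES-Css: the Cauchy-Schwarz step
-/

set_option autoImplicit false

open MeasureTheory

namespace Pool.Agent.AES

/-- the differenced family -/
noncomputable def Bd {k : ℕ} (B : Fin (k + 1) → ℝ → ℂ) (γ : Fin k → ℝ) (h : ℝ) (i : Fin k)
    (z : ℝ) : ℂ :=
  B i.castSucc z * (starRingEnd ℂ) (B i.castSucc (z + γ i * h))

theorem bd_fam {k : ℕ} (B : Fin (k + 1) → ℝ → ℂ) (R : ℝ) (hB : Fam B R) (γ : Fin k → ℝ) (h : ℝ) :
    Fam (Bd B γ h) R := by
  refine ⟨fun i => ?_, fun i x => ?_, fun i x hx => ?_⟩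
  · unfold Bd
    exact (hB.meas _).mul (Complex.continuous_conj.measurable.comp ((hB.meas _).comp (measurable_id.add_const _)))
  · unfold Bd
    rw [norm_mul, RCLike.norm_conj]
    exact mul_le_one₀ (hB.le_one _ _) (norm_nonneg _) (hB.le_one _ _)
  · unfold Bd
    rw [hB.zero _ _ hx, zero_mul]

private theorem cs_int {α : Type} [MeasurableSpace α] {μ : Measure α} {f : α → ℂ} (hf : Measurable f) {C : ℝ}
    (h1 : ∀ p, ‖f p‖ ≤ C) {s : Set α} (hs : μ s ≠ ⊤) (h0 : ∀ p, p ∉ s → f p = 0) : Integrable f μ := by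
  refine (integrableOn_iff_integrable_of_support_subset fun p hp => ?_).1
    (Measure.integrableOn_of_bounded hs hf.aestronglyMeasurable (ae_of_all _ h1))
  by_contra h
  exact hp (h0 p h)

private theorem cs_intR {α : Type} [MeasurableSpace α] {μ : Measure α} {f : α → ℝ} (hf : Measurable f) {C : ℝ}
    (h1 : ∀ p, ‖f p‖ ≤ C) {s : Set α} (hs : μ s ≠ ⊤) (h0 : ∀ p, p ∉ s → f p = 0) : Integrable f μ := by
  refine (integrableOn_iff_integrable_of_support_subset fun p hp => ?_).1
    (Measure.integrableOn_of_bounded hs hf.aestronglyMeasurable (ae_of_all _ h1))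
  by_contra h
  exact hp (h0 p h)

private theorem cs_sq (f : ℝ → ℝ) {R C : ℝ} (hR : 0 < R) (hf : Measurable f) (hC : ∀ x, ‖f x‖ ≤ C) :
    (∫ x in Set.Icc 0 R, f x) ^ 2 ≤ R * ∫ x in Set.Icc 0 R, f x ^ 2 := by
  have hs : volume (Set.Icc 0 R) ≠ ⊤ := by
    rw [Real.volume_Icc]
    exact ENNReal.ofReal_ne_top
  have i1 : IntegrableOn f (Set.Icc 0 R) :=
    Measure.integrableOn_of_bounded hs hf.aestronglyMeasurable (ae_of_all _ hC)
  have i2 : IntegrableOn (fun x => f x ^ 2) (Set.Icc 0 R) :=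
    Measure.integrableOn_of_bounded (M := C ^ 2) hs (hf.pow_const 2).aestronglyMeasurable (ae_of_all _ fun x => by
      rw [norm_pow]
      exact pow_le_pow_left₀ (norm_nonneg _) (hC x) 2)
  obtain ⟨t, ht⟩ : ∃ t : ℝ, t = (∫ x in Set.Icc 0 R, f x) / R := ⟨_, rfl⟩
  have h1 : 0 ≤ ∫ x in Set.Icc 0 R, (f x ^ 2 - 2 * t * f x + t ^ 2) := by
    refine setIntegral_nonneg measurableSet_Icc fun x _ => ?_
    have : f x ^ 2 - 2 * t * f x + t ^ 2 = (f x - t) ^ 2 := by ring
    rw [this]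
    exact sq_nonneg _
  have i3 : IntegrableOn (fun x => 2 * t * f x) (Set.Icc 0 R) := i1.const_mul _
  have i4 : IntegrableOn (fun _ : ℝ => t ^ 2) (Set.Icc 0 R) := integrableOn_const hs
  have i5 : IntegrableOn (fun x => f x ^ 2 - 2 * t * f x) (Set.Icc 0 R) := i2.sub i3
  have h2 : ∫ x in Set.Icc 0 R, (f x ^ 2 - 2 * t * f x + t ^ 2) =
      (∫ x in Set.Icc 0 R, f x ^ 2) - 2 * t * (∫ x in Set.Icc 0 R, f x) + R * t ^ 2 := by
    rw [integral_add i5 i4, integral_sub i2 i3, integral_const_mul, setIntegral_const, Real.volume_real_Icc,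
      sub_zero, max_eq_left hR.le, smul_eq_mul]
  rw [h2] at h1
  have h3 : (∫ x in Set.Icc 0 R, f x) = R * t := by
    rw [ht]
    field_simp
  rw [h3] at h1 ⊢
  have h4 : 0 ≤ R * ((∫ x in Set.Icc 0 R, f x ^ 2) - 2 * t * (R * t) + R * t ^ 2) := mul_nonneg hR.le h1
  linarith [h4, show R * ((∫ x in Set.Icc 0 R, f x ^ 2) - 2 * t * (R * t) + R * t ^ 2) =
    R * (∫ x in Set.Icc 0 R, f x ^ 2) - (R * t) ^ 2 by ring]

/-- a bounded measurable function supported in a box -/
private structure CsF (P : ℝ → ℝ → ℂ) (M a b : ℝ) : Prop where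
  meas : Measurable (Function.uncurry P)
  le_one : ∀ x u, ‖P x u‖ ≤ 1
  zx : ∀ x u, x ∉ Set.Icc (-M) M → P x u = 0
  zu : ∀ x u, u ∉ Set.Icc a b → P x u = 0

/-- the correlation in the second variable -/
private noncomputable def csT (P : ℝ → ℝ → ℂ) (x u h : ℝ) : ℂ := P x u * (starRingEnd ℂ) (P x (u + h))

private theorem cs_box3 (a b c d e f : ℝ) :
    (volume : Measure (ℝ × (ℝ × ℝ))) (Set.Icc a b ×ˢ (Set.Icc c d ×ˢ Set.Icc e f)) ≠ ⊤ := by
  rw [Measure.volume_eq_prod, Measure.prod_prod, Measure.volume_eq_prod, Measure.prod_prod, Real.volume_Icc,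
    Real.volume_Icc, Real.volume_Icc]
  exact ENNReal.mul_ne_top ENNReal.ofReal_ne_top (ENNReal.mul_ne_top ENNReal.ofReal_ne_top ENNReal.ofReal_ne_top)

private theorem cs_box2 (a b c d : ℝ) :
    (volume : Measure (ℝ × ℝ)) (Set.Icc a b ×ˢ Set.Icc c d) ≠ ⊤ := by
  rw [Measure.volume_eq_prod, Measure.prod_prod, Real.volume_Icc, Real.volume_Icc]
  exact ENNReal.mul_ne_top ENNReal.ofReal_ne_top ENNReal.ofReal_ne_top

variable {P : ℝ → ℝ → ℂ} {M a b : ℝ}

private theorem cs_Tm (hP : CsF P M a b) : Measurable (fun p : ℝ × (ℝ × ℝ) => csT P p.1 p.2.1 p.2.2) := by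
  unfold csT
  have h1 : Measurable (fun p : ℝ × (ℝ × ℝ) => P p.1 p.2.1) :=
    hP.meas.comp (measurable_fst.prodMk (measurable_fst.comp measurable_snd))
  have h2 : Measurable (fun p : ℝ × (ℝ × ℝ) => P p.1 (p.2.1 + p.2.2)) :=
    hP.meas.comp (measurable_fst.prodMk ((measurable_fst.comp measurable_snd).add
      (measurable_snd.comp measurable_snd)))
  exact h1.mul (Complex.continuous_conj.measurable.comp h2)

private theorem cs_T1 (hP : CsF P M a b) (x u h : ℝ) : ‖csT P x u h‖ ≤ 1 := by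
  unfold csT
  rw [norm_mul, RCLike.norm_conj]
  exact mul_le_one₀ (hP.le_one _ _) (norm_nonneg _) (hP.le_one _ _)

private theorem cs_T0 (hP : CsF P M a b) (x u h : ℝ)
    (hn : ¬ (x ∈ Set.Icc (-M) M ∧ u ∈ Set.Icc a b ∧ h ∈ Set.Icc (-(b - a)) (b - a))) : csT P x u h = 0 := by
  unfold csT
  by_cases h1 : x ∈ Set.Icc (-M) M
  · by_cases h2 : u ∈ Set.Icc a b
    · by_cases h3 : u + h ∈ Set.Icc a b
      · exfalso
        refine hn ⟨h1, h2, ?_⟩
        rw [Set.mem_Icc] at h2 h3 ⊢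
        constructor <;> linarith [h2.1, h2.2, h3.1, h3.2]
      · rw [hP.zu _ _ h3, map_zero, mul_zero]
    · rw [hP.zu _ _ h2, zero_mul]
  · rw [hP.zx _ _ h1, zero_mul]

private theorem cs_Ti (hP : CsF P M a b) :
    Integrable (fun p : ℝ × (ℝ × ℝ) => csT P p.1 p.2.1 p.2.2) := by
  refine cs_int (cs_Tm hP) (fun p => cs_T1 hP _ _ _)
    (cs_box3 (-M) M a b (-(b - a)) (b - a)) fun p hp => cs_T0 hP _ _ _ fun h => hp ?_
  exact ⟨h.1, h.2.1, h.2.2⟩

private theorem cs_swap (hP : CsF P M a b) :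
    ∫ x, ∫ u, ∫ h, csT P x u h = ∫ h, ∫ u, ∫ x, csT P x u h := by
  have i0 := cs_Ti hP
  rw [Measure.volume_eq_prod] at i0
  have h1 : ∀ x, ∫ u, ∫ h, csT P x u h = ∫ p : ℝ × ℝ, csT P x p.1 p.2 := by
    intro x
    rw [Measure.volume_eq_prod]
    refine (integral_prod (fun p : ℝ × ℝ => csT P x p.1 p.2) ?_).symm
    rw [← Measure.volume_eq_prod]
    refine cs_int ((cs_Tm hP).comp (measurable_const.prodMk measurable_id)) (fun p => cs_T1 hP _ _ _)
      (cs_box2 a b (-(b - a)) (b - a)) fun p hp => cs_T0 hP _ _ _ fun h => hp ?_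
    exact ⟨h.2.1, h.2.2⟩
  have h2 : ∫ x, ∫ u, ∫ h, csT P x u h = ∫ p : ℝ × ℝ, ∫ x, csT P x p.1 p.2 := by
    rw [integral_congr_ae (ae_of_all _ h1)]
    exact integral_integral_swap (f := fun (x : ℝ) (p : ℝ × ℝ) => csT P x p.1 p.2) i0
  have i1 : Integrable (fun p : ℝ × ℝ => ∫ x, csT P x p.1 p.2) := i0.integral_prod_right
  rw [Measure.volume_eq_prod] at i1
  rw [h2, Measure.volume_eq_prod, integral_prod _ i1]
  exact integral_integral_swap (f := fun (u : ℝ) (h : ℝ) => ∫ x, csT P x u h) i1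

private theorem cs_J0 (hP : CsF P M a b) (h : ℝ) (hh : b - a < h) : ∫ u, ∫ x, csT P x u h = 0 := by
  have h1 : ∀ u x, csT P x u h = 0 := fun u x => cs_T0 hP _ _ _ fun h2 => by
    have := h2.2.2.2
    linarith
  simp only [h1, integral_zero]

private theorem cs_Jneg (P : ℝ → ℝ → ℂ) (h : ℝ) :
    ∫ u, ∫ x, csT P x u (-h) = (starRingEnd ℂ) (∫ u, ∫ x, csT P x u h) := by
  rw [← integral_add_right_eq_self (fun u => ∫ x, csT P x u (-h)) h, ← integral_conj]
  refine integral_congr_ae (ae_of_all _ fun u => ?_)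
  show ∫ x, csT P x (u + h) (-h) = (starRingEnd ℂ) (∫ x, csT P x u h)
  rw [← integral_conj]
  refine integral_congr_ae (ae_of_all _ fun x => ?_)
  show csT P x (u + h) (-h) = (starRingEnd ℂ) (csT P x u h)
  unfold csT
  rw [map_mul, RCLike.conj_conj, add_neg_cancel_right, mul_comm]

private theorem cs_half (hP : CsF P M a b) (hab : a ≤ b) :
    ∫ h, ‖∫ u, ∫ x, csT P x u h‖ = 2 * ∫ h in Set.Icc 0 (b - a), ‖∫ u, ∫ x, csT P x u h‖ := by
  have h1 : ∀ h, ‖∫ u, ∫ x, csT P x u h‖ = (fun t => ‖∫ u, ∫ x, csT P x u t‖) |h| := by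
    intro h
    show ‖∫ u, ∫ x, csT P x u h‖ = ‖∫ u, ∫ x, csT P x u |h|‖
    rcases abs_choice h with h2 | h2
    · rw [h2]
    · rw [h2, cs_Jneg, RCLike.norm_conj]
  have h3 := integral_comp_abs (f := fun t => ‖∫ u, ∫ x, csT P x u t‖)
  refine (integral_congr_ae (ae_of_all _ h1)).trans (h3.trans ?_)
  rw [integral_Icc_eq_integral_Ioc]
  refine congrArg (2 * ·) ?_
  refine setIntegral_eq_of_subset_of_forall_sdiff_eq_zero measurableSet_Ioi (fun t ht => ht.1) fun t ht => ?_
  show ‖∫ u, ∫ x, csT P x u t‖ = 0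
  rw [cs_J0 hP t ?_, norm_zero]
  by_contra h2
  exact ht.2 ⟨ht.1, not_lt.1 h2⟩

private theorem cs_K2 (hP : CsF P M a b) :
    ∫ x, ‖∫ u, P x u‖ ^ 2 ≤ ∫ h, ‖∫ u, ∫ x, csT P x u h‖ := by
  have h1 : ((∫ x, ‖∫ u, P x u‖ ^ 2 : ℝ) : ℂ) = ∫ h, ∫ u, ∫ x, csT P x u h := by
    rw [← cs_swap hP, ← integral_complex_ofReal]
    refine integral_congr_ae (ae_of_all _ fun x => ?_)
    show ((‖∫ u, P x u‖ ^ 2 : ℝ) : ℂ) = ∫ u, ∫ h, csT P x u h
    rw [Complex.ofReal_pow, ← Complex.mul_conj', ← integral_mul_const]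
    refine integral_congr_ae (ae_of_all _ fun u => ?_)
    show P x u * (starRingEnd ℂ) (∫ u, P x u) = ∫ h, P x u * (starRingEnd ℂ) (P x (u + h))
    rw [integral_const_mul, integral_conj, integral_add_left_eq_self (fun t => P x t) u]
  have h0 : 0 ≤ ∫ x, ‖∫ u, P x u‖ ^ 2 := integral_nonneg fun x => by positivity
  have h2 : ∫ x, ‖∫ u, P x u‖ ^ 2 = ‖((∫ x, ‖∫ u, P x u‖ ^ 2 : ℝ) : ℂ)‖ := by
    rw [Complex.norm_real, Real.norm_of_nonneg h0]
  rw [h2, h1]
  exact norm_integral_le_integral_norm _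

private theorem cs_Kb (hP : CsF P M a b) (hab : a ≤ b) (x : ℝ) : ‖∫ u, P x u‖ ≤ b - a := by
  rw [← setIntegral_eq_integral_of_forall_compl_eq_zero (hP.zu x)]
  have h1 := norm_setIntegral_le_of_norm_le_const (μ := volume) (s := Set.Icc a b) (f := fun u => P x u) (C := 1)
    (by rw [Real.volume_Icc]; exact ENNReal.ofReal_lt_top) (fun u _ => hP.le_one x u)
  rw [Real.volume_real_Icc, max_eq_left (by linarith), one_mul] at h1
  exact h1

private theorem cs_Km (hP : CsF P M a b) : Measurable fun x => ‖∫ u, P x u‖ :=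
  (hP.meas.stronglyMeasurable.integral_prod_right).norm.measurable

private theorem cs_main (hP : CsF P M a b) (hab : a ≤ b) {R : ℝ} (hR : 0 < R) {g : ℝ → ℂ} (hg : Measurable g)
    (hg1 : ∀ x, ‖g x‖ ≤ 1) (hg0 : ∀ x, (x < 0 ∨ R < x) → g x = 0) :
    ‖∫ x, g x * ∫ u, P x u‖ ^ 2 ≤ 2 * R * ∫ h in Set.Icc 0 (b - a), ‖∫ u, ∫ x, csT P x u h‖ := by
  have hKm := cs_Km hP
  have hKb := cs_Kb hP hab
  have hs : volume (Set.Icc 0 R) ≠ ⊤ := by
    rw [Real.volume_Icc]
    exact ENNReal.ofReal_ne_top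
  have hb0 : 0 ≤ b - a := by linarith
  have h1 : ‖∫ x, g x * ∫ u, P x u‖ ≤ ∫ x in Set.Icc 0 R, ‖∫ u, P x u‖ := by
    refine (norm_integral_le_integral_norm _).trans ?_
    have h2 : ∀ x, x ∉ Set.Icc 0 R → ‖g x * ∫ u, P x u‖ = 0 := by
      intro x hx
      rw [hg0 x, zero_mul, norm_zero]
      rw [Set.mem_Icc] at hx
      by_contra h3
      push Not at h3
      exact hx h3
    rw [← setIntegral_eq_integral_of_forall_compl_eq_zero h2]
    refine setIntegral_mono_on ?_ ?_ measurableSet_Icc fun x _ => ?_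
    · refine Measure.integrableOn_of_bounded (M := b - a) hs ?_ (ae_of_all _ fun x => ?_)
      · exact ((hg.mul (hP.meas.stronglyMeasurable.integral_prod_right).measurable).norm).aestronglyMeasurable
      · rw [norm_norm, norm_mul]
        calc ‖g x‖ * ‖∫ u, P x u‖ ≤ 1 * (b - a) := mul_le_mul (hg1 x) (hKb x) (norm_nonneg _) zero_le_one
          _ = b - a := one_mul _
    · refine Measure.integrableOn_of_bounded (M := b - a) hs hKm.aestronglyMeasurable (ae_of_all _ fun x => ?_)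
      rw [norm_norm]
      exact hKb x
    · rw [norm_mul]
      exact mul_le_of_le_one_left (norm_nonneg _) (hg1 x)
  have h3 : ‖∫ x, g x * ∫ u, P x u‖ ^ 2 ≤ R * ∫ x in Set.Icc 0 R, ‖∫ u, P x u‖ ^ 2 :=
    (pow_le_pow_left₀ (norm_nonneg _) h1 2).trans
      (cs_sq (fun x => ‖∫ u, P x u‖) (C := b - a) hR hKm fun x => by rw [norm_norm]; exact hKb x)
  have h4 : ∫ x in Set.Icc 0 R, ‖∫ u, P x u‖ ^ 2 ≤ ∫ x, ‖∫ u, P x u‖ ^ 2 := by
    refine setIntegral_le_integral ?_ (ae_of_all _ fun x => by positivity)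
    refine cs_intR (C := (b - a) ^ 2) (s := Set.Icc (-M) M) (hKm.pow_const 2) (fun x => ?_) ?_ fun x hx => ?_
    · rw [norm_pow, norm_norm]
      exact pow_le_pow_left₀ (norm_nonneg _) (hKb x) 2
    · rw [Real.volume_Icc]
      exact ENNReal.ofReal_ne_top
    · have h5 : ∀ u, P x u = 0 := fun u => hP.zx x u hx
      simp only [h5, integral_zero, norm_zero]
      norm_num
  have h5 := h3.trans (mul_le_mul_of_nonneg_left (h4.trans ((cs_K2 hP).trans (cs_half hP hab).le)) hR.le)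
  refine h5.trans (le_of_eq ?_)
  ring

theorem css (k : ℕ) (hk : 1 ≤ k) (R a b : ℝ) (hR : 0 < R) (hab : a ≤ b) (E : ℝ → ℂ)
    (hE : Measurable E) (hE1 : ∀ u, ‖E u‖ ≤ 1) (B : Fin (k + 1) → ℝ → ℂ) (hB : Fam B R)
    (α : Fin (k + 1) → ℝ) :
    ‖∫ u in Set.Icc a b, ∫ x, (∏ i, B i (x + α i * u)) * E u‖ ^ 2 ≤
      2 * R * ∫ h in Set.Icc 0 (b - a), ‖∫ u in Set.Icc a (b - h), ∫ x,
        (∏ i, Bd B (fun i => α i.castSucc - α (Fin.last k)) h i
          (x + (α i.castSucc - α (Fin.last k)) * u)) *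
            (E u * (starRingEnd ℂ) (E (u + h)))‖ := by
  obtain ⟨γ, hγ⟩ : ∃ γ : Fin k → ℝ, γ = fun i => α i.castSucc - α (Fin.last k) := ⟨_, rfl⟩
  obtain ⟨P, hPd⟩ : ∃ P : ℝ → ℝ → ℂ, P = fun x u => Set.indicator (Set.Icc a b)
    (fun u => (∏ i : Fin k, B i.castSucc (x + γ i * u)) * E u) u := ⟨_, rfl⟩
  obtain ⟨i0, -⟩ : ∃ i0 : Fin k, True := ⟨⟨0, by omega⟩, trivial⟩
  obtain ⟨M, hM⟩ : ∃ M : ℝ, M = R + |γ i0| * max |a| |b| := ⟨_, rfl⟩
  have hP : CsF P M a b := by
    refine ⟨?_, ?_, ?_, ?_⟩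
    · have h1 : Measurable fun p : ℝ × ℝ => (∏ i : Fin k, B i.castSucc (p.1 + γ i * p.2)) * E p.2 := by
        refine Measurable.mul ?_ (hE.comp measurable_snd)
        exact Finset.measurable_fun_prod _ fun i _ =>
          (hB.meas _).comp (measurable_fst.add (measurable_snd.const_mul _))
      have h2 : Function.uncurry P = Set.indicator (Set.univ ×ˢ Set.Icc a b)
          (fun p : ℝ × ℝ => (∏ i : Fin k, B i.castSucc (p.1 + γ i * p.2)) * E p.2) := by
        funext p
        rw [hPd]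
        show Set.indicator (Set.Icc a b) (fun u => (∏ i : Fin k, B i.castSucc (p.1 + γ i * u)) * E u) p.2 = _
        by_cases h3 : p.2 ∈ Set.Icc a b
        · rw [Set.indicator_of_mem h3, Set.indicator_of_mem]
          exact ⟨trivial, h3⟩
        · rw [Set.indicator_of_notMem h3, Set.indicator_of_notMem]
          exact fun h4 => h3 h4.2
      rw [h2]
      exact h1.indicator (MeasurableSet.univ.prod measurableSet_Icc)
    · intro x u
      rw [hPd]
      show ‖Set.indicator (Set.Icc a b) (fun u => (∏ i : Fin k, B i.castSucc (x + γ i * u)) * E u) u‖ ≤ 1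
      refine (norm_indicator_le_norm_self _ _).trans ?_
      rw [norm_mul, norm_prod]
      exact mul_le_one₀ (Finset.prod_le_one (fun _ _ => norm_nonneg _) fun i _ => hB.le_one _ _)
        (norm_nonneg _) (hE1 u)
    · intro x u hx
      rw [hPd]
      show Set.indicator (Set.Icc a b) (fun u => (∏ i : Fin k, B i.castSucc (x + γ i * u)) * E u) u = 0
      by_cases h3 : u ∈ Set.Icc a b
      · rw [Set.indicator_of_mem h3]
        have h4 : B i0.castSucc (x + γ i0 * u) = 0 := by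
          refine hB.zero _ _ ?_
          by_contra h5
          push Not at h5
          refine hx ?_
          have h6 : |u| ≤ max |a| |b| := abs_le_max_abs_abs h3.1 h3.2
          have h7 : |γ i0 * u| ≤ |γ i0| * max |a| |b| := by
            rw [abs_mul]
            exact mul_le_mul_of_nonneg_left h6 (abs_nonneg _)
          have h8 := abs_le.1 h7
          rw [Set.mem_Icc, hM]
          constructor <;> linarith [h5.1, h5.2, h8.1, h8.2]
        rw [Finset.prod_eq_zero (Finset.mem_univ i0) h4, zero_mul]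
      · rw [Set.indicator_of_notMem h3]
    · intro x u hu
      rw [hPd]
      show Set.indicator (Set.Icc a b) (fun u => (∏ i : Fin k, B i.castSucc (x + γ i * u)) * E u) u = 0
      rw [Set.indicator_of_notMem hu]
  have h1 : ∫ u in Set.Icc a b, ∫ x, (∏ i, B i (x + α i * u)) * E u =
      ∫ x, B (Fin.last k) x * ∫ u, P x u := by
    have h2 : ∀ u, ∫ x, (∏ i, B i (x + α i * u)) * E u =
        ∫ x, B (Fin.last k) x * ((∏ i : Fin k, B i.castSucc (x + γ i * u)) * E u) := by
      intro u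
      rw [← integral_sub_right_eq_self (fun x => (∏ i, B i (x + α i * u)) * E u) (α (Fin.last k) * u)]
      refine integral_congr_ae (ae_of_all _ fun x => ?_)
      show (∏ i, B i (x - α (Fin.last k) * u + α i * u)) * E u = _
      rw [Fin.prod_univ_castSucc, sub_add_cancel]
      have h3 : ∀ i : Fin k, B i.castSucc (x - α (Fin.last k) * u + α i.castSucc * u) =
          B i.castSucc (x + γ i * u) := by
        intro i
        rw [hγ]
        congr 1
        ring
      rw [Finset.prod_congr rfl fun i _ => h3 i]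
      ring
    have h4 : ∫ u in Set.Icc a b, ∫ x, (∏ i, B i (x + α i * u)) * E u =
        ∫ u, ∫ x, B (Fin.last k) x * P x u := by
      rw [← integral_indicator measurableSet_Icc]
      refine integral_congr_ae (ae_of_all _ fun u => ?_)
      show Set.indicator (Set.Icc a b) (fun u => ∫ x, (∏ i, B i (x + α i * u)) * E u) u =
        ∫ x, B (Fin.last k) x * P x u
      by_cases h3 : u ∈ Set.Icc a b
      · rw [Set.indicator_of_mem h3, h2]
        refine integral_congr_ae (ae_of_all _ fun x => ?_)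
        show _ = B (Fin.last k) x * P x u
        rw [hPd]
        show _ = B (Fin.last k) x * Set.indicator (Set.Icc a b)
          (fun u => (∏ i : Fin k, B i.castSucc (x + γ i * u)) * E u) u
        rw [Set.indicator_of_mem h3]
      · rw [Set.indicator_of_notMem h3]
        have h5 : ∀ x, B (Fin.last k) x * P x u = 0 := fun x => by rw [hP.zu x u h3, mul_zero]
        simp only [h5, integral_zero]
    rw [h4]
    have h6 : Integrable (Function.uncurry fun (u x : ℝ) => B (Fin.last k) x * P x u)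
        ((volume : Measure ℝ).prod volume) := by
      rw [← Measure.volume_eq_prod]
      refine cs_int (C := 1) (s := Set.Icc a b ×ˢ Set.Icc (-M) M) ?_ (fun p => ?_) (cs_box2 _ _ _ _) fun p hp => ?_
      · exact ((hB.meas _).comp measurable_snd).mul (hP.meas.comp (measurable_snd.prodMk measurable_fst))
      · show ‖B (Fin.last k) p.2 * P p.2 p.1‖ ≤ 1
        rw [norm_mul]
        exact mul_le_one₀ (hB.le_one _ _) (norm_nonneg _) (hP.le_one _ _)
      · show B (Fin.last k) p.2 * P p.2 p.1 = 0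
        by_cases h7 : p.1 ∈ Set.Icc a b
        · rw [hP.zx _ _ fun h8 => hp ⟨h7, h8⟩, mul_zero]
        · rw [hP.zu _ _ h7, mul_zero]
    rw [integral_integral_swap h6]
    refine integral_congr_ae (ae_of_all _ fun x => ?_)
    exact integral_const_mul _ _
  rw [h1]
  refine (cs_main hP hab hR (hB.meas _) (hB.le_one _) (hB.zero _)).trans (le_of_eq ?_)
  refine congrArg (2 * R * ·) (setIntegral_congr_fun measurableSet_Icc fun h hh => ?_)
  show ‖∫ u, ∫ x, csT P x u h‖ = ‖∫ u in Set.Icc a (b - h), ∫ x,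
        (∏ i, Bd B (fun i => α i.castSucc - α (Fin.last k)) h i
          (x + (α i.castSucc - α (Fin.last k)) * u)) *
            (E u * (starRingEnd ℂ) (E (u + h)))‖
  rw [← integral_indicator measurableSet_Icc]
  refine congrArg norm (integral_congr_ae (ae_of_all _ fun u => ?_))
  show ∫ x, csT P x u h = Set.indicator (Set.Icc a (b - h)) (fun u => ∫ x,
        (∏ i, Bd B (fun i => α i.castSucc - α (Fin.last k)) h i
          (x + (α i.castSucc - α (Fin.last k)) * u)) *
            (E u * (starRingEnd ℂ) (E (u + h)))) u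
  by_cases h3 : u ∈ Set.Icc a (b - h)
  · rw [Set.indicator_of_mem h3]
    refine integral_congr_ae (ae_of_all _ fun x => ?_)
    show P x u * (starRingEnd ℂ) (P x (u + h)) = (∏ i, Bd B (fun i => α i.castSucc - α (Fin.last k)) h i
          (x + (α i.castSucc - α (Fin.last k)) * u)) * (E u * (starRingEnd ℂ) (E (u + h)))
    have m1 : u ∈ Set.Icc a b := ⟨h3.1, by linarith [h3.2, hh.1]⟩
    have m2 : u + h ∈ Set.Icc a b := ⟨by linarith [h3.1, hh.1], by linarith [h3.2]⟩
    rw [hPd]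
    show Set.indicator (Set.Icc a b) (fun u => (∏ i : Fin k, B i.castSucc (x + γ i * u)) * E u) u *
      (starRingEnd ℂ) (Set.indicator (Set.Icc a b)
        (fun u => (∏ i : Fin k, B i.castSucc (x + γ i * u)) * E u) (u + h)) = _
    rw [Set.indicator_of_mem m1, Set.indicator_of_mem m2, map_mul, map_prod]
    have h4 : ∏ i : Fin k, Bd B (fun i => α i.castSucc - α (Fin.last k)) h i
          (x + (α i.castSucc - α (Fin.last k)) * u) =
        (∏ i : Fin k, B i.castSucc (x + γ i * u)) *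
          ∏ i : Fin k, (starRingEnd ℂ) (B i.castSucc (x + γ i * (u + h))) := by
      rw [← Finset.prod_mul_distrib]
      refine Finset.prod_congr rfl fun i _ => ?_
      unfold Bd
      rw [hγ]
      have h5 : x + (α i.castSucc - α (Fin.last k)) * u + (α i.castSucc - α (Fin.last k)) * h =
          x + (α i.castSucc - α (Fin.last k)) * (u + h) := by ring
      rw [h5]
    rw [h4]
    ring
  · rw [Set.indicator_of_notMem h3]
    have h4 : ∀ x, csT P x u h = 0 := by
      intro x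
      unfold csT
      by_cases m1 : u ∈ Set.Icc a b
      · have m2 : u + h ∉ Set.Icc a b := by
          intro m3
          exact h3 ⟨m1.1, by linarith [m3.2]⟩
        rw [hP.zu _ _ m2, map_zero, mul_zero]
      · rw [hP.zu _ _ m1, zero_mul]
    simp only [h4, integral_zero]

end Pool.Agent.AES
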