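import Mathlib

/-!
# Homothetic copies of almost every grid: definitions

Project AES (MP_27274a_co), owner helper32.

For `A ⊆ [N]²` let `f` be the indicator function of the union of the cells `[a, a+ε) × [b, b+ε)`,
`(a,b) ∈ A`.  The weighted number of homothetic copies of the grid with coordinates `α`, `β`

  `FF f D α β = ∫_{u ∈ [D,2D]} ∫ ∫ u ∏_{i,j} f (x + α_i u) (y + β_j u) dy dx du`

is positive only if `A` contains such a copy with error `ε` and dilation `u ≥ D`.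
-/

set_option autoImplicit false

open MeasureTheory

namespace Pool.Agent.AES

/-- `e(x) = exp(2 π i x)` -/
noncomputable def ex (x : ℝ) : ℂ := Complex.exp (((2 * Real.pi * x : ℝ) : ℂ) * Complex.I)

/-- the Fourier transform `∫ g(y) e(- y t) dy` -/
noncomputable def ft (g : ℝ → ℂ) (t : ℝ) : ℂ := ∫ y, g y * ex (-(y * t))

/-- measurable functions on the plane with values in `[0,1]` which vanish outside `[0,R]²` -/
structure Bx (f : ℝ → ℝ → ℝ) (R : ℝ) : Prop where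
  meas : Measurable (Function.uncurry f)
  nonneg : ∀ x y, 0 ≤ f x y
  le_one : ∀ x y, f x y ≤ 1
  zero : ∀ x y, (x < 0 ∨ R < x ∨ y < 0 ∨ R < y) → f x y = 0

/-- the weighted number of homothetic copies of the grid with coordinates `α`, `β` -/
noncomputable def FF (f : ℝ → ℝ → ℝ) (D : ℝ) {n : ℕ} (α β : Fin n → ℝ) : ℝ :=
  ∫ u in Set.Icc D (2 * D), ∫ x, ∫ y, u * ∏ i, ∏ j, f (x + α i * u) (y + β j * u)

/-- the same with all `2n` coordinates in one vector -/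
noncomputable def Fp (f : ℝ → ℝ → ℝ) (D : ℝ) {n : ℕ} (p : Fin n ⊕ Fin n → ℝ) : ℝ :=
  FF f D (fun i => p (Sum.inl i)) (fun j => p (Sum.inr j))

/-- one strip: `G` collects all factors which do not contain the coordinate `β` -/
noncomputable def Ph (f : ℝ → ℝ → ℝ) (D : ℝ) {n : ℕ} (α : Fin n → ℝ) (G : ℝ → ℝ → ℝ → ℝ)
    (c : ℝ) (β : ℝ) : ℝ :=
  ∫ u in Set.Icc D (2 * D), ∫ x, ∫ y in Set.Ico c (c + D),
    u * (G u x y * ((∏ i, f (x + α i * u) (y + β * u)) *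
      Set.indicator (Set.Icc c (c + 5 * D)) (fun _ => (1 : ℝ)) (y + β * u)))

/-- correlations of `a z` and `b z`, dilated by `r z` -/
noncomputable def Co {Z : Type*} [MeasurableSpace Z] (ν : Measure Z) (r : Z → ℝ)
    (a b : Z → ℝ → ℝ) (β : ℝ) : ℝ :=
  ∫ z, (r z * ∫ y, a z y * b z (y + β * r z)) ∂ν

/-- hypotheses on the functions in `Co` -/
structure Pr {Z : Type*} [MeasurableSpace Z] (r : Z → ℝ) (a b : Z → ℝ → ℝ) (D X : ℝ) : Prop where
  hD : 0 < D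
  hX : 0 < X
  mr : Measurable r
  rl : ∀ z, D ≤ r z
  ru : ∀ z, r z ≤ 2 * D
  ma : Measurable (Function.uncurry a)
  mb : Measurable (Function.uncurry b)
  ba : ∀ z y, |a z y| ≤ 1
  bb : ∀ z y, |b z y| ≤ 1
  sa : ∀ z y, X < |y| → a z y = 0
  sb : ∀ z y, X < |y| → b z y = 0

/-- Laplace transforms -/
noncomputable def lapk (k : ℕ) (w : ℝ → ℝ) (u : ℝ) : ℝ :=
  ∫ v in Set.Ioi (0 : ℝ), v ^ k * Real.exp (-(v * u)) * w v

/-- admissible weights: `0 ≤ w ≤ 1`, and `w ≥ σ` on `[1/D, 2/D]` -/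
structure Wt (w : ℝ → ℝ) (D σ : ℝ) : Prop where
  meas : Measurable w
  nonneg : ∀ v, 0 < v → 0 ≤ w v
  le_one : ∀ v, 0 < v → w v ≤ 1
  low : ∀ v, 1 / D ≤ v → v ≤ 2 / D → σ ≤ w v

/-- families of measurable functions bounded by `1` which vanish outside `[0,R]` -/
structure Fam {k : ℕ} (B : Fin k → ℝ → ℂ) (R : ℝ) : Prop where
  meas : ∀ i, Measurable (B i)
  le_one : ∀ i x, ‖B i x‖ ≤ 1
  zero : ∀ i x, (x < 0 ∨ R < x) → B i x = 0

/-- indicator function of the cells of side `ε` at the points of `A` -/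
noncomputable def cf (A : Finset (ℕ × ℕ)) (ε : ℝ) (x y : ℝ) : ℝ :=
  open Classical in
  if (⌊x⌋₊, ⌊y⌋₊) ∈ A ∧ Int.fract x < ε ∧ Int.fract y < ε then 1 else 0

/-- the `n × n` grids in `A` with coordinates in the windows of length `L` with indices `a p`, `b q`
and origin `(x₀, y₀)` -/
noncomputable def WS (A : Finset (ℕ × ℕ)) (L : ℕ) {n : ℕ} (a b : Fin n → ℕ) (x₀ y₀ : ℤ) :
    Finset ((Fin n → ℕ) × (Fin n → ℕ)) :=
  open Classical in
  ((Fintype.piFinset fun _ : Fin n => Finset.range L) ×ˢ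
    (Fintype.piFinset fun _ : Fin n => Finset.range L)).filter
      (fun z : (Fin n → ℕ) × (Fin n → ℕ) => ∀ p q,
        ((x₀ + a p * L + z.1 p).toNat, (y₀ + b q * L + z.2 q).toNat) ∈ A)

/-- their number, summed over all origins -/
noncomputable def WC (A : Finset (ℕ × ℕ)) (N L : ℕ) {n : ℕ} (a b : Fin n → ℕ) : ℝ :=
  ∑ x₀ ∈ Finset.Icc (-(N : ℤ)) N, ∑ y₀ ∈ Finset.Icc (-(N : ℤ)) N, ((WS A L a b x₀ y₀).card : ℝ)

/-- `A` contains an `n × n` grid within `ε` of a homothetic copy `(s,t) + d (u × v)`, `d ≥ d₀` -/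
def HasCopy (A : Set (ℕ × ℕ)) (ε d₀ : ℝ) {n : ℕ} (u v : Fin n → ℝ) : Prop :=
  ∃ d s t : ℝ, d₀ ≤ d ∧ ∃ x y : Fin n → ℕ, (∀ i j, (x i, y j) ∈ A) ∧
    (∀ i, |(x i : ℝ) - (s + d * u i)| ≤ ε) ∧ (∀ j, |(y j : ℝ) - (t + d * v j)| ≤ ε)

end Pool.Agent.AES
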