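import Mathlib

/-!
# AES-Der: the first derivative test for oscillatory integrals (Mathlib only)

PLAN.  Integration by parts: `exp(iφ) = (exp(iφ))' / (i φ')`, so
`∫_a^b exp(iφ) = [exp(iφ)/(i φ')]_a^b + ∫_a^b exp(iφ) φ'' / (i φ'²)`
(`intervalIntegral.integral_mul_deriv_eq_deriv_mul`, or `integral_eq_sub_of_hasDerivAt` for the
function `exp(iφ)/(iφ')` whose derivative is `exp(iφ) - exp(iφ) φ''/(i φ'²)`; note `φ' ≤ -l < 0`).
The boundary terms are `≤ 2/l`, and
`∫ φ''/φ'² = [-1/φ']_a^b ≤ 1/l` because `φ'' ≥ 0` and `-1/φ' ∈ (0, 1/l]`.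
-/

set_option autoImplicit false

open MeasureTheory

namespace Pool.Agent.AES

theorem der (φ φ' φ'' : ℝ → ℝ) (a b l : ℝ) (hab : a ≤ b) (hl : 0 < l)
    (h1 : ∀ u ∈ Set.Icc a b, HasDerivAt φ (φ' u) u)
    (h2 : ∀ u ∈ Set.Icc a b, HasDerivAt φ' (φ'' u) u)
    (h3 : ContinuousOn φ'' (Set.Icc a b)) (h4 : ∀ u ∈ Set.Icc a b, 0 ≤ φ'' u)
    (h5 : ∀ u ∈ Set.Icc a b, φ' u ≤ -l) :
    ‖∫ u in a..b, Complex.exp ((φ u : ℂ) * Complex.I)‖ ≤ 3 / l := by
  have hne : ∀ u ∈ Set.Icc a b, φ' u ≠ 0 := fun u hu => by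
    have := h5 u hu
    linarith
  have huIcc : Set.uIcc a b = Set.Icc a b := Set.uIcc_of_le hab
  -- the phase and the reciprocal of the derivative
  set E : ℝ → ℂ := fun u => Complex.exp ((φ u : ℂ) * Complex.I) with hE
  set ψ : ℝ → ℝ := fun u => (φ' u)⁻¹ with hψ
  set q : ℝ → ℝ := fun u => φ'' u / φ' u ^ 2 with hq
  have dE : ∀ u ∈ Set.Icc a b, HasDerivAt E (E u * ((φ' u : ℂ) * Complex.I)) u := by
    intro u hu
    exact (((h1 u hu).ofReal_comp).mul_const Complex.I).cexp
  have dψ : ∀ u ∈ Set.Icc a b, HasDerivAt ψ (-q u) u := by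
    intro u hu
    have h := (h2 u hu).inv (hne u hu)
    have e1 : -φ'' u / φ' u ^ 2 = -q u := by rw [hq]; ring
    rw [e1] at h
    exact h
  have dG : ∀ u ∈ Set.Icc a b, HasDerivAt (fun u => -Complex.I * (E u * (ψ u : ℂ)))
      (E u + Complex.I * (E u * (q u : ℂ))) u := by
    intro u hu
    have h := ((dE u hu).mul (dψ u hu).ofReal_comp).const_mul (-Complex.I)
    have e1 : -Complex.I * (E u * ((φ' u : ℂ) * Complex.I) * (ψ u : ℂ) +
        E u * ((-q u : ℝ) : ℂ)) = E u + Complex.I * (E u * (q u : ℂ)) := by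
      have e2 : (φ' u : ℂ) * (ψ u : ℂ) = 1 := by
        rw [hψ, ← Complex.ofReal_mul, mul_inv_cancel₀ (hne u hu), Complex.ofReal_one]
      rw [Complex.ofReal_neg]
      linear_combination (-E u * (φ' u : ℂ) * (ψ u : ℂ)) * Complex.I_mul_I + E u * e2
    rw [e1] at h
    exact h
  have cE : ContinuousOn E (Set.Icc a b) := fun u hu => (dE u hu).continuousAt.continuousWithinAt
  have cφ' : ContinuousOn φ' (Set.Icc a b) := fun u hu => (h2 u hu).continuousAt.continuousWithinAt
  have cq : ContinuousOn q (Set.Icc a b) :=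
    h3.div (cφ'.pow 2) (fun u hu => pow_ne_zero 2 (hne u hu))
  have cqC : ContinuousOn (fun u => (q u : ℂ)) (Set.Icc a b) :=
    Complex.continuous_ofReal.comp_continuousOn cq
  have cR : ContinuousOn (fun u => Complex.I * (E u * (q u : ℂ))) (Set.Icc a b) :=
    continuousOn_const.mul (cE.mul cqC)
  have iE : IntervalIntegrable E volume a b := by
    apply ContinuousOn.intervalIntegrable
    rw [huIcc]; exact cE
  have iR : IntervalIntegrable (fun u => Complex.I * (E u * (q u : ℂ))) volume a b := by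
    apply ContinuousOn.intervalIntegrable
    rw [huIcc]; exact cR
  have iq : IntervalIntegrable q volume a b := by
    apply ContinuousOn.intervalIntegrable
    rw [huIcc]; exact cq
  have k1 : ∫ u in a..b, (E u + Complex.I * (E u * (q u : ℂ))) =
      -Complex.I * (E b * (ψ b : ℂ)) - -Complex.I * (E a * (ψ a : ℂ)) := by
    apply intervalIntegral.integral_eq_sub_of_hasDerivAt
    · intro u hu
      rw [huIcc] at hu
      exact dG u hu
    · exact iE.add iR
  rw [intervalIntegral.integral_add iE iR] at k1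
  have k2 : ∫ u in a..b, q u = -ψ b - -ψ a := by
    apply intervalIntegral.integral_eq_sub_of_hasDerivAt (f := fun u => -ψ u)
    · intro u hu
      rw [huIcc] at hu
      have h := (dψ u hu).neg
      rw [neg_neg] at h
      exact h
    · exact iq
  have nE : ∀ u, ‖E u‖ = 1 := fun u => Complex.norm_exp_ofReal_mul_I (φ u)
  have k3 : ‖∫ u in a..b, Complex.I * (E u * (q u : ℂ))‖ ≤ ∫ u in a..b, q u := by
    refine (intervalIntegral.norm_integral_le_integral_norm hab).trans (le_of_eq ?_)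
    apply intervalIntegral.integral_congr
    intro u hu
    rw [huIcc] at hu
    have hq0 : 0 ≤ q u := div_nonneg (h4 u hu) (sq_nonneg _)
    change ‖Complex.I * (E u * (q u : ℂ))‖ = q u
    rw [norm_mul, norm_mul, nE, Complex.norm_I, one_mul, one_mul, Complex.norm_real,
      Real.norm_of_nonneg hq0]
  have ha : a ∈ Set.Icc a b := Set.left_mem_Icc.mpr hab
  have hb : b ∈ Set.Icc a b := Set.right_mem_Icc.mpr hab
  have bψ : ∀ u ∈ Set.Icc a b, -(1 / l) ≤ ψ u ∧ ψ u ≤ 0 := by
    intro u hu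
    have h := h5 u hu
    constructor
    · have e1 : ψ u = -(1 / (-φ' u)) := by rw [hψ]; field_simp
      rw [e1]
      apply neg_le_neg
      exact one_div_le_one_div_of_le hl (by linarith)
    · exact (inv_nonpos.mpr (by linarith))
  have nG : ∀ u ∈ Set.Icc a b, ‖-Complex.I * (E u * (ψ u : ℂ))‖ ≤ 1 / l := by
    intro u hu
    have h := bψ u hu
    rw [norm_mul, norm_mul, nE, norm_neg, Complex.norm_I, one_mul, one_mul, Complex.norm_real,
      Real.norm_eq_abs, abs_le]
    exact ⟨h.1, h.2.trans (by positivity)⟩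
  have k4 : ∫ u in a..b, E u = (-Complex.I * (E b * (ψ b : ℂ)) - -Complex.I * (E a * (ψ a : ℂ))) -
      ∫ u in a..b, Complex.I * (E u * (q u : ℂ)) := by
    rw [← k1]; ring
  rw [k4]
  have k5 : ∫ u in a..b, q u ≤ 1 / l := by
    rw [k2]
    have h := bψ b hb
    have h' := bψ a ha
    linarith [h.1, h'.2]
  calc ‖(-Complex.I * (E b * (ψ b : ℂ)) - -Complex.I * (E a * (ψ a : ℂ))) -
      ∫ u in a..b, Complex.I * (E u * (q u : ℂ))‖ ≤
      ‖-Complex.I * (E b * (ψ b : ℂ)) - -Complex.I * (E a * (ψ a : ℂ))‖ +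
      ‖∫ u in a..b, Complex.I * (E u * (q u : ℂ))‖ := norm_sub_le _ _
    _ ≤ (‖-Complex.I * (E b * (ψ b : ℂ))‖ + ‖-Complex.I * (E a * (ψ a : ℂ))‖) + 1 / l :=
        add_le_add (norm_sub_le _ _) (k3.trans k5)
    _ ≤ (1 / l + 1 / l) + 1 / l := by
        have := nG b hb
        have := nG a ha
        linarith
    _ = 3 / l := by ring

end Pool.Agent.AES
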