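import Pool.Agent.AES.Exm

/-!
# AES-FcA: the correlation `Co` is bounded, integrable, and its Fourier transform

PLAN.  `ν` is finite, `a z`, `b z` are bounded by `1` and vanish outside `[-X, X]`, `D ≤ r ≤ 2D`.
For `a z y ≠ 0` and `b z (y + β r) ≠ 0` we have `|y| ≤ X`, `|y + β r| ≤ X`, so `|β| ≤ 2X/D`: `Co`
vanishes for `|β| > 2X/D`, it is bounded by `2D · 2X · ν(Z)`, and measurable (parametric integral,
`StronglyMeasurable.integral_prod_right`); this gives `co_int`.  For `co_ft` use Fubini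
(`integral_integral_swap`, all integrands bounded, jointly measurable, supported in the finite
measure set `Z × [-X,X] × [-2X/D, 2X/D]`):
`ft Co t = ∫_z ∫_y a(y) (∫_β r b(y + β r) e(-β t) dβ) dy`, substitute `Y = y + β r`
(`dβ = dY / r`): the inner integral is `e(y t/r) ∫_Y b(Y) e(- Y t/r) dY = e(y t/r) ft b (t/r)`, and
`∫_y a(y) e(y t/r) dy = conj (ft a (t/r))` since `a` is real (`integral_conj`).
-/

set_option autoImplicit false

open MeasureTheory

namespace Pool.Agent.AES

variable {Z : Type*} [MeasurableSpace Z] {ν : Measure Z} [IsFiniteMeasure ν]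
  {r : Z → ℝ} {a b : Z → ℝ → ℝ} {D X : ℝ}

private theorem fca_int {α E : Type*} [MeasurableSpace α] [NormedAddCommGroup E] {μ : Measure α} {s : Set α}
    (hμ : μ s ≠ ⊤) {f : α → E} (hf : StronglyMeasurable f) {C : ℝ} (hb : ∀ x, ‖f x‖ ≤ C)
    (h0 : ∀ x, x ∉ s → f x = 0) : Integrable f μ := by
  have h1 : IntegrableOn f s μ := Measure.integrableOn_of_bounded hμ hf.aestronglyMeasurable (Filter.Eventually.of_forall hb)
  rw [← integrableOn_iff_integrable_of_support_subset (s := s)]
  · exact h1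
  · intro x hx
    by_contra hn
    exact hx (h0 x hn)

omit [IsFiniteMeasure ν] in
private theorem fca_m3 (P : Pr r a b D X) : Measurable (fun p : (ℝ × Z) × ℝ => a p.1.2 p.2 * b p.1.2 (p.2 + p.1.1 * r p.1.2)) := by
  have h1 : Measurable (fun p : (ℝ × Z) × ℝ => a p.1.2 p.2) :=
    P.ma.comp (f := fun p : (ℝ × Z) × ℝ => (p.1.2, p.2)) (by fun_prop)
  have hr : Measurable (fun p : (ℝ × Z) × ℝ => r p.1.2) := P.mr.comp (by fun_prop)
  have h2 : Measurable (fun p : (ℝ × Z) × ℝ => b p.1.2 (p.2 + p.1.1 * r p.1.2)) :=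
    P.mb.comp (f := fun p : (ℝ × Z) × ℝ => (p.1.2, p.2 + p.1.1 * r p.1.2))
      ((by fun_prop : Measurable fun p : (ℝ × Z) × ℝ => p.1.2).prodMk
        (measurable_snd.add ((by fun_prop : Measurable fun p : (ℝ × Z) × ℝ => p.1.1).mul hr)))
  exact h1.mul h2

private theorem fca_m2 (P : Pr r a b D X) :
    StronglyMeasurable (fun p : ℝ × Z => r p.2 * ∫ y, a p.2 y * b p.2 (y + p.1 * r p.2)) := by
  have h1 : StronglyMeasurable (fun p : ℝ × Z => ∫ y, a p.2 y * b p.2 (y + p.1 * r p.2)) :=
    StronglyMeasurable.integral_prod_right (f := fun (p : ℝ × Z) (y : ℝ) => a p.2 y * b p.2 (y + p.1 * r p.2))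
      (fca_m3 P).stronglyMeasurable
  exact (P.mr.comp measurable_snd).stronglyMeasurable.mul h1

theorem co_meas (P : Pr r a b D X) : Measurable (Co ν r a b) := by
  have h := StronglyMeasurable.integral_prod_right (ν := ν)
    (f := fun (β : ℝ) (z : Z) => r z * ∫ y, a z y * b z (y + β * r z)) (fca_m2 P)
  exact h.measurable

private theorem fca_in (P : Pr r a b D X) (z : Z) (β : ℝ) : |∫ y, a z y * b z (y + β * r z)| ≤ 2 * X := by
  have h1 : ∫ y, a z y * b z (y + β * r z) = ∫ y in Set.Icc (-X) X, a z y * b z (y + β * r z) := by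
    rw [setIntegral_eq_integral_of_forall_compl_eq_zero]
    intro y hy
    have h2 : X < |y| := by
      by_contra h3
      exact hy (abs_le.1 (not_lt.1 h3))
    rw [P.sa z y h2, zero_mul]
  rw [h1, ← Real.norm_eq_abs]
  have h2 := norm_setIntegral_le_of_norm_le_const (μ := volume) (s := Set.Icc (-X) X) (C := 1)
    (f := fun y => a z y * b z (y + β * r z)) measure_Icc_lt_top (by
      intro y _
      rw [norm_mul]
      exact mul_le_one₀ (P.ba z y) (norm_nonneg _) (P.bb z _))
  refine le_trans h2 ?_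
  rw [one_mul, Real.volume_real_Icc_of_le (by linarith [P.hX])]
  linarith

private theorem fca_rb (P : Pr r a b D X) (z : Z) (β : ℝ) :
    ‖r z * ∫ y, a z y * b z (y + β * r z)‖ ≤ 2 * D * (2 * X) := by
  rw [norm_mul, Real.norm_eq_abs, Real.norm_eq_abs]
  have h1 : |r z| ≤ 2 * D := by
    rw [abs_of_pos (lt_of_lt_of_le P.hD (P.rl z))]
    exact P.ru z
  exact mul_le_mul h1 (fca_in P z β) (abs_nonneg _) (by linarith [P.hD])

theorem co_bdd (P : Pr r a b D X) (β : ℝ) : |Co ν r a b β| ≤ 2 * D * (2 * X) * ν.real Set.univ := by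
  rw [← Real.norm_eq_abs]
  exact norm_integral_le_of_norm_le_const (Filter.Eventually.of_forall fun z => fca_rb P z β)

omit [MeasurableSpace Z] in
private theorem fca_supp [MeasurableSpace Z] (P : Pr r a b D X) {z : Z} {β : ℝ} (hβ : 2 * X / D < |β|) (y : ℝ) :
    a z y * b z (y + β * r z) = 0 := by
  by_cases hy : X < |y|
  · rw [P.sa z y hy, zero_mul]
  · have h1 : X < |y + β * r z| := by
      have h2 : 2 * X < |β| * r z := by
        rw [div_lt_iff₀ P.hD] at hβ
        exact lt_of_lt_of_le hβ (mul_le_mul_of_nonneg_left (P.rl z) (abs_nonneg _))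
      have h3 : |β * r z| = |β| * r z := by
        rw [abs_mul, abs_of_pos (lt_of_lt_of_le P.hD (P.rl z))]
      have h4 : |β * r z| ≤ |y + β * r z| + |y| := by
        have := abs_sub (y + β * r z) y
        rw [add_sub_cancel_left] at this
        exact this
      have h5 := not_lt.1 hy
      linarith
    rw [P.sb z _ h1, mul_zero]

theorem co_supp (P : Pr r a b D X) (β : ℝ) (hβ : 2 * X / D < |β|) : Co ν r a b β = 0 := by
  unfold Co
  have h : ∀ z, r z * ∫ y, a z y * b z (y + β * r z) = 0 := by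
    intro z
    rw [integral_congr_ae (Filter.Eventually.of_forall fun y => fca_supp P hβ y), integral_zero, mul_zero]
  rw [integral_congr_ae (Filter.Eventually.of_forall h), integral_zero]

theorem co_int (P : Pr r a b D X) : Integrable (Co ν r a b) := by
  refine fca_int (s := Set.Icc (-(2 * X / D)) (2 * X / D)) (C := 2 * D * (2 * X) * ν.real Set.univ)
    measure_Icc_lt_top.ne (co_meas P).stronglyMeasurable (fun β => ?_) (fun β hβ => ?_)
  · rw [Real.norm_eq_abs]
    exact co_bdd P β
  · refine co_supp P β ?_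
    by_contra h3
    exact hβ (abs_le.1 (not_lt.1 h3))

private theorem fca_sub (G : ℝ → ℂ) (y ρ : ℝ) (hρ : 0 < ρ) :
    ∫ β : ℝ, G (y + β * ρ) = (ρ⁻¹ : ℝ) • ∫ Y, G Y := by
  have h := Measure.integral_comp_mul_right (fun s => G (y + s)) ρ
  rw [integral_add_left_eq_self G y, abs_of_pos (inv_pos.2 hρ)] at h
  exact h

/-- the one dimensional identity -/
private theorem fca_one {u v : ℝ → ℝ} (mu : Measurable u) (mv : Measurable v) {ρ X : ℝ} (hρ : 0 < ρ)
    (bu : ∀ y, |u y| ≤ 1) (bv : ∀ y, |v y| ≤ 1) (su : ∀ y, X < |y| → u y = 0) (sv : ∀ y, X < |y| → v y = 0) (t : ℝ) :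
    ∫ β : ℝ, ((ρ * ∫ y, u y * v (y + β * ρ) : ℝ) : ℂ) * ex (-(β * t)) =
      (starRingEnd ℂ) (ft (fun y => (u y : ℂ)) (t / ρ)) * ft (fun y => (v y : ℂ)) (t / ρ) := by
  have e1 : ∀ β : ℝ, ((ρ * ∫ y, u y * v (y + β * ρ) : ℝ) : ℂ) * ex (-(β * t)) =
      ∫ y, (u y : ℂ) * ((ρ : ℂ) * ((v (y + β * ρ) : ℂ) * ex (-(β * t)))) := by
    intro β
    have e2 : ((∫ y, u y * v (y + β * ρ) : ℝ) : ℂ) = ∫ y, ((u y * v (y + β * ρ) : ℝ) : ℂ) := integral_ofReal.symm
    rw [Complex.ofReal_mul, e2, ← integral_const_mul, ← integral_mul_const]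
    refine integral_congr_ae (Filter.Eventually.of_forall fun y => ?_)
    simp only
    push_cast
    ring
  rw [integral_congr_ae (Filter.Eventually.of_forall e1)]
  -- the kernel is integrable
  have mex : Measurable ex := ex_cont.measurable
  have hK : Integrable (Function.uncurry fun (β : ℝ) (y : ℝ) =>
      (u y : ℂ) * ((ρ : ℂ) * ((v (y + β * ρ) : ℂ) * ex (-(β * t))))) (volume.prod volume) := by
    refine fca_int (s := Set.Icc (-(2 * X / ρ)) (2 * X / ρ) ×ˢ Set.Icc (-X) X) (C := ρ) ?_ ?_ ?_ ?_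
    · rw [Measure.prod_prod]
      exact (ENNReal.mul_lt_top measure_Icc_lt_top measure_Icc_lt_top).ne
    · have m1 : Measurable (fun p : ℝ × ℝ => (u p.2 : ℂ)) := Complex.measurable_ofReal.comp (mu.comp measurable_snd)
      have m2 : Measurable (fun p : ℝ × ℝ => (v (p.2 + p.1 * ρ) : ℂ)) :=
        Complex.measurable_ofReal.comp (mv.comp (by fun_prop))
      have m3 : Measurable (fun p : ℝ × ℝ => ex (-(p.1 * t))) := mex.comp (by fun_prop)
      exact (m1.mul (measurable_const.mul (m2.mul m3))).stronglyMeasurable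
    · rintro ⟨β, y⟩
      simp only [Function.uncurry]
      rw [norm_mul, norm_mul, norm_mul, ex_norm, mul_one, Complex.norm_real, Complex.norm_real, Complex.norm_real,
        Real.norm_eq_abs, Real.norm_eq_abs, Real.norm_eq_abs, abs_of_pos hρ]
      have h1 := bu y
      have h2 := bv (y + β * ρ)
      have h3 : |u y| * (ρ * |v (y + β * ρ)|) ≤ 1 * (ρ * 1) :=
        mul_le_mul h1 (mul_le_mul_of_nonneg_left h2 hρ.le) (by positivity) (by norm_num)
      linarith
    · rintro ⟨β, y⟩ hn
      simp only [Function.uncurry]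
      by_cases hy : X < |y|
      · rw [su y hy, Complex.ofReal_zero, zero_mul]
      · have h5 := not_lt.1 hy
        have h6 : 2 * X / ρ < |β| := by
          by_contra h7
          exact hn ⟨abs_le.1 (not_lt.1 h7), abs_le.1 h5⟩
        have h1 : X < |y + β * ρ| := by
          have h2 : 2 * X < |β| * ρ := by
            rw [div_lt_iff₀ hρ] at h6
            exact h6
          have h3 : |β * ρ| = |β| * ρ := by rw [abs_mul, abs_of_pos hρ]
          have h4 : |β * ρ| ≤ |y + β * ρ| + |y| := by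
            have := abs_sub (y + β * ρ) y
            rw [add_sub_cancel_left] at this
            exact this
          linarith
        rw [sv _ h1, Complex.ofReal_zero, zero_mul, mul_zero, mul_zero]
  rw [integral_integral_swap hK]
  -- the inner integral
  have e3 : ∀ y : ℝ, ∫ β : ℝ, (u y : ℂ) * ((ρ : ℂ) * ((v (y + β * ρ) : ℂ) * ex (-(β * t)))) =
      (u y : ℂ) * ex (y * (t / ρ)) * ft (fun y => (v y : ℂ)) (t / ρ) := by
    intro y
    rw [integral_const_mul, integral_const_mul]
    have h1 : ∀ β : ℝ, (v (y + β * ρ) : ℂ) * ex (-(β * t)) =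
        (fun Y : ℝ => ex (y * (t / ρ)) * ((v Y : ℂ) * ex (-(Y * (t / ρ))))) (y + β * ρ) := by
      intro β
      simp only
      have h2 : ex (-(β * t)) = ex (y * (t / ρ)) * ex (-((y + β * ρ) * (t / ρ))) := by
        rw [← ex_add]
        congr 1
        field_simp
        ring
      rw [h2]
      ring
    have h4 : (ρ : ℂ) ≠ 0 := by exact_mod_cast hρ.ne'
    rw [integral_congr_ae (Filter.Eventually.of_forall h1),
      fca_sub (fun Y : ℝ => ex (y * (t / ρ)) * ((v Y : ℂ) * ex (-(Y * (t / ρ))))) y ρ hρ,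
      integral_const_mul, Complex.real_smul, Complex.ofReal_inv]
    unfold ft
    field_simp
  rw [integral_congr_ae (Filter.Eventually.of_forall e3), integral_mul_const]
  congr 1
  unfold ft
  rw [← integral_conj]
  refine integral_congr_ae (Filter.Eventually.of_forall fun y => ?_)
  simp only
  rw [map_mul, Complex.conj_ofReal, ex_conj, neg_neg]

theorem co_ft (P : Pr r a b D X) (t : ℝ) :
    ft (fun β => (Co ν r a b β : ℂ)) t =
      ∫ z, (starRingEnd ℂ) (ft (fun y => (a z y : ℂ)) (t / r z)) *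
        ft (fun y => (b z y : ℂ)) (t / r z) ∂ν := by
  have e1 : ∀ β : ℝ, (Co ν r a b β : ℂ) * ex (-(β * t)) =
      ∫ z, ((r z * ∫ y, a z y * b z (y + β * r z) : ℝ) : ℂ) * ex (-(β * t)) ∂ν := by
    intro β
    unfold Co
    have e2 : ((∫ z, (r z * ∫ y, a z y * b z (y + β * r z)) ∂ν : ℝ) : ℂ) =
        ∫ z, ((r z * ∫ y, a z y * b z (y + β * r z) : ℝ) : ℂ) ∂ν := integral_ofReal.symm
    rw [e2, ← integral_mul_const]
  have hK : Integrable (Function.uncurry fun (β : ℝ) (z : Z) =>
      ((r z * ∫ y, a z y * b z (y + β * r z) : ℝ) : ℂ) * ex (-(β * t))) (volume.prod ν) := by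
    refine fca_int (s := Set.Icc (-(2 * X / D)) (2 * X / D) ×ˢ Set.univ) (C := 2 * D * (2 * X)) ?_ ?_ ?_ ?_
    · rw [Measure.prod_prod]
      exact (ENNReal.mul_lt_top measure_Icc_lt_top (measure_lt_top ν _)).ne
    · have m1 : StronglyMeasurable (fun p : ℝ × Z => ((r p.2 * ∫ y, a p.2 y * b p.2 (y + p.1 * r p.2) : ℝ) : ℂ)) :=
        (Complex.measurable_ofReal.comp (fca_m2 P).measurable).stronglyMeasurable
      have m3 : Measurable (fun p : ℝ × Z => ex (-(p.1 * t))) := ex_cont.measurable.comp (by fun_prop)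
      exact m1.mul m3.stronglyMeasurable
    · rintro ⟨β, z⟩
      simp only [Function.uncurry]
      rw [norm_mul, ex_norm, mul_one, Complex.norm_real]
      exact fca_rb P z β
    · rintro ⟨β, z⟩ hn
      simp only [Function.uncurry]
      have h6 : 2 * X / D < |β| := by
        by_contra h7
        exact hn ⟨abs_le.1 (not_lt.1 h7), Set.mem_univ _⟩
      rw [integral_congr_ae (Filter.Eventually.of_forall fun y => fca_supp P h6 y), integral_zero, mul_zero,
        Complex.ofReal_zero, zero_mul]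
  have e0 : ft (fun β => (Co ν r a b β : ℂ)) t = ∫ β : ℝ, (Co ν r a b β : ℂ) * ex (-(β * t)) := rfl
  rw [e0, integral_congr_ae (Filter.Eventually.of_forall e1), integral_integral_swap hK]
  refine integral_congr_ae (Filter.Eventually.of_forall fun z => ?_)
  exact fca_one (P.ma.comp measurable_prodMk_left) (P.mb.comp measurable_prodMk_left) (lt_of_lt_of_le P.hD (P.rl z))
    (P.ba z) (P.bb z) (P.sa z) (P.sb z) t

end Pool.Agent.AES
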