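import Pool.Agent.AES.FqA

/-!
# AES-FqB: from `2n` windows to `n` windows

The factors which contain one of the last `n` coordinates are at most one and are dropped; the sums
over the last `n` entries give a factor `L ^ n` in each direction.
-/

set_option autoImplicit false

open Finset

namespace Pool.Agent.AES

open Pool.Agent.Helper52.NG

/-- extension of an arrangement by zero -/
def ext0 {n : ℕ} (a : Fin n → ℕ) (p : Fin (2 * n)) : ℕ :=
  if h : (p : ℕ) < n then a ⟨p, h⟩ else 0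

private def extm {n m : ℕ} (a : Fin n → ℕ) (p : Fin m) : ℕ :=
  if h : (p : ℕ) < n then a ⟨p, h⟩ else 0

private theorem extm_castAdd {n k : ℕ} (a : Fin n → ℕ) (p : Fin n) : extm a (Fin.castAdd k p) = a p := by
  unfold extm
  rw [dif_pos (by rw [Fin.val_castAdd]; exact p.2)]
  rfl

private theorem fz_nn (A : Finset (ℕ × ℕ)) {N : ℕ} (u v : ZMod (2 * N)) : 0 ≤ fz A u v := by
  unfold fz
  split_ifs
  · exact zero_le_one
  · exact le_rfl

private theorem fz_one (A : Finset (ℕ × ℕ)) {N : ℕ} (u v : ZMod (2 * N)) : fz A u v ≤ 1 := by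
  unfold fz
  split_ifs
  · exact le_rfl
  · exact zero_le_one

private theorem ee_nn {N L n : ℕ} [NeZero (2 * N)] (A : Finset (ℕ × ℕ)) (v : ZMod (2 * N))
    (x : Fin n → ZMod (2 * N)) : 0 ≤ ee (fun u v => fz A u v) (1 : ZMod (2 * N)) L v x :=
  sum_nonneg fun _ _ => prod_nonneg fun _ _ => fz_nn A _ _

private theorem ee_card {N L n : ℕ} [NeZero (2 * N)] (A : Finset (ℕ × ℕ)) (v : ZMod (2 * N))
    (x : Fin n → ZMod (2 * N)) : ee (fun u v => fz A u v) (1 : ZMod (2 * N)) L v x ≤ (L : ℝ) := by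
  unfold ee
  have h : ∑ j ∈ range L, ∏ p, fz A (x p) (v + j • (1 : ZMod (2 * N))) ≤ ∑ _j ∈ range L, (1 : ℝ) :=
    sum_le_sum fun j _ => prod_le_one (fun _ _ => fz_nn A _ _) (fun _ _ => fz_one A _ _)
  rw [sum_const, card_range, nsmul_eq_mul, mul_one] at h
  exact h

private theorem ee_restrict {N L n k : ℕ} [NeZero (2 * N)] (A : Finset (ℕ × ℕ)) (v : ZMod (2 * N))
    (x : Fin (n + k) → ZMod (2 * N)) : ee (fun u v => fz A u v) (1 : ZMod (2 * N)) L v x ≤
      ee (fun u v => fz A u v) (1 : ZMod (2 * N)) L v (fun p : Fin n => x (Fin.castAdd k p)) := by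
  unfold ee
  refine sum_le_sum fun j _ => ?_
  rw [Fin.prod_univ_add]
  refine mul_le_of_le_one_right (prod_nonneg fun _ _ => fz_nn A _ _) ?_
  exact prod_le_one (fun _ _ => fz_nn A _ _) (fun _ _ => fz_one A _ _)

private theorem wd_sum (n k L : ℕ) (F : (Fin n → ℕ) → ℝ) :
    ∑ I ∈ Wd (n + k) L, F (fun p => I (Fin.castAdd k p)) = (L : ℝ) ^ k * ∑ I ∈ Wd n L, F I := by
  have h1 : ∑ I ∈ Wd (n + k) L, F (fun p => I (Fin.castAdd k p)) =
      ∑ z ∈ Wd n L ×ˢ Wd k L, F z.1 := by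
    refine sum_nbij' (fun I => (fun p => I (Fin.castAdd k p), fun p => I (Fin.natAdd n p)))
      (fun z => Fin.append z.1 z.2) ?_ ?_ ?_ ?_ ?_
    · intro I hI
      unfold Wd at hI ⊢
      rw [Fintype.mem_piFinset] at hI
      rw [mem_product, Fintype.mem_piFinset, Fintype.mem_piFinset]
      exact ⟨fun p => hI _, fun p => hI _⟩
    · intro z hz
      unfold Wd at hz ⊢
      rw [mem_product, Fintype.mem_piFinset, Fintype.mem_piFinset] at hz
      rw [Fintype.mem_piFinset]
      intro p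
      refine Fin.addCases (fun p => ?_) (fun p => ?_) p
      · rw [Fin.append_left]
        exact hz.1 p
      · rw [Fin.append_right]
        exact hz.2 p
    · intro I _
      exact Fin.append_castAdd_natAdd
    · intro z _
      refine Prod.ext (funext fun p => ?_) (funext fun p => ?_)
      · exact Fin.append_left _ _ p
      · exact Fin.append_right _ _ p
    · intro I _
      rfl
  rw [h1, sum_product, mul_sum]
  refine sum_congr rfl fun I _ => ?_
  have h2 : (Wd k L).card = L ^ k := by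
    unfold Wd
    rw [Fintype.card_piFinset_const, card_range]
  show ∑ _y ∈ Wd k L, F I = (L : ℝ) ^ k * F I
  rw [sum_const, h2, nsmul_eq_mul]
  push_cast
  ring

private theorem fqB_aux (N L n k : ℕ) [NeZero (2 * N)] (A : Finset (ℕ × ℕ)) (a b : Fin n → ℕ) :
    ∑ t ∈ (univ : Finset (ZMod (2 * N))) ×ˢ Wd (n + k) L, ∑ v,
        ∏ q : Fin (n + k), ee (fun u v => fz A u v) (1 : ZMod (2 * N)) L
          (v + extm b q • (L • (1 : ZMod (2 * N))))
          (fun p : Fin (n + k) => t.1 + extm a p • (L • (1 : ZMod (2 * N))) +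
            t.2 p • (1 : ZMod (2 * N))) ≤
      (L : ℝ) ^ (2 * k) * ∑ u : ZMod (2 * N), ∑ v : ZMod (2 * N), ∑ I ∈ Wd n L, ∑ J ∈ Wd n L,
        ∏ p, ∏ q, fz A (u + ((a p * L + I p : ℕ) : ZMod (2 * N)))
          (v + ((b q * L + J q : ℕ) : ZMod (2 * N))) := by
  have hL : (0 : ℝ) ≤ L := Nat.cast_nonneg L
  have h1 : ∀ (u v : ZMod (2 * N)) (I : Fin (n + k) → ℕ),
      ∏ q : Fin (n + k), ee (fun u v => fz A u v) (1 : ZMod (2 * N)) L
          (v + extm b q • (L • (1 : ZMod (2 * N))))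
          (fun p : Fin (n + k) => u + extm a p • (L • (1 : ZMod (2 * N))) + I p • (1 : ZMod (2 * N))) ≤
        (L : ℝ) ^ k * ∏ q : Fin n, ee (fun u v => fz A u v) (1 : ZMod (2 * N)) L
          (v + b q • (L • (1 : ZMod (2 * N))))
          (fun p : Fin n => u + a p • (L • (1 : ZMod (2 * N))) +
            I (Fin.castAdd k p) • (1 : ZMod (2 * N))) := by
    intro u v I
    rw [Fin.prod_univ_add, mul_comm]
    refine mul_le_mul ?_ ?_ (prod_nonneg fun _ _ => ee_nn A _ _) (pow_nonneg hL k)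
    · refine (prod_le_prod (fun _ _ => ee_nn A _ _) fun q _ => ee_card A _ _).trans ?_
      rw [prod_const, card_univ, Fintype.card_fin]
    · refine prod_le_prod (fun _ _ => ee_nn A _ _) fun q _ => ?_
      refine (ee_restrict A _ _).trans ?_
      simp only [extm_castAdd]
      exact le_rfl
  have h2 : ∀ (u v : ZMod (2 * N)) (I : Fin n → ℕ),
      ∏ q : Fin n, ee (fun u v => fz A u v) (1 : ZMod (2 * N)) L (v + b q • (L • (1 : ZMod (2 * N))))
          (fun p : Fin n => u + a p • (L • (1 : ZMod (2 * N))) + I p • (1 : ZMod (2 * N))) =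
        ∑ J ∈ Wd n L, ∏ p, ∏ q, fz A (u + ((a p * L + I p : ℕ) : ZMod (2 * N)))
          (v + ((b q * L + J q : ℕ) : ZMod (2 * N))) := by
    intro u v I
    have e : ∀ (w : ZMod (2 * N)) (i j : ℕ), w + i • (L • (1 : ZMod (2 * N))) + j • (1 : ZMod (2 * N)) =
        w + ((i * L + j : ℕ) : ZMod (2 * N)) := by
      intro w i j
      simp only [nsmul_eq_mul, mul_one]
      push_cast
      ring
    unfold ee Wd
    rw [prod_univ_sum]
    refine sum_congr rfl fun J _ => ?_
    rw [prod_comm]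
    refine prod_congr rfl fun p _ => prod_congr rfl fun q _ => ?_
    show fz A (u + a p • (L • (1 : ZMod (2 * N))) + I p • (1 : ZMod (2 * N)))
      (v + b q • (L • (1 : ZMod (2 * N))) + J q • (1 : ZMod (2 * N))) = _
    rw [e, e]
  rw [sum_product]
  calc ∑ u : ZMod (2 * N), ∑ I ∈ Wd (n + k) L, ∑ v,
        ∏ q : Fin (n + k), ee (fun u v => fz A u v) (1 : ZMod (2 * N)) L
          (v + extm b q • (L • (1 : ZMod (2 * N))))
          (fun p : Fin (n + k) => u + extm a p • (L • (1 : ZMod (2 * N))) + I p • (1 : ZMod (2 * N)))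
      ≤ ∑ u : ZMod (2 * N), ∑ I ∈ Wd (n + k) L, ∑ v : ZMod (2 * N),
        (L : ℝ) ^ k * ∏ q : Fin n, ee (fun u v => fz A u v) (1 : ZMod (2 * N)) L
          (v + b q • (L • (1 : ZMod (2 * N))))
          (fun p : Fin n => u + a p • (L • (1 : ZMod (2 * N))) +
            I (Fin.castAdd k p) • (1 : ZMod (2 * N))) :=
        sum_le_sum fun u _ => sum_le_sum fun I _ => sum_le_sum fun v _ => h1 u v I
    _ = ∑ u : ZMod (2 * N), (L : ℝ) ^ k * ∑ I ∈ Wd n L, ∑ v : ZMod (2 * N),
        (L : ℝ) ^ k * ∏ q : Fin n, ee (fun u v => fz A u v) (1 : ZMod (2 * N)) L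
          (v + b q • (L • (1 : ZMod (2 * N))))
          (fun p : Fin n => u + a p • (L • (1 : ZMod (2 * N))) + I p • (1 : ZMod (2 * N))) := by
        refine sum_congr rfl fun u _ => ?_
        exact wd_sum n k L (fun I => ∑ v : ZMod (2 * N),
          (L : ℝ) ^ k * ∏ q : Fin n, ee (fun u v => fz A u v) (1 : ZMod (2 * N)) L
          (v + b q • (L • (1 : ZMod (2 * N))))
          (fun p : Fin n => u + a p • (L • (1 : ZMod (2 * N))) + I p • (1 : ZMod (2 * N))))
    _ = _ := by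
        rw [mul_sum]
        refine sum_congr rfl fun u _ => ?_
        have e1 : ∀ I : Fin n → ℕ, ∑ v : ZMod (2 * N),
            (L : ℝ) ^ k * ∏ q : Fin n, ee (fun u v => fz A u v) (1 : ZMod (2 * N)) L
              (v + b q • (L • (1 : ZMod (2 * N))))
              (fun p : Fin n => u + a p • (L • (1 : ZMod (2 * N))) + I p • (1 : ZMod (2 * N))) =
            (L : ℝ) ^ k * ∑ v : ZMod (2 * N), ∑ J ∈ Wd n L, ∏ p, ∏ q,
              fz A (u + ((a p * L + I p : ℕ) : ZMod (2 * N)))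
                (v + ((b q * L + J q : ℕ) : ZMod (2 * N))) := by
          intro I
          rw [mul_sum]
          exact sum_congr rfl fun v _ => by rw [h2]
        have e2 : (L : ℝ) ^ (2 * k) = (L : ℝ) ^ k * (L : ℝ) ^ k := by rw [two_mul, pow_add]
        rw [sum_congr rfl fun I _ => e1 I, ← mul_sum, sum_comm, e2]
        ring

theorem fqB (N L n : ℕ) [NeZero (2 * N)] (A : Finset (ℕ × ℕ)) (a b : Fin n → ℕ) :
    ∑ t ∈ (univ : Finset (ZMod (2 * N))) ×ˢ Wd (2 * n) L, ∑ v,
        ∏ q, ee (fun u v => fz A u v) (1 : ZMod (2 * N)) L (v + ext0 b q • (L • (1 : ZMod (2 * N))))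
          (fun p => t.1 + ext0 a p • (L • (1 : ZMod (2 * N))) + t.2 p • (1 : ZMod (2 * N))) ≤
      (L : ℝ) ^ (2 * n) * ∑ u : ZMod (2 * N), ∑ v : ZMod (2 * N), ∑ I ∈ Wd n L, ∑ J ∈ Wd n L,
        ∏ p, ∏ q, fz A (u + ((a p * L + I p : ℕ) : ZMod (2 * N)))
          (v + ((b q * L + J q : ℕ) : ZMod (2 * N))) := by
  have key : ∀ m : ℕ, m = n + n →
      ∑ t ∈ (univ : Finset (ZMod (2 * N))) ×ˢ Wd m L, ∑ v,
        ∏ q : Fin m, ee (fun u v => fz A u v) (1 : ZMod (2 * N)) L
          (v + extm b q • (L • (1 : ZMod (2 * N))))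
          (fun p : Fin m => t.1 + extm a p • (L • (1 : ZMod (2 * N))) +
            t.2 p • (1 : ZMod (2 * N))) ≤
      (L : ℝ) ^ (2 * n) * ∑ u : ZMod (2 * N), ∑ v : ZMod (2 * N), ∑ I ∈ Wd n L, ∑ J ∈ Wd n L,
        ∏ p, ∏ q, fz A (u + ((a p * L + I p : ℕ) : ZMod (2 * N)))
          (v + ((b q * L + J q : ℕ) : ZMod (2 * N))) := by
    rintro m rfl
    exact fqB_aux N L n n A a b
  exact key (2 * n) (two_mul n)

end Pool.Agent.AES
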