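import Pool.Agent.AES.Goq
import Pool.Agent.AES.FqB

/-!
# AES-Fiq: many grids in all arrangements of windows at most scales

Assembly of `goodQ`, `fqB` and `fqA` as in `Helper52.NG.fin_main`.
-/

set_option autoImplicit false

open Finset

namespace Pool.Agent.AES

open Pool.Agent.Helper52.NG

theorem finq (n : ℕ) (hn : 1 ≤ n) : ∃ C : ℝ, 0 < C ∧ ∀ (N : ℕ) (A : Finset (ℕ × ℕ)),
    0 < N → A ⊆ Icc 1 N ×ˢ Icc 1 N → ∀ δ : ℝ, 0 < δ → δ * (N : ℝ) ^ 2 ≤ A.card →
    ∀ M k : ℕ, 4 ≤ M → M ^ k ≤ N →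
    ∃ B : Finset ℕ, B ⊆ range k ∧ (B.card : ℝ) ≤ C * Real.log (2 / δ) ∧
      ∀ i ∈ range k, i ∉ B → ∀ a b : Fin n → ℕ, (∀ p, 2 * a p ≤ M) → (∀ q, 2 * b q ≤ M) →
        (N : ℝ) ^ 2 * ((M : ℝ) ^ i) ^ (2 * n) * (δ / 4) ^ (4 * n ^ 2) ≤ WC A N (M ^ i) a b := by
  have hn1 : (1 : ℝ) ≤ n := by exact_mod_cast hn
  obtain ⟨κ, hκdef⟩ : ∃ κ : ℝ, κ = 1 / (20000 * (n : ℝ) ^ 3) := ⟨_, rfl⟩
  have hκ : 0 < κ := by rw [hκdef]; positivity
  have hκ2 : κ * (20000 * (n : ℝ) ^ 3) ≤ 1 := by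
    rw [hκdef]
    apply le_of_eq
    field_simp
  have hlog : 0 < Real.log (1 + κ ^ 2) := Real.log_pos (by nlinarith [pow_pos hκ 2])
  refine ⟨2 * ((2 * n) * (2 * n) : ℕ) / Real.log (1 + κ ^ 2), by positivity, ?_⟩
  intro N A hN hA δ hδ hδA M k hM hMN
  have : NeZero (2 * N) := ⟨by omega⟩
  have hN' : (0 : ℝ) < N := by exact_mod_cast hN
  have hcardle : (A.card : ℝ) ≤ (N : ℝ) ^ 2 := by
    have h1 := card_le_card hA
    rw [card_product, Nat.card_Icc, Nat.add_sub_cancel] at h1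
    have h2 : ((A.card : ℕ) : ℝ) ≤ ((N * N : ℕ) : ℝ) := by exact_mod_cast h1
    rw [Nat.cast_mul] at h2
    nlinarith
  have hδ1 : δ ≤ 1 := by
    have h1 : δ * (N : ℝ) ^ 2 ≤ 1 * (N : ℝ) ^ 2 := by linarith
    exact le_of_mul_le_mul_right h1 (by positivity)
  have hf0 : ∀ u v : ZMod (2 * N), 0 ≤ fz A u v := by
    intro u v
    unfold fz
    split_ifs <;> norm_num
  have hf1 : ∀ u v : ZMod (2 * N), fz A u v ≤ 1 := by
    intro u v
    unfold fz
    split_ifs <;> norm_num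
  have hcard : ((univ : Finset (ZMod (2 * N) × ZMod (2 * N))).filter
      (fun p => (p.1.val, p.2.val) ∈ A)).card = A.card := by
    refine card_bij (fun p _ => (p.1.val, p.2.val)) ?_ ?_ ?_
    · intro p hp
      exact (mem_filter.1 hp).2
    · intro p _ q _ h
      rw [Prod.mk.injEq] at h
      exact Prod.ext (ZMod.val_injective _ h.1) (ZMod.val_injective _ h.2)
    · intro y hy
      have h1 := hA hy
      rw [mem_product, mem_Icc, mem_Icc] at h1
      have e1 : ((y.1 : ℕ) : ZMod (2 * N)).val = y.1 := by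
        rw [ZMod.val_natCast, Nat.mod_eq_of_lt (by omega)]
      have e2 : ((y.2 : ℕ) : ZMod (2 * N)).val = y.2 := by
        rw [ZMod.val_natCast, Nat.mod_eq_of_lt (by omega)]
      refine ⟨(((y.1 : ℕ) : ZMod (2 * N)), ((y.2 : ℕ) : ZMod (2 * N))), ?_, ?_⟩
      · rw [mem_filter]
        refine ⟨mem_univ _, ?_⟩
        simp only [e1, e2]
        exact hy
      · simp only [e1, e2]
  have hsum : ∑ u : ZMod (2 * N), ∑ v : ZMod (2 * N), fz A u v = A.card := by
    rw [← hcard, ← sum_product', card_filter]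
    push_cast
    refine sum_congr rfl fun p _ => ?_
    unfold fz
    by_cases h : (p.1.val, p.2.val) ∈ A
    · rw [if_pos h]
    · rw [if_neg h]
  have hG : (Fintype.card (ZMod (2 * N)) : ℝ) = 2 * N := by
    rw [ZMod.card]
    push_cast
    ring
  obtain ⟨α, hαdef⟩ : ∃ α : ℝ, α = A.card / (2 * (N : ℝ)) ^ 2 := ⟨_, rfl⟩
  have hA0 : (0 : ℝ) < A.card := lt_of_lt_of_le (by positivity) hδA
  have hα0 : 0 < α := by rw [hαdef]; positivity
  have hα1 : α ≤ 1 := by
    rw [hαdef, div_le_one (by positivity)]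
    nlinarith
  have hαδ : δ / 4 ≤ α := by
    rw [hαdef, le_div_iff₀ (by positivity)]
    nlinarith
  have hα : ∑ u : ZMod (2 * N), ∑ v : ZMod (2 * N), fz A u v =
      α * (Fintype.card (ZMod (2 * N)) : ℝ) ^ 2 := by
    rw [hsum, hG, hαdef]
    field_simp
  obtain ⟨B, hB1, hB2, hB3⟩ := goodQ hf0 hf1 (1 : ZMod (2 * N)) n M hn (by omega) κ hκ hκ2 α
    hα0 hα k
  refine ⟨B, hB1, ?_, ?_⟩
  · have h1 : (1 + κ ^ 2) ^ B.card * α ^ ((2 * n) * (2 * n)) ≤ 1 := hB2.trans hα1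
    have h2 := Real.log_le_log (by positivity) h1
    rw [Real.log_one, Real.log_mul (by positivity) (by positivity), Real.log_pow, Real.log_pow] at h2
    have h3 : Real.log (1 / α) ≤ 2 * Real.log (2 / δ) := by
      have h4 : 1 / α ≤ (2 / δ) ^ 2 := by
        rw [div_pow, div_le_div_iff₀ hα0 (by positivity)]
        nlinarith
      have h5 := Real.log_le_log (by positivity) h4
      rw [Real.log_pow] at h5
      exact_mod_cast h5
    rw [one_div, Real.log_inv] at h3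
    rw [div_mul_eq_mul_div, le_div_iff₀ hlog]
    have h6 : (0 : ℝ) ≤ (((2 * n) * (2 * n) : ℕ) : ℝ) := by positivity
    nlinarith [mul_le_mul_of_nonneg_left h3 h6]
  · intro i hi hiB a b ha hb
    have hM0 : 0 < M := by omega
    have hMi : (0 : ℝ) < (M : ℝ) ^ i := by
      have : (0 : ℝ) < M := by exact_mod_cast hM0
      positivity
    have hext : ∀ c : Fin n → ℕ, (∀ p, 2 * c p ≤ M) → ∀ p, 2 * ext0 c p ≤ M := by
      intro c hc p
      unfold ext0
      split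
      · exact hc _
      · exact Nat.zero_le _
    have hwin : ∀ c : Fin n → ℕ, (∀ p, 2 * c p ≤ M) → ∀ p, c p * M ^ i + M ^ i ≤ N := by
      intro c hc p
      have h1 := hc p
      have hik : i + 1 ≤ k := by
        have := mem_range.1 hi
        omega
      have h3 : M ^ (i + 1) ≤ M ^ k := Nat.pow_le_pow_right hM0 hik
      have h4 : (c p + 1) * M ^ i ≤ M * M ^ i := Nat.mul_le_mul_right _ (by omega)
      rw [pow_succ'] at h3
      calc c p * M ^ i + M ^ i = (c p + 1) * M ^ i := by ring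
        _ ≤ N := (h4.trans h3).trans hMN
    have h1 := hB3 i hi hiB (ext0 a) (ext0 b) (hext a ha) (hext b hb)
    have h2 := fqB N (M ^ i) n A a b
    have h3 := fqA N (M ^ i) n hn hN A hA a b (hwin a ha) (hwin b hb)
    have h4 := (h1.trans h2).trans (mul_le_mul_of_nonneg_left h3 (by positivity))
    rw [Nat.cast_pow, hG] at h4
    have h5 : ((M : ℝ) ^ i) ^ (2 * (2 * n)) = ((M : ℝ) ^ i) ^ (2 * n) * ((M : ℝ) ^ i) ^ (2 * n) := by
      rw [two_mul (2 * n), pow_add]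
    have h6 : ((M : ℝ) ^ i) ^ (2 * n) * ((N : ℝ) ^ 2 * ((M : ℝ) ^ i) ^ (2 * n) * α ^ (4 * n ^ 2)) ≤
        ((M : ℝ) ^ i) ^ (2 * n) * WC A N (M ^ i) a b := by
      refine le_trans (le_of_eq ?_) h4
      rw [h5, show 4 * n ^ 2 = 2 * n * (2 * n) by ring]
      ring
    have h7 := le_of_mul_le_mul_left h6 (by positivity)
    refine le_trans ?_ h7
    refine mul_le_mul_of_nonneg_left ?_ (by positivity)
    exact pow_le_pow_left₀ (by positivity) hαδ _

end Pool.Agent.AES
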