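import Pool.Agent.AES.Defs

/-!
# AES-Mea: measurability, bounds and symmetry of `FF`
-/

set_option autoImplicit false

open MeasureTheory

namespace Pool.Agent.AES

private theorem me_int {α : Type} [MeasurableSpace α] {μ : Measure α} {f : α → ℝ} (hf : Measurable f) {C : ℝ}
    (h1 : ∀ p, ‖f p‖ ≤ C) {s : Set α} (hs : μ s ≠ ⊤) (h0 : ∀ p, p ∉ s → f p = 0) : Integrable f μ := by
  refine (integrableOn_iff_integrable_of_support_subset fun p hp => ?_).1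
    (Measure.integrableOn_of_bounded hs hf.aestronglyMeasurable (ae_of_all _ h1))
  by_contra h
  exact hp (h0 p h)

/-- the integrand -/
private noncomputable def mg (f : ℝ → ℝ → ℝ) {n : ℕ} (α β : Fin n → ℝ) (u x y : ℝ) : ℝ :=
  u * ∏ i, ∏ j, f (x + α i * u) (y + β j * u)

private theorem me_p {f : ℝ → ℝ → ℝ} {R : ℝ} (hf : Bx f R) {n : ℕ} (α β : Fin n → ℝ) (u x y : ℝ) :
    0 ≤ ∏ i, ∏ j, f (x + α i * u) (y + β j * u) ∧ ∏ i, ∏ j, f (x + α i * u) (y + β j * u) ≤ 1 := by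
  constructor
  · exact Finset.prod_nonneg fun i _ => Finset.prod_nonneg fun j _ => hf.nonneg _ _
  · exact Finset.prod_le_one (fun i _ => Finset.prod_nonneg fun j _ => hf.nonneg _ _) fun i _ =>
      Finset.prod_le_one (fun j _ => hf.nonneg _ _) fun j _ => hf.le_one _ _

private theorem me_nn {f : ℝ → ℝ → ℝ} {R : ℝ} (hf : Bx f R) {n : ℕ} (α β : Fin n → ℝ) {u : ℝ} (hu : 0 ≤ u)
    (x y : ℝ) : 0 ≤ mg f α β u x y := mul_nonneg hu (me_p hf α β u x y).1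

private theorem me_bd {f : ℝ → ℝ → ℝ} {R D : ℝ} (hf : Bx f R) (hD : 0 < D) {n : ℕ} (α β : Fin n → ℝ) {u : ℝ}
    (hu : u ∈ Set.Icc D (2 * D)) (x y : ℝ) : ‖mg f α β u x y‖ ≤ 2 * D := by
  have hu0 : 0 ≤ u := hD.le.trans hu.1
  rw [Real.norm_of_nonneg (me_nn hf α β hu0 x y)]
  calc mg f α β u x y ≤ u * 1 := mul_le_mul_of_nonneg_left (me_p hf α β u x y).2 hu0
    _ ≤ 2 * D := by rw [mul_one]; exact hu.2

private theorem me_z {f : ℝ → ℝ → ℝ} {R : ℝ} (hf : Bx f R) {n : ℕ} (α β : Fin n → ℝ) (i0 : Fin n) (u x y : ℝ)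
    (h : ¬ (x ∈ Set.Icc (-(α i0 * u)) (R - α i0 * u) ∧ y ∈ Set.Icc (-(β i0 * u)) (R - β i0 * u))) :
    mg f α β u x y = 0 := by
  unfold mg
  have h1 : f (x + α i0 * u) (y + β i0 * u) = 0 := by
    refine hf.zero _ _ ?_
    by_contra h2
    push Not at h2
    refine h ⟨?_, ?_⟩
    · rw [Set.mem_Icc]
      constructor <;> linarith [h2.1, h2.2.1]
    · rw [Set.mem_Icc]
      constructor <;> linarith [h2.2.2.1, h2.2.2.2]
  rw [Finset.prod_eq_zero (Finset.mem_univ i0) (Finset.prod_eq_zero (Finset.mem_univ i0) h1), mul_zero]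

private theorem me_m {f : ℝ → ℝ → ℝ} {R : ℝ} (hf : Bx f R) (n : ℕ) :
    Measurable (fun q : ((((Fin n → ℝ) × (Fin n → ℝ)) × ℝ) × ℝ) × ℝ =>
      mg f q.1.1.1.1 q.1.1.1.2 q.1.1.2 q.1.2 q.2) := by
  unfold mg
  refine Measurable.mul (by fun_prop) ?_
  refine Finset.measurable_fun_prod _ fun i _ => Finset.measurable_fun_prod _ fun j _ => ?_
  have h1 : Measurable (fun q : ((((Fin n → ℝ) × (Fin n → ℝ)) × ℝ) × ℝ) × ℝ =>
      (q.1.2 + q.1.1.1.1 i * q.1.1.2, q.2 + q.1.1.1.2 j * q.1.1.2)) := by fun_prop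
  exact hf.meas.comp h1

private theorem me_m2 {f : ℝ → ℝ → ℝ} {R : ℝ} (hf : Bx f R) {n : ℕ} (α β : Fin n → ℝ) (u : ℝ) :
    Measurable (fun q : ℝ × ℝ => mg f α β u q.1 q.2) := by
  have h1 : Measurable (fun q : ℝ × ℝ => (((((α, β), u), q.1), q.2) :
    ((((Fin n → ℝ) × (Fin n → ℝ)) × ℝ) × ℝ) × ℝ)) := by fun_prop
  exact (me_m hf n).comp h1

private theorem me_box (a b c d : ℝ) :
    (volume : Measure (ℝ × ℝ)) (Set.Icc a b ×ˢ Set.Icc c d) ≠ ⊤ := by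
  rw [Measure.volume_eq_prod, Measure.prod_prod, Real.volume_Icc, Real.volume_Icc]
  exact ENNReal.mul_ne_top ENNReal.ofReal_ne_top ENNReal.ofReal_ne_top

private theorem me_ixy {f : ℝ → ℝ → ℝ} {R D : ℝ} (hf : Bx f R) (hD : 0 < D) {n : ℕ} (hn : 1 ≤ n)
    (α β : Fin n → ℝ) {u : ℝ} (hu : u ∈ Set.Icc D (2 * D)) :
    Integrable (fun q : ℝ × ℝ => mg f α β u q.1 q.2) (volume.prod volume) := by
  rw [← Measure.volume_eq_prod]
  refine me_int (me_m2 hf α β u) (fun q => me_bd hf hD α β hu _ _)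
    (me_box (-(α ⟨0, hn⟩ * u)) (R - α ⟨0, hn⟩ * u) (-(β ⟨0, hn⟩ * u)) (R - β ⟨0, hn⟩ * u)) fun q hq =>
    me_z hf α β ⟨0, hn⟩ u _ _ fun h => hq ⟨h.1, h.2⟩

private theorem me_iy {f : ℝ → ℝ → ℝ} {R D : ℝ} (hf : Bx f R) (hD : 0 < D) {n : ℕ} (hn : 1 ≤ n)
    (α β : Fin n → ℝ) {u : ℝ} (hu : u ∈ Set.Icc D (2 * D)) (x : ℝ) :
    Integrable (fun y => mg f α β u x y) := by
  refine me_int (s := Set.Icc (-(β ⟨0, hn⟩ * u)) (R - β ⟨0, hn⟩ * u))
    ((me_m2 hf α β u).comp (measurable_const.prodMk measurable_id)) (fun y => me_bd hf hD α β hu _ _) ?_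
    fun y hy => me_z hf α β ⟨0, hn⟩ u _ _ fun h => hy h.2
  rw [Real.volume_Icc]
  exact ENNReal.ofReal_ne_top

private theorem me_by {f : ℝ → ℝ → ℝ} {R D : ℝ} (hf : Bx f R) (hR : 0 < R) (hD : 0 < D) {n : ℕ} (hn : 1 ≤ n)
    (α β : Fin n → ℝ) {u : ℝ} (hu : u ∈ Set.Icc D (2 * D)) (x : ℝ) :
    ‖∫ y, mg f α β u x y‖ ≤ 2 * D * R := by
  have h0 : ∀ y, y ∉ Set.Icc (-(β ⟨0, hn⟩ * u)) (R - β ⟨0, hn⟩ * u) → mg f α β u x y = 0 := fun y hy =>
    me_z hf α β ⟨0, hn⟩ u _ _ fun h => hy h.2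
  rw [← setIntegral_eq_integral_of_forall_compl_eq_zero h0]
  have h1 := norm_setIntegral_le_of_norm_le_const (μ := volume)
    (s := Set.Icc (-(β ⟨0, hn⟩ * u)) (R - β ⟨0, hn⟩ * u)) (f := fun y => mg f α β u x y) (C := 2 * D)
    (by rw [Real.volume_Icc]; exact ENNReal.ofReal_lt_top) (fun y _ => me_bd hf hD α β hu _ _)
  rw [Real.volume_real_Icc, max_eq_left (by linarith), show R - β ⟨0, hn⟩ * u - -(β ⟨0, hn⟩ * u) = R by ring] at h1
  exact h1

private theorem me_bxy {f : ℝ → ℝ → ℝ} {R D : ℝ} (hf : Bx f R) (hR : 0 < R) (hD : 0 < D) {n : ℕ} (hn : 1 ≤ n)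
    (α β : Fin n → ℝ) {u : ℝ} (hu : u ∈ Set.Icc D (2 * D)) :
    ‖∫ x, ∫ y, mg f α β u x y‖ ≤ 2 * D * (R * R) := by
  have h0 : ∀ x, x ∉ Set.Icc (-(α ⟨0, hn⟩ * u)) (R - α ⟨0, hn⟩ * u) → ∫ y, mg f α β u x y = 0 := by
    intro x hx
    have h1 : ∀ y, mg f α β u x y = 0 := fun y => me_z hf α β ⟨0, hn⟩ u _ _ fun h => hx h.1
    simp only [h1, integral_zero]
  rw [← setIntegral_eq_integral_of_forall_compl_eq_zero h0]
  have h1 := norm_setIntegral_le_of_norm_le_const (μ := volume)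
    (s := Set.Icc (-(α ⟨0, hn⟩ * u)) (R - α ⟨0, hn⟩ * u)) (f := fun x => ∫ y, mg f α β u x y) (C := 2 * D * R)
    (by rw [Real.volume_Icc]; exact ENNReal.ofReal_lt_top) (fun x _ => me_by hf hR hD hn α β hu x)
  rw [Real.volume_real_Icc, max_eq_left (by linarith), show R - α ⟨0, hn⟩ * u - -(α ⟨0, hn⟩ * u) = R by ring] at h1
  linarith [h1, show 2 * D * (R * R) = 2 * D * R * R by ring]

private theorem me_mu {f : ℝ → ℝ → ℝ} {R : ℝ} (hf : Bx f R) {n : ℕ} (α β : Fin n → ℝ) :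
    Measurable (fun u => ∫ x, ∫ y, mg f α β u x y) := by
  have h1 := ((me_m hf n).stronglyMeasurable.integral_prod_right' (ν := volume)).integral_prod_right'
    (ν := volume)
  have h2 : Measurable (fun u : ℝ => (((α, β), u) : ((Fin n → ℝ) × (Fin n → ℝ)) × ℝ)) := by fun_prop
  exact h1.measurable.comp h2

theorem mea_nonneg {f : ℝ → ℝ → ℝ} {R D : ℝ} (hf : Bx f R) (hD : 0 < D) {n : ℕ}
    (α β : Fin n → ℝ) : 0 ≤ FF f D α β := by
  refine setIntegral_nonneg measurableSet_Icc fun u hu => ?_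
  exact integral_nonneg fun x => integral_nonneg fun y => me_nn hf α β (hD.le.trans hu.1) x y

theorem mea_bdd {f : ℝ → ℝ → ℝ} {R D : ℝ} (hf : Bx f R) (hR : 0 < R) (hD : 0 < D) {n : ℕ}
    (hn : 1 ≤ n) (α β : Fin n → ℝ) : FF f D α β ≤ 2 * D * (R * R) * D := by
  have h1 := norm_setIntegral_le_of_norm_le_const (μ := volume) (s := Set.Icc D (2 * D))
    (f := fun u => ∫ x, ∫ y, mg f α β u x y) (C := 2 * D * (R * R))
    (by rw [Real.volume_Icc]; exact ENNReal.ofReal_lt_top) (fun u hu => me_bxy hf hR hD hn α β hu)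
  rw [Real.volume_real_Icc, max_eq_left (by linarith), show 2 * D - D = D by ring] at h1
  exact (le_abs_self _).trans h1

theorem mea_meas {f : ℝ → ℝ → ℝ} {R : ℝ} (hf : Bx f R) (D : ℝ) (n : ℕ) :
    Measurable (fun p : (Fin n → ℝ) × (Fin n → ℝ) => FF f D p.1 p.2) := by
  have h1 := (((me_m hf n).stronglyMeasurable.integral_prod_right' (ν := volume)).integral_prod_right'
    (ν := volume)).integral_prod_right' (ν := volume.restrict (Set.Icc D (2 * D)))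
  exact h1.measurable

theorem mea_symm {f : ℝ → ℝ → ℝ} {R D : ℝ} (hf : Bx f R) (hD : 0 < D) {n : ℕ} (hn : 1 ≤ n)
    (α β : Fin n → ℝ) : FF f D α β = FF (fun x y => f y x) D β α := by
  unfold FF
  refine setIntegral_congr_fun measurableSet_Icc fun u hu => ?_
  show ∫ x, ∫ y, mg f α β u x y = ∫ x, ∫ y, mg (fun x y => f y x) β α u x y
  rw [integral_integral_swap (f := fun x y => mg f α β u x y) (me_ixy hf hD hn α β hu)]
  refine integral_congr_ae (ae_of_all _ fun y => integral_congr_ae (ae_of_all _ fun x => ?_))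
  show u * ∏ i, ∏ j, f (x + α i * u) (y + β j * u) = u * ∏ i, ∏ j, f (x + α j * u) (y + β i * u)
  rw [Finset.prod_comm]

theorem bx_symm {f : ℝ → ℝ → ℝ} {R : ℝ} (hf : Bx f R) : Bx (fun x y => f y x) R := by
  refine ⟨?_, fun x y => hf.nonneg y x, fun x y => hf.le_one y x, fun x y h => hf.zero y x ?_⟩
  · exact hf.meas.comp measurable_swap
  · tauto

theorem mea_lin {f : ℝ → ℝ → ℝ} {R D : ℝ} (hf : Bx f R) (hR : 0 < R) (hD : 0 < D) {n : ℕ}
    (hn : 1 ≤ n) (α β : Fin n → ℝ) :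
    ENNReal.ofReal (FF f D α β) = ∫⁻ u in Set.Icc D (2 * D), ∫⁻ x, ∫⁻ y,
      ENNReal.ofReal (u * ∏ i, ∏ j, f (x + α i * u) (y + β j * u)) := by
  have hiu : IntegrableOn (fun u => ∫ x, ∫ y, mg f α β u x y) (Set.Icc D (2 * D)) := by
    refine Measure.integrableOn_of_bounded (M := 2 * D * (R * R)) ?_ (me_mu hf α β).aestronglyMeasurable ?_
    · rw [Real.volume_Icc]
      exact ENNReal.ofReal_ne_top
    · exact (ae_restrict_iff' measurableSet_Icc).2 (ae_of_all _ fun u hu => me_bxy hf hR hD hn α β hu)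
  have h1 : ENNReal.ofReal (FF f D α β) = ∫⁻ u in Set.Icc D (2 * D),
      ENNReal.ofReal (∫ x, ∫ y, mg f α β u x y) := by
    refine ofReal_integral_eq_lintegral_ofReal hiu ?_
    exact (ae_restrict_iff' measurableSet_Icc).2 (ae_of_all _ fun u hu =>
      integral_nonneg fun x => integral_nonneg fun y => me_nn hf α β (hD.le.trans hu.1) x y)
  rw [h1]
  refine setLIntegral_congr_fun measurableSet_Icc fun u hu => ?_
  show ENNReal.ofReal (∫ x, ∫ y, mg f α β u x y) = ∫⁻ x, ∫⁻ y, ENNReal.ofReal (mg f α β u x y)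
  have hu0 : 0 ≤ u := hD.le.trans hu.1
  rw [ofReal_integral_eq_lintegral_ofReal (me_ixy hf hD hn α β hu).integral_prod_left
    (ae_of_all _ fun x => integral_nonneg fun y => me_nn hf α β hu0 x y)]
  refine lintegral_congr fun x => ?_
  exact ofReal_integral_eq_lintegral_ofReal (me_iy hf hD hn α β hu x)
    (ae_of_all _ fun y => me_nn hf α β hu0 x y)

end Pool.Agent.AES
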