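import Pool.Agent.AES.ReA
import Pool.Agent.AES.Mea
import Pool.Agent.AES.Cfm

/-!
# AES-ReB: low frequencies: the average of `Fp` over a box is large at every shape
-/

set_option autoImplicit false

open MeasureTheory

namespace Pool.Agent.AES

private theorem reb_ceil (h : ℤ → ENNReal) (I : Finset ℤ) : ∑ z ∈ I, h z ≤ ∫⁻ x : ℝ, h ⌈x⌉ := by
  have hd : Set.PairwiseDisjoint (I : Set ℤ) (fun z : ℤ => Set.Ioc ((z : ℝ) - 1) z) := by
    intro a _ b _ hab
    rw [Function.onFun, Set.disjoint_left]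
    intro x hx hx'
    apply hab
    have h1 : ⌈x⌉ = a := Int.ceil_eq_iff.2 hx
    have h2 : ⌈x⌉ = b := Int.ceil_eq_iff.2 hx'
    rw [← h1, h2]
  calc ∑ z ∈ I, h z = ∑ z ∈ I, ∫⁻ x in Set.Ioc ((z : ℝ) - 1) z, h ⌈x⌉ := by
        refine Finset.sum_congr rfl fun z _ => ?_
        rw [setLIntegral_congr_fun (g := fun _ => h z) measurableSet_Ioc ?_]
        · rw [setLIntegral_const, Real.volume_Ioc]
          simp
        · intro x hx
          show h ⌈x⌉ = h z
          rw [Int.ceil_eq_iff.2 hx]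
    _ = ∫⁻ x in ⋃ z ∈ I, Set.Ioc ((z : ℝ) - 1) z, h ⌈x⌉ :=
        (lintegral_biUnion_finset hd (fun z _ => measurableSet_Ioc) _).symm
    _ ≤ ∫⁻ x : ℝ, h ⌈x⌉ := setLIntegral_le_lintegral _ _

private theorem reb_swap {S : Type} [MeasurableSpace S] (μ : Measure S) [SFinite μ] (ν : Measure ℝ)
    [SFinite ν] (H : S → ℝ → ℝ → ℝ → ENNReal)
    (hH : Measurable fun z : S × ℝ × ℝ × ℝ => H z.1 z.2.1 z.2.2.1 z.2.2.2) :
    ∫⁻ s, ∫⁻ u, ∫⁻ x, ∫⁻ y, H s u x y ∂volume ∂volume ∂ν ∂μ =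
      ∫⁻ u, ∫⁻ x, ∫⁻ y, ∫⁻ s, H s u x y ∂μ ∂volume ∂volume ∂ν := by
  have h0 : Measurable fun z : (S × ℝ) × ℝ => ∫⁻ y, H z.1.1 z.1.2 z.2 y :=
    Measurable.lintegral_prod_right' (f := fun w : ((S × ℝ) × ℝ) × ℝ => H w.1.1.1 w.1.1.2 w.1.2 w.2)
      (hH.comp (f := fun w : ((S × ℝ) × ℝ) × ℝ => (w.1.1.1, w.1.1.2, w.1.2, w.2)) (by fun_prop))
  have h1 : Measurable fun z : S × ℝ => ∫⁻ x, ∫⁻ y, H z.1 z.2 x y :=
    Measurable.lintegral_prod_right' (f := fun w : (S × ℝ) × ℝ => ∫⁻ y, H w.1.1 w.1.2 w.2 y) h0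
  rw [lintegral_lintegral_swap (f := fun s u => ∫⁻ x, ∫⁻ y, H s u x y) h1.aemeasurable]
  refine lintegral_congr fun u => ?_
  have h2 : Measurable fun z : S × ℝ => ∫⁻ y, H z.1 u z.2 y :=
    h0.comp (f := fun z : S × ℝ => ((z.1, u), z.2)) (by fun_prop)
  rw [lintegral_lintegral_swap (f := fun s x => ∫⁻ y, H s u x y) h2.aemeasurable]
  refine lintegral_congr fun x => ?_
  have h3 : Measurable fun z : S × ℝ => H z.1 u x z.2 :=
    hH.comp (f := fun z : S × ℝ => (z.1, u, x, z.2)) (by fun_prop)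
  rw [lintegral_lintegral_swap (f := fun s y => H s u x y) h3.aemeasurable]

theorem reB (N : ℕ) (hN : 0 < N) (A : Finset (ℕ × ℕ))
    (hA : A ⊆ Finset.Icc 1 N ×ˢ Finset.Icc 1 N) (ε : ℝ)
    (hε : 0 < ε) (hε1 : ε ≤ 1) (n M L : ℕ) (hn : 1 ≤ n) (hM : 4 ≤ M) (hL : 1 ≤ L) (W : ℝ)
    (hW : 0 ≤ W)
    (h : ∀ a b : Fin n → ℕ, (∀ i, 2 * a i ≤ M) → (∀ j, 2 * b j ≤ M) → W ≤ WC A N L a b)
    (D T : ℝ) (hD : D = (M : ℝ) * L / 8) (hT : T = (M : ℝ) / 24)
    (p : Fin n ⊕ Fin n → ℝ) (hp : p ∈ Set.Icc (0 : Fin n ⊕ Fin n → ℝ) 1) :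
    W * D ^ 2 * (ε / (6 * L)) ^ (2 * n) * (1 / T) ^ (2 * n) ≤
      ∫ s in Set.Icc (0 : Fin n ⊕ Fin n → ℝ) (fun _ => 1 / T), Fp (cf A ε) D (p + s) := by
  have hMr : (4 : ℝ) ≤ M := by exact_mod_cast hM
  have hLr : (1 : ℝ) ≤ L := by exact_mod_cast hL
  have hL0 : (0 : ℝ) < L := by linarith
  have hDpos : 0 < D := by
    rw [hD]
    have : (0 : ℝ) < M * L := by positivity
    linarith
  have hTpos : 0 < T := by
    rw [hT]
    linarith
  have hbx := cf_bx N A hA ε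
  have hR : (0 : ℝ) < (N : ℝ) + 1 := by positivity
  set f := cf A ε with hf
  set box : Set (Fin n ⊕ Fin n → ℝ) := Set.Icc (0 : Fin n ⊕ Fin n → ℝ) (fun _ => 1 / T) with hbox
  -- the integrand
  have hfm : Measurable (Function.uncurry f) := hbx.meas
  have hgm : Measurable fun s : Fin n ⊕ Fin n → ℝ => Fp f D (p + s) := by
    have h1 := mea_meas hbx D n
    exact h1.comp (f := fun s : Fin n ⊕ Fin n → ℝ =>
      ((fun i => (p + s) (Sum.inl i)), (fun j => (p + s) (Sum.inr j)))) (by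
        refine Measurable.prodMk ?_ ?_
        · refine measurable_pi_lambda _ fun i => ?_
          exact (measurable_pi_apply (Sum.inl i)).comp (measurable_const.add measurable_id)
        · refine measurable_pi_lambda _ fun i => ?_
          exact (measurable_pi_apply (Sum.inr i)).comp (measurable_const.add measurable_id))
  have hg0 : ∀ s, 0 ≤ Fp f D (p + s) := fun s => mea_nonneg hbx hDpos _ _
  have hgb : ∀ s, Fp f D (p + s) ≤ 2 * D * (((N : ℝ) + 1) * ((N : ℝ) + 1)) * D :=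
    fun s => mea_bdd hbx hR hDpos hn _ _
  have hfin : IsFiniteMeasure (volume.restrict box) :=
    ⟨by rw [Measure.restrict_apply_univ]; exact isCompact_Icc.measure_lt_top⟩
  have hint : Integrable (fun s => Fp f D (p + s)) (volume.restrict box) := by
    refine Integrable.of_bound hgm.aestronglyMeasurable (2 * D * (((N : ℝ) + 1) * ((N : ℝ) + 1)) * D) ?_
    refine Filter.Eventually.of_forall fun s => ?_
    rw [Real.norm_eq_abs, abs_of_nonneg (hg0 s)]
    exact hgb s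
  have hI0 : 0 ≤ ∫ s in box, Fp f D (p + s) := integral_nonneg hg0
  rw [← ENNReal.ofReal_le_ofReal_iff hI0, ofReal_integral_eq_lintegral_ofReal hint
    (Filter.Eventually.of_forall hg0)]
  -- the fourfold integral
  set H : (Fin n ⊕ Fin n → ℝ) → ℝ → ℝ → ℝ → ENNReal := fun s u x y =>
    ENNReal.ofReal (u * ∏ i : Fin n, ∏ j : Fin n,
      f (x + (p + s) (Sum.inl i) * u) (y + (p + s) (Sum.inr j) * u)) with hH
  have hHm : Measurable fun z : (Fin n ⊕ Fin n → ℝ) × ℝ × ℝ × ℝ => H z.1 z.2.1 z.2.2.1 z.2.2.2 := by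
    refine ENNReal.measurable_ofReal.comp ?_
    refine Measurable.mul (by fun_prop) ?_
    refine Finset.measurable_prod _ fun i _ => Finset.measurable_prod _ fun j _ => ?_
    refine hfm.comp (f := fun z : (Fin n ⊕ Fin n → ℝ) × ℝ × ℝ × ℝ =>
      (z.2.2.1 + (p + z.1) (Sum.inl i) * z.2.1, z.2.2.2 + (p + z.1) (Sum.inr j) * z.2.1)) ?_
    have e1 : Measurable fun z : (Fin n ⊕ Fin n → ℝ) × ℝ × ℝ × ℝ => (p + z.1) (Sum.inl i) :=
      (measurable_pi_apply (Sum.inl i)).comp (measurable_const.add measurable_fst)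
    have e2 : Measurable fun z : (Fin n ⊕ Fin n → ℝ) × ℝ × ℝ × ℝ => (p + z.1) (Sum.inr j) :=
      (measurable_pi_apply (Sum.inr j)).comp (measurable_const.add measurable_fst)
    fun_prop
  have hstep1 : ∫⁻ s in box, ENNReal.ofReal (Fp f D (p + s)) =
      ∫⁻ s in box, ∫⁻ u in Set.Icc D (2 * D), ∫⁻ x, ∫⁻ y, H s u x y := by
    refine lintegral_congr fun s => ?_
    exact mea_lin hbx hR hDpos hn _ _
  rw [hstep1, reb_swap (volume.restrict box) (volume.restrict (Set.Icc D (2 * D))) H hHm]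
  -- the lower bound for fixed `u`
  have hp0 : ∀ i, 0 ≤ p i := fun i => hp.1 i
  have hp1 : ∀ i, p i ≤ 1 := fun i => hp.2 i
  have h6 : 2 * D = 6 * L * T := by
    rw [hD, hT]
    ring
  have hc0 : 0 ≤ D * (ε / (2 * D)) ^ (2 * n) * W := by positivity
  have hu : ∀ u ∈ Set.Icc D (2 * D), ENNReal.ofReal (D * (ε / (2 * D)) ^ (2 * n) * W) ≤
      ∫⁻ x, ∫⁻ y, ∫⁻ s in box, H s u x y := by
    intro u hu
    have hu0 : 0 < u := lt_of_lt_of_le hDpos hu.1
    set a : Fin n → ℕ := fun i => ⌈p (Sum.inl i) * u / L⌉₊ with ha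
    set b : Fin n → ℕ := fun j => ⌈p (Sum.inr j) * u / L⌉₊ with hb
    have hceil : ∀ i : Fin n ⊕ Fin n, 2 * ⌈p i * u / L⌉₊ ≤ M := by
      intro i
      have h1 : p i * u / L ≤ M / 4 := by
        have h2 : p i * u ≤ 1 * (2 * D) := mul_le_mul (hp1 i) hu.2 hu0.le zero_le_one
        rw [div_le_iff₀ hL0]
        calc p i * u ≤ 1 * (2 * D) := h2
          _ = M / 4 * L := by rw [hD]; ring
      have h2 : 0 ≤ p i * u / L := div_nonneg (mul_nonneg (hp0 i) hu0.le) hL0.le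
      have h3 := Nat.ceil_lt_add_one h2
      have h4 : (4 : ℝ) * (⌈p i * u / L⌉₊ : ℝ) < M + 4 := by linarith
      have h5 : 4 * ⌈p i * u / L⌉₊ < M + 4 := by exact_mod_cast h4
      omega
    have hWC : W ≤ WC A N L a b := h a b (fun i => hceil _) (fun j => hceil _)
    set c : ENNReal := ENNReal.ofReal (u * (ε / u) ^ (2 * n)) with hc
    have hin : ∀ x y : ℝ, c * ((WS A L a b ⌈x⌉ ⌈y⌉).card : ENNReal) ≤ ∫⁻ s in box, H s u x y := by
      intro x y
      have hcx := Int.ceil_eq_iff.1 (rfl : ⌈x⌉ = ⌈x⌉)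
      have hcy := Int.ceil_eq_iff.1 (rfl : ⌈y⌉ = ⌈y⌉)
      have h1 := reA N A hA ε hε hε1 n L hn hL T u hTpos hu0 (by
        have h2 : 3 * L * T = D := by
          rw [hD, hT]
          ring
        rw [h2]
        exact hu.1) p hp0 ⌈x⌉ ⌈y⌉ x y hcx.1 hcx.2 hcy.1 hcy.2
      have h2 : ∫⁻ s in box, H s u x y = ENNReal.ofReal u * ∫⁻ s in box,
          ENNReal.ofReal (∏ i : Fin n, ∏ j : Fin n,
            f (x + (p + s) (Sum.inl i) * u) (y + (p + s) (Sum.inr j) * u)) := by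
        rw [← lintegral_const_mul]
        · refine lintegral_congr fun s => ?_
          rw [hH]
          exact ENNReal.ofReal_mul hu0.le
        · refine ENNReal.measurable_ofReal.comp ?_
          refine Finset.measurable_prod _ fun i _ => Finset.measurable_prod _ fun j _ => ?_
          refine hfm.comp (f := fun z : (Fin n ⊕ Fin n → ℝ) =>
            (x + (p + z) (Sum.inl i) * u, y + (p + z) (Sum.inr j) * u)) ?_
          have e1 : Measurable fun z : (Fin n ⊕ Fin n → ℝ) => (p + z) (Sum.inl i) :=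
            (measurable_pi_apply (Sum.inl i)).comp (measurable_const.add measurable_id)
          have e2 : Measurable fun z : (Fin n ⊕ Fin n → ℝ) => (p + z) (Sum.inr j) :=
            (measurable_pi_apply (Sum.inr j)).comp (measurable_const.add measurable_id)
          fun_prop
      rw [h2, hc, ENNReal.ofReal_mul hu0.le, mul_assoc]
      exact mul_le_mul_right h1 _
    have hsum : c * ENNReal.ofReal (WC A N L a b) ≤ ∫⁻ x, ∫⁻ y, ∫⁻ s in box, H s u x y := by
      calc c * ENNReal.ofReal (WC A N L a b)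
          = ∑ x₀ ∈ Finset.Icc (-(N : ℤ)) N, ∑ y₀ ∈ Finset.Icc (-(N : ℤ)) N,
            c * ((WS A L a b x₀ y₀).card : ENNReal) := by
            unfold WC
            rw [ENNReal.ofReal_sum_of_nonneg (fun i _ => Finset.sum_nonneg fun j _ => Nat.cast_nonneg _),
              Finset.mul_sum]
            refine Finset.sum_congr rfl fun x₀ _ => ?_
            rw [ENNReal.ofReal_sum_of_nonneg (fun j _ => Nat.cast_nonneg _), Finset.mul_sum]
            refine Finset.sum_congr rfl fun y₀ _ => ?_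
            rw [ENNReal.ofReal_natCast]
        _ ≤ ∑ x₀ ∈ Finset.Icc (-(N : ℤ)) N, ∫⁻ y, c * ((WS A L a b x₀ ⌈y⌉).card : ENNReal) :=
            Finset.sum_le_sum fun x₀ _ =>
              reb_ceil (fun y₀ => c * ((WS A L a b x₀ y₀).card : ENNReal)) _
        _ ≤ ∫⁻ x : ℝ, ∫⁻ y, c * ((WS A L a b ⌈x⌉ ⌈y⌉).card : ENNReal) :=
            reb_ceil (fun x₀ => ∫⁻ y : ℝ, c * ((WS A L a b x₀ ⌈y⌉).card : ENNReal)) _
        _ ≤ ∫⁻ x, ∫⁻ y, ∫⁻ s in box, H s u x y :=
            lintegral_mono fun x => lintegral_mono fun y => hin x y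
    refine le_trans ?_ hsum
    rw [hc, ← ENNReal.ofReal_mul (by positivity)]
    refine ENNReal.ofReal_le_ofReal ?_
    have h1 : D * (ε / (2 * D)) ^ (2 * n) ≤ u * (ε / u) ^ (2 * n) := by
      refine mul_le_mul hu.1 ?_ (by positivity) hu0.le
      refine pow_le_pow_left₀ (by positivity) ?_ _
      exact div_le_div_of_nonneg_left hε.le hu0 hu.2
    exact mul_le_mul h1 hWC hW (by positivity)
  calc ENNReal.ofReal (W * D ^ 2 * (ε / (6 * L)) ^ (2 * n) * (1 / T) ^ (2 * n))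
      = ENNReal.ofReal (D * (ε / (2 * D)) ^ (2 * n) * W) * volume (Set.Icc D (2 * D)) := by
        rw [Real.volume_Icc, ← ENNReal.ofReal_mul hc0]
        congr 1
        have h7 : ε / (2 * D) = ε / (6 * L) * (1 / T) := by
          rw [h6]
          field_simp
        rw [h7, mul_pow]
        ring
    _ = ∫⁻ u in Set.Icc D (2 * D), ENNReal.ofReal (D * (ε / (2 * D)) ^ (2 * n) * W) :=
        (setLIntegral_const _ _).symm
    _ ≤ ∫⁻ u in Set.Icc D (2 * D), ∫⁻ x, ∫⁻ y, ∫⁻ s in box, H s u x y :=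
        setLIntegral_mono' measurableSet_Icc hu

end Pool.Agent.AES
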