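import Pool.Agent.AES.HF
import Pool.Agent.AES.Fiq
import Pool.Agent.AES.ReB

/-!
# AES-Fit: the finite theorem with free parameters

PLAN.  `C₁` = constant of `finq`.  Since `|B| ≤ C₁ log(2/δ) < k - k₀` some scale
`i ∈ [k₀, k)` is not in `B` (as in `Helper52.NG.box_grid`).  `L = M^i`, `D = M L/8`, `T = M/24 ≥ 1`,
`R = N + 1 ≤ 2N`, `D ≤ M^k/8 ≤ N ≤ R`, `D ≥ 3 M^(k₀) ≥ M^(k₀)`.  `reB` with
`W = N² L^(2n) (δ/4)^(4n²)`: hypothesis (h1) of `prb` with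
`m = W D² (ε/(6L))^(2n) = N² D² (ε/6)^(2n) (δ/4)^(4n²)`, `σ = 1/T`, `card = 2n`.  `hf`: hypothesis
(h2) with `η = C (R² D²)² T^(-κ) ≤ 16 C N⁴ D⁴ T^(-κ)`, `κ = (1/2)^n`.  So
`η/m² ≤ 16 C (6/ε)^(4n) (4/δ)^(8n²) (24/M)^κ`, `C₂ = 16 C 6^(4n)`.  The set of shapes without a copy is
contained in `{Fp = 0}` by `cf_copy` (with `d₀ = M^(k₀) ≤ D`; `HasCopy` is monotone in `d₀`).
`0 < δ` and `δ N² ≤ |A|`.
-/

set_option autoImplicit false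

open MeasureTheory

namespace Pool.Agent.AES

private theorem alg (n : ℕ) (C N R D ε δ x : ℝ) (hC : 0 < C) (hN : 0 < N) (hR : 0 ≤ R)
    (hRN : R ≤ 2 * N) (hD : 0 < D) (hε : 0 < ε) (hδ : 0 < δ) (hx : 0 ≤ x) :
    C * (R ^ 2 * D ^ 2) ^ 2 * x /
        (N ^ 2 * D ^ 2 * (ε / 6) ^ (2 * n) * (δ / 4) ^ (4 * n ^ 2)) ^ 2 ≤
      16 * C * 6 ^ (4 * n) * (1 / ε) ^ (4 * n) * ((4 / δ) ^ (8 * n ^ 2) * x) := by
  have h1 : (R ^ 2 * D ^ 2) ^ 2 ≤ 16 * (N ^ 4 * D ^ 4) := by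
    have h2 : R ^ 2 * D ^ 2 ≤ 4 * N ^ 2 * D ^ 2 := by
      have h3 : R ^ 2 ≤ (2 * N) ^ 2 := pow_le_pow_left₀ hR hRN 2
      have h4 : 0 ≤ D ^ 2 := by positivity
      nlinarith
    calc (R ^ 2 * D ^ 2) ^ 2 ≤ (4 * N ^ 2 * D ^ 2) ^ 2 := pow_le_pow_left₀ (by positivity) h2 2
      _ = 16 * (N ^ 4 * D ^ 4) := by ring
  have e1 : (N ^ 2 * D ^ 2 * (ε / 6) ^ (2 * n) * (δ / 4) ^ (4 * n ^ 2)) ^ 2 =
      N ^ 4 * D ^ 4 * ((ε / 6) ^ (4 * n) * (δ / 4) ^ (8 * n ^ 2)) := by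
    rw [mul_pow, mul_pow, mul_pow, ← pow_mul, ← pow_mul, ← pow_mul, ← pow_mul]
    have a1 : 2 * n * 2 = 4 * n := by ring
    have a2 : 4 * n ^ 2 * 2 = 8 * n ^ 2 := by ring
    rw [a1, a2]
    ring
  have hA : 0 < (ε / 6) ^ (4 * n) := by positivity
  have hB : 0 < (δ / 4) ^ (8 * n ^ 2) := by positivity
  rw [e1, div_le_iff₀ (by positivity)]
  have e2 : (6 : ℝ) ^ (4 * n) * (1 / ε) ^ (4 * n) * (ε / 6) ^ (4 * n) = 1 := by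
    rw [← mul_pow, ← mul_pow]
    have : (6 : ℝ) * (1 / ε) * (ε / 6) = 1 := by field_simp
    rw [this, one_pow]
  have e3 : (4 / δ) ^ (8 * n ^ 2) * (δ / 4) ^ (8 * n ^ 2) = 1 := by
    rw [← mul_pow]
    have : 4 / δ * (δ / 4) = 1 := by field_simp
    rw [this, one_pow]
  calc C * (R ^ 2 * D ^ 2) ^ 2 * x ≤ C * (16 * (N ^ 4 * D ^ 4)) * x :=
        mul_le_mul_of_nonneg_right (mul_le_mul_of_nonneg_left h1 hC.le) hx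
    _ = 16 * C * (N ^ 4 * D ^ 4) * x *
        ((6 : ℝ) ^ (4 * n) * (1 / ε) ^ (4 * n) * (ε / 6) ^ (4 * n)) *
        ((4 / δ) ^ (8 * n ^ 2) * (δ / 4) ^ (8 * n ^ 2)) := by
        rw [e2, e3]
        ring
    _ = _ := by ring

theorem fit (n : ℕ) (hn : 1 ≤ n) : ∃ C₁ C₂ : ℝ, 0 < C₁ ∧ 0 < C₂ ∧
    ∀ (N : ℕ) (A : Finset (ℕ × ℕ)), 0 < N → A ⊆ Finset.Icc 1 N ×ˢ Finset.Icc 1 N →
    ∀ δ : ℝ, 0 < δ → δ * (N : ℝ) ^ 2 ≤ A.card → ∀ ε : ℝ, 0 < ε → ε ≤ 1 →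
    ∀ M k k₀ : ℕ, 24 ≤ M → M ^ k ≤ N → C₁ * Real.log (2 / δ) < (k : ℝ) - k₀ →
      volume {p : Fin n ⊕ Fin n → ℝ | p ∈ Set.Icc (0 : Fin n ⊕ Fin n → ℝ) 1 ∧
        ¬ HasCopy (A : Set (ℕ × ℕ)) ε ((M : ℝ) ^ k₀) (fun i => p (Sum.inl i))
          (fun j => p (Sum.inr j))} ≤
        ENNReal.ofReal (C₂ * (1 / ε) ^ (4 * n) * ((4 / δ) ^ (8 * n ^ 2) *
          (24 / (M : ℝ)) ^ ((1 / 2 : ℝ) ^ n))) := by
  obtain ⟨C₁, hC₁, hfin⟩ := finq n hn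
  obtain ⟨C, hC, hhf⟩ := hf n hn
  refine ⟨C₁, 16 * C * 6 ^ (4 * n), hC₁, by positivity, ?_⟩
  intro N A hN hA δ hδ hδA ε hε hε1 M k k₀ hM hMk hlog
  obtain ⟨B, hB1, hB2, hB3⟩ := hfin N A hN hA δ hδ hδA M k (by omega) hMk
  have hN' : (0 : ℝ) < N := by exact_mod_cast hN
  have hN1 : (1 : ℝ) ≤ N := by exact_mod_cast hN
  have hM' : (24 : ℝ) ≤ M := by exact_mod_cast hM
  have hcardle : (A.card : ℝ) ≤ (N : ℝ) ^ 2 := by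
    have h1 := Finset.card_le_card hA
    rw [Finset.card_product, Nat.card_Icc, Nat.add_sub_cancel] at h1
    have h2 : ((A.card : ℕ) : ℝ) ≤ ((N * N : ℕ) : ℝ) := by exact_mod_cast h1
    rw [Nat.cast_mul] at h2
    nlinarith
  have hδ1 : δ ≤ 1 := by
    have h1 : δ * (N : ℝ) ^ 2 ≤ 1 * (N : ℝ) ^ 2 := by linarith
    exact le_of_mul_le_mul_right h1 (by positivity)
  have hlogpos : 0 < Real.log (2 / δ) := Real.log_pos (by rw [lt_div_iff₀ hδ]; linarith)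
  have hk : k₀ ≤ k := by
    have h1 := mul_pos hC₁ hlogpos
    have h2 : (k₀ : ℝ) < k := by linarith
    exact_mod_cast h2.le
  have hBk : B.card < (Finset.Ico k₀ k).card := by
    rw [Nat.card_Ico]
    have h1 : (B.card : ℝ) < (k : ℝ) - k₀ := lt_of_le_of_lt hB2 hlog
    rw [← Nat.cast_sub hk] at h1
    exact_mod_cast h1
  obtain ⟨i, hi, hiB⟩ := Finset.exists_mem_notMem_of_card_lt_card hBk
  rw [Finset.mem_Ico] at hi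
  obtain ⟨L, hL⟩ : ∃ L : ℕ, L = M ^ i := ⟨_, rfl⟩
  have hL1 : 1 ≤ L := by
    rw [hL]
    exact Nat.one_le_pow _ _ (by omega)
  have hLr : (L : ℝ) = (M : ℝ) ^ i := by
    rw [hL]
    push_cast
    ring
  have hL0 : (1 : ℝ) ≤ L := by exact_mod_cast hL1
  obtain ⟨D, hD⟩ : ∃ D : ℝ, D = (M : ℝ) * L / 8 := ⟨_, rfl⟩
  obtain ⟨T, hT⟩ : ∃ T : ℝ, T = (M : ℝ) / 24 := ⟨_, rfl⟩
  have hD0 : 0 < D := by rw [hD]; positivity
  have hT1 : 1 ≤ T := by rw [hT]; linarith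
  have hT0 : 0 < T := by linarith
  obtain ⟨R, hR⟩ : ∃ R : ℝ, R = (N : ℝ) + 1 := ⟨_, rfl⟩
  have hR0 : 0 < R := by rw [hR]; positivity
  have hR2 : R ≤ 2 * N := by rw [hR]; linarith
  have hML : (M : ℝ) * L ≤ N := by
    have h1 : M * L ≤ N := by
      rw [hL, ← pow_succ']
      exact (Nat.pow_le_pow_right (by omega) hi.2).trans hMk
    exact_mod_cast h1
  have hDR : D ≤ R := by
    rw [hD, hR]
    have : 0 ≤ (M : ℝ) * L := by positivity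
    linarith
  have hDk : (M : ℝ) ^ k₀ ≤ D := by
    have h1 : (M : ℝ) ^ k₀ ≤ L := by
      rw [hLr]
      exact pow_le_pow_right₀ (by linarith) hi.1
    rw [hD]
    nlinarith
  have hbx := cf_bx N A hA ε
  rw [← hR] at hbx
  -- the low frequencies
  obtain ⟨W, hW⟩ : ∃ W : ℝ, W = (N : ℝ) ^ 2 * (L : ℝ) ^ (2 * n) * (δ / 4) ^ (4 * n ^ 2) := ⟨_, rfl⟩
  have hW0 : 0 ≤ W := by rw [hW]; positivity
  have hWC : ∀ a b : Fin n → ℕ, (∀ i, 2 * a i ≤ M) → (∀ j, 2 * b j ≤ M) → W ≤ WC A N L a b := by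
    intro a b ha hb
    have h1 := hB3 i (Finset.mem_range.2 hi.2) hiB a b ha hb
    rw [hW, hLr, hL]
    exact h1
  obtain ⟨m, hm⟩ : ∃ m : ℝ,
      m = (N : ℝ) ^ 2 * D ^ 2 * (ε / 6) ^ (2 * n) * (δ / 4) ^ (4 * n ^ 2) := ⟨_, rfl⟩
  have hm0 : 0 < m := by rw [hm]; positivity
  have hcard : Fintype.card (Fin n ⊕ Fin n) = 2 * n := by
    rw [Fintype.card_sum, Fintype.card_fin]
    ring
  have h1 : ∀ p ∈ Set.Icc (0 : Fin n ⊕ Fin n → ℝ) 1,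
      m * (1 / T) ^ Fintype.card (Fin n ⊕ Fin n) ≤
        ∫ s in Set.Icc (0 : Fin n ⊕ Fin n → ℝ) (fun _ => 1 / T), Fp (cf A ε) D (p + s) := by
    intro p hp
    refine le_trans (le_of_eq ?_)
      (reB N hN A hA ε hε hε1 n M L hn (by omega) hL1 W hW0 hWC D T hD hT p hp)
    rw [hcard, hm, hW]
    have e1 : (L : ℝ) ^ (2 * n) * (ε / (6 * L)) ^ (2 * n) = (ε / 6) ^ (2 * n) := by
      rw [← mul_pow]
      congr 1
      field_simp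
    rw [← e1]
    ring
  -- the high frequencies
  obtain ⟨κ, hκ⟩ : ∃ κ : ℝ, κ = (1 / 2 : ℝ) ^ n := ⟨_, rfl⟩
  have h2 : ∀ s ∈ Set.Icc (0 : Fin n ⊕ Fin n → ℝ) (fun _ => 1 / T),
      ∫ p in Set.Icc (0 : Fin n ⊕ Fin n → ℝ) 1, (Fp (cf A ε) D (p + s) - Fp (cf A ε) D p) ^ 2 ≤
        C * (R ^ 2 * D ^ 2) ^ 2 * T ^ (-κ) := by
    intro s hs
    rw [hκ]
    exact hhf R D T hD0 hDR hT1 (cf A ε) hbx s fun i => ⟨hs.1 i, hs.2 i⟩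
  have hbound : ∀ p : Fin n ⊕ Fin n → ℝ, |Fp (cf A ε) D p| ≤ 2 * D * (R * R) * D := by
    intro p
    unfold Fp
    rw [abs_of_nonneg (mea_nonneg hbx hD0 _ _)]
    exact mea_bdd hbx hR0 hD0 hn _ _
  have h3 := prb (Fp (cf A ε) D) (fp_meas hbx D n) (2 * D * (R * R) * D) hbound (1 / T) m
    (C * (R ^ 2 * D ^ 2) ^ 2 * T ^ (-κ)) (by positivity) hm0 (by positivity) h1 h2
  refine le_trans (measure_mono ?_) (h3.trans (ENNReal.ofReal_le_ofReal ?_))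
  · intro p hp
    refine ⟨hp.1, ?_⟩
    by_contra hne
    obtain ⟨d, s, t, hd, x, y, q1, q2, q3⟩ := cf_copy N A hA ε D hD0 n hn p hne
    exact hp.2 ⟨d, s, t, hDk.trans hd, x, y, q1, q2, q3⟩
  · have e1 : T ^ (-κ) = (24 / (M : ℝ)) ^ κ := by
      rw [Real.rpow_neg hT0.le, ← Real.inv_rpow hT0.le, hT, inv_div]
    rw [e1, hm, hκ]
    exact alg n C N R D ε δ _ hC hN' hR0.le hR2 hD0 hε hδ (by positivity)

end Pool.Agent.AES
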