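import Pool.Agent.AES.Defs
import Pool.Agent.Helper52.NG.Ker

/-!
# AES-FqA: from `ZMod (2N)` to integers

PLAN.  A summand on the left is `0` or `1`.  If it is `1` then with
`X_p = (u + (a_p L + I_p)).val ∈ [1,N]` put `x₀ = X_0 - (a_0 L + I_0) ∈ [-N, N]` (as
`a_0 L + I_0 < N`).  For all `p`: `x₀ + a_p L + I_p ≡ X_p mod 2N`, and both lie in
`(-N, 2N)` with difference of absolute value `< 2N`, so they are equal (see the proof of
`Helper52.NG.lift` in `Pool/Agent/Helper52/NG/Fin.lean`); so `toNat` of it is `X_p`.  The map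
`(u,v,I,J) ↦ (x₀,y₀,I,J)` is injective (`u = x₀` in `ZMod (2N)`) into the set counted by `WC`
(`Finset.card_sigma` / rewrite both sides as cardinalities of finsets of tuples, then
`Finset.card_le_card_of_injOn`).  `Wd n L` is `Fintype.piFinset fun _ => range L`.
-/

set_option autoImplicit false

open Finset

namespace Pool.Agent.AES

open Pool.Agent.Helper52.NG

/-- indicator function of `A` on `ZMod (2N)` -/
noncomputable def fz (A : Finset (ℕ × ℕ)) {N : ℕ} (u v : ZMod (2 * N)) : ℝ :=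
  open Classical in if (u.val, v.val) ∈ A then 1 else 0

private theorem fq_lift {N : ℕ} {ι : Type*} (u : ZMod (2 * N)) (w x : ι → ℕ)
    (hx : ∀ p, ((x p : ℕ) : ZMod (2 * N)) = u + (w p : ℕ)) (h1 : ∀ p, 1 ≤ x p ∧ x p ≤ N)
    (h2 : ∀ p, w p < N) (p0 p : ι) : (x p : ℤ) = ((x p0 : ℤ) - w p0) + w p := by
  have h3 : (((x p : ℤ) - w p - ((x p0 : ℤ) - w p0) : ℤ) : ZMod (2 * N)) = 0 := by
    push_cast
    rw [hx p, hx p0]
    ring
  rw [ZMod.intCast_zmod_eq_zero_iff_dvd] at h3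
  have h4 : (x p : ℤ) - w p - ((x p0 : ℤ) - w p0) = 0 := by
    refine Int.eq_zero_of_abs_lt_dvd h3 ?_
    have a1 := h1 p
    have a2 := h1 p0
    have a3 := h2 p
    have a4 := h2 p0
    rw [abs_lt]
    push_cast
    constructor <;> omega
  linarith

private theorem fz_pos {A : Finset (ℕ × ℕ)} {N : ℕ} {u v : ZMod (2 * N)} (h : (u.val, v.val) ∈ A) :
    fz A u v = 1 := by
  unfold fz
  rw [if_pos h]

private theorem fz_neg {A : Finset (ℕ × ℕ)} {N : ℕ} {u v : ZMod (2 * N)} (h : (u.val, v.val) ∉ A) :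
    fz A u v = 0 := by
  unfold fz
  rw [if_neg h]

open Classical in
private theorem fq_prod {N n : ℕ} (A : Finset (ℕ × ℕ)) (x y : Fin n → ZMod (2 * N)) :
    ∏ p, ∏ q, fz A (x p) (y q) = if (∀ p q, ((x p).val, (y q).val) ∈ A) then (1 : ℝ) else 0 := by
  by_cases h : ∀ p q, ((x p).val, (y q).val) ∈ A
  · rw [if_pos h]
    exact prod_eq_one fun p _ => prod_eq_one fun q _ => fz_pos (h p q)
  · rw [if_neg h]
    push Not at h
    obtain ⟨p, q, h⟩ := h
    exact prod_eq_zero (mem_univ p) (prod_eq_zero (mem_univ q) (fz_neg h))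

/-- one coordinate -/
private theorem fq_one {N L n : ℕ} [NeZero (2 * N)] (a : Fin n → ℕ) (ha : ∀ p, a p * L + L ≤ N) (u : ZMod (2 * N))
    (I : Fin n → ℕ) (hI : I ∈ Wd n L) (p0 : Fin n)
    (h : ∀ p, 1 ≤ (u + ((a p * L + I p : ℕ) : ZMod (2 * N))).val ∧ (u + ((a p * L + I p : ℕ) : ZMod (2 * N))).val ≤ N) :
    ((u + ((a p0 * L + I p0 : ℕ) : ZMod (2 * N))).val : ℤ) - (a p0 * L + I p0 : ℕ) ∈ Icc (-(N : ℤ)) N ∧
      ∀ p, ((((u + ((a p0 * L + I p0 : ℕ) : ZMod (2 * N))).val : ℤ) - (a p0 * L + I p0 : ℕ)) + a p * L + I p).toNat =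
        (u + ((a p * L + I p : ℕ) : ZMod (2 * N))).val := by
  have hI' : ∀ p, I p < L := fun p => mem_range.1 (Fintype.mem_piFinset.1 hI p)
  have hw : ∀ p, a p * L + I p < N := fun p => by
    have h1 := ha p
    have h2 := hI' p
    omega
  constructor
  · rw [mem_Icc]
    have h1 := h p0
    have h2 := hw p0
    constructor
    · omega
    · omega
  · intro p
    have h1 := fq_lift u (fun p => a p * L + I p) (fun p => (u + ((a p * L + I p : ℕ) : ZMod (2 * N))).val)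
      (fun p => ZMod.natCast_zmod_val _) h hw p0 p
    have h2 : ((((u + ((a p0 * L + I p0 : ℕ) : ZMod (2 * N))).val : ℤ) - (a p0 * L + I p0 : ℕ)) + a p * L + I p) =
        ((u + ((a p * L + I p : ℕ) : ZMod (2 * N))).val : ℤ) := by
      rw [h1, Nat.cast_add (a p * L) (I p), Nat.cast_mul (a p) L]
      ring
    rw [h2, Int.toNat_natCast]

open Classical in
private theorem fq_ws {n : ℕ} (A : Finset (ℕ × ℕ)) (L : ℕ) (a b : Fin n → ℕ) (x₀ y₀ : ℤ) :
    ((WS A L a b x₀ y₀).card : ℝ) = ∑ z ∈ Wd n L ×ˢ Wd n L,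
      if (∀ p q, ((x₀ + a p * L + z.1 p).toNat, (y₀ + b q * L + z.2 q).toNat) ∈ A) then (1 : ℝ) else 0 := by
  unfold WS
  rw [card_filter]
  push_cast
  rfl

theorem fqA (N L n : ℕ) [NeZero (2 * N)] (hn : 1 ≤ n) (hN : 0 < N) (A : Finset (ℕ × ℕ))
    (hA : A ⊆ Icc 1 N ×ˢ Icc 1 N) (a b : Fin n → ℕ) (ha : ∀ p, a p * L + L ≤ N)
    (hb : ∀ q, b q * L + L ≤ N) :
    ∑ u : ZMod (2 * N), ∑ v : ZMod (2 * N), ∑ I ∈ Wd n L, ∑ J ∈ Wd n L,
      ∏ p, ∏ q, fz A (u + ((a p * L + I p : ℕ) : ZMod (2 * N)))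
        (v + ((b q * L + J q : ℕ) : ZMod (2 * N))) ≤ WC A N L a b := by
  classical
  obtain ⟨p0, -⟩ : ∃ p0 : Fin n, True := ⟨⟨0, hn⟩, trivial⟩
  have e1 : ∑ u : ZMod (2 * N), ∑ v : ZMod (2 * N), ∑ I ∈ Wd n L, ∑ J ∈ Wd n L,
      ∏ p, ∏ q, fz A (u + ((a p * L + I p : ℕ) : ZMod (2 * N)))
        (v + ((b q * L + J q : ℕ) : ZMod (2 * N))) =
      ((((univ : Finset (ZMod (2 * N))) ×ˢ (univ : Finset (ZMod (2 * N)))) ×ˢ (Wd n L ×ˢ Wd n L)).filter
        (fun t => ∀ p q, ((t.1.1 + ((a p * L + t.2.1 p : ℕ) : ZMod (2 * N))).val,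
          (t.1.2 + ((b q * L + t.2.2 q : ℕ) : ZMod (2 * N))).val) ∈ A)).card := by
    rw [card_filter, Nat.cast_sum, sum_product, sum_product]
    refine sum_congr rfl fun u _ => sum_congr rfl fun v _ => ?_
    rw [sum_product]
    refine sum_congr rfl fun I _ => sum_congr rfl fun J _ => ?_
    rw [Nat.cast_ite, Nat.cast_one, Nat.cast_zero]
    exact fq_prod A (fun p => u + ((a p * L + I p : ℕ) : ZMod (2 * N)))
      (fun q => v + ((b q * L + J q : ℕ) : ZMod (2 * N)))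
  have e2 : WC A N L a b = (((Icc (-(N : ℤ)) N ×ˢ Icc (-(N : ℤ)) N) ×ˢ (Wd n L ×ˢ Wd n L)).filter
        (fun t : (ℤ × ℤ) × ((Fin n → ℕ) × (Fin n → ℕ)) =>
          ∀ p q, ((t.1.1 + a p * L + t.2.1 p).toNat, (t.1.2 + b q * L + t.2.2 q).toNat) ∈ A)).card := by
    rw [card_filter, Nat.cast_sum, sum_product, sum_product]
    unfold WC
    refine sum_congr rfl fun x₀ _ => sum_congr rfl fun y₀ _ => ?_
    rw [fq_ws A L a b x₀ y₀]
    refine sum_congr rfl fun z _ => ?_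
    rw [Nat.cast_ite, Nat.cast_one, Nat.cast_zero]
  rw [e1, e2, Nat.cast_le]
  refine card_le_card_of_injOn (fun t => ((((t.1.1 + ((a p0 * L + t.2.1 p0 : ℕ) : ZMod (2 * N))).val : ℤ) -
      (a p0 * L + t.2.1 p0 : ℕ), ((t.1.2 + ((b p0 * L + t.2.2 p0 : ℕ) : ZMod (2 * N))).val : ℤ) -
      (b p0 * L + t.2.2 p0 : ℕ)), t.2)) ?_ ?_
  · rintro ⟨⟨u, v⟩, I, J⟩ ht
    rw [mem_coe, mem_filter, mem_product, mem_product, mem_product] at ht
    obtain ⟨⟨-, hI, hJ⟩, hA'⟩ := ht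
    have hbd : ∀ p q, (1 ≤ (u + ((a p * L + I p : ℕ) : ZMod (2 * N))).val ∧
        (u + ((a p * L + I p : ℕ) : ZMod (2 * N))).val ≤ N) ∧
        (1 ≤ (v + ((b q * L + J q : ℕ) : ZMod (2 * N))).val ∧
        (v + ((b q * L + J q : ℕ) : ZMod (2 * N))).val ≤ N) := by
      intro p q
      have h1 := hA (hA' p q)
      rw [mem_product, mem_Icc, mem_Icc] at h1
      exact h1
    obtain ⟨h1, h2⟩ := fq_one a ha u I hI p0 (fun p => (hbd p p0).1)
    obtain ⟨h3, h4⟩ := fq_one b hb v J hJ p0 (fun q => (hbd p0 q).2)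
    rw [mem_coe, mem_filter, mem_product, mem_product]
    refine ⟨⟨⟨h1, h3⟩, mem_product.2 ⟨hI, hJ⟩⟩, ?_⟩
    intro p q
    have h5 := hA' p q
    rw [← h2 p, ← h4 q] at h5
    exact h5
  · rintro ⟨⟨u, v⟩, I, J⟩ _ ⟨⟨u', v'⟩, I', J'⟩ _ h
    simp only [Prod.mk.injEq] at h
    obtain ⟨⟨h1, h2⟩, h3, h4⟩ := h
    subst h3
    subst h4
    have h5 : u = u' := by
      have h6 : (u + ((a p0 * L + I p0 : ℕ) : ZMod (2 * N))).val =
          (u' + ((a p0 * L + I p0 : ℕ) : ZMod (2 * N))).val := by omega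
      exact add_right_cancel (ZMod.val_injective _ h6)
    have h7 : v = v' := by
      have h6 : (v + ((b p0 * L + J p0 : ℕ) : ZMod (2 * N))).val =
          (v' + ((b p0 * L + J p0 : ℕ) : ZMod (2 * N))).val := by omega
      exact add_right_cancel (ZMod.val_injective _ h6)
    rw [h5, h7]

end Pool.Agent.AES
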