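import Pool.Agent.AES.StQ
import Pool.Agent.Helper52.NG.Chain

/-!
# AES-Goq: good scales, quantitative form

The proof of `Helper52.NG.good` with `stepQ` instead of `step`, and `lower` at the scale `M * M ^ i`.
-/

set_option autoImplicit false

open Finset

namespace Pool.Agent.AES

open Pool.Agent.Helper52.NG

theorem goodQ {G : Type*} [AddCommGroup G] [Fintype G] {A : G → G → ℝ} (hA : ∀ u v, 0 ≤ A u v)
    (hA1 : ∀ u v, A u v ≤ 1) (e : G) (r M : ℕ) (hr : 0 < r) (hM : 0 < M) (κ : ℝ) (hκ : 0 < κ)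
    (hκ2 : κ * (20000 * (r : ℝ) ^ 3) ≤ 1) (α : ℝ) (hα0 : 0 < α)
    (hα : ∑ u, ∑ v, A u v = α * (Fintype.card G : ℝ) ^ 2) (k : ℕ) :
    ∃ B : Finset ℕ, B ⊆ range k ∧ (1 + κ ^ 2) ^ B.card * α ^ ((2 * r) * (2 * r)) ≤ α ∧
      ∀ i ∈ range k, i ∉ B → ∀ a b : Fin (2 * r) → ℕ, (∀ i, 2 * a i ≤ M) → (∀ i, 2 * b i ≤ M) →
        (Fintype.card G : ℝ) ^ 2 * ((M : ℝ) ^ i) ^ (2 * (2 * r)) * α ^ ((2 * r) * (2 * r)) / 4 ≤
          ∑ t ∈ (univ : Finset G) ×ˢ Wd (2 * r) (M ^ i), ∑ v,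
            ∏ q, ee A e (M ^ i) (v + b q • (M ^ i • e))
              (fun p => t.1 + a p • (M ^ i • e) + t.2 p • e) := by
  have hG : (0 : ℝ) < Fintype.card G := by exact_mod_cast Fintype.card_pos
  have hM' : (0 : ℝ) < M := by exact_mod_cast hM
  obtain ⟨R, hR⟩ : ∃ R : ℕ → ℝ, ∀ i, R i =
      QX A e (0 : Fin (2 * r) → G) (M ^ i) (M ^ i) / ((M : ℝ) ^ (2 * (2 * r))) ^ i :=
    ⟨_, fun i => rfl⟩
  have hMp : (0 : ℝ) < (M : ℝ) ^ (2 * (2 * r)) := by positivity
  have hlow : ∀ i, (Fintype.card G : ℝ) ^ 2 * α ^ ((2 * r) * (2 * r)) ≤ R i := by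
    intro i
    rw [hR, le_div_iff₀ (by positivity)]
    have h := lower hA e (2 * r) (M ^ i) (by positivity) α hα
    refine le_trans (le_of_eq ?_) h
    rw [Nat.cast_pow, ← pow_mul, ← pow_mul, mul_comm i (2 * (2 * r))]
    ring
  have hRpos : ∀ i, 0 < R i := fun i => lt_of_lt_of_le (by positivity) (hlow i)
  have hanti : ∀ i, R (i + 1) ≤ R i := by
    intro i
    rw [hR, hR, div_le_iff₀ (by positivity), pow_succ (((M : ℝ) ^ (2 * (2 * r)))) i, pow_succ' M i]
    have h1 := mono1 hA e (2 * r) M (M ^ i) (M * M ^ i) hM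
    have h2 := mono2 hA e (0 : Fin (2 * r) → G) M (M ^ i) (M ^ i) hM
    have h3 := mul_le_mul_of_nonneg_left h2 (by positivity : (0 : ℝ) ≤ (M : ℝ) ^ (2 * r))
    refine (h1.trans h3).trans (le_of_eq ?_)
    rw [two_mul (2 * r), pow_add]
    field_simp
  have h0 : R 0 ≤ α * (Fintype.card G : ℝ) ^ 2 := by
    rw [hR, pow_zero, pow_zero, div_one, ← hα]
    exact at_one hA hA1 e (2 * r) (by omega)
  have hc := chain R hanti (1 + κ ^ 2) (by nlinarith [sq_nonneg κ]) k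
  refine ⟨(range k).filter (fun i => (1 + κ ^ 2) * R (i + 1) < R i), filter_subset _ _, ?_, ?_⟩
  · have h1 := mul_le_mul_of_nonneg_left (hlow k)
      (by positivity : (0 : ℝ) ≤ (1 + κ ^ 2) ^
        ((range k).filter (fun i => (1 + κ ^ 2) * R (i + 1) < R i)).card)
    have h2 := (h1.trans hc).trans h0
    have h3 : (0 : ℝ) < (Fintype.card G : ℝ) ^ 2 := by positivity
    have h4 : (Fintype.card G : ℝ) ^ 2 * ((1 + κ ^ 2) ^
        ((range k).filter (fun i => (1 + κ ^ 2) * R (i + 1) < R i)).card *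
          α ^ ((2 * r) * (2 * r))) ≤ (Fintype.card G : ℝ) ^ 2 * α := by linarith
    exact le_of_mul_le_mul_left h4 h3
  · intro i hi hiB a b ha hb
    have hgood : R i ≤ (1 + κ ^ 2) * R (i + 1) := by
      by_contra hcon
      push Not at hcon
      exact hiB (mem_filter.2 ⟨hi, hcon⟩)
    have hstep := stepQ hA e r M (M ^ i) hr hM κ hκ hκ2 (by
      have h1 := hRpos (i + 1)
      rw [hR, pow_succ' M i] at h1
      by_contra hcon
      push Not at hcon
      exact absurd h1 (not_lt.2 (div_nonpos_of_nonpos_of_nonneg hcon (by positivity)))) (by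
      rw [hR, hR, pow_succ' M i, div_le_iff₀ (by positivity),
        pow_succ (((M : ℝ) ^ (2 * (2 * r)))) i] at hgood
      refine hgood.trans (le_of_eq ?_)
      field_simp) a b ha hb
    refine le_trans ?_ hstep
    have h5 := lower hA e (2 * r) (M * M ^ i) (by positivity) α hα
    rw [le_div_iff₀ (by positivity)]
    refine le_trans (le_of_eq ?_) h5
    push_cast
    rw [mul_pow (M : ℝ)]
    ring

end Pool.Agent.AES
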