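import Mathlib

/-!
# AES-Prb: Chebyshev (Mathlib only)

PLAN.  Put `S = [0,σ]^ι` (volume `V = σ^|ι|`), `Bad = {p ∈ [0,1]^ι : Φ p = 0}` (measurable).  For
`p ∈ Bad`: `m V ≤ ∫_{s ∈ S} Φ(p+s) = ∫_{s ∈ S} (Φ(p+s) - Φ(p))`, so by Cauchy-Schwarz
`m² V² ≤ V ∫_{s ∈ S} (Φ(p+s) - Φ(p))²`.  Integrate over `p ∈ Bad` and use Fubini:
`vol(Bad) m² V ≤ ∫_{s ∈ S} ∫_{p ∈ [0,1]^ι} (Φ(p+s) - Φ(p))² ≤ V η`.  `V > 0`.
(`Real.volume_Icc_pi`; Cauchy-Schwarz for set integrals: `(∫_S g)² ≤ vol(S) ∫_S g²`, for instance from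
`0 ≤ ∫_S (g - c)²` with `c` the mean.)
-/

set_option autoImplicit false

open MeasureTheory

namespace Pool.Agent.AES

theorem prb {ι : Type*} [Fintype ι] (Φ : (ι → ℝ) → ℝ) (hm : Measurable Φ) (K : ℝ)
    (hb : ∀ p, |Φ p| ≤ K) (σ m η : ℝ) (hσ : 0 < σ) (hm0 : 0 < m) (hη : 0 ≤ η)
    (h1 : ∀ p ∈ Set.Icc (0 : ι → ℝ) 1,
      m * σ ^ Fintype.card ι ≤ ∫ s in Set.Icc (0 : ι → ℝ) (fun _ => σ), Φ (p + s))
    (h2 : ∀ s ∈ Set.Icc (0 : ι → ℝ) (fun _ => σ),
      ∫ p in Set.Icc (0 : ι → ℝ) 1, (Φ (p + s) - Φ p) ^ 2 ≤ η) :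
    volume {p : ι → ℝ | p ∈ Set.Icc (0 : ι → ℝ) 1 ∧ Φ p = 0} ≤ ENNReal.ofReal (η / m ^ 2) := by
  classical
  obtain ⟨S, hS⟩ : ∃ S, S = Set.Icc (0 : ι → ℝ) (fun _ => σ) := ⟨_, rfl⟩
  obtain ⟨Q, hQ⟩ : ∃ Q, Q = Set.Icc (0 : ι → ℝ) 1 := ⟨_, rfl⟩
  obtain ⟨Z, hZ⟩ : ∃ Z, Z = {p : ι → ℝ | p ∈ Q ∧ Φ p = 0} := ⟨_, rfl⟩
  obtain ⟨V, hV⟩ : ∃ V, V = σ ^ Fintype.card ι := ⟨_, rfl⟩
  rw [← hS, ← hQ] at h1
  rw [← hS, ← hQ] at h2
  rw [← hV] at h1
  rw [← hQ, ← hZ]
  have hVpos : 0 < V := by rw [hV]; positivity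
  have hSm : MeasurableSet S := by rw [hS]; exact measurableSet_Icc
  have hQm : MeasurableSet Q := by rw [hQ]; exact measurableSet_Icc
  have hZm : MeasurableSet Z := by
    rw [hZ]
    exact hQm.inter (hm (measurableSet_singleton 0))
  have hZQ : Z ⊆ Q := by
    rw [hZ]
    exact fun p hp => hp.1
  have hSf : volume S < ⊤ := by rw [hS]; exact isCompact_Icc.measure_lt_top
  have hQf : volume Q < ⊤ := by rw [hQ]; exact isCompact_Icc.measure_lt_top
  have hZf : volume Z < ⊤ := (measure_mono hZQ).trans_lt hQf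
  have : IsFiniteMeasure (volume.restrict S) := ⟨by rw [Measure.restrict_apply_univ]; exact hSf⟩
  have : IsFiniteMeasure (volume.restrict Q) := ⟨by rw [Measure.restrict_apply_univ]; exact hQf⟩
  have : IsFiniteMeasure (volume.restrict Z) := ⟨by rw [Measure.restrict_apply_univ]; exact hZf⟩
  have hSV : (volume.real S) = V := by
    have h0 : (0 : ι → ℝ) ≤ fun _ => σ := fun _ => hσ.le
    rw [measureReal_def, hS, Real.volume_Icc_pi_toReal h0, hV]
    simp
  obtain ⟨F, hF⟩ : ∃ F : (ι → ℝ) → (ι → ℝ) → ℝ, ∀ p s, F p s = (Φ (p + s) - Φ p) ^ 2 :=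
    ⟨fun p s => (Φ (p + s) - Φ p) ^ 2, fun _ _ => rfl⟩
  have hFm : Measurable (Function.uncurry F) := by
    have e : Function.uncurry F = fun x : (ι → ℝ) × (ι → ℝ) => (Φ (x.1 + x.2) - Φ x.1) ^ 2 := by
      funext x
      exact hF x.1 x.2
    rw [e]
    exact ((hm.comp (measurable_fst.add measurable_snd)).sub (hm.comp measurable_fst)).pow_const 2
  have hK : 0 ≤ K := (abs_nonneg _).trans (hb 0)
  have hF0 : ∀ p s, 0 ≤ F p s := fun p s => by rw [hF]; positivity
  have hFb : ∀ p s, F p s ≤ (2 * K) ^ 2 := by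
    intro p s
    rw [hF]
    have a1 := abs_le.1 (hb (p + s))
    have a2 := abs_le.1 (hb p)
    exact sq_le_sq' (by linarith [a1.1, a1.2, a2.1, a2.2]) (by linarith [a1.1, a1.2, a2.1, a2.2])
  have hFi : ∀ (A B : Set (ι → ℝ)) [IsFiniteMeasure (volume.restrict A)]
      [IsFiniteMeasure (volume.restrict B)],
      Integrable (Function.uncurry F) ((volume.restrict A).prod (volume.restrict B)) := by
    intro A B _ _
    refine Integrable.of_bound hFm.aestronglyMeasurable ((2 * K) ^ 2) (Filter.Eventually.of_forall ?_)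
    rintro ⟨p, s⟩
    rw [Real.norm_eq_abs, Function.uncurry_apply_pair, abs_of_nonneg (hF0 p s)]
    exact hFb p s
  have hgi : ∀ p, Integrable (fun s => Φ (p + s)) (volume.restrict S) := by
    intro p
    refine Integrable.of_bound (hm.comp (measurable_const.add measurable_id)).aestronglyMeasurable K
      (Filter.Eventually.of_forall fun s => ?_)
    rw [Real.norm_eq_abs]
    exact hb _
  have hgi2 : ∀ p, Integrable (fun s => F p s) (volume.restrict S) := by
    intro p
    refine Integrable.of_bound (hFm.comp (measurable_const.prodMk measurable_id)).aestronglyMeasurable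
      ((2 * K) ^ 2) (Filter.Eventually.of_forall fun s => ?_)
    show ‖F p s‖ ≤ _
    rw [Real.norm_eq_abs, abs_of_nonneg (hF0 p s)]
    exact hFb p s
  -- lower bound
  have hlow : ∀ p ∈ Z, m ^ 2 * V ≤ ∫ s in S, F p s := by
    intro p hp
    have hp' : p ∈ Q ∧ Φ p = 0 := by rw [hZ] at hp; exact hp
    have h3 := h1 p hp'.1
    have h4 : ∫ s in S, (2 * m * Φ (p + s) - m ^ 2) ≤ ∫ s in S, F p s := by
      refine integral_mono (((hgi p).const_mul (2 * m)).sub (integrable_const _)) (hgi2 p) fun s => ?_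
      show 2 * m * Φ (p + s) - m ^ 2 ≤ F p s
      rw [hF, hp'.2]
      nlinarith [sq_nonneg (Φ (p + s) - m)]
    rw [integral_sub ((hgi p).const_mul (2 * m)) (integrable_const _), integral_const_mul,
      integral_const, measureReal_restrict_apply_univ, hSV, smul_eq_mul] at h4
    nlinarith [mul_le_mul_of_nonneg_left h3 hm0.le]
  -- integrate
  have hint : volume.real Z * (m ^ 2 * V) ≤ V * η := by
    calc volume.real Z * (m ^ 2 * V) = ∫ p in Z, m ^ 2 * V := by
          rw [integral_const, measureReal_restrict_apply_univ, smul_eq_mul]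
      _ ≤ ∫ p in Z, ∫ s in S, F p s := by
          refine setIntegral_mono_on (integrable_const _) ?_ hZm hlow
          exact (hFi Z S).integral_prod_left
      _ = ∫ s in S, ∫ p in Z, F p s := integral_integral_swap (hFi Z S)
      _ ≤ ∫ s in S, η := by
          refine setIntegral_mono_on ?_ (integrable_const _) hSm fun s hs => ?_
          · exact (hFi Z S).integral_prod_right
          · refine le_trans ?_ (h2 s hs)
            have e : ∀ p, F p s = (Φ (p + s) - Φ p) ^ 2 := fun p => hF p s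
            simp only [e]
            refine setIntegral_mono_set ?_ ?_ ?_
            · have h5 := hFm.comp (measurable_id.prodMk (measurable_const (a := s)))
              refine Integrable.of_bound (μ := volume.restrict Q) (f := fun p => (Φ (p + s) - Φ p) ^ 2)
                ?_ ((2 * K) ^ 2) (Filter.Eventually.of_forall fun p => ?_)
              · have e2 : (fun p => (Φ (p + s) - Φ p) ^ 2) = Function.uncurry F ∘ fun a => (id a, s) := by
                  funext p
                  exact (hF p s).symm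
                rw [e2]
                exact h5.aestronglyMeasurable
              · rw [Real.norm_eq_abs, ← hF, abs_of_nonneg (hF0 p s)]
                exact hFb p s
            · exact Filter.Eventually.of_forall fun p => by
                show 0 ≤ (Φ (p + s) - Φ p) ^ 2
                positivity
            · exact Filter.Eventually.of_forall hZQ
      _ = V * η := by
          rw [integral_const, measureReal_restrict_apply_univ, hSV, smul_eq_mul]
  have hfin : volume.real Z ≤ η / m ^ 2 := by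
    rw [le_div_iff₀ (by positivity)]
    have h6 : V * (volume.real Z * m ^ 2) ≤ V * η := by linarith
    exact le_of_mul_le_mul_left h6 hVpos
  rw [← ENNReal.ofReal_toReal hZf.ne]
  exact ENNReal.ofReal_le_ofReal hfin

end Pool.Agent.AES
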