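import Mathlib

/-!
# AES-Tel: changing all coordinates one after the other (Mathlib only)

PLAN.  Order the index set (`Fintype.equivFin`) and put `s_k = s` on the first `k` indices, `0` on
the others.  `Φ(p+s) - Φ(p) = ∑_{k < |ι|} (Φ(p + s_{k+1}) - Φ(p + s_k))`, so
`(Φ(p+s) - Φ(p))² ≤ |ι| ∑_k (…)²` (`sq_sum_le_card_mul_sum_sq`).  For one `k`, with `j` the
`(k+1)`-st index: Fubini with coordinate `j` integrated first: for `p = update q j b` we have
`p + s_k = update (q + s_k) j b` and `p + s_{k+1} = update (q + s_k) j (b + s j)`, so the inner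
integral over `b ∈ [0,1]` is `≤ η`; the integral over the other coordinates in `[0,1]` gives
`≤ η`.  For the Fubini step: `MeasureTheory.lmarginal` (`lintegral_eq_lmarginal_univ`,
`lmarginal_insert'`, `lmarginal_singleton`), or transport to `Fin (m+1)` and use
`volume_preserving_piFinSuccAbove`; `Icc 0 1 = Set.pi univ (fun _ => Icc 0 1)`
(`Set.pi_univ_Icc`) and `Measure.restrict_pi_pi`.  `Φ` is bounded and measurable, so everything is
integrable on the cube.
-/

set_option autoImplicit false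

open MeasureTheory

namespace Pool.Agent.AES

private theorem tel_bdd_int {X : Type*} [MeasurableSpace X] {μ : Measure X} [IsFiniteMeasure μ]
    {G : X → ℝ} (hG : Measurable G) {K : ℝ} (hb : ∀ x, |G x| ≤ K) : Integrable G μ :=
  Integrable.of_bound hG.aestronglyMeasurable K (Filter.Eventually.of_forall hb)

private theorem tel_fub {ι : Type*} [Fintype ι] [DecidableEq ι] (G : (ι → ℝ) → ℝ)
    (hG : Measurable G) (K : ℝ) (hb : ∀ p, |G p| ≤ K) (h0 : ∀ p, 0 ≤ G p) (η : ℝ) (hη : 0 ≤ η)
    (j : ι) (h : ∀ q : ι → ℝ, ∫ b in Set.Icc (0 : ℝ) 1, G (Function.update q j b) ≤ η) :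
    ∫ p in Set.Icc (0 : ι → ℝ) 1, G p ≤ η := by
  have hμ : (volume : Measure (ι → ℝ)).restrict (Set.Icc 0 1)
      = Measure.pi fun _ : ι => (volume : Measure ℝ).restrict (Set.Icc 0 1) := by
    rw [← Set.pi_univ_Icc, volume_pi, Measure.restrict_pi_pi]
    rfl
  have hp : IsProbabilityMeasure ((volume : Measure ℝ).restrict (Set.Icc 0 1)) :=
    ⟨by simp⟩
  rw [integral_eq_lintegral_of_nonneg_ae (Filter.Eventually.of_forall h0)
    hG.aestronglyMeasurable, hμ]
  apply ENNReal.toReal_le_of_le_ofReal hη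
  have hGm : Measurable fun p => ENNReal.ofReal (G p) := hG.ennreal_ofReal
  rw [lintegral_eq_lmarginal_univ (0 : ι → ℝ), lmarginal_erase' _ hGm (Finset.mem_univ j)]
  have hle : (fun x : ι → ℝ => ∫⁻ b, ENNReal.ofReal (G (Function.update x j b))
      ∂((volume : Measure ℝ).restrict (Set.Icc 0 1))) ≤ fun _ => ENNReal.ofReal η := by
    intro q
    have hm : Measurable fun b : ℝ => G (Function.update q j b) :=
      hG.comp (measurable_update q)
    have := ofReal_integral_eq_lintegral_ofReal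
      (μ := (volume : Measure ℝ).restrict (Set.Icc 0 1)) (tel_bdd_int hm fun b => hb _)
      (Filter.Eventually.of_forall fun b => h0 _)
    simp only
    rw [← this]
    exact ENNReal.ofReal_le_ofReal (h q)
  refine (lmarginal_mono hle 0).trans ?_
  unfold lmarginal
  simp

private theorem tel_one {ι : Type*} [Fintype ι] [DecidableEq ι] (Φ : (ι → ℝ) → ℝ)
    (hm : Measurable Φ) (K : ℝ)
    (hb : ∀ p, |Φ p| ≤ K) (σ η : ℝ) (hη : 0 ≤ η)
    (h : ∀ (q : ι → ℝ) (j : ι) (s : ℝ), 0 ≤ s → s ≤ σ →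
      ∫ b in Set.Icc (0 : ℝ) 1, (Φ (Function.update q j (b + s)) - Φ (Function.update q j b)) ^ 2
        ≤ η)
    (v : ι → ℝ) (j : ι) (hv : v j = 0) (s : ℝ) (hs0 : 0 ≤ s) (hs : s ≤ σ) :
    ∫ p in Set.Icc (0 : ι → ℝ) 1, (Φ (p + Function.update v j s) - Φ (p + v)) ^ 2 ≤ η := by
  have hm1 : Measurable fun p : ι → ℝ => (Φ (p + Function.update v j s) - Φ (p + v)) ^ 2 := by
    have h1 : Measurable fun p : ι → ℝ => p + Function.update v j s := by fun_prop
    have h2 : Measurable fun p : ι → ℝ => p + v := by fun_prop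
    exact ((hm.comp h1).sub (hm.comp h2)).pow_const 2
  refine tel_fub (fun p => (Φ (p + Function.update v j s) - Φ (p + v)) ^ 2) hm1 ((2 * K) ^ 2) ?_
    (fun p => sq_nonneg _) η hη j ?_
  · intro p
    rw [abs_of_nonneg (sq_nonneg _)]
    have h1 := abs_le.1 (hb (p + Function.update v j s))
    have h2 := abs_le.1 (hb (p + v))
    apply sq_le_sq'
    · linarith
    · linarith
  · intro q
    refine le_trans (le_of_eq ?_) (h (q + v) j s hs0 hs)
    refine integral_congr_ae (Filter.Eventually.of_forall fun b => ?_)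
    have e1 : Function.update q j b + Function.update v j s
        = Function.update (q + v) j (b + s) := by
      ext i
      rcases eq_or_ne i j with hi | hi
      · subst hi; simp
      · simp [hi]
    have e2 : Function.update q j b + v = Function.update (q + v) j b := by
      ext i
      rcases eq_or_ne i j with hi | hi
      · subst hi; simp [hv]
      · simp [hi]
    simp only [e1, e2]

private theorem tel_fin {ι : Type*} [Fintype ι] [DecidableEq ι] (Φ : (ι → ℝ) → ℝ)
    (hm : Measurable Φ) (K : ℝ)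
    (hb : ∀ p, |Φ p| ≤ K) (σ η : ℝ) (hη : 0 ≤ η)
    (h : ∀ (q : ι → ℝ) (j : ι) (s : ℝ), 0 ≤ s → s ≤ σ →
      ∫ b in Set.Icc (0 : ℝ) 1, (Φ (Function.update q j (b + s)) - Φ (Function.update q j b)) ^ 2
        ≤ η)
    (s : ι → ℝ) (hs : ∀ i, 0 ≤ s i ∧ s i ≤ σ) (S : Finset ι) :
    ∫ p in Set.Icc (0 : ι → ℝ) 1, (Φ (p + fun i => if i ∈ S then s i else 0) - Φ p) ^ 2
      ≤ (S.card : ℝ) ^ 2 * η := by
  have hbd : ∀ x y : ι → ℝ, |(Φ x - Φ y) ^ 2| ≤ (2 * K) ^ 2 := by
    intro x y
    rw [abs_of_nonneg (sq_nonneg _)]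
    have h1 := abs_le.1 (hb x)
    have h2 := abs_le.1 (hb y)
    apply sq_le_sq'
    · linarith
    · linarith
  have hms : ∀ v w : ι → ℝ, Measurable fun p : ι → ℝ => (Φ (p + v) - Φ (p + w)) ^ 2 := by
    intro v w
    have h1 : Measurable fun p : ι → ℝ => p + v := by fun_prop
    have h2 : Measurable fun p : ι → ℝ => p + w := by fun_prop
    exact ((hm.comp h1).sub (hm.comp h2)).pow_const 2
  have hfin : IsFiniteMeasure ((volume : Measure (ι → ℝ)).restrict (Set.Icc 0 1)) := by
    refine ⟨?_⟩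
    rw [Measure.restrict_apply_univ]
    exact isCompact_Icc.measure_lt_top
  have hint : ∀ v w : ι → ℝ, Integrable (fun p : ι → ℝ => (Φ (p + v) - Φ (p + w)) ^ 2)
      ((volume : Measure (ι → ℝ)).restrict (Set.Icc 0 1)) := fun v w =>
    tel_bdd_int (hms v w) fun x => hbd _ _
  induction S using Finset.induction_on with
  | empty =>
    have e : (fun i : ι => if i ∈ (∅ : Finset ι) then s i else 0) = 0 := by
      ext i; simp
    rw [e]
    simp
  | insert j S hj ih =>
    set v : ι → ℝ := fun i => if i ∈ S then s i else 0 with hv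
    have hvj : v j = 0 := by simp [hv, hj]
    have e : (fun i : ι => if i ∈ insert j S then s i else 0) = Function.update v j (s j) := by
      ext i
      rcases eq_or_ne i j with hi | hi
      · subst hi; simp
      · simp [hi, hv]
    rw [e, Finset.card_insert_of_notMem hj]
    have h1 := tel_one Φ hm K hb σ η hη h v j hvj (s j) (hs j).1 (hs j).2
    rcases Nat.eq_zero_or_pos S.card with hk | hk
    · have hS : S = ∅ := Finset.card_eq_zero.1 hk
      have hv0 : v = 0 := by
        ext i; simp [hv, hS]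
      rw [hk]
      rw [hv0] at h1 ⊢
      simpa using h1
    · have hk' : (0 : ℝ) < S.card := by exact_mod_cast hk
      set k : ℝ := (S.card : ℝ) with hkdef
      set w := Function.update v j (s j) with hw
      have i1 := hint w v
      have i2 := hint v 0
      have i3 := hint w 0
      simp only [add_zero] at i2 i3
      have hpt : ∀ p : ι → ℝ, k * (Φ (p + w) - Φ p) ^ 2 ≤
          k * (1 + k) * (Φ (p + w) - Φ (p + v)) ^ 2 + (k + 1) * (Φ (p + v) - Φ p) ^ 2 := by
        intro p
        nlinarith [sq_nonneg (k * (Φ (p + w) - Φ (p + v)) - (Φ (p + v) - Φ p))]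
      have hI : k * ∫ p in Set.Icc (0 : ι → ℝ) 1, (Φ (p + w) - Φ p) ^ 2 ≤
          k * (1 + k) * (∫ p in Set.Icc (0 : ι → ℝ) 1, (Φ (p + w) - Φ (p + v)) ^ 2) +
          (k + 1) * ∫ p in Set.Icc (0 : ι → ℝ) 1, (Φ (p + v) - Φ p) ^ 2 := by
        rw [← integral_const_mul, ← integral_const_mul, ← integral_const_mul,
          ← integral_add (i1.const_mul _) (i2.const_mul _)]
        exact integral_mono (i3.const_mul _) ((i1.const_mul _).add (i2.const_mul _)) hpt
      have hJ : k * ∫ p in Set.Icc (0 : ι → ℝ) 1, (Φ (p + w) - Φ p) ^ 2 ≤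
          k * ((k + 1) ^ 2 * η) := by
        refine hI.trans ?_
        have a1 := mul_le_mul_of_nonneg_left h1 (by positivity : 0 ≤ k * (1 + k))
        have a2 := mul_le_mul_of_nonneg_left ih (by positivity : 0 ≤ k + 1)
        nlinarith
      have := le_of_mul_le_mul_left hJ hk'
      push_cast
      exact this

theorem tel {ι : Type*} [Fintype ι] [DecidableEq ι] (Φ : (ι → ℝ) → ℝ) (hm : Measurable Φ) (K : ℝ)
    (hb : ∀ p, |Φ p| ≤ K) (σ η : ℝ) (hη : 0 ≤ η)
    (h : ∀ (q : ι → ℝ) (j : ι) (s : ℝ), 0 ≤ s → s ≤ σ →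
      ∫ b in Set.Icc (0 : ℝ) 1, (Φ (Function.update q j (b + s)) - Φ (Function.update q j b)) ^ 2
        ≤ η)
    (s : ι → ℝ) (hs : ∀ i, 0 ≤ s i ∧ s i ≤ σ) :
    ∫ p in Set.Icc (0 : ι → ℝ) 1, (Φ (p + s) - Φ p) ^ 2 ≤ (Fintype.card ι : ℝ) ^ 2 * η := by
  have := tel_fin Φ hm K hb σ η hη h s hs Finset.univ
  simpa using this

end Pool.Agent.AES
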