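import Pool.Agent.AES.Str
import Pool.Agent.AES.Tel
import Pool.Agent.AES.Prb

/-!
# AES-HF: high frequencies, all coordinates

The coordinates are changed one after the other (`tel`); one coordinate is `str`.
-/

set_option autoImplicit false

open MeasureTheory

namespace Pool.Agent.AES

theorem fp_meas {f : ℝ → ℝ → ℝ} {R : ℝ} (hf : Bx f R) (D : ℝ) (n : ℕ) :
    Measurable (fun p : Fin n ⊕ Fin n → ℝ => Fp f D p) := by
  have h1 := mea_meas hf D n
  have h2 : Measurable (fun p : Fin n ⊕ Fin n → ℝ =>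
      ((fun i => p (Sum.inl i), fun j => p (Sum.inr j)) : (Fin n → ℝ) × (Fin n → ℝ))) :=
    (measurable_pi_lambda _ fun i => measurable_pi_apply _).prodMk
      (measurable_pi_lambda _ fun i => measurable_pi_apply _)
  exact h1.comp h2

private theorem hf_inr (f : ℝ → ℝ → ℝ) (D : ℝ) {n : ℕ} (q : Fin n ⊕ Fin n → ℝ) (j : Fin n) (b : ℝ) :
    Fp f D (Function.update q (Sum.inr j) b) =
      FF f D (fun i => q (Sum.inl i)) (Function.update (fun j => q (Sum.inr j)) j b) := by
  unfold Fp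
  congr 1
  funext j'
  by_cases h : j' = j
  · rw [h, Function.update_self, Function.update_self]
  · rw [Function.update_of_ne h, Function.update_of_ne (fun h' => h (Sum.inr_injective h'))]

private theorem hf_inl (f : ℝ → ℝ → ℝ) (D : ℝ) {n : ℕ} (q : Fin n ⊕ Fin n → ℝ) (i : Fin n) (b : ℝ) :
    Fp f D (Function.update q (Sum.inl i) b) =
      FF f D (Function.update (fun i => q (Sum.inl i)) i b) (fun j => q (Sum.inr j)) := by
  unfold Fp
  congr 1
  funext i'
  by_cases h : i' = i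
  · rw [h, Function.update_self, Function.update_self]
  · rw [Function.update_of_ne h, Function.update_of_ne (fun h' => h (Sum.inl_injective h'))]

theorem hf (n : ℕ) (hn : 1 ≤ n) : ∃ C : ℝ, 0 < C ∧ ∀ (R D T : ℝ), 0 < D → D ≤ R → 1 ≤ T →
    ∀ f : ℝ → ℝ → ℝ, Bx f R → ∀ s : Fin n ⊕ Fin n → ℝ, (∀ i, 0 ≤ s i ∧ s i ≤ 1 / T) →
      ∫ p in Set.Icc (0 : Fin n ⊕ Fin n → ℝ) 1, (Fp f D (p + s) - Fp f D p) ^ 2 ≤
        C * (R ^ 2 * D ^ 2) ^ 2 * T ^ (-((1 / 2 : ℝ) ^ n)) := by
  obtain ⟨C, hC, hstr⟩ := str n hn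
  refine ⟨(Fintype.card (Fin n ⊕ Fin n) : ℝ) ^ 2 * C, ?_, ?_⟩
  · have h0 : 0 < Fintype.card (Fin n ⊕ Fin n) := by
      rw [Fintype.card_sum, Fintype.card_fin]
      omega
    have h1 : (0 : ℝ) < (Fintype.card (Fin n ⊕ Fin n) : ℝ) := by exact_mod_cast h0
    positivity
  intro R D T hD hDR hT f hf s hs
  have hR : 0 < R := hD.trans_le hDR
  have hT0 : 0 < T := zero_lt_one.trans_le hT
  have hη : 0 ≤ C * (R ^ 2 * D ^ 2) ^ 2 * T ^ (-((1 / 2 : ℝ) ^ n)) := by positivity
  obtain ⟨K, hK⟩ : ∃ K : ℝ, ∀ p : Fin n ⊕ Fin n → ℝ, |Fp f D p| ≤ K := by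
    refine ⟨2 * D * (R * R) * D, fun p => ?_⟩
    unfold Fp
    rw [abs_of_nonneg (mea_nonneg hf hD _ _)]
    exact mea_bdd hf hR hD hn _ _
  have h1 := tel (fun p : Fin n ⊕ Fin n → ℝ => Fp f D p) (fp_meas hf D n) K hK (1 / T)
    (C * (R ^ 2 * D ^ 2) ^ 2 * T ^ (-((1 / 2 : ℝ) ^ n))) hη ?_ s hs
  · refine h1.trans (le_of_eq ?_)
    ring
  · intro q j t ht0 ht1
    rcases j with i | j
    · have h2 := hstr R D T hD hDR hT (fun x y => f y x) (bx_symm hf) (fun j => q (Sum.inr j))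
        (fun i => q (Sum.inl i)) i t ht0 ht1
      have h3 : ∀ b, FF (fun x y => f y x) D (fun j => q (Sum.inr j)) (Function.update (fun i => q (Sum.inl i)) i b) =
          Fp f D (Function.update q (Sum.inl i) b) := by
        intro b
        rw [hf_inl]
        exact (mea_symm hf hD hn _ _).symm
      simp only [h3] at h2
      exact h2
    · have h2 := hstr R D T hD hDR hT f hf (fun i => q (Sum.inl i)) (fun j => q (Sum.inr j)) j t ht0 ht1
      have h3 : ∀ b, FF f D (fun i => q (Sum.inl i)) (Function.update (fun j => q (Sum.inr j)) j b) =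
          Fp f D (Function.update q (Sum.inr j) b) := fun b => (hf_inr f D q j b).symm
      simp only [h3] at h2
      exact h2

end Pool.Agent.AES
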