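import Pool.Agent.AES.Defs

/-!
# AES-Plan: Plancherel for bounded integrable functions
-/

set_option autoImplicit false

open MeasureTheory

namespace Pool.Agent.AES

open FourierTransform in
/-- On `L¹ ∩ L²` the inverse Plancherel transform is given by the Fourier integral. -/
private theorem fourierInv_toLp {g : ℝ → ℂ} (hg1 : Integrable g) (hg2 : MemLp g 2 volume) :
    ((𝓕⁻ (hg2.toLp g) : Lp ℂ 2 (volume : Measure ℝ)) : ℝ → ℂ) =ᵐ[volume] 𝓕⁻ g := by
  set u : Lp ℂ 2 (volume : Measure ℝ) := 𝓕⁻ (hg2.toLp g) with hu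
  have hcont : Continuous (𝓕⁻ g) := by
    have h1 : 𝓕⁻ g = fun w => 𝓕 g (-w) := by
      ext w
      rw [Real.fourierInv_eq_fourier_neg]
    rw [h1]
    have h2 : Continuous (𝓕 g) :=
      VectorFourier.fourierIntegral_continuous Real.continuous_fourierChar
        (by exact continuous_inner) hg1
    exact h2.comp continuous_neg
  refine ae_eq_of_integral_contDiff_smul_eq ?_ hcont.locallyIntegrable ?_
  · exact (Lp.memLp u).locallyIntegrable (by norm_num)
  · intro φ hφ1 hφ2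
    have hφ₁ : HasCompactSupport (Complex.ofRealCLM ∘ φ) := hφ2.comp_left rfl
    have hφ₂ : ContDiff ℝ (⊤ : ℕ∞) (Complex.ofRealCLM ∘ φ) := by fun_prop
    set Φ := hφ₁.toSchwartzMap hφ₂ with hΦ
    have hΦapply : ∀ x, Φ x = (φ x : ℂ) := fun x => rfl
    have h1 : ∫ x, φ x • u x = (Lp.toTemperedDistribution u) Φ := by
      rw [Lp.toTemperedDistribution_apply]
      refine integral_congr_ae (Filter.Eventually.of_forall fun x => ?_)
      simp only [hΦapply]
      rw [smul_eq_mul, Complex.real_smul]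
    have h2 : (Lp.toTemperedDistribution u) Φ
        = (Lp.toTemperedDistribution (hg2.toLp g)) (𝓕⁻ Φ) := by
      rw [hu, ← Lp.fourierInv_toTemperedDistribution_eq]
      rfl
    have h3 : (Lp.toTemperedDistribution (hg2.toLp g)) (𝓕⁻ Φ) = ∫ x, (𝓕⁻ Φ) x • g x := by
      rw [Lp.toTemperedDistribution_apply]
      refine integral_congr_ae ?_
      filter_upwards [hg2.coeFn_toLp] with x hx
      rw [hx]
    have hΦint : Integrable (fun x => Φ x) := Φ.integrable
    have h4 : ∫ x, (𝓕⁻ (fun x => Φ x)) x • g x = ∫ x, Φ x • (𝓕⁻ g) x := by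
      have h5 := VectorFourier.integral_fourierIntegral_smul_eq_flip (μ := volume) (ν := volume)
        (L := -innerₗ ℝ) Real.continuous_fourierChar
        (by
          have : Continuous fun p : ℝ × ℝ => -(inner ℝ p.1 p.2 : ℝ) := by fun_prop
          exact this) hΦint hg1
      have h6 : (-innerₗ ℝ).flip = -innerₗ ℝ := by
        ext
        simp
      rw [h6] at h5
      exact h5
    rw [h1, h2, h3]
    have h7 : ∫ x, (𝓕⁻ Φ) x • g x = ∫ x, (𝓕⁻ (fun x => Φ x)) x • g x := by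
      refine integral_congr_ae (Filter.Eventually.of_forall fun x => ?_)
      simp only
      congr 1
      exact congrFun (SchwartzMap.fourierInv_coe Φ) x
    rw [h7, h4]
    refine integral_congr_ae (Filter.Eventually.of_forall fun x => ?_)
    simp only [hΦapply]
    rw [smul_eq_mul, Complex.real_smul]

private theorem l2_norm (f : Lp ℂ 2 (volume : Measure ℝ)) : ‖f‖ ^ 2 = ∫ a, ‖f a‖ ^ 2 := by
  have h := L2.inner_def (𝕜 := ℂ) f f
  rw [inner_self_eq_norm_sq_to_K] at h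
  have h2 : ∫ a, inner ℂ (f a) (f a) = ((∫ a, ‖f a‖ ^ 2 : ℝ) : ℂ) := by
    rw [← integral_complex_ofReal]
    refine integral_congr_ae (Filter.Eventually.of_forall fun a => ?_)
    show inner ℂ (f a) (f a) = ((‖f a‖ ^ 2 : ℝ) : ℂ)
    rw [inner_self_eq_norm_sq_to_K]
    push_cast
    rfl
  rw [h2] at h
  have h3 : ((‖f‖ ^ 2 : ℝ) : ℂ) = ((∫ a, ‖f a‖ ^ 2 : ℝ) : ℂ) := by
    rw [← h]
    push_cast
    rfl
  exact_mod_cast h3

open FourierTransform in
private theorem ft_eq (g : ℝ → ℂ) (t : ℝ) : ft g t = 𝓕⁻ g (-t) := by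
  rw [Real.fourierInv_eq_fourier_neg, neg_neg, Real.fourier_real_eq_integral_exp_smul]
  unfold ft
  refine integral_congr_ae (Filter.Eventually.of_forall fun y => ?_)
  show g y * ex (-(y * t)) = Complex.exp (↑(-2 * Real.pi * y * t) * Complex.I) • g y
  unfold ex
  rw [smul_eq_mul, mul_comm]
  congr 3
  push_cast
  ring

open FourierTransform in
theorem plancherel (g : ℝ → ℂ) (hg : Integrable g) (K : ℝ) (hb : ∀ y, ‖g y‖ ≤ K) :
    Integrable (fun t => ‖ft g t‖ ^ 2) ∧ ∫ t, ‖ft g t‖ ^ 2 = ∫ y, ‖g y‖ ^ 2 := by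
  have hg2 : MemLp g 2 volume := by
    rw [memLp_two_iff_integrable_sq_norm hg.1]
    refine Integrable.mono' (hg.norm.const_mul K) (hg.1.norm.pow 2) ?_
    refine Filter.Eventually.of_forall fun y => ?_
    rw [Real.norm_eq_abs, abs_of_nonneg (sq_nonneg _), sq]
    exact mul_le_mul_of_nonneg_right (hb y) (norm_nonneg _)
  have h1 := fourierInv_toLp hg hg2
  obtain ⟨u, hu⟩ : ∃ u : Lp ℂ 2 (volume : Measure ℝ), u = 𝓕⁻ (hg2.toLp g) := ⟨_, rfl⟩
  rw [← hu] at h1
  have hnorm : ‖u‖ = ‖hg2.toLp g‖ := by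
    rw [← Lp.norm_fourier_eq u, hu]
    congr 1
    exact FourierTransform.fourier_fourierInv_eq _
  have hsq : ∫ t, ‖(𝓕⁻ g) t‖ ^ 2 = ∫ y, ‖g y‖ ^ 2 := by
    have e1 : ∫ t, ‖(𝓕⁻ g) t‖ ^ 2 = ∫ t, ‖u t‖ ^ 2 := by
      refine integral_congr_ae ?_
      filter_upwards [h1] with t ht
      rw [ht]
    have e2 : ∫ y, ‖g y‖ ^ 2 = ∫ y, ‖(hg2.toLp g) y‖ ^ 2 := by
      refine integral_congr_ae ?_
      filter_upwards [hg2.coeFn_toLp] with t ht
      rw [ht]
    rw [e1, e2, ← l2_norm, ← l2_norm, hnorm]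
  have hint : Integrable (fun t => ‖(𝓕⁻ g) t‖ ^ 2) := by
    have h2 := (memLp_two_iff_integrable_sq_norm (Lp.memLp u).1).1 (Lp.memLp u)
    refine h2.congr ?_
    filter_upwards [h1] with t ht
    rw [ht]
  have hfun : (fun t => ‖ft g t‖ ^ 2) = fun t => ‖(𝓕⁻ g) (-t)‖ ^ 2 := by
    funext t
    rw [ft_eq]
  rw [hfun]
  refine ⟨hint.comp_neg, ?_⟩
  exact (integral_neg_eq_self (fun t => ‖(𝓕⁻ g) t‖ ^ 2) volume).trans hsq

end Pool.Agent.AES
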