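import Pool.Agent.AES.Defs

/-!
# AES-ReA: averaging over the shape perturbation, for fixed `u, x, y`

PLAN.  Write `s = (s_i)_{i ∈ Fin n ⊕ Fin n}`, `X_i = x + (α_i + s_i) u`, `Y_j = y + (β_j + s_j) u`.
For `(I,J) ∈ WS` let `Q(I,J)` be the box of all `s` with
`X_i ∈ [z_i, z_i + ε)`, `z_i = x₀ + a_i L + I_i`, `Y_j ∈ [w_j, w_j + ε)`, `w_j = y₀ + b_j L + J_j`.
(1) These boxes are pairwise disjoint (`ε ≤ 1`, integers), each is a product of `2n` half-open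
intervals of length `ε/u` (`Real.volume_pi_Ico` or `volume_pi_pi`), volume `(ε/u)^(2n)`.
(2) `Q(I,J) ⊆ [0,1/T]^(2n)`: `X_i ≥ z_i ≥ x₀ + a_i L ≥ x + α_i u` since `a_i L ≥ α_i u`
(`Nat.le_ceil`), `x ≤ x₀`; and `X_i < z_i + 1 ≤ x₀ + a_i L + L ≤ (x + 1) + (α_i u + L) + L
≤ x + α_i u + 3L ≤ x + α_i u + u/T` (`Nat.ceil_lt_add_one`, `x₀ < x + 1`, `L ≥ 1`, `3 L T ≤ u`).
(3) On `Q(I,J)` the product of all `cf` is `1`: `⌊X_i⌋₊ = z_i.toNat` and `fract X_i = X_i - z_i < ε`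
(`z_i ≥ 1` because `(z_i.toNat, _) ∈ A ⊆ [1,N]²` and `toNat` of a nonpositive integer is `0`).
So the integral is at least `∑_{(I,J) ∈ WS} vol Q(I,J)` (`lintegral` over a finite disjoint union,
`measure_biUnion_finset`).
-/

set_option autoImplicit false

open MeasureTheory

namespace Pool.Agent.AES

private theorem rea_one {ε u T v P σ : ℝ} {L : ℕ} {v0 : ℤ} (hε1 : ε ≤ 1) (hT : 0 < T)
    (hu : 0 < u) (hL : 1 ≤ L) (huT : 3 * L * T ≤ u) (hP : 0 ≤ P) (hv : (v0 : ℝ) - 1 < v) (hv' : v ≤ v0)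
    {I : ℕ} (hI : I < L)
    (h1 : (((v0 + (⌈P * u / L⌉₊ : ℕ) * L + I : ℤ) : ℝ) - v) / u - P ≤ σ)
    (h2 : σ < (((v0 + (⌈P * u / L⌉₊ : ℕ) * L + I : ℤ) : ℝ) - v) / u - P + ε / u) :
    0 ≤ σ ∧ σ ≤ 1 / T ∧ ⌊v + (P + σ) * u⌋ = v0 + (⌈P * u / L⌉₊ : ℕ) * L + I ∧
      Int.fract (v + (P + σ) * u) < ε := by
  have hL0 : (0 : ℝ) < L := by exact_mod_cast hL
  have hL1 : (1 : ℝ) ≤ L := by exact_mod_cast hL
  obtain ⟨c, hc⟩ : ∃ c : ℕ, c = ⌈P * u / L⌉₊ := ⟨_, rfl⟩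
  have hc1 : P * u ≤ c * L := by
    have := Nat.le_ceil (P * u / L)
    rw [← hc, div_le_iff₀ hL0] at this
    exact this
  have hc2 : (c : ℝ) * L < P * u + L := by
    have h3 := Nat.ceil_lt_add_one (show 0 ≤ P * u / L by positivity)
    rw [← hc] at h3
    have h4 : (c : ℝ) * L < (P * u / L + 1) * L := mul_lt_mul_of_pos_right h3 hL0
    have h5 : (P * u / L + 1) * L = P * u + L := by field_simp
    linarith
  rw [← hc] at h1 h2 ⊢
  obtain ⟨Z, hZ⟩ : ∃ Z : ℤ, Z = v0 + (c : ℕ) * L + I := ⟨_, rfl⟩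
  rw [← hZ] at h1 h2 ⊢
  have hZr : (Z : ℝ) = v0 + c * L + I := by
    rw [hZ]
    push_cast
    ring
  have hI1 : (I : ℝ) + 1 ≤ L := by exact_mod_cast hI
  have hI0 : (0 : ℝ) ≤ I := by positivity
  have k1 : (Z : ℝ) - v ≤ (P + σ) * u := by
    rw [← div_le_iff₀ hu]
    linarith
  have k2 : (P + σ) * u < Z - v + ε := by
    rw [← lt_div_iff₀ hu, add_div]
    linarith
  have e : (P + σ) * u = P * u + σ * u := by ring
  have hs0 : 0 ≤ σ := by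
    have h3 : 0 ≤ σ * u := by linarith
    exact nonneg_of_mul_nonneg_left h3 hu
  have hfl : ⌊v + (P + σ) * u⌋ = Z := by
    rw [Int.floor_eq_iff]
    constructor
    · linarith
    · linarith
  refine ⟨hs0, ?_, hfl, ?_⟩
  · rw [le_div_iff₀ hT]
    have h3 : σ * u < 3 * L := by linarith
    have h4 : σ * u * T ≤ u := by
      have h5 : σ * u * T ≤ 3 * L * T := mul_le_mul_of_nonneg_right h3.le hT.le
      linarith
    have h6 : (σ * T) * u ≤ 1 * u := by linarith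
    exact le_of_mul_le_mul_right h6 hu
  · have h3 : Int.fract (v + (P + σ) * u) = v + (P + σ) * u - (⌊v + (P + σ) * u⌋ : ℝ) := rfl
    rw [h3, hfl]
    linarith

/-- the lower corner of the box -/
private noncomputable def rlo {n : ℕ} (L : ℕ) (u : ℝ) (p : Fin n ⊕ Fin n → ℝ) (x₀ y₀ : ℤ) (x y : ℝ)
    (z : (Fin n → ℕ) × (Fin n → ℕ)) (k : Fin n ⊕ Fin n) : ℝ :=
  Sum.elim
    (fun i : Fin n => (((x₀ + (⌈p (Sum.inl i) * u / L⌉₊ : ℕ) * L + z.1 i : ℤ) : ℝ) - x) / u - p (Sum.inl i))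
    (fun j : Fin n => (((y₀ + (⌈p (Sum.inr j) * u / L⌉₊ : ℕ) * L + z.2 j : ℤ) : ℝ) - y) / u - p (Sum.inr j)) k

/-- the box -/
private noncomputable def rbx {n : ℕ} (L : ℕ) (u ε : ℝ) (p : Fin n ⊕ Fin n → ℝ) (x₀ y₀ : ℤ) (x y : ℝ)
    (z : (Fin n → ℕ) × (Fin n → ℕ)) : Set (Fin n ⊕ Fin n → ℝ) :=
  Set.univ.pi fun k => Set.Ico (rlo L u p x₀ y₀ x y z k) (rlo L u p x₀ y₀ x y z k + ε / u)

private theorem rea_meas {n : ℕ} (L : ℕ) (u ε : ℝ) (p : Fin n ⊕ Fin n → ℝ) (x₀ y₀ : ℤ) (x y : ℝ)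
    (z : (Fin n → ℕ) × (Fin n → ℕ)) : MeasurableSet (rbx L u ε p x₀ y₀ x y z) :=
  MeasurableSet.univ_pi fun _ => measurableSet_Ico

private theorem rea_vol {n : ℕ} (L : ℕ) {u ε : ℝ} (hu : 0 < u) (hε : 0 < ε) (p : Fin n ⊕ Fin n → ℝ) (x₀ y₀ : ℤ)
    (x y : ℝ) (z : (Fin n → ℕ) × (Fin n → ℕ)) :
    volume (rbx L u ε p x₀ y₀ x y z) = ENNReal.ofReal ((ε / u) ^ (2 * n)) := by
  unfold rbx
  rw [volume_pi_pi]
  have h1 : ∀ k ∈ (Finset.univ : Finset (Fin n ⊕ Fin n)),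
      volume (Set.Ico (rlo L u p x₀ y₀ x y z k) (rlo L u p x₀ y₀ x y z k + ε / u)) = ENNReal.ofReal (ε / u) := by
    intro k _
    rw [Real.volume_Ico, add_sub_cancel_left]
  rw [Finset.prod_congr rfl h1, Finset.prod_const, Finset.card_univ, Fintype.card_sum, Fintype.card_fin,
    ← ENNReal.ofReal_pow (by positivity), two_mul]

theorem reA (N : ℕ) (A : Finset (ℕ × ℕ)) (hA : A ⊆ Finset.Icc 1 N ×ˢ Finset.Icc 1 N) (ε : ℝ)
    (hε : 0 < ε) (hε1 : ε ≤ 1) (n L : ℕ) (hn : 1 ≤ n) (hL : 1 ≤ L) (T u : ℝ) (hT : 0 < T)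
    (hu : 0 < u) (huT : 3 * L * T ≤ u) (p : Fin n ⊕ Fin n → ℝ)
    (hp : ∀ i, 0 ≤ p i) (x₀ y₀ : ℤ) (x y : ℝ) (hx : (x₀ : ℝ) - 1 < x) (hx' : x ≤ x₀)
    (hy : (y₀ : ℝ) - 1 < y) (hy' : y ≤ y₀) :
    ENNReal.ofReal ((ε / u) ^ (2 * n)) *
        ((WS A L (fun i : Fin n => ⌈p (Sum.inl i) * u / L⌉₊)
          (fun j : Fin n => ⌈p (Sum.inr j) * u / L⌉₊) x₀ y₀).card : ENNReal) ≤
      ∫⁻ s in Set.Icc (0 : Fin n ⊕ Fin n → ℝ) (fun _ => 1 / T),
        ENNReal.ofReal (∏ i : Fin n, ∏ j : Fin n,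
          cf A ε (x + (p + s) (Sum.inl i) * u) (y + (p + s) (Sum.inr j) * u)) := by
  classical
  obtain ⟨W, hW⟩ : ∃ W, W = WS A L (fun i : Fin n => ⌈p (Sum.inl i) * u / L⌉₊)
          (fun j : Fin n => ⌈p (Sum.inr j) * u / L⌉₊) x₀ y₀ := ⟨_, rfl⟩
  rw [← hW]
  have hmem : ∀ z ∈ W, (∀ i, z.1 i < L) ∧ (∀ j, z.2 j < L) ∧
      ∀ i j, ((x₀ + (⌈p (Sum.inl i) * u / L⌉₊ : ℕ) * L + z.1 i).toNat,
        (y₀ + (⌈p (Sum.inr j) * u / L⌉₊ : ℕ) * L + z.2 j).toNat) ∈ A := by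
    intro z hz
    rw [hW] at hz
    unfold WS at hz
    rw [Finset.mem_filter, Finset.mem_product, Fintype.mem_piFinset, Fintype.mem_piFinset] at hz
    exact ⟨fun i => Finset.mem_range.1 (hz.1.1 i), fun j => Finset.mem_range.1 (hz.1.2 j), hz.2⟩
  -- the properties of the points of a box
  have hX : ∀ z ∈ W, ∀ s ∈ rbx L u ε p x₀ y₀ x y z, ∀ i : Fin n,
      0 ≤ s (Sum.inl i) ∧ s (Sum.inl i) ≤ 1 / T ∧
      ⌊x + (p (Sum.inl i) + s (Sum.inl i)) * u⌋ = x₀ + (⌈p (Sum.inl i) * u / L⌉₊ : ℕ) * L + z.1 i ∧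
      Int.fract (x + (p (Sum.inl i) + s (Sum.inl i)) * u) < ε := by
    intro z hz s hs i
    have h1 := hs (Sum.inl i) (Set.mem_univ _)
    exact rea_one hε1 hT hu hL huT (hp _) hx hx' ((hmem z hz).1 i) h1.1 h1.2
  have hY : ∀ z ∈ W, ∀ s ∈ rbx L u ε p x₀ y₀ x y z, ∀ j : Fin n,
      0 ≤ s (Sum.inr j) ∧ s (Sum.inr j) ≤ 1 / T ∧
      ⌊y + (p (Sum.inr j) + s (Sum.inr j)) * u⌋ = y₀ + (⌈p (Sum.inr j) * u / L⌉₊ : ℕ) * L + z.2 j ∧
      Int.fract (y + (p (Sum.inr j) + s (Sum.inr j)) * u) < ε := by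
    intro z hz s hs j
    have h1 := hs (Sum.inr j) (Set.mem_univ _)
    exact rea_one hε1 hT hu hL huT (hp _) hy hy' ((hmem z hz).2.1 j) h1.1 h1.2
  have hdis : Set.PairwiseDisjoint (↑W : Set ((Fin n → ℕ) × (Fin n → ℕ))) (rbx L u ε p x₀ y₀ x y) := by
    intro z hz z' hz' hne
    rw [Function.onFun, Set.disjoint_left]
    intro s hs hs'
    apply hne
    refine Prod.ext ?_ ?_
    · funext i
      have h1 := (hX z hz s hs i).2.2.1
      have h2 := (hX z' hz' s hs' i).2.2.1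
      rw [h1] at h2
      omega
    · funext j
      have h1 := (hY z hz s hs j).2.2.1
      have h2 := (hY z' hz' s hs' j).2.2.1
      rw [h1] at h2
      omega
  have hsub : (⋃ z ∈ W, rbx L u ε p x₀ y₀ x y z) ⊆ Set.Icc (0 : Fin n ⊕ Fin n → ℝ) (fun _ => 1 / T) := by
    intro s hs
    rw [Set.mem_iUnion₂] at hs
    obtain ⟨z, hz, hs⟩ := hs
    rw [Set.mem_Icc]
    constructor
    · intro k
      rcases k with i | j
      · exact (hX z hz s hs i).1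
      · exact (hY z hz s hs j).1
    · intro k
      rcases k with i | j
      · exact (hX z hz s hs i).2.1
      · exact (hY z hz s hs j).2.1
  have hone : ∀ s ∈ (⋃ z ∈ W, rbx L u ε p x₀ y₀ x y z), (1 : ENNReal) ≤
      ENNReal.ofReal (∏ i : Fin n, ∏ j : Fin n,
          cf A ε (x + (p + s) (Sum.inl i) * u) (y + (p + s) (Sum.inr j) * u)) := by
    intro s hs
    rw [Set.mem_iUnion₂] at hs
    obtain ⟨z, hz, hs⟩ := hs
    have h1 : ∀ i j : Fin n, cf A ε (x + (p + s) (Sum.inl i) * u) (y + (p + s) (Sum.inr j) * u) = 1 := by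
      intro i j
      have hx1 := (hX z hz s hs i).2.2
      have hy1 := (hY z hz s hs j).2.2
      have e1 : (p + s) (Sum.inl i) = p (Sum.inl i) + s (Sum.inl i) := rfl
      have e2 : (p + s) (Sum.inr j) = p (Sum.inr j) + s (Sum.inr j) := rfl
      rw [e1, e2]
      unfold cf
      rw [if_pos]
      refine ⟨?_, hx1.2, hy1.2⟩
      rw [← Int.floor_toNat, ← Int.floor_toNat, hx1.1, hy1.1]
      exact (hmem z hz).2.2 i j
    have h2 : (∏ i : Fin n, ∏ j : Fin n,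
          cf A ε (x + (p + s) (Sum.inl i) * u) (y + (p + s) (Sum.inr j) * u)) = 1 := by
      apply Finset.prod_eq_one
      intro i _
      apply Finset.prod_eq_one
      intro j _
      exact h1 i j
    rw [h2, ENNReal.ofReal_one]
  have hUm : MeasurableSet (⋃ z ∈ W, rbx L u ε p x₀ y₀ x y z) :=
    Finset.measurableSet_biUnion _ fun z _ => rea_meas L u ε p x₀ y₀ x y z
  have hvol : volume (⋃ z ∈ W, rbx L u ε p x₀ y₀ x y z) = ENNReal.ofReal ((ε / u) ^ (2 * n)) * (W.card : ENNReal) := by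
    rw [measure_biUnion_finset hdis fun z _ => rea_meas L u ε p x₀ y₀ x y z,
      Finset.sum_congr rfl fun z _ => rea_vol L hu hε p x₀ y₀ x y z, Finset.sum_const, nsmul_eq_mul, mul_comm]
  rw [← hvol, ← setLIntegral_one]
  exact (setLIntegral_mono' hUm hone).trans (lintegral_mono_set hsub)

end Pool.Agent.AES
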