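import Mathlib

/-!
# AES-SpA: a double integral (Mathlib only)
-/

set_option autoImplicit false

open MeasureTheory

namespace Pool.Agent.AES

private theorem spA_int0 (l κ : ℝ) (hl : 0 < l) (hκ1 : κ ≤ 1 / 2) :
    IntervalIntegrable (fun x : ℝ => |x| ^ (-κ)) volume 0 l ∧
      ∫ x in (0 : ℝ)..l, |x| ^ (-κ) ≤ 2 * l ^ (1 - κ) := by
  have h0 : (-1 : ℝ) < -κ := by linarith
  have hc : Set.EqOn (fun x : ℝ => x ^ (-κ)) (fun x : ℝ => |x| ^ (-κ)) (Set.uIoc 0 l) := by
    intro x hx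
    rw [Set.uIoc_of_le hl.le] at hx
    show x ^ (-κ) = |x| ^ (-κ)
    rw [abs_of_pos hx.1]
  refine ⟨(intervalIntegral.intervalIntegrable_rpow' h0).congr hc, ?_⟩
  have h1 : ∫ x in (0 : ℝ)..l, |x| ^ (-κ) = ∫ x in (0 : ℝ)..l, x ^ (-κ) := by
    refine intervalIntegral.integral_congr_ae (Filter.Eventually.of_forall fun x hx => ?_)
    exact (hc hx).symm
  rw [h1, integral_rpow (Or.inl h0)]
  have h2 : (0 : ℝ) ^ (-κ + 1) = 0 := Real.zero_rpow (by linarith)
  have h3 : -κ + 1 = 1 - κ := by ring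
  rw [h2, sub_zero, h3, div_le_iff₀ (by linarith)]
  have h4 : 0 < l ^ (1 - κ) := Real.rpow_pos_of_pos hl _
  nlinarith

private theorem spA_int1 (l κ : ℝ) (hl : 0 < l) (hκ1 : κ ≤ 1 / 2) :
    IntegrableOn (fun x : ℝ => |x| ^ (-κ)) (Set.Icc (-l) l) volume ∧
      ∫ x in Set.Icc (-l) l, |x| ^ (-κ) ≤ 4 * l ^ (1 - κ) := by
  obtain ⟨i1, b1⟩ := spA_int0 l κ hl hκ1
  have i2 : IntervalIntegrable (fun x : ℝ => |x| ^ (-κ)) volume (-l) 0 := by
    have h := (IntervalIntegrable.iff_comp_neg (f := fun x : ℝ => |x| ^ (-κ)) (a := 0) (b := l)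
      (by simp)).1 i1
    rw [neg_zero] at h
    simp only [abs_neg] at h
    exact h.symm
  have e2 : ∫ x in (-l)..0, |x| ^ (-κ) = ∫ x in (0 : ℝ)..l, |x| ^ (-κ) := by
    have h := intervalIntegral.integral_comp_neg (a := 0) (b := l) (fun x : ℝ => |x| ^ (-κ))
    rw [neg_zero] at h
    simp only [abs_neg] at h
    exact h.symm
  have i3 := i2.trans i1
  have hll : -l ≤ l := by linarith
  constructor
  · rw [integrableOn_Icc_iff_integrableOn_Ioc]
    exact (intervalIntegrable_iff_integrableOn_Ioc_of_le hll).1 i3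
  · rw [integral_Icc_eq_integral_Ioc, ← intervalIntegral.integral_of_le hll,
      ← intervalIntegral.integral_add_adjacent_intervals i2 i1, e2]
    linarith

private theorem spA_y (c l κ y : ℝ) (hl : 0 < l) (hκ1 : κ ≤ 1 / 2) (hy : y ∈ Set.Icc c (c + l)) :
    IntegrableOn (fun y' : ℝ => |y - y'| ^ (-κ)) (Set.Icc c (c + l)) volume ∧
      ∫ y' in Set.Icc c (c + l), |y - y'| ^ (-κ) ≤ 4 * l ^ (1 - κ) := by
  obtain ⟨i1, b1⟩ := spA_int1 l κ hl hκ1
  have hm : MeasurableSet (Set.Icc (-l) l) := measurableSet_Icc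
  have hm2 : MeasurableSet (Set.Icc c (c + l)) := measurableSet_Icc
  have j1 := (integrable_indicator_iff hm).2 i1
  have j2 : Integrable (fun y' : ℝ => (Set.Icc (-l) l).indicator (fun x : ℝ => |x| ^ (-κ)) (y - y'))
      volume := j1.comp_sub_left y
  have hle : ∀ y', (Set.Icc c (c + l)).indicator (fun y' : ℝ => |y - y'| ^ (-κ)) y' ≤
      (Set.Icc (-l) l).indicator (fun x : ℝ => |x| ^ (-κ)) (y - y') := by
    intro y'
    by_cases h : y' ∈ Set.Icc c (c + l)
    · rw [Set.indicator_of_mem h, Set.indicator_of_mem]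
      exact ⟨by linarith [hy.1, h.2], by linarith [hy.2, h.1]⟩
    · rw [Set.indicator_of_notMem h]
      exact Set.indicator_nonneg (fun x _ => Real.rpow_nonneg (abs_nonneg x) _) _
  have hnn : ∀ y', 0 ≤ (Set.Icc c (c + l)).indicator (fun y' : ℝ => |y - y'| ^ (-κ)) y' :=
    fun y' => Set.indicator_nonneg (fun x _ => Real.rpow_nonneg (abs_nonneg _) _) _
  have hms : Measurable fun y' : ℝ => |y - y'| ^ (-κ) := by fun_prop
  have j3 : Integrable ((Set.Icc c (c + l)).indicator (fun y' : ℝ => |y - y'| ^ (-κ))) volume := by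
    refine j2.mono' (hms.indicator hm2).aestronglyMeasurable (Filter.Eventually.of_forall fun y' => ?_)
    rw [Real.norm_of_nonneg (hnn y')]
    exact hle y'
  refine ⟨(integrable_indicator_iff hm2).1 j3, ?_⟩
  rw [← integral_indicator hm2]
  refine le_trans (integral_mono j3 j2 hle) ?_
  rw [integral_sub_left_eq_self (fun z => (Set.Icc (-l) l).indicator (fun x : ℝ => |x| ^ (-κ)) z)
    volume y, integral_indicator hm]
  exact b1

theorem spA (c l κ : ℝ) (hl : 0 < l) (hκ : 0 < κ) (hκ1 : κ ≤ 1 / 2) :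
    Integrable (fun p : ℝ × ℝ => |p.1 - p.2| ^ (-κ))
      ((volume.restrict (Set.Icc c (c + l))).prod (volume.restrict (Set.Icc c (c + l)))) ∧
    ∫ y in Set.Icc c (c + l), ∫ y' in Set.Icc c (c + l), |y - y'| ^ (-κ) ≤ 4 * l ^ (2 - κ) := by
  have hms : Measurable fun p : ℝ × ℝ => |p.1 - p.2| ^ (-κ) := by fun_prop
  have hm2 : MeasurableSet (Set.Icc c (c + l)) := measurableSet_Icc
  have hI : Integrable (fun p : ℝ × ℝ => |p.1 - p.2| ^ (-κ))
      ((volume.restrict (Set.Icc c (c + l))).prod (volume.restrict (Set.Icc c (c + l)))) := by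
    rw [integrable_prod_iff hms.aestronglyMeasurable]
    constructor
    · rw [ae_restrict_iff' hm2]
      exact Filter.Eventually.of_forall fun y hy => (spA_y c l κ y hl hκ1 hy).1
    · have hsm : StronglyMeasurable fun y : ℝ =>
          ∫ y' in Set.Icc c (c + l), ‖|y - y'| ^ (-κ)‖ :=
        hms.norm.stronglyMeasurable.integral_prod_right'
      refine Integrable.mono' (integrable_const (4 * l ^ (1 - κ))) hsm.aestronglyMeasurable ?_
      rw [ae_restrict_iff' hm2]
      refine Filter.Eventually.of_forall fun y hy => ?_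
      have h1 : ∀ y' : ℝ, ‖|y - y'| ^ (-κ)‖ = |y - y'| ^ (-κ) := fun y' =>
        Real.norm_of_nonneg (Real.rpow_nonneg (abs_nonneg _) _)
      simp only [h1]
      rw [Real.norm_of_nonneg (integral_nonneg fun y' => Real.rpow_nonneg (abs_nonneg _) _)]
      exact (spA_y c l κ y hl hκ1 hy).2
  refine ⟨hI, ?_⟩
  have h2 : ∫ y in Set.Icc c (c + l), ∫ y' in Set.Icc c (c + l), |y - y'| ^ (-κ) ≤
      ∫ _y in Set.Icc c (c + l), 4 * l ^ (1 - κ) := by
    refine setIntegral_mono_on hI.integral_prod_left (integrable_const _) hm2 fun y hy => ?_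
    exact (spA_y c l κ y hl hκ1 hy).2
  refine le_trans h2 (le_of_eq ?_)
  rw [setIntegral_const, measureReal_def, Real.volume_Icc, add_sub_cancel_left,
    ENNReal.toReal_ofReal hl.le, smul_eq_mul]
  have h3 : (2 : ℝ) - κ = 1 + (1 - κ) := by ring
  rw [h3, Real.rpow_add hl, Real.rpow_one]
  ring

end Pool.Agent.AES
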