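import Pool.Agent.AES.Css
import Pool.Agent.AES.Bas

/-!
# AES-Vdc: multilinear van der Corput bound, uniform in all functions and all slopes

PLAN.  Induction on `k ≥ 1`, `κ = (1/2)^k`.
`k = 1`: for fixed `u` the inner integral is `(∫ B 0) E(u)` by translation invariance, `|∫ B 0| ≤ R`,
and `bas` (with `(1/2)^1`).
Step `k → k+1` (`κ = (1/2)^k`, constant `C_k`): if `b < a` the integral is `0`.  `css` with
`E u = ex (τ lapk 0 w u)` on `u > 0` (take `E` measurable, for instance multiplied by the indicator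
of `u > 0`; only `u ∈ [a,b] ⊆ [D, 2D]` matters).  For `h ∈ (0, b-a]`, `h ≤ D`, and
`u ∈ [a, b-h]`: `E u conj(E(u+h)) = ex (τ lapk 0 w_h u)` with `w_h v = w v (1 - exp(-v h))`
(`lap_diff`, `ex_add`, `ex_conj`), `w_h` is a weight with constant `σ_h = σ h/(2D) > 0` (`wt_diff`).
So the induction hypothesis gives `‖J h‖ ≤ C_k R D (2 D²/(|τ| σ h))^κ
= C_k R D (2D/(|τ|σ))^κ (D/h)^κ`, and `∫_0^D (D/h)^κ dh = D/(1-κ) ≤ 2D` (`integral_rpow`).
(`integral_mono_of_nonneg` does not need integrability of `‖J h‖`.)  Hence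
`‖I‖² ≤ 2R · C_k R D · 2^κ (D/(|τ|σ))^κ · 2D ≤ 8 C_k R² D² (D/(|τ|σ))^κ`; take square roots,
`C_{k+1} = (8 C_k)^(1/2)`.
`vdc` is the case `w = 1` (`lap_one`, `wt_one`), `[a,b] = [D,2D]`.
-/

set_option autoImplicit false

open MeasureTheory

namespace Pool.Agent.AES

private theorem base_int (R : ℝ) (hR : 0 < R) (B : Fin 1 → ℝ → ℂ) (hB : Fam B R) :
    ‖∫ x, B 0 x‖ ≤ R := by
  have h1 : ∫ x, B 0 x = ∫ x in Set.Icc 0 R, B 0 x := by
    rw [setIntegral_eq_integral_of_forall_compl_eq_zero]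
    intro x hx
    refine hB.zero 0 x ?_
    rw [Set.mem_Icc, not_and_or, not_le, not_le] at hx
    exact hx
  rw [h1]
  have h2 := norm_setIntegral_le_of_norm_le_const (μ := volume) (s := Set.Icc (0 : ℝ) R)
    (f := B 0) (C := 1) (by simp) (fun x _ => hB.le_one 0 x)
  refine h2.trans (le_of_eq ?_)
  rw [one_mul, Measure.real, Real.volume_Icc, sub_zero, ENNReal.toReal_ofReal hR.le]

private theorem step_int (C R D σ τ κ c : ℝ) (hC : 0 < C) (hR : 0 < R) (hD : 0 < D) (hσ : 0 < σ)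
    (hτ : τ ≠ 0) (hκ : 0 < κ) (hκ1 : κ ≤ 1 / 2) (hc : 0 ≤ c) (hcD : c ≤ D) :
    IntegrableOn (fun h : ℝ => C * R * D * (D / (|τ| * (σ * h / (2 * D)))) ^ κ) (Set.Ioc 0 c) ∧
      ∫ h in Set.Ioc 0 c, C * R * D * (D / (|τ| * (σ * h / (2 * D)))) ^ κ ≤
        4 * C * R * D ^ 2 * (D / (|τ| * σ)) ^ κ := by
  have hτ' : 0 < |τ| := abs_pos.2 hτ
  obtain ⟨X, hX⟩ : ∃ X : ℝ, X = D / (|τ| * σ) := ⟨_, rfl⟩
  have hX0 : 0 < X := by rw [hX]; positivity
  have heq : ∀ h ∈ Set.Ioc 0 c, C * R * D * (D / (|τ| * (σ * h / (2 * D)))) ^ κ =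
      C * R * D * (X * (2 * D)) ^ κ * h ^ (-κ) := by
    intro h hh
    have hh0 : 0 < h := hh.1
    have e1 : D / (|τ| * (σ * h / (2 * D))) = (X * (2 * D)) * h⁻¹ := by
      rw [hX]
      field_simp
    rw [e1, Real.mul_rpow (by positivity) (by positivity), Real.rpow_neg hh0.le,
      Real.inv_rpow hh0.le]
    ring
  have hint : IntegrableOn (fun h : ℝ => h ^ (-κ)) (Set.Ioc 0 c) := by
    have h1 := intervalIntegral.intervalIntegrable_rpow' (a := 0) (b := c) (r := -κ) (by linarith)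
    rwa [intervalIntegrable_iff_integrableOn_Ioc_of_le hc] at h1
  constructor
  · exact (integrableOn_congr_fun heq measurableSet_Ioc).2 (hint.const_mul _)
  · rw [setIntegral_congr_fun measurableSet_Ioc heq, integral_const_mul,
      ← intervalIntegral.integral_of_le hc, integral_rpow (Or.inl (by linarith)),
      Real.zero_rpow (by linarith), sub_zero]
    have h1 : c ^ (-κ + 1) / (-κ + 1) ≤ 2 * D ^ (1 - κ) := by
      rw [div_le_iff₀ (by linarith)]
      have h2 : c ^ (-κ + 1) ≤ D ^ (1 - κ) := by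
        have h3 : -κ + 1 = 1 - κ := by ring
        rw [h3]
        exact Real.rpow_le_rpow hc hcD (by linarith)
      have h3 : 0 ≤ D ^ (1 - κ) := by positivity
      nlinarith
    have h2 : (X * (2 * D)) ^ κ ≤ 2 * X ^ κ * D ^ κ := by
      rw [Real.mul_rpow hX0.le (by positivity), Real.mul_rpow (by norm_num) hD.le]
      have h3 : (2 : ℝ) ^ κ ≤ 2 := by
        calc (2 : ℝ) ^ κ ≤ (2 : ℝ) ^ (1 : ℝ) :=
              Real.rpow_le_rpow_of_exponent_le (by norm_num) (by linarith)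
          _ = 2 := Real.rpow_one 2
      have h4 : 0 ≤ X ^ κ * D ^ κ := by positivity
      nlinarith
    have h3 : D ^ κ * D ^ (1 - κ) = D := by
      rw [← Real.rpow_add hD]
      have : κ + (1 - κ) = 1 := by ring
      rw [this, Real.rpow_one]
    have h4 : 0 ≤ C * R * D := by positivity
    have h5 : 0 ≤ c ^ (-κ + 1) / (-κ + 1) :=
      div_nonneg (Real.rpow_nonneg hc _) (by linarith)
    calc C * R * D * (X * (2 * D)) ^ κ * (c ^ (-κ + 1) / (-κ + 1))
        ≤ C * R * D * (2 * X ^ κ * D ^ κ) * (2 * D ^ (1 - κ)) := by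
          refine mul_le_mul (mul_le_mul_of_nonneg_left h2 h4) h1 h5 ?_
          positivity
      _ = 4 * C * R * D * X ^ κ * (D ^ κ * D ^ (1 - κ)) := by ring
      _ = 4 * C * R * D ^ 2 * X ^ κ := by rw [h3]; ring
      _ = _ := by rw [hX]

theorem vdcG (k : ℕ) (hk : 1 ≤ k) : ∃ C : ℝ, 0 < C ∧ ∀ (R D σ τ a b : ℝ) (w : ℝ → ℝ), 0 < R →
    0 < D → 0 < σ → τ ≠ 0 → D ≤ a → b ≤ 2 * D → Wt w D σ → ∀ (B : Fin k → ℝ → ℂ), Fam B R →
      ∀ α : Fin k → ℝ,
        ‖∫ u in Set.Icc a b, ∫ x, (∏ i, B i (x + α i * u)) * ex (τ * lapk 0 w u)‖ ≤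
          C * R * D * (D / (|τ| * σ)) ^ ((1 / 2 : ℝ) ^ k) := by
  induction k, hk using Nat.le_induction with
  | base =>
    refine ⟨6, by norm_num, ?_⟩
    intro R D σ τ a b w hR hD hσ hτ ha hb hw B hB α
    have h1 : ∀ u : ℝ, ∫ x, (∏ i : Fin 1, B i (x + α i * u)) * ex (τ * lapk 0 w u) =
        (∫ x, B 0 x) * ex (τ * lapk 0 w u) := by
      intro u
      rw [integral_mul_const]
      congr 1
      simp only [Finset.univ_unique, Fin.default_eq_zero, Finset.prod_singleton]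
      exact integral_add_right_eq_self (μ := volume) (fun x => B 0 x) (α 0 * u)
    simp only [h1]
    rw [integral_const_mul, norm_mul]
    have h2 := bas w D σ τ a b hD hσ hτ hw ha hb
    have h3 := base_int R hR B hB
    have h4 : (1 / 2 : ℝ) ^ 1 = (1 : ℝ) / 2 := by norm_num
    rw [h4]
    calc ‖∫ x, B 0 x‖ * ‖∫ u in Set.Icc a b, ex (τ * lapk 0 w u)‖
        ≤ R * (6 * D * (D / (|τ| * σ)) ^ ((1 : ℝ) / 2)) :=
          mul_le_mul h3 h2 (norm_nonneg _) hR.le
      _ = 6 * R * D * (D / (|τ| * σ)) ^ ((1 : ℝ) / 2) := by ring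
  | succ k hk ih =>
    obtain ⟨C, hC, hIH⟩ := ih
    refine ⟨Real.sqrt (8 * C), Real.sqrt_pos.2 (by positivity), ?_⟩
    intro R D σ τ a b w hR hD hσ hτ ha hb hw B hB α
    have hτ' : 0 < |τ| := abs_pos.2 hτ
    rcases lt_or_ge b a with hba | hab
    · rw [Set.Icc_eq_empty (not_le.2 hba)]
      simp only [Measure.restrict_empty, integral_zero_measure, norm_zero]
      positivity
    obtain ⟨κ, hκdef⟩ : ∃ κ : ℝ, κ = (1 / 2 : ℝ) ^ k := ⟨_, rfl⟩
    have hκ : 0 < κ := by rw [hκdef]; positivity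
    have hκ1 : κ ≤ 1 / 2 := by
      rw [hκdef]
      calc (1 / 2 : ℝ) ^ k ≤ (1 / 2 : ℝ) ^ 1 :=
            pow_le_pow_of_le_one (by norm_num) (by norm_num) hk
        _ = 1 / 2 := by norm_num
    obtain ⟨E, hE⟩ : ∃ E : ℝ → ℂ, E = Set.indicator (Set.Ioi 0) (fun u => ex (τ * lapk 0 w u)) :=
      ⟨_, rfl⟩
    have hEpos : ∀ u, 0 < u → E u = ex (τ * lapk 0 w u) := by
      intro u hu
      rw [hE, Set.indicator_of_mem (Set.mem_Ioi.2 hu)]
    have hEmeas : Measurable E := by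
      classical
      rw [hE, ← Set.piecewise_eq_indicator]
      refine ContinuousOn.measurable_piecewise ?_ continuousOn_const measurableSet_Ioi
      exact ex_cont.comp_continuousOn ((lap_cont 0 w D σ hw).const_smul τ)
    have hE1 : ∀ u, ‖E u‖ ≤ 1 := by
      intro u
      rw [hE]
      by_cases hu : u ∈ Set.Ioi (0 : ℝ)
      · rw [Set.indicator_of_mem hu, ex_norm]
      · rw [Set.indicator_of_notMem hu, norm_zero]
        exact zero_le_one
    have hI : ∫ u in Set.Icc a b, ∫ x, (∏ i, B i (x + α i * u)) * ex (τ * lapk 0 w u) =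
        ∫ u in Set.Icc a b, ∫ x, (∏ i, B i (x + α i * u)) * E u := by
      refine setIntegral_congr_fun measurableSet_Icc fun u hu => ?_
      have hu0 : 0 < u := lt_of_lt_of_le hD (ha.trans hu.1)
      simp only [hEpos u hu0]
    rw [hI]
    have hcs := css k hk R a b hR hab E hEmeas hE1 B hB α
    have hbaD : b - a ≤ D := by linarith
    obtain ⟨hgi, hgb⟩ := step_int C R D σ τ κ (b - a) hC hR hD hσ hτ hκ hκ1 (by linarith) hbaD
    rw [integral_Icc_eq_integral_Ioc (x := (0 : ℝ)) (y := b - a)] at hcs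
    have hJ : ∫ h in Set.Ioc 0 (b - a), ‖∫ u in Set.Icc a (b - h), ∫ x,
        (∏ i, Bd B (fun i => α i.castSucc - α (Fin.last k)) h i
          (x + (α i.castSucc - α (Fin.last k)) * u)) *
            (E u * (starRingEnd ℂ) (E (u + h)))‖ ≤
        ∫ h in Set.Ioc 0 (b - a), C * R * D * (D / (|τ| * (σ * h / (2 * D)))) ^ κ := by
      refine integral_mono_of_nonneg (Filter.Eventually.of_forall fun h => norm_nonneg _) hgi ?_
      refine (ae_restrict_iff' measurableSet_Ioc).2 (Filter.Eventually.of_forall fun h hh => ?_)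
      have hh0 : 0 < h := hh.1
      have hhD : h ≤ D := hh.2.trans hbaD
      have hcongr : ∫ u in Set.Icc a (b - h), ∫ x,
          (∏ i, Bd B (fun i => α i.castSucc - α (Fin.last k)) h i
            (x + (α i.castSucc - α (Fin.last k)) * u)) *
              (E u * (starRingEnd ℂ) (E (u + h))) =
          ∫ u in Set.Icc a (b - h), ∫ x,
          (∏ i, Bd B (fun i => α i.castSucc - α (Fin.last k)) h i
            (x + (α i.castSucc - α (Fin.last k)) * u)) *
              ex (τ * lapk 0 (fun v => w v * (1 - Real.exp (-(v * h)))) u) := by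
        refine setIntegral_congr_fun measurableSet_Icc fun u hu => ?_
        have hu0 : 0 < u := lt_of_lt_of_le hD (ha.trans hu.1)
        have e1 : E u * (starRingEnd ℂ) (E (u + h)) =
            ex (τ * lapk 0 (fun v => w v * (1 - Real.exp (-(v * h)))) u) := by
          rw [hEpos u hu0, hEpos (u + h) (by linarith), ex_conj, ← ex_add,
            ← lap_diff w D σ hw u h hu0 hh0.le]
          congr 1
          ring
        simp only [e1]
      simp only
      rw [hcongr, hκdef]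
      exact hIH R D (σ * h / (2 * D)) τ a (b - h) _ hR hD (by positivity) hτ ha (by linarith)
        (wt_diff w D σ hD hσ.le hw h hh0.le hhD) _ (bd_fam B R hB _ h) _
    obtain ⟨X, hX⟩ : ∃ X : ℝ, X = D / (|τ| * σ) := ⟨_, rfl⟩
    have hX0 : 0 < X := by rw [hX]; positivity
    rw [← hX] at hgb ⊢
    have hsq : ‖∫ u in Set.Icc a b, ∫ x, (∏ i, B i (x + α i * u)) * E u‖ ^ 2 ≤
        (Real.sqrt (8 * C) * R * D * X ^ ((1 / 2 : ℝ) ^ (k + 1))) ^ 2 := by
      refine hcs.trans ?_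
      have h1 := mul_le_mul_of_nonneg_left (hJ.trans hgb) (by positivity : 0 ≤ 2 * R)
      refine h1.trans (le_of_eq ?_)
      have h2 : (X ^ ((1 / 2 : ℝ) ^ (k + 1))) ^ 2 = X ^ κ := by
        rw [← Real.rpow_natCast, ← Real.rpow_mul hX0.le, hκdef, pow_succ]
        congr 1
        push_cast
        ring
      rw [mul_pow, mul_pow, mul_pow, h2, Real.sq_sqrt (by positivity)]
      ring
    exact le_of_sq_le_sq hsq (by positivity)

theorem vdc (k : ℕ) (hk : 1 ≤ k) : ∃ C : ℝ, 0 < C ∧ ∀ (R D τ : ℝ), 0 < R → 0 < D → τ ≠ 0 →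
    ∀ (B : Fin k → ℝ → ℂ), Fam B R → ∀ α : Fin k → ℝ,
      ‖∫ u in Set.Icc D (2 * D), ∫ x, (∏ i, B i (x + α i * u)) * ex (τ / u)‖ ≤
        C * R * D * (D / |τ|) ^ ((1 / 2 : ℝ) ^ k) := by
  obtain ⟨C, hC, h⟩ := vdcG k hk
  refine ⟨C, hC, ?_⟩
  intro R D τ hR hD hτ B hB α
  have h1 := h R D 1 τ D (2 * D) (fun _ => 1) hR hD one_pos hτ le_rfl le_rfl (wt_one D) B hB α
  rw [mul_one] at h1
  have h2 : ∫ u in Set.Icc D (2 * D), ∫ x, (∏ i, B i (x + α i * u)) * ex (τ / u) =
      ∫ u in Set.Icc D (2 * D), ∫ x, (∏ i, B i (x + α i * u)) *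
        ex (τ * lapk 0 (fun _ => (1 : ℝ)) u) := by
    refine setIntegral_congr_fun measurableSet_Icc fun u hu => ?_
    have hu0 : 0 < u := lt_of_lt_of_le hD hu.1
    have e1 : τ / u = τ * lapk 0 (fun _ => (1 : ℝ)) u := by
      rw [lap_one u hu0]
      ring
    simp only [e1]
  rw [h2]
  exact h1

end Pool.Agent.AES
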