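import Pool.Agent.AES.SpA
import Pool.Agent.AES.Vdc

/-!
# AES-Spec: high frequencies of products of rows

PLAN.  For fixed `u, x` put `P(Y) = ∏_i f(x + α_i u, Y) 1_{[c, c+5D]}(Y)`, real valued, `0 ≤ P ≤ 1`.
`‖∫_Y P(Y) e(-Y t/u)‖² = Re ∫_Y ∫_{Y'} P(Y) P(Y') e((Y' - Y) t/u)`.  All integrands are bounded, jointly
measurable and vanish outside a bounded set (`x + α₀ u ∈ [0,R]`), so by Fubini the left side is
`Re ∫_{Y,Y' ∈ [c,c+5D]} I(Y,Y')`, `I(Y,Y') = ∫_{u ∈ [D,2D]} ∫_x ∏_i B_i(x + α_i u) e(τ/u)`,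
`B_i(z) = f(z,Y) f(z,Y')` (complex valued; a `Fam` with the same `R`), `τ = (Y' - Y) t ≠ 0` for
`Y ≠ Y'`.  By `vdc n`: `‖I(Y,Y')‖ ≤ C R D (D/(|Y-Y'| |t|))^κ`, `κ = (1/2)^n ≤ 1/2`, and `spA` with
`l = 5D`: total `≤ C R D · D^κ |t|^(-κ) · 4 (5D)^(2-κ) ≤ 100 C R D³ |t|^(-κ)`
(`5^(2-κ) ≤ 25`, `D^κ D^(2-κ) = D²`).
-/

set_option autoImplicit false

open MeasureTheory

namespace Pool.Agent.AES

private theorem sp_add (x y : ℝ) : ex (x + y) = ex x * ex y := by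
  unfold ex
  rw [← Complex.exp_add]
  refine congrArg Complex.exp ?_
  push_cast
  ring

private theorem sp_norm (x : ℝ) : ‖ex x‖ = 1 := by
  unfold ex
  exact Complex.norm_exp_ofReal_mul_I _

private theorem sp_conj (x : ℝ) : (starRingEnd ℂ) (ex x) = ex (-x) := by
  unfold ex
  rw [← Complex.exp_conj, map_mul, Complex.conj_ofReal, Complex.conj_I]
  refine congrArg Complex.exp ?_
  push_cast
  ring

private theorem sp_exm : Measurable ex := by
  have h : Continuous ex := by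
    unfold ex
    fun_prop
  exact h.measurable

/-- the function of one row -/
private noncomputable def spG {n : ℕ} (f : ℝ → ℝ → ℝ) (α : Fin n → ℝ) (t : ℝ) (w : ℝ × ℝ) (Y : ℝ) : ℂ :=
  ((∏ i, f (w.2 + α i * w.1) Y : ℝ) : ℂ) * ex (-(Y * (t / w.1)))

/-- the functions of the multilinear form -/
private noncomputable def spB {n : ℕ} (f : ℝ → ℝ → ℝ) (z : ℝ × ℝ) (_ : Fin n) (r : ℝ) : ℂ :=
  (f r z.1 : ℂ) * (f r z.2 : ℂ)

private theorem sp_fam {n : ℕ} {f : ℝ → ℝ → ℝ} {R : ℝ} (hf : Bx f R) (z : ℝ × ℝ) :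
    Fam (spB (n := n) f z) R where
  meas i := by
    unfold spB
    have h1 : ∀ y : ℝ, Measurable fun r : ℝ => (f r y : ℂ) := fun y =>
      Complex.measurable_ofReal.comp (hf.meas.comp (measurable_id.prodMk measurable_const))
    exact (h1 _).mul (h1 _)
  le_one i x := by
    unfold spB
    rw [norm_mul, Complex.norm_real, Complex.norm_real, Real.norm_eq_abs, Real.norm_eq_abs,
      abs_of_nonneg (hf.nonneg _ _), abs_of_nonneg (hf.nonneg _ _)]
    exact mul_le_one₀ (hf.le_one _ _) (hf.nonneg _ _) (hf.le_one _ _)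
  zero i x hx := by
    unfold spB
    have h1 : f x z.1 = 0 := hf.zero _ _ (by rcases hx with h | h <;> tauto)
    rw [h1, Complex.ofReal_zero, zero_mul]

private theorem sp_G_mul {n : ℕ} (f : ℝ → ℝ → ℝ) (α : Fin n → ℝ) (t : ℝ) (w z : ℝ × ℝ) :
    spG f α t w z.1 * (starRingEnd ℂ) (spG f α t w z.2) =
      (∏ i, spB f z i (w.2 + α i * w.1)) * ex (((z.2 - z.1) * t) / w.1) := by
  unfold spG spB
  rw [map_mul, Complex.conj_ofReal, sp_conj, Finset.prod_mul_distrib, Complex.ofReal_prod, Complex.ofReal_prod]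
  have h1 : ((z.2 - z.1) * t) / w.1 = -(z.1 * (t / w.1)) + -(-(z.2 * (t / w.1))) := by ring
  rw [h1, sp_add]
  ring

private theorem sp_ft {n : ℕ} (f : ℝ → ℝ → ℝ) (α : Fin n → ℝ) (c l t u x : ℝ) :
    ft (fun Y => (((∏ i, f (x + α i * u) Y) *
        Set.indicator (Set.Icc c (c + l)) (fun _ => (1 : ℝ)) Y : ℝ) : ℂ)) (t / u) =
      ∫ Y in Set.Icc c (c + l), spG f α t (u, x) Y := by
  unfold ft
  rw [← integral_indicator measurableSet_Icc]
  refine integral_congr_ae (Filter.Eventually.of_forall fun Y => ?_)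
  show (((∏ i, f (x + α i * u) Y) * Set.indicator (Set.Icc c (c + l)) (fun _ => (1 : ℝ)) Y : ℝ) : ℂ) *
    ex (-(Y * (t / u))) = _
  by_cases hY : Y ∈ Set.Icc c (c + l)
  · rw [Set.indicator_of_mem hY, Set.indicator_of_mem hY, mul_one]
    rfl
  · rw [Set.indicator_of_notMem hY, Set.indicator_of_notMem hY, mul_zero, Complex.ofReal_zero, zero_mul]

private theorem sp_sq (μ : Measure ℝ) [SFinite μ] (G : ℝ → ℂ) :
    ((‖∫ Y, G Y ∂μ‖ ^ 2 : ℝ) : ℂ) = ∫ z, G z.1 * (starRingEnd ℂ) (G z.2) ∂(μ.prod μ) := by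
  have h1 := integral_prod_mul (μ := μ) (ν := μ) G (fun y => (starRingEnd ℂ) (G y))
  rw [h1, integral_conj, Complex.mul_conj, Complex.normSq_eq_norm_sq]

private theorem sp_diag (μ : Measure ℝ) [SFinite μ] [NullSingletonClass μ] : ∀ᵐ z ∂(μ.prod μ), z.1 ≠ z.2 := by
  have hm : MeasurableSet {z : ℝ × ℝ | z.1 = z.2} := measurableSet_eq_fun measurable_fst measurable_snd
  have h0 : (μ.prod μ) {z : ℝ × ℝ | z.1 = z.2} = 0 := by
    rw [Measure.measure_prod_null hm]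
    refine Filter.Eventually.of_forall fun x => ?_
    have h1 : Prod.mk x ⁻¹' {z : ℝ × ℝ | z.1 = z.2} = {x} := by
      ext y
      simp [eq_comm]
    show μ (Prod.mk x ⁻¹' {z : ℝ × ℝ | z.1 = z.2}) = 0
    rw [h1]
    exact measure_singleton x
  rw [ae_iff]
  have h2 : {z : ℝ × ℝ | ¬ z.1 ≠ z.2} = {z : ℝ × ℝ | z.1 = z.2} := by
    ext z
    simp
  rw [h2]
  exact h0

private theorem sp_int {n : ℕ} (hn : 1 ≤ n) {f : ℝ → ℝ → ℝ} {R : ℝ} (hf : Bx f R) (α : Fin n → ℝ) (t : ℝ)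
    (ν μ : Measure ℝ) [IsFiniteMeasure ν] [IsFiniteMeasure μ] :
    Integrable (fun q : (ℝ × ℝ) × (ℝ × ℝ) => (∏ i, spB f q.2 i (q.1.2 + α i * q.1.1)) * ex (((q.2.2 - q.2.1) * t) / q.1.1))
      ((ν.prod volume).prod (μ.prod μ)) := by
  obtain ⟨i0⟩ : Nonempty (Fin n) := ⟨⟨0, hn⟩⟩
  obtain ⟨E, hE⟩ : ∃ E : Set (ℝ × ℝ), E = {w : ℝ × ℝ | w.2 + α i0 * w.1 ∈ Set.Icc 0 R} := ⟨_, rfl⟩
  have hEm : MeasurableSet E := by
    rw [hE]
    have h1 : Measurable fun w : ℝ × ℝ => w.2 + α i0 * w.1 := by fun_prop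
    exact h1 measurableSet_Icc
  have hWE : (ν.prod volume) E < ⊤ := by
    rw [Measure.prod_apply hEm]
    have h1 : ∀ u : ℝ, volume (Prod.mk u ⁻¹' E) = ENNReal.ofReal R := by
      intro u
      have h2 : Prod.mk u ⁻¹' E = Set.Icc (-(α i0 * u)) (R - α i0 * u) := by
        ext x
        rw [hE]
        simp only [Set.mem_preimage, Set.mem_ofPred_eq, Set.mem_Icc]
        constructor
        · rintro ⟨h3, h4⟩
          exact ⟨by linarith, by linarith⟩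
        · rintro ⟨h3, h4⟩
          exact ⟨by linarith, by linarith⟩
      rw [h2, Real.volume_Icc]
      refine congrArg ENNReal.ofReal ?_
      ring
    rw [lintegral_congr h1, lintegral_const]
    exact ENNReal.mul_lt_top ENNReal.ofReal_lt_top (measure_lt_top _ _)
  have hg1 : Integrable (E.indicator (fun _ => (1 : ℝ))) (ν.prod volume) :=
    (integrable_indicator_iff hEm).2 (integrableOn_const (hs := hWE.ne))
  have hg : Integrable (fun q : (ℝ × ℝ) × (ℝ × ℝ) => E.indicator (fun _ => (1 : ℝ)) q.1 * (fun _ => (1 : ℝ)) q.2)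
      ((ν.prod volume).prod (μ.prod μ)) := hg1.mul_prod (integrable_const 1)
  refine hg.mono' ?_ (Filter.Eventually.of_forall fun q => ?_)
  · have hm : Measurable fun q : (ℝ × ℝ) × (ℝ × ℝ) =>
        (∏ i, spB f q.2 i (q.1.2 + α i * q.1.1)) * ex (((q.2.2 - q.2.1) * t) / q.1.1) := by
      refine Measurable.mul ?_ ?_
      · refine Finset.measurable_prod _ fun i _ => ?_
        unfold spB
        have h1 : Measurable fun q : (ℝ × ℝ) × (ℝ × ℝ) => (f (q.1.2 + α i * q.1.1) q.2.1 : ℂ) := by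
          refine Complex.measurable_ofReal.comp ?_
          have h2 : Measurable fun q : (ℝ × ℝ) × (ℝ × ℝ) => (q.1.2 + α i * q.1.1, q.2.1) := by fun_prop
          exact hf.meas.comp h2
        have h1' : Measurable fun q : (ℝ × ℝ) × (ℝ × ℝ) => (f (q.1.2 + α i * q.1.1) q.2.2 : ℂ) := by
          refine Complex.measurable_ofReal.comp ?_
          have h2 : Measurable fun q : (ℝ × ℝ) × (ℝ × ℝ) => (q.1.2 + α i * q.1.1, q.2.2) := by fun_prop
          exact hf.meas.comp h2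
        exact h1.mul h1'
      · refine sp_exm.comp ?_
        fun_prop
    exact hm.aestronglyMeasurable
  · show ‖(∏ i, spB f q.2 i (q.1.2 + α i * q.1.1)) * ex (((q.2.2 - q.2.1) * t) / q.1.1)‖ ≤
      E.indicator (fun _ => (1 : ℝ)) q.1 * 1
    rw [norm_mul, sp_norm, mul_one, mul_one, norm_prod]
    by_cases hq : q.1 ∈ E
    · rw [Set.indicator_of_mem hq]
      exact Finset.prod_le_one (fun i _ => norm_nonneg _) fun i _ => (sp_fam hf q.2).le_one i _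
    · rw [Set.indicator_of_notMem hq]
      have h1 : spB f q.2 i0 (q.1.2 + α i0 * q.1.1) = 0 := by
        apply (sp_fam hf q.2).zero i0
        by_contra hcon
        apply hq
        rw [hE]
        rw [not_or, not_lt, not_lt] at hcon
        exact hcon
      rw [Finset.prod_eq_zero (Finset.mem_univ i0) (by rw [h1, norm_zero])]

theorem spec (n : ℕ) (hn : 1 ≤ n) : ∃ C : ℝ, 0 < C ∧ ∀ (R D : ℝ), 0 < R → 0 < D →
    ∀ f : ℝ → ℝ → ℝ, Bx f R → ∀ (α : Fin n → ℝ) (c t : ℝ), t ≠ 0 →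
      ∫ u in Set.Icc D (2 * D), ∫ x, ‖ft (fun Y => (((∏ i, f (x + α i * u) Y) *
        Set.indicator (Set.Icc c (c + 5 * D)) (fun _ => (1 : ℝ)) Y : ℝ) : ℂ)) (t / u)‖ ^ 2 ≤
        C * R * D ^ 3 * |t| ^ (-((1 / 2 : ℝ) ^ n)) := by
  obtain ⟨C, hC, hvdc⟩ := vdc n hn
  refine ⟨100 * C, by positivity, ?_⟩
  intro R D hR hD f hf α c t ht
  obtain ⟨κ, hκ⟩ : ∃ κ : ℝ, κ = (1 / 2 : ℝ) ^ n := ⟨_, rfl⟩
  rw [← hκ]
  have hκ0 : 0 < κ := by rw [hκ]; positivity
  have hκ1 : κ ≤ 1 / 2 := by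
    rw [hκ]
    calc (1 / 2 : ℝ) ^ n ≤ (1 / 2) ^ 1 := pow_le_pow_of_le_one (by norm_num) (by norm_num) hn
      _ = 1 / 2 := by norm_num
  have ht' : 0 < |t| := abs_pos.2 ht
  obtain ⟨hs1, hs2⟩ := spA c (5 * D) κ (by positivity) hκ0 hκ1
  obtain ⟨μ, hμ⟩ : ∃ μ : Measure ℝ, μ = volume.restrict (Set.Icc c (c + 5 * D)) := ⟨_, rfl⟩
  obtain ⟨ν, hν⟩ : ∃ ν : Measure ℝ, ν = volume.restrict (Set.Icc D (2 * D)) := ⟨_, rfl⟩
  have : IsFiniteMeasure μ := by rw [hμ]; infer_instance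
  have : IsFiniteMeasure ν := by rw [hν]; infer_instance
  have : NullSingletonClass μ := by rw [hμ]; infer_instance
  have hint := sp_int hn hf α t ν μ
  -- the left side as a complex number
  have hL : ((∫ u in Set.Icc D (2 * D), ∫ x, ‖ft (fun Y => (((∏ i, f (x + α i * u) Y) *
        Set.indicator (Set.Icc c (c + 5 * D)) (fun _ => (1 : ℝ)) Y : ℝ) : ℂ)) (t / u)‖ ^ 2 : ℝ) : ℂ) =
      ∫ z, (∫ w, (∏ i, spB f z i (w.2 + α i * w.1)) * ex (((z.2 - z.1) * t) / w.1) ∂(ν.prod volume)) ∂(μ.prod μ) := by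
    rw [← hν, ← integral_complex_ofReal]
    have h1 : ∀ u : ℝ, (((∫ x, ‖ft (fun Y => (((∏ i, f (x + α i * u) Y) *
        Set.indicator (Set.Icc c (c + 5 * D)) (fun _ => (1 : ℝ)) Y : ℝ) : ℂ)) (t / u)‖ ^ 2 : ℝ)) : ℂ) =
        ∫ x, ∫ z, (∏ i, spB f z i ((u, x).2 + α i * (u, x).1)) * ex (((z.2 - z.1) * t) / (u, x).1) ∂(μ.prod μ) := by
      intro u
      rw [← integral_complex_ofReal]
      refine integral_congr_ae (Filter.Eventually.of_forall fun x => ?_)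
      show (((‖ft (fun Y => (((∏ i, f (x + α i * u) Y) *
        Set.indicator (Set.Icc c (c + 5 * D)) (fun _ => (1 : ℝ)) Y : ℝ) : ℂ)) (t / u)‖ ^ 2 : ℝ)) : ℂ) = _
      rw [sp_ft, ← hμ, sp_sq]
      refine integral_congr_ae (Filter.Eventually.of_forall fun z => ?_)
      exact sp_G_mul f α t (u, x) z
    rw [integral_congr_ae (Filter.Eventually.of_forall h1)]
    have h2 := integral_prod (fun w : ℝ × ℝ => ∫ z, (∏ i, spB f z i (w.2 + α i * w.1)) *
      ex (((z.2 - z.1) * t) / w.1) ∂(μ.prod μ)) hint.integral_prod_left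
    rw [← h2]
    exact integral_integral_swap hint
  have hnn : 0 ≤ ∫ u in Set.Icc D (2 * D), ∫ x, ‖ft (fun Y => (((∏ i, f (x + α i * u) Y) *
        Set.indicator (Set.Icc c (c + 5 * D)) (fun _ => (1 : ℝ)) Y : ℝ) : ℂ)) (t / u)‖ ^ 2 :=
    integral_nonneg fun u => integral_nonneg fun x => by positivity
  have hnorm : (∫ u in Set.Icc D (2 * D), ∫ x, ‖ft (fun Y => (((∏ i, f (x + α i * u) Y) *
        Set.indicator (Set.Icc c (c + 5 * D)) (fun _ => (1 : ℝ)) Y : ℝ) : ℂ)) (t / u)‖ ^ 2) =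
      ‖∫ z, (∫ w, (∏ i, spB f z i (w.2 + α i * w.1)) * ex (((z.2 - z.1) * t) / w.1) ∂(ν.prod volume)) ∂(μ.prod μ)‖ := by
    rw [← hL, Complex.norm_real, Real.norm_eq_abs, abs_of_nonneg hnn]
  rw [hnorm]
  rw [← hμ] at hs1 hs2
  have hg2 : Integrable (fun z : ℝ × ℝ => C * R * D * (D ^ κ * |t| ^ (-κ)) * |z.1 - z.2| ^ (-κ)) (μ.prod μ) :=
    hs1.const_mul _
  have hae : ∀ᵐ z ∂(μ.prod μ), ‖∫ w, (∏ i, spB f z i (w.2 + α i * w.1)) * ex (((z.2 - z.1) * t) / w.1) ∂(ν.prod volume)‖ ≤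
      C * R * D * (D ^ κ * |t| ^ (-κ)) * |z.1 - z.2| ^ (-κ) := by
    filter_upwards [sp_diag μ, hint.prod_left_ae] with z hz hzi
    have hτ : (z.2 - z.1) * t ≠ 0 := mul_ne_zero (sub_ne_zero.2 (Ne.symm hz)) ht
    have h1 := hvdc R D ((z.2 - z.1) * t) hR hD hτ (spB f z) (sp_fam hf z) α
    rw [← hκ, ← hν] at h1
    have h2 := integral_prod (fun w : ℝ × ℝ => (∏ i, spB f z i (w.2 + α i * w.1)) *
      ex (((z.2 - z.1) * t) / w.1)) hzi
    rw [h2]
    refine h1.trans (le_of_eq ?_)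
    have h3 : 0 < |z.1 - z.2| := abs_pos.2 (sub_ne_zero.2 hz)
    have h4 : |(z.2 - z.1) * t| = |z.1 - z.2| * |t| := by
      rw [abs_mul, abs_sub_comm]
    rw [h4, Real.div_rpow hD.le (by positivity), Real.mul_rpow h3.le ht'.le, Real.rpow_neg ht'.le,
      Real.rpow_neg h3.le]
    have h5 : 0 < |z.1 - z.2| ^ κ := Real.rpow_pos_of_pos h3 _
    have h6 : 0 < |t| ^ κ := Real.rpow_pos_of_pos ht' _
    field_simp
  refine (norm_integral_le_of_norm_le hg2 hae).trans ?_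
  rw [integral_const_mul, integral_prod _ hs1]
  have hpos : 0 ≤ C * R * D * (D ^ κ * |t| ^ (-κ)) := by positivity
  refine (mul_le_mul_of_nonneg_left hs2 hpos).trans ?_
  have e1 : (5 * D) ^ (2 - κ) = 5 ^ (2 - κ) * D ^ (2 - κ) := Real.mul_rpow (by norm_num) hD.le
  have e2 : (5 : ℝ) ^ (2 - κ) ≤ 25 := by
    calc (5 : ℝ) ^ (2 - κ) ≤ 5 ^ (2 : ℝ) := Real.rpow_le_rpow_of_exponent_le (by norm_num) (by linarith)
      _ = 25 := by norm_num
  have e3 : D ^ κ * D ^ (2 - κ) = D ^ 2 := by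
    rw [← Real.rpow_add hD]
    have : κ + (2 - κ) = (2 : ℝ) := by ring
    rw [this]
    norm_num
  have hT : 0 ≤ |t| ^ (-κ) := by positivity
  have hD2 : 0 ≤ D ^ (2 - κ) := by positivity
  calc C * R * D * (D ^ κ * |t| ^ (-κ)) * (4 * (5 * D) ^ (2 - κ))
      = (4 * C * R * D * |t| ^ (-κ) * (D ^ κ * D ^ (2 - κ))) * 5 ^ (2 - κ) := by rw [e1]; ring
    _ = (4 * C * R * D * |t| ^ (-κ) * D ^ 2) * 5 ^ (2 - κ) := by rw [e3]
    _ ≤ (4 * C * R * D * |t| ^ (-κ) * D ^ 2) * 25 := mul_le_mul_of_nonneg_left e2 (by positivity)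
    _ = 100 * C * R * D ^ 3 * |t| ^ (-κ) := by ring

end Pool.Agent.AES
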