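import Pool.Agent.AES.Defs
import Pool.Agent.Helper52.NG.Ker

/-!
# AES-StQ: the quantitative step lemma

PLAN.  This is the proof of `Helper52.NG.step` (file `Pool/Agent/Helper52/NG/Ker.lean`); copy it up
to the point where `h2` (the second application of `mixed`) has been obtained:
`(1 - 12 r κ') · QX c L L ≤ ∑_t ∑_v ∏_q ee …`, with `12 r κ' ≤ 1/2`.  Then
`QX c L L ≥ QX c L (ML) / M^(2r)` (`mono2`) `≥ (1 - 12 r κ) X(L, ML)/M^(2r)` (`h1'`)
`≥ (1 - 12 r κ) X(ML, ML)/M^(4r)` (`hX1`), and `(1/2)(1 - 12/20000) ≥ 1/4`.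
-/

set_option autoImplicit false

open Finset

namespace Pool.Agent.AES

open Pool.Agent.Helper52.NG

theorem stepQ {G : Type*} [AddCommGroup G] [Fintype G] {A : G → G → ℝ} (hA : ∀ u v, 0 ≤ A u v)
    (e : G) (r M L : ℕ) (hr : 0 < r) (hM : 0 < M) (κ : ℝ) (hκ : 0 < κ)
    (hκ2 : κ * (20000 * (r : ℝ) ^ 3) ≤ 1)
    (hpos : 0 < QX A e (0 : Fin (2 * r) → G) (M * L) (M * L))
    (hH : QX A e (0 : Fin (2 * r) → G) L L ≤
      (1 + κ ^ 2) * QX A e (0 : Fin (2 * r) → G) (M * L) (M * L) / (M : ℝ) ^ (2 * (2 * r)))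
    (a b : Fin (2 * r) → ℕ) (ha : ∀ i, 2 * a i ≤ M) (hb : ∀ i, 2 * b i ≤ M) :
    QX A e (0 : Fin (2 * r) → G) (M * L) (M * L) / (4 * (M : ℝ) ^ (2 * (2 * r))) ≤
      ∑ t ∈ (univ : Finset G) ×ˢ Wd (2 * r) L, ∑ v,
        ∏ q, ee A e L (v + b q • (L • e)) (fun p => t.1 + a p • (L • e) + t.2 p • e) := by
  have hn : 0 < 2 * r := by omega
  have hr1 : (1 : ℝ) ≤ r := by exact_mod_cast hr
  have hMn : (0 : ℝ) < (M : ℝ) ^ (2 * r) := by positivity
  have hMn2 : (M : ℝ) ^ (2 * (2 * r)) = (M : ℝ) ^ (2 * r) * (M : ℝ) ^ (2 * r) := by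
    rw [two_mul (2 * r), pow_add]
  set X : ℕ → ℕ → ℝ := fun L K => QX A e (0 : Fin (2 * r) → G) L K with hX
  set c : Fin (2 * r) → G := fun p => a p • (L • e) with hc
  -- numerical facts
  have hr3 : (1 : ℝ) ≤ (r : ℝ) ^ 3 := one_le_pow₀ hr1
  have hr2 : (r : ℝ) ≤ (r : ℝ) ^ 3 := le_self_pow₀ hr1 (by norm_num)
  have hκs : κ ≤ 1 / 20000 := by nlinarith
  have hrκ : 12 * r * κ ≤ 12 / 20000 := by nlinarith
  have hden : 0 < 1 - 12 * (r : ℝ) * κ := by linarith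
  obtain ⟨κ', hκ'⟩ : ∃ κ' : ℝ, κ' = Real.sqrt ((κ ^ 2 + 12 * r * κ) / (1 - 12 * r * κ)) := ⟨_, rfl⟩
  have hfrac : 0 < (κ ^ 2 + 12 * r * κ) / (1 - 12 * r * κ) := by positivity
  have hκ'0 : 0 < κ' := by rw [hκ']; exact Real.sqrt_pos.2 hfrac
  have hκ'2 : κ' ^ 2 = (κ ^ 2 + 12 * r * κ) / (1 - 12 * r * κ) := by
    rw [hκ', Real.sq_sqrt hfrac.le]
  have hκ'3 : 1 + κ' ^ 2 = (1 + κ ^ 2) / (1 - 12 * r * κ) := by
    rw [hκ'2, eq_div_iff hden.ne', add_mul, div_mul_cancel₀ _ hden.ne']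
    ring
  have hκ'4 : 12 * r * κ' ≤ 1 / 2 := by
    have h1 : (12 * r * κ') ^ 2 ≤ (1 / 2) ^ 2 := by
      rw [mul_pow, hκ'2, mul_div_assoc', div_le_iff₀ hden]
      have h2 : κ ^ 2 ≤ r * κ := by nlinarith
      have h3 : (12 * (r : ℝ)) ^ 2 * (κ ^ 2 + 12 * r * κ) ≤ 144 * 13 * ((r : ℝ) ^ 3 * κ) := by
        nlinarith [mul_le_mul_of_nonneg_left h2 (sq_nonneg (r : ℝ))]
      nlinarith
    exact le_of_sq_le_sq h1 (by norm_num)
  -- first direction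
  have hX0 : 0 < X (M * L) (M * L) := hpos
  have hX1 : X (M * L) (M * L) ≤ (M : ℝ) ^ (2 * r) * X L (M * L) := mono1 hA e (2 * r) M L (M * L) hM
  have hX2 : X L (M * L) ≤ (M : ℝ) ^ (2 * r) * X L L := mono2 hA e 0 M L L hM
  have hX3 : X L L ≤ (1 + κ ^ 2) * X (M * L) (M * L) / (M : ℝ) ^ (2 * (2 * r)) := hH
  rw [hMn2, ← div_div] at hX3
  have hX4 : X L (M * L) ≤ (1 + κ ^ 2) * (X (M * L) (M * L) / (M : ℝ) ^ (2 * r)) := by
    refine hX2.trans ?_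
    have h1 := mul_le_mul_of_nonneg_left hX3 hMn.le
    refine h1.trans (le_of_eq ?_)
    field_simp
  have hXL : 0 < X L (M * L) := by
    by_contra hcon
    push Not at hcon
    nlinarith
  have h1 := mixed ((univ : Finset G) ×ˢ Wd (2 * r) (M * L))
    (fun t u => ff A e L u (fun q => t.1 + t.2 q • e)) (fun t u => ff_nonneg hA _ _ _ _) (L • e)
    r M hr hM κ hκ (by
      rw [QX_avg, ← QX_zero]
      exact hX4) a ha
  rw [← QX_zero] at h1
  have h1' : (1 - 12 * r * κ) * X L (M * L) ≤ QX A e c L (M * L) := h1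
  -- second direction
  have hQ0 : 0 < QX A e c L (M * L) := lt_of_lt_of_le (mul_pos hden hXL) h1'
  have hQ1 : QX A e c L L ≤ (1 + κ' ^ 2) * (QX A e c L (M * L) / (M : ℝ) ^ (2 * r)) := by
    have s1 : QX A e c L L ≤ X L L := upper hA e hn c L L
    have s2 : X (M * L) (M * L) / (M : ℝ) ^ (2 * r) ≤ X L (M * L) := by
      rw [div_le_iff₀' hMn]
      exact hX1
    have s3 : X L (M * L) ≤ QX A e c L (M * L) / (1 - 12 * r * κ) := by
      rw [le_div_iff₀' hden]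
      exact h1'
    have s4 : X L L ≤ (1 + κ ^ 2) * (X (M * L) (M * L) / (M : ℝ) ^ (2 * r)) / (M : ℝ) ^ (2 * r) := by
      refine hX3.trans (le_of_eq ?_)
      ring
    have s5 : (1 + κ ^ 2) * (X (M * L) (M * L) / (M : ℝ) ^ (2 * r)) / (M : ℝ) ^ (2 * r) ≤
        (1 + κ ^ 2) * (QX A e c L (M * L) / (1 - 12 * r * κ)) / (M : ℝ) ^ (2 * r) := by
      refine div_le_div_of_nonneg_right ?_ hMn.le
      exact mul_le_mul_of_nonneg_left (s2.trans s3) (by positivity)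
    refine (s1.trans s4).trans (s5.trans (le_of_eq ?_))
    rw [hκ'3]
    field_simp
  have h2 := mixed ((univ : Finset G) ×ˢ Wd (2 * r) L)
    (fun t v => ee A e L v (fun p => t.1 + c p + t.2 p • e)) (fun t u => ee_nonneg hA _ _ _ _)
    (L • e) r M hr hM κ' hκ'0 (by
      rw [QY_avg, ← QX_eq_QY]
      have : ∑ t ∈ (univ : Finset G) ×ˢ Wd (2 * r) L, ∑ v,
          ee A e L v (fun p => t.1 + c p + t.2 p • e) ^ (2 * r) = QX A e c L L := by
        rw [QX_eq_QY]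
        rfl
      rw [this]
      exact hQ1) b hb
  have hS2 : ∑ t ∈ (univ : Finset G) ×ˢ Wd (2 * r) L, ∑ v,
      ee A e L v (fun p => t.1 + c p + t.2 p • e) ^ (2 * r) = QX A e c L L := by
    rw [QX_eq_QY]
    rfl
  rw [hS2] at h2
  have h4 := mono2 hA e c M L L hM
  have h5 : X (M * L) (M * L) * (1 - 12 * r * κ) ≤
      ((M : ℝ) ^ (2 * r) * (M : ℝ) ^ (2 * r)) * QX A e c L L := by
    calc X (M * L) (M * L) * (1 - 12 * r * κ)
        ≤ ((M : ℝ) ^ (2 * r) * X L (M * L)) * (1 - 12 * r * κ) :=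
          mul_le_mul_of_nonneg_right hX1 hden.le
      _ = (M : ℝ) ^ (2 * r) * ((1 - 12 * r * κ) * X L (M * L)) := by ring
      _ ≤ (M : ℝ) ^ (2 * r) * ((M : ℝ) ^ (2 * r) * QX A e c L L) :=
          mul_le_mul_of_nonneg_left (h1'.trans h4) hMn.le
      _ = ((M : ℝ) ^ (2 * r) * (M : ℝ) ^ (2 * r)) * QX A e c L L := by ring
  have hMM : 0 < (M : ℝ) ^ (2 * r) * (M : ℝ) ^ (2 * r) := mul_pos hMn hMn
  have hQL : 0 ≤ QX A e c L L := by
    by_contra hcon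
    push Not at hcon
    have h8 := mul_pos hX0 hden
    have h9 := mul_neg_of_pos_of_neg hMM hcon
    linarith
  have h6 : QX A e c L L / 2 ≤ (1 - 12 * r * κ') * QX A e c L L := by
    have h8 := mul_le_mul_of_nonneg_right hκ'4 hQL
    linarith
  have h7 : X (M * L) (M * L) / (4 * (M : ℝ) ^ (2 * (2 * r))) ≤ QX A e c L L / 2 := by
    rw [hMn2, div_le_div_iff₀ (by positivity) (by norm_num)]
    have h8 : X (M * L) (M * L) * (1 / 2) ≤ X (M * L) (M * L) * (1 - 12 * r * κ) :=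
      mul_le_mul_of_nonneg_left (by linarith) hX0.le
    have h9 : QX A e c L L * (4 * ((M : ℝ) ^ (2 * r) * (M : ℝ) ^ (2 * r))) =
      4 * (((M : ℝ) ^ (2 * r) * (M : ℝ) ^ (2 * r)) * QX A e c L L) := by ring
    rw [h9]
    linarith
  exact h7.trans (h6.trans h2)

end Pool.Agent.AES
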