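import Pool.Agent.AES.Cor
import Pool.Agent.AES.Mea

/-!
# AES-Str: change of one coordinate

Put `G u x y = ∏_i ∏_{j' ≠ j} f(x + α_i u, y + β_{j'} u)`, `c_m = -4D + m D` for
`m < Ms = ⌊R/D⌋₊ + 6` (`≤ 7R/D` since `D ≤ R`).  `str_sum`: for `b ∈ [0,2]`:
`FF f D α (update β j b) = ∑_{m < Ms} Ph f D α G c_m b`, because for `u ∈ [D,2D]`: a point with
`f(x + α₀ u, y + b u) ≠ 0` has `0 ≤ y + b u ≤ R`, `0 ≤ b u ≤ 4D`, so `-4D ≤ y ≤ R`, which lies in
exactly one `[c_m, c_m + D)`, and then `y + b u ∈ [c_m, c_m + 5D]` (indicator `= 1`); the product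
over `(i, j')` splits as `(∏_{j' ≠ j}) (factor j)` (`Finset.prod_comm`, `Finset.mul_prod_erase`,
`Function.update`).  `str`: for `b ∈ [0,1]`, `s ∈ [0,1/T] ⊆ [0,1]` both points are in `[0,2]`;
`(∑_m x_m)² ≤ Ms ∑ x_m²` (`sq_sum_le_card_mul_sum_sq`), `∫_{[0,1]} ≤ ∫_ℝ` and `core`:
`≤ Ms² C (R D³)² T^(-κ) ≤ 49 C (R/D)² (R D³)² T^(-κ) = 49 C (R² D²)² T^(-κ)`.
-/

set_option autoImplicit false

open MeasureTheory

namespace Pool.Agent.AES

/-- iterated integrals of finite sums -/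
private theorem it_sum {ι : Type} (s : Finset ι) (D : ℝ) (F : ι → ℝ → ℝ → ℝ → ℝ) (p q : ι → ℝ → ℝ)
    (hm : ∀ m, Measurable fun z : ℝ × ℝ × ℝ => F m z.1 z.2.1 z.2.2)
    (hp : ∀ m, Integrable (p m)) (hq : ∀ m, Integrable (q m))
    (hb : ∀ m, ∀ u ∈ Set.Icc D (2 * D), ∀ x y, ‖F m u x y‖ ≤ p m x * q m y) :
    ∫ u in Set.Icc D (2 * D), ∫ x, ∫ y, ∑ m ∈ s, F m u x y =
      ∑ m ∈ s, ∫ u in Set.Icc D (2 * D), ∫ x, ∫ y, F m u x y := by
  have h1 : ∀ m, ∀ u ∈ Set.Icc D (2 * D), ∀ x, Integrable (fun y => F m u x y) := by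
    intro m u hu x
    refine Integrable.mono' ((hq m).const_mul (p m x)) ?_
      (Filter.Eventually.of_forall fun y => hb m u hu x y)
    exact ((hm m).comp
      (by fun_prop : Measurable fun y : ℝ => ((u, x, y) : ℝ × ℝ × ℝ))).aestronglyMeasurable
  have h2 : ∀ m, ∀ u ∈ Set.Icc D (2 * D),
      Integrable (fun w : ℝ × ℝ => F m u w.1 w.2) (volume.prod volume) := by
    intro m u hu
    refine Integrable.mono' ((hp m).mul_prod (hq m)) ?_
      (Filter.Eventually.of_forall fun w => hb m u hu w.1 w.2)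
    exact ((hm m).comp
      (by fun_prop : Measurable fun w : ℝ × ℝ => ((u, w.1, w.2) : ℝ × ℝ × ℝ))).aestronglyMeasurable
  have h3 : ∀ m, Integrable (fun z : ℝ × ℝ × ℝ => F m z.1 z.2.1 z.2.2)
      ((volume.restrict (Set.Icc D (2 * D))).prod (volume.prod volume)) := by
    intro m
    have hc : Integrable (fun _ : ℝ => (1 : ℝ)) (volume.restrict (Set.Icc D (2 * D))) :=
      integrable_const 1
    refine Integrable.mono' (hc.mul_prod ((hp m).mul_prod (hq m))) (hm m).aestronglyMeasurable ?_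
    have h4 : ∀ᵐ z ∂((volume.restrict (Set.Icc D (2 * D))).prod (volume.prod volume) :
        Measure (ℝ × ℝ × ℝ)), z.1 ∈ Set.Icc D (2 * D) :=
      Measure.quasiMeasurePreserving_fst.ae (ae_restrict_mem measurableSet_Icc)
    filter_upwards [h4] with z hz
    rw [one_mul]
    exact hb m z.1 hz z.2.1 z.2.2
  have h5 : ∀ m, ∀ u ∈ Set.Icc D (2 * D), ∫ w : ℝ × ℝ, F m u w.1 w.2 ∂(volume.prod volume) =
      ∫ x, ∫ y, F m u x y := fun m u hu => integral_prod _ (h2 m u hu)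
  have h6 : ∀ m, Integrable (fun u => ∫ x, ∫ y, F m u x y)
      (volume.restrict (Set.Icc D (2 * D))) := by
    intro m
    refine (h3 m).integral_prod_left.congr ?_
    filter_upwards [ae_restrict_mem measurableSet_Icc] with u hu
    exact h5 m u hu
  rw [← integral_finsetSum s fun m _ => h6 m]
  refine setIntegral_congr_fun measurableSet_Icc fun u hu => ?_
  show ∫ x, ∫ y, ∑ m ∈ s, F m u x y = ∑ m ∈ s, ∫ x, ∫ y, F m u x y
  rw [← integral_finsetSum s fun m _ => (h2 m u hu).integral_prod_left]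
  refine integral_congr_ae (Filter.Eventually.of_forall fun x => ?_)
  exact integral_finsetSum s fun m _ => h1 m u hu x

/-- the factors without the coordinate `j` -/
private noncomputable def stG (f : ℝ → ℝ → ℝ) {n : ℕ} (α β : Fin n → ℝ) (j : Fin n) :
    ℝ → ℝ → ℝ → ℝ :=
  fun u x y => ∏ i, ∏ j' ∈ Finset.univ.erase j, f (x + α i * u) (y + β j' * u)

/-- the integrand of a strip -/
private noncomputable def stF (f : ℝ → ℝ → ℝ) (D : ℝ) {n : ℕ} (α : Fin n → ℝ)
    (G : ℝ → ℝ → ℝ → ℝ) (c b : ℝ) : ℝ → ℝ → ℝ → ℝ :=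
  fun u x y => Set.indicator (Set.Ico c (c + D)) (fun _ => (1 : ℝ)) y *
    (u * (G u x y * ((∏ i, f (x + α i * u) (y + b * u)) *
      Set.indicator (Set.Icc c (c + 5 * D)) (fun _ => (1 : ℝ)) (y + b * u))))

private theorem stPh (f : ℝ → ℝ → ℝ) (D : ℝ) {n : ℕ} (α : Fin n → ℝ)
    (G : ℝ → ℝ → ℝ → ℝ) (c b : ℝ) :
    Ph f D α G c b = ∫ u in Set.Icc D (2 * D), ∫ x, ∫ y, stF f D α G c b u x y := by
  unfold Ph
  refine setIntegral_congr_fun measurableSet_Icc fun u _ => ?_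
  refine integral_congr_ae (Filter.Eventually.of_forall fun x => ?_)
  show ∫ y in Set.Ico c (c + D), _ = ∫ y, stF f D α G c b u x y
  rw [← integral_indicator measurableSet_Ico]
  refine integral_congr_ae (Filter.Eventually.of_forall fun y => ?_)
  show Set.indicator (Set.Ico c (c + D)) _ y = stF f D α G c b u x y
  unfold stF
  by_cases hy : y ∈ Set.Ico c (c + D)
  · rw [Set.indicator_of_mem hy, Set.indicator_of_mem hy, one_mul]
  · rw [Set.indicator_of_notMem hy, Set.indicator_of_notMem hy, zero_mul]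

private theorem stG_meas {f : ℝ → ℝ → ℝ} {R : ℝ} (hf : Bx f R) {n : ℕ} (α β : Fin n → ℝ)
    (j : Fin n) : Measurable (fun z : ℝ × ℝ × ℝ => stG f α β j z.1 z.2.1 z.2.2) := by
  unfold stG
  refine Finset.measurable_prod _ fun i _ => Finset.measurable_prod _ fun j' _ => ?_
  exact hf.meas.comp
    (by fun_prop : Measurable fun z : ℝ × ℝ × ℝ => (z.2.1 + α i * z.1, z.2.2 + β j' * z.1))

private theorem stG_bd {f : ℝ → ℝ → ℝ} {R : ℝ} (hf : Bx f R) {n : ℕ} (α β : Fin n → ℝ)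
    (j : Fin n) (u x y : ℝ) : 0 ≤ stG f α β j u x y ∧ stG f α β j u x y ≤ 1 := by
  unfold stG
  constructor
  · exact Finset.prod_nonneg fun i _ => Finset.prod_nonneg fun j' _ => hf.nonneg _ _
  · refine Finset.prod_le_one (fun i _ => Finset.prod_nonneg fun j' _ => hf.nonneg _ _)
      fun i _ => ?_
    exact Finset.prod_le_one (fun j' _ => hf.nonneg _ _) fun j' _ => hf.le_one _ _

private theorem ind_bd (s : Set ℝ) (y : ℝ) :
    0 ≤ Set.indicator s (fun _ => (1 : ℝ)) y ∧ Set.indicator s (fun _ => (1 : ℝ)) y ≤ 1 := by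
  by_cases hy : y ∈ s
  · rw [Set.indicator_of_mem hy]
    exact ⟨zero_le_one, le_refl 1⟩
  · rw [Set.indicator_of_notMem hy]
    exact ⟨le_refl 0, zero_le_one⟩

private theorem stF_meas {f : ℝ → ℝ → ℝ} {R : ℝ} (hf : Bx f R) (D : ℝ) {n : ℕ} (α : Fin n → ℝ)
    (G : ℝ → ℝ → ℝ → ℝ) (hG : Measurable (fun z : ℝ × ℝ × ℝ => G z.1 z.2.1 z.2.2)) (c b : ℝ) :
    Measurable (fun z : ℝ × ℝ × ℝ => stF f D α G c b z.1 z.2.1 z.2.2) := by
  unfold stF
  have h1 : Measurable (fun z : ℝ × ℝ × ℝ =>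
      Set.indicator (Set.Ico c (c + D)) (fun _ => (1 : ℝ)) z.2.2) :=
    (measurable_const.indicator measurableSet_Ico).comp (by fun_prop)
  have h2 : Measurable (fun z : ℝ × ℝ × ℝ =>
      Set.indicator (Set.Icc c (c + 5 * D)) (fun _ => (1 : ℝ)) (z.2.2 + b * z.1)) :=
    (measurable_const.indicator measurableSet_Icc).comp (by fun_prop)
  have h3 : Measurable (fun z : ℝ × ℝ × ℝ => ∏ i, f (z.2.1 + α i * z.1) (z.2.2 + b * z.1)) := by
    refine Finset.measurable_prod _ fun i _ => ?_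
    exact hf.meas.comp
      (by fun_prop : Measurable fun z : ℝ × ℝ × ℝ => (z.2.1 + α i * z.1, z.2.2 + b * z.1))
  exact h1.mul (measurable_fst.mul (hG.mul (h3.mul h2)))

private theorem stF_bd {f : ℝ → ℝ → ℝ} {R : ℝ} (hf : Bx f R) {D : ℝ} (hD : 0 < D) {n : ℕ}
    (α : Fin n → ℝ) (j : Fin n) (G : ℝ → ℝ → ℝ → ℝ) (hG : ∀ u x y, 0 ≤ G u x y ∧ G u x y ≤ 1)
    (c b : ℝ) (u : ℝ) (hu : u ∈ Set.Icc D (2 * D)) (x y : ℝ) :
    ‖stF f D α G c b u x y‖ ≤
      Set.indicator (Set.Icc (-(R + |α j| * (2 * D))) (R + |α j| * (2 * D))) (fun _ => 2 * D) x *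
        Set.indicator (Set.Ico c (c + D)) (fun _ => (1 : ℝ)) y := by
  have hu0 : 0 ≤ u := hD.le.trans hu.1
  have hP0 : 0 ≤ ∏ i, f (x + α i * u) (y + b * u) := Finset.prod_nonneg fun i _ => hf.nonneg _ _
  have hP1 : ∏ i, f (x + α i * u) (y + b * u) ≤ 1 :=
    Finset.prod_le_one (fun i _ => hf.nonneg _ _) fun i _ => hf.le_one _ _
  have hI := ind_bd (Set.Icc c (c + 5 * D)) (y + b * u)
  have hJ := ind_bd (Set.Ico c (c + D)) y
  have hg := hG u x y
  have hPI0 : 0 ≤ (∏ i, f (x + α i * u) (y + b * u)) *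
      Set.indicator (Set.Icc c (c + 5 * D)) (fun _ => (1 : ℝ)) (y + b * u) :=
    mul_nonneg hP0 hI.1
  have hGPI0 := mul_nonneg hg.1 hPI0
  have hU0 := mul_nonneg hu0 hGPI0
  have key : u * (G u x y * ((∏ i, f (x + α i * u) (y + b * u)) *
      Set.indicator (Set.Icc c (c + 5 * D)) (fun _ => (1 : ℝ)) (y + b * u))) ≤
      Set.indicator (Set.Icc (-(R + |α j| * (2 * D))) (R + |α j| * (2 * D))) (fun _ => 2 * D) x := by
    by_cases hx : x ∈ Set.Icc (-(R + |α j| * (2 * D))) (R + |α j| * (2 * D))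
    · rw [Set.indicator_of_mem hx]
      have h1 : (∏ i, f (x + α i * u) (y + b * u)) *
          Set.indicator (Set.Icc c (c + 5 * D)) (fun _ => (1 : ℝ)) (y + b * u) ≤ 1 :=
        mul_le_one₀ hP1 hI.1 hI.2
      have h2 := mul_le_one₀ hg.2 hPI0 h1
      calc _ ≤ u * 1 := mul_le_mul_of_nonneg_left h2 hu0
        _ ≤ 2 * D := by rw [mul_one]; exact hu.2
    · rw [Set.indicator_of_notMem hx]
      have h0 : ∏ i, f (x + α i * u) (y + b * u) = 0 := by
        refine Finset.prod_eq_zero (Finset.mem_univ j) ?_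
        apply hf.zero
        have h3 : |α j * u| ≤ |α j| * (2 * D) := by
          rw [abs_mul, abs_of_nonneg hu0]
          exact mul_le_mul_of_nonneg_left hu.2 (abs_nonneg _)
        have h4 := abs_le.1 h3
        by_contra hcon
        push Not at hcon
        apply hx
        constructor
        · have := hcon.1
          have hR : 0 ≤ R := hcon.1.trans hcon.2.1
          linarith [h4.2]
        · linarith [hcon.2.1, h4.1]
      rw [h0, zero_mul, mul_zero, mul_zero]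
  unfold stF
  rw [Real.norm_of_nonneg (mul_nonneg hJ.1 hU0), mul_comm]
  exact mul_le_mul_of_nonneg_right key hJ.1

private theorem ptSum {f : ℝ → ℝ → ℝ} {R D : ℝ} (hf : Bx f R) (hD : 0 < D) {n : ℕ}
    (α β : Fin n → ℝ) (j : Fin n) (b : ℝ) (hb0 : 0 ≤ b) (hb2 : b ≤ 2) (u : ℝ)
    (hu : u ∈ Set.Icc D (2 * D)) (x y : ℝ) :
    u * ∏ i, ∏ j', f (x + α i * u) (y + Function.update β j b j' * u) =
      ∑ m ∈ Finset.range (⌊R / D⌋₊ + 6), stF f D α (stG f α β j) (-4 * D + m * D) b u x y := by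
  have hu0 : 0 ≤ u := hD.le.trans hu.1
  have hsplit : ∏ i, ∏ j', f (x + α i * u) (y + Function.update β j b j' * u) =
      stG f α β j u x y * ∏ i, f (x + α i * u) (y + b * u) := by
    unfold stG
    rw [← Finset.prod_mul_distrib]
    refine Finset.prod_congr rfl fun i _ => ?_
    rw [← Finset.prod_erase_mul _ _ (Finset.mem_univ j), Function.update_self]
    congr 1
    refine Finset.prod_congr rfl fun j' hj' => ?_
    rw [Function.update_of_ne (Finset.ne_of_mem_erase hj')]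
  rw [hsplit]
  by_cases hP : ∏ i, f (x + α i * u) (y + b * u) = 0
  · rw [hP, mul_zero, mul_zero]
    refine (Finset.sum_eq_zero fun m _ => ?_).symm
    unfold stF
    rw [hP, zero_mul, mul_zero, mul_zero, mul_zero]
  · have hne : f (x + α j * u) (y + b * u) ≠ 0 := fun h0 =>
      hP (Finset.prod_eq_zero (Finset.mem_univ j) h0)
    have hy0 : 0 ≤ y + b * u := by
      by_contra hlt
      exact hne (hf.zero _ _ (Or.inr (Or.inr (Or.inl (not_le.1 hlt)))))
    have hyR : y + b * u ≤ R := by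
      by_contra hlt
      exact hne (hf.zero _ _ (Or.inr (Or.inr (Or.inr (not_le.1 hlt)))))
    have hbu0 : 0 ≤ b * u := mul_nonneg hb0 hu0
    have hbu4 : b * u ≤ 4 * D := by
      calc b * u ≤ 2 * (2 * D) := mul_le_mul hb2 hu.2 hu0 (by norm_num)
        _ = 4 * D := by ring
    have hz0 : 0 ≤ (y + 4 * D) / D := div_nonneg (by linarith) hD.le
    have hm := (Nat.floor_eq_iff hz0).1 rfl
    set m₀ : ℕ := ⌊(y + 4 * D) / D⌋₊ with hm₀
    have h1 : (m₀ : ℝ) * D ≤ y + 4 * D := (le_div_iff₀ hD).1 hm.1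
    have h2 : y + 4 * D < ((m₀ : ℝ) + 1) * D := (div_lt_iff₀ hD).1 hm.2
    have hmem : y ∈ Set.Ico (-4 * D + m₀ * D) (-4 * D + m₀ * D + D) :=
      ⟨by linarith, by linarith⟩
    have hmem2 : y + b * u ∈ Set.Icc (-4 * D + m₀ * D) (-4 * D + m₀ * D + 5 * D) :=
      ⟨by linarith, by linarith⟩
    rw [Finset.sum_eq_single m₀]
    · unfold stF
      rw [Set.indicator_of_mem hmem, Set.indicator_of_mem hmem2, one_mul, mul_one]
    · intro m _ hne'
      have hnot : y ∉ Set.Ico (-4 * D + (m : ℝ) * D) (-4 * D + m * D + D) := by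
        intro hin
        apply hne'
        have h3 : (m : ℝ) ≤ (y + 4 * D) / D := (le_div_iff₀ hD).2 (by linarith [hin.1])
        have h4 : (y + 4 * D) / D < (m : ℝ) + 1 := (div_lt_iff₀ hD).2 (by linarith [hin.2])
        exact ((Nat.floor_eq_iff hz0).2 ⟨h3, h4⟩).symm
      unfold stF
      rw [Set.indicator_of_notMem hnot, zero_mul]
    · intro hnr
      exfalso
      apply hnr
      rw [Finset.mem_range]
      have h3 : (y + 4 * D) / D ≤ R / D + 4 := by
        rw [div_le_iff₀ hD, add_mul, div_mul_cancel₀ _ hD.ne']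
        linarith
      have h4 := Nat.lt_floor_add_one (R / D)
      have h5 : (m₀ : ℝ) < ((⌊R / D⌋₊ + 6 : ℕ) : ℝ) := by
        push_cast
        linarith [hm.1]
      exact_mod_cast h5

private theorem str_sum {f : ℝ → ℝ → ℝ} {R D : ℝ} (hf : Bx f R) (hD : 0 < D) {n : ℕ}
    (α β : Fin n → ℝ) (j : Fin n) (b : ℝ) (hb0 : 0 ≤ b) (hb2 : b ≤ 2) :
    FF f D α (Function.update β j b) =
      ∑ m ∈ Finset.range (⌊R / D⌋₊ + 6), Ph f D α (stG f α β j) (-4 * D + m * D) b := by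
  have hc1 : ∀ c : ℝ, Integrable (Set.indicator (Set.Ico c (c + D)) (fun _ => (1 : ℝ))) := by
    intro c
    rw [integrable_indicator_iff measurableSet_Ico]
    exact integrableOn_const (by rw [Real.volume_Ico]; exact ENNReal.ofReal_ne_top)
  have hc2 : Integrable (Set.indicator (Set.Icc (-(R + |α j| * (2 * D))) (R + |α j| * (2 * D)))
      (fun _ => 2 * D)) := by
    rw [integrable_indicator_iff measurableSet_Icc]
    exact integrableOn_const (by rw [Real.volume_Icc]; exact ENNReal.ofReal_ne_top)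
  have h := it_sum (Finset.range (⌊R / D⌋₊ + 6)) D
    (fun m : ℕ => stF f D α (stG f α β j) (-4 * D + m * D) b)
    (fun _ => Set.indicator (Set.Icc (-(R + |α j| * (2 * D))) (R + |α j| * (2 * D)))
      (fun _ => 2 * D))
    (fun m : ℕ => Set.indicator (Set.Ico (-4 * D + (m : ℝ) * D) (-4 * D + (m : ℝ) * D + D))
      (fun _ => (1 : ℝ)))
    (fun m => stF_meas hf D α _ (stG_meas hf α β j) _ b) (fun _ => hc2) (fun m => hc1 _)
    (fun m u hu x y => stF_bd hf hD α j _ (stG_bd hf α β j) _ b u hu x y)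
  have h2 : FF f D α (Function.update β j b) = ∫ u in Set.Icc D (2 * D), ∫ x, ∫ y,
      ∑ m ∈ Finset.range (⌊R / D⌋₊ + 6), stF f D α (stG f α β j) (-4 * D + m * D) b u x y := by
    unfold FF
    refine setIntegral_congr_fun measurableSet_Icc fun u hu => ?_
    refine integral_congr_ae (Filter.Eventually.of_forall fun x => ?_)
    refine integral_congr_ae (Filter.Eventually.of_forall fun y => ?_)
    exact ptSum hf hD α β j b hb0 hb2 u hu x y
  rw [h2, h]
  exact Finset.sum_congr rfl fun m _ => (stPh f D α _ _ b).symm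

theorem str (n : ℕ) (hn : 1 ≤ n) : ∃ C : ℝ, 0 < C ∧ ∀ (R D T : ℝ), 0 < D → D ≤ R → 1 ≤ T →
    ∀ f : ℝ → ℝ → ℝ, Bx f R → ∀ (α β : Fin n → ℝ) (j : Fin n) (s : ℝ), 0 ≤ s → s ≤ 1 / T →
      ∫ b in Set.Icc (0 : ℝ) 1, (FF f D α (Function.update β j (b + s)) -
        FF f D α (Function.update β j b)) ^ 2 ≤
          C * (R ^ 2 * D ^ 2) ^ 2 * T ^ (-((1 / 2 : ℝ) ^ n)) := by
  obtain ⟨C, hC, hcore⟩ := core n hn
  refine ⟨49 * C, by positivity, ?_⟩
  intro R D T hD hDR hT f hf α β j s hs0 hs1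
  have hR : 0 < R := hD.trans_le hDR
  have hT0 : 0 < T := zero_lt_one.trans_le hT
  have hsT : s ≤ 1 := hs1.trans (by rw [div_le_one hT0]; exact hT)
  have habs : |s| ≤ 1 / T := by rw [abs_of_nonneg hs0]; exact hs1
  set M : ℕ := ⌊R / D⌋₊ + 6 with hM
  set G := stG f α β j with hGdef
  have hcr : ∀ c : ℝ, Integrable (fun b => (Ph f D α G c (b + s) - Ph f D α G c b) ^ 2) ∧
      ∫ b, (Ph f D α G c (b + s) - Ph f D α G c b) ^ 2 ≤
        C * (R * D ^ 3) ^ 2 * T ^ (-((1 / 2 : ℝ) ^ n)) := fun c =>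
    hcore R D T hR hD hT f hf α G (stG_meas hf α β j) (stG_bd hf α β j) c s habs
  have hint : Integrable (fun b => (M : ℝ) * ∑ m ∈ Finset.range M,
      (Ph f D α G (-4 * D + m * D) (b + s) - Ph f D α G (-4 * D + m * D) b) ^ 2) := by
    refine Integrable.const_mul ?_ _
    exact integrable_finsetSum _ fun m _ => (hcr _).1
  have hnn : ∀ b, 0 ≤ (M : ℝ) * ∑ m ∈ Finset.range M,
      (Ph f D α G (-4 * D + m * D) (b + s) - Ph f D α G (-4 * D + m * D) b) ^ 2 := fun b =>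
    mul_nonneg (Nat.cast_nonneg _) (Finset.sum_nonneg fun m _ => sq_nonneg _)
  have step1 : ∫ b in Set.Icc (0 : ℝ) 1, (FF f D α (Function.update β j (b + s)) -
        FF f D α (Function.update β j b)) ^ 2 ≤
      ∫ b in Set.Icc (0 : ℝ) 1, (M : ℝ) * ∑ m ∈ Finset.range M,
        (Ph f D α G (-4 * D + m * D) (b + s) - Ph f D α G (-4 * D + m * D) b) ^ 2 := by
    refine integral_mono_of_nonneg (Filter.Eventually.of_forall fun b => sq_nonneg _)
      hint.integrableOn ?_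
    filter_upwards [ae_restrict_mem measurableSet_Icc] with b hb
    rw [str_sum hf hD α β j (b + s) (by linarith [hb.1]) (by linarith [hb.2]),
      str_sum hf hD α β j b hb.1 (by linarith [hb.2]), ← Finset.sum_sub_distrib]
    refine (sq_sum_le_card_mul_sum_sq).trans ?_
    rw [Finset.card_range]
  have step2 : ∫ b in Set.Icc (0 : ℝ) 1, (M : ℝ) * ∑ m ∈ Finset.range M,
        (Ph f D α G (-4 * D + m * D) (b + s) - Ph f D α G (-4 * D + m * D) b) ^ 2 ≤
      ∫ b, (M : ℝ) * ∑ m ∈ Finset.range M,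
        (Ph f D α G (-4 * D + m * D) (b + s) - Ph f D α G (-4 * D + m * D) b) ^ 2 :=
    setIntegral_le_integral hint (Filter.Eventually.of_forall hnn)
  have step3 : ∫ b, (M : ℝ) * ∑ m ∈ Finset.range M,
        (Ph f D α G (-4 * D + m * D) (b + s) - Ph f D α G (-4 * D + m * D) b) ^ 2 ≤
      (M : ℝ) * (M * (C * (R * D ^ 3) ^ 2 * T ^ (-((1 / 2 : ℝ) ^ n)))) := by
    rw [integral_const_mul, integral_finsetSum _ fun m _ => (hcr _).1]
    refine mul_le_mul_of_nonneg_left ?_ (Nat.cast_nonneg _)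
    calc _ ≤ ∑ _m ∈ Finset.range M, C * (R * D ^ 3) ^ 2 * T ^ (-((1 / 2 : ℝ) ^ n)) :=
          Finset.sum_le_sum fun m _ => (hcr _).2
      _ = _ := by rw [Finset.sum_const, Finset.card_range, nsmul_eq_mul]
  have hMle : (M : ℝ) ≤ 7 * (R / D) := by
    have h1 : (⌊R / D⌋₊ : ℝ) ≤ R / D := Nat.floor_le (by positivity)
    have h2 : 1 ≤ R / D := (one_le_div hD).2 hDR
    rw [hM]
    push_cast
    linarith
  have hTp : 0 < T ^ (-((1 / 2 : ℝ) ^ n)) := Real.rpow_pos_of_pos hT0 _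
  refine step1.trans (step2.trans (step3.trans ?_))
  have hM0 : (0 : ℝ) ≤ M := Nat.cast_nonneg _
  have hMM : (M : ℝ) * M ≤ (7 * (R / D)) * (7 * (R / D)) :=
    mul_le_mul hMle hMle hM0 (by positivity)
  have hK : 0 ≤ C * (R * D ^ 3) ^ 2 * T ^ (-((1 / 2 : ℝ) ^ n)) := by positivity
  calc (M : ℝ) * (M * (C * (R * D ^ 3) ^ 2 * T ^ (-((1 / 2 : ℝ) ^ n))))
      = ((M : ℝ) * M) * (C * (R * D ^ 3) ^ 2 * T ^ (-((1 / 2 : ℝ) ^ n))) := by ring
    _ ≤ ((7 * (R / D)) * (7 * (R / D))) * (C * (R * D ^ 3) ^ 2 * T ^ (-((1 / 2 : ℝ) ^ n))) :=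
        mul_le_mul_of_nonneg_right hMM hK
    _ = 49 * C * (R ^ 2 * D ^ 2) ^ 2 * T ^ (-((1 / 2 : ℝ) ^ n)) := by
        field_simp
        ring

end Pool.Agent.AES
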